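import Pool.Agent.NTA.TailDefs

/-!
# TPC (two-point function, number of walks with constants): the literal statements (captain helper73, doc nu34/NEXT_73)

* `Dsj k t` : the word t does not meet its translates by the multiples of 2 k (1, 1) (= lifts of words of the cylinder
  with 2 k rows; row false (1, 1) = 1, row true (1, 1) = -1);
* `Pat s ρ` : pattern alpha ++ beta: alpha a narrow bridge of height ≥ ρ + 2, beta a bridge of height ≤ ρ - 2 with a
  lateral displacement of at least 2 ρ (to the right for s = false, to the left for s = true): beta meets the translate of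
  alpha by (ρ, ρ) (s = false) resp. (- ρ, 2 ρ) (s = true);
* `NoPat s ρ` : words without the pattern behind a bridge (closed under infixes behind a bridge);
* `UR` : the constant upper bound at a fixed end point, one scale;
* `SD` : the same for the words of `Dsj`, with the factor 2 ^ (- c 2 ^ i);
* `XUp`, `XLow` : the exact order of `Xb`.
-/

set_option autoImplicit false

namespace HexObs

namespace TPC

open Finset TS SDN NTW NTA

open scoped ENNReal

/-- t does not meet its translates by the multiples of 2 k (1, 1) -/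
def Dsj (k : ℕ) (t : List Bool) : Prop := ∀ i j : ℕ, i ≤ t.length → j ≤ t.length → ∀ m : ℤ, m ≠ 0 →
  vx oo up t i ≠ vx oo up t j + (2 * (k : ℤ) * m, 2 * (k : ℤ) * m)

/-- the narrow bridges of height at least ρ + 2 -/
def PaA (ρ : ℕ) : Set (List Bool) := {A | ∃ t, ρ + 2 ≤ t ∧ A ∈ Brd t ∧ ∀ i, i ≤ A.length → |8 * lat A i| ≤ (ρ : ℤ)}

/-- the bridges of height at most ρ - 2 with a lateral displacement of at least 2 ρ (s = true: to the left) -/
def PaB (s : Bool) (ρ : ℕ) : Set (List Bool) := {B | ∃ t, t + 2 ≤ ρ ∧ B ∈ Brd t ∧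
  2 * (ρ : ℤ) ≤ if s then -latE B else latE B}

/-- the pattern -/
def Pat (s : Bool) (ρ : ℕ) : Set (List Bool) := {G | ∃ A B, A ∈ PaA ρ ∧ B ∈ PaB s ρ ∧ G = A ++ B}

/-- words without the pattern behind a bridge -/
def NoPat (s : Bool) (ρ : ℕ) : Set (List Bool) := {g | ∀ X G Y : List Bool, X ∈ BU → G ∈ Pat s ρ → g ≠ X ++ (G ++ Y)}

/-- the class is closed under infixes behind a bridge -/
theorem mid_NoPat {s : Bool} {ρ : ℕ} {a Z b : List Bool} (ha : a ∈ BU) (h : a ++ (Z ++ b) ∈ NoPat s ρ) : Z ∈ NoPat s ρ := by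
  intro X G Y hX hG hZ
  obtain ⟨n, hn⟩ := ha
  obtain ⟨n', hn'⟩ := hX
  refine h (a ++ X) G (Y ++ b) ⟨n + n', Brd_append hn hn'⟩ hG ?_
  rw [hZ]
  simp only [List.append_assoc]

/-- walks of the exact scale K with the end y -/
def EndK (K : ℕ) (y : Pt) : Set (List Bool) := {t | t ∈ WL K ∧ t ∉ WL (K - 1) ∧ vx oo up t t.length = y}

/-- (UR) the constant upper bound at a fixed end point -/
def UR : Prop := ∃ (C : ℝ) (K0 : ℕ), 0 < C ∧ ∀ (K : ℕ) (y : Pt), K0 ≤ K →
  gf (EndK K y) ≤ ENNReal.ofReal (C * (Ub K / 4 ^ K)) * Xb K ^ 2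

/-- (SD) the walks which do not meet their translates -/
def SD : Prop := ∃ (C c : ℝ) (k0 : ℕ), 1 ≤ C ∧ 0 < c ∧ ∀ (k i : ℕ) (y : Pt), k0 ≤ k →
  gf {t | t ∈ EndK (Nat.log 2 k + i) y ∧ Dsj k t} ≤
    ENNReal.ofReal (C ^ (i + 1) * (2 : ℝ) ^ (-(c * 2 ^ i)) * (Ub (Nat.log 2 k + i) / 4 ^ (Nat.log 2 k + i))) *
      Xb (Nat.log 2 k + i) ^ 2

/-- the exact order of Xb from above -/
def XUp : Prop := ∃ C : ℝ, 0 < C ∧ ∀ k : ℕ, Xb k ^ 2 ≤ ENNReal.ofReal (C * (2 : ℝ) ^ (25 / 24 * (k : ℝ)))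

/-- the exact order of Xb from below -/
def XLow : Prop := ∃ c : ℝ, 0 < c ∧ ∀ k : ℕ, ENNReal.ofReal (c * (2 : ℝ) ^ (25 / 24 * (k : ℝ))) ≤ Xb k ^ 2

end TPC

end HexObs
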