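import Pool.Agent.TPC.TallL
import Pool.Agent.TPC.Defs

/-!
TPC: the walks of the exact scale K with a given end which do not meet their translates: (SD) from the norms of the runs of
leaves with a given displacement, from the rarity of the leaves which do not meet their translate, and from the geometry.
-/

set_option autoImplicit false

namespace HexObs

namespace TPC

open Finset TS SDN NTW NTA SIM JNT

open scoped ENNReal

/-- (R) the norms of the runs with a given displacement of one leaf -/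
def RunRL : Prop := ∃ (s J0 V0 k0 : ℕ) (e0 C : ℝ), 0 < e0 ∧ 1 ≤ C ∧
  (∀ (kc : ℕ) (S : Set (List Bool)), k0 ≤ kc → SmD DmJ kc {g | g ∈ BrR (2 ^ (kc + 4)) (2 ^ (kc + J0)) ∧ g ∈ S} e0 →
    ∀ V : ℕ, V0 ≤ V → SmRL labE DmJ kc (RunB kc s S V) (C / (4 ^ kc * 2 ^ V))) ∧
  ∀ kc V : ℕ, k0 ≤ kc → 1 ≤ V → SmRL labE DmJ kc (RunT kc s V) (C / (4 ^ kc * 4 ^ V))

/-- (S1) the geometry: a walk which does not meet its translates has a run of leaves of the class, or a tall leaf -/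
def GeoSD (Dc : Bool → ℕ → Set (List Bool)) : Prop := ∀ s : ℕ, ∃ M : ℕ, 1 ≤ M ∧ ∀ (k kc K V : ℕ) (t : List Bool),
  1 ≤ k → 2 * k ≤ 2 ^ kc → 1 ≤ V → kc + 6 ≤ K → M * (V + 1) ≤ 2 ^ (K - kc) → t ∈ WL K → t ∉ WL (K - 1) → Dsj k t →
  (∃ dir : Bool, t ∈ ERL dir kc K (RunB kc s (Dc dir (2 * k)) V)) ∨
    ∃ (dir : Bool) (m u : ℕ) (e : ℕ → ℕ), Lf dir (kc + 5) t m u e ∧ ∃ j, j < m ∧
      3 * ((V : ℤ) * 2 ^ (kc + s)) ≤ |lp dir t (e (j + 1)) - lp dir t (e j)|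

/-- (N) the leaves of the class are rare -/
def NormSD (Dc : Bool → ℕ → Set (List Bool)) : Prop := ∀ (dir : Bool) (e : ℝ) (J : ℕ), 0 < e → ∃ C k0 : ℕ,
  ∀ kc ρ : ℕ, k0 ≤ kc → k0 ≤ ρ → C * ρ ≤ 2 ^ kc →
    SmD DmJ kc {g | g ∈ BrR (2 ^ (kc + 4)) (2 ^ (kc + J)) ∧ g ∈ Dc dir ρ} e

lemma erl_mono {dir : Bool} {kc K : ℕ} {R R' : Set (List (List Bool))} (h : R ⊆ R') : ERL dir kc K R ⊆ ERL dir kc K R' := by
  rintro t ⟨h1, m, u, e, h2, l, d, h3, h4, h5, h6⟩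
  exact ⟨h1, m, u, e, h2, l, d, h3, h4, h5, h h6⟩

/-- **(SD)** -/
theorem sd_of {Dc : Bool → ℕ → Set (List Bool)} (hU : UR) (hE : EventRL labE DmJ) (hR : RunRL) (hG : GeoSD Dc)
    (hN : NormSD Dc) : SD := by
  classical
  obtain ⟨CU, K0, hCU, hUR⟩ := hU
  obtain ⟨s1, J0, V0, k1, e0, C1, he0, hC1, hRB, hRT⟩ := hR
  obtain ⟨s2, k2, CT, hCT, htall⟩ := tall_L labR_E hE (w := fun k => 4 ^ k) (fun k => by positivity) hC1 hRT
  obtain ⟨CR, k3, hCR, hrun⟩ := runLn_of labR_E hE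
  obtain ⟨M, hM, hgeo⟩ := hG (s1 + s2)
  obtain ⟨Cf, kf, hf⟩ := hN false e0 J0 he0
  obtain ⟨Ct, kt, ht⟩ := hN true e0 J0 he0
  obtain ⟨c0, hc0⟩ : ∃ c0 : ℕ, 4 * (Cf + Ct + 1) < 2 ^ c0 := ⟨4 * (Cf + Ct + 1), Nat.lt_two_pow_self⟩
  obtain ⟨n0, hn0⟩ : ∃ n0 : ℕ, M * (V0 + 3) < 2 ^ n0 := ⟨M * (V0 + 3), Nat.lt_two_pow_self⟩
  obtain ⟨i0, hi0⟩ : ∃ i0, i0 = c0 + 6 + n0 := ⟨_, rfl⟩
  have hMr : (1 : ℝ) ≤ M := by exact_mod_cast hM
  obtain ⟨c, hc⟩ : ∃ c : ℝ, c = 1 / (M * 2 ^ c0) := ⟨_, rfl⟩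
  have hcp : 0 < c := by
    rw [hc]
    positivity
  obtain ⟨C2, hC2⟩ : ∃ C2 : ℝ, C2 = 4 * (2 * CR * C1 + CT) := ⟨_, rfl⟩
  have hC20 : 4 ≤ C2 := by
    rw [hC2]
    nlinarith
  obtain ⟨C, hC⟩ : ∃ C : ℝ, C = C2 + CU * (2 : ℝ) ^ (c * 2 ^ i0) := ⟨_, rfl⟩
  have hp0 : 0 < CU * (2 : ℝ) ^ (c * 2 ^ i0) := by positivity
  have hC4 : 4 ≤ C := by linarith
  refine ⟨C, c, 2 ^ (K0 + k1 + k2 + k3 + kf + kt + 1), by linarith, hcp, fun k i y hk => ?_⟩
  obtain ⟨L, hL⟩ : ∃ L, L = Nat.log 2 k := ⟨_, rfl⟩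
  have hk0 : k ≠ 0 := by
    have : 0 < 2 ^ (K0 + k1 + k2 + k3 + kf + kt + 1) := by positivity
    omega
  have hLk : K0 + k1 + k2 + k3 + kf + kt + 1 ≤ L := by
    rw [hL]
    exact (Nat.le_log_iff_pow_le (by norm_num) hk0).2 hk
  have hkL : k < 2 ^ (L + 1) := by
    rw [hL]
    exact Nat.lt_pow_succ_log_self (by norm_num) k
  have hLk2 : 2 ^ L ≤ k := by
    rw [hL]
    exact Nat.pow_log_le_self 2 hk0
  have hLL : L < 2 ^ L := Nat.lt_two_pow_self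
  rw [← hL]
  have hUK := Ub_pos (L + i)
  rcases Nat.lt_or_ge i i0 with hi | hi
  · -- small i
    refine ((gf_mono fun t ht => ht.1).trans (hUR (L + i) y (by omega))).trans ?_
    refine mul_le_mul_left (ENNReal.ofReal_le_ofReal ?_) _
    refine mul_le_mul_of_nonneg_right ?_ (by positivity)
    have e1 : C ≤ C ^ (i + 1) := by
      calc C = C ^ 1 := (pow_one C).symm
        _ ≤ _ := pow_le_pow_right₀ (by linarith) (by omega)
    have e2 : (2 : ℝ) ^ (c * 2 ^ i) ≤ (2 : ℝ) ^ (c * 2 ^ i0) := by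
      apply Real.rpow_le_rpow_of_exponent_le (by norm_num)
      exact mul_le_mul_of_nonneg_left (pow_le_pow_right₀ (by norm_num) hi.le) hcp.le
    have e3 : CU * (2 : ℝ) ^ (c * 2 ^ i) ≤ C ^ (i + 1) := by
      calc CU * (2 : ℝ) ^ (c * 2 ^ i) ≤ CU * (2 : ℝ) ^ (c * 2 ^ i0) := mul_le_mul_of_nonneg_left e2 hCU.le
        _ ≤ C := by rw [hC]; linarith
        _ ≤ _ := e1
    rw [Real.rpow_neg (by norm_num), ← div_eq_mul_inv, le_div_iff₀ (by positivity)]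
    exact e3
  · -- large i
    obtain ⟨J, hJ⟩ : ∃ J, J = i - c0 := ⟨_, rfl⟩
    obtain ⟨kc, hkc⟩ : ∃ kc, kc = L + c0 := ⟨_, rfl⟩
    have hKJ : L + i = kc + J := by omega
    obtain ⟨V, hV⟩ : ∃ V, V = 2 ^ J / M - 1 := ⟨_, rfl⟩
    have hJ6 : 6 ≤ J := by omega
    have hJn : 2 ^ n0 ≤ 2 ^ J := Nat.pow_le_pow_right (by norm_num) (by omega)
    have hdiv : V0 + 3 ≤ 2 ^ J / M := (Nat.le_div_iff_mul_le (by omega)).2 (by
      rw [mul_comm]
      exact hn0.le.trans hJn)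
    have hV1 : M * (V + 1) ≤ 2 ^ J := by
      rw [hV, show 2 ^ J / M - 1 + 1 = 2 ^ J / M by omega]
      exact Nat.mul_div_le _ M
    have hVr : (2 : ℝ) ^ J / M ≤ V + 2 := by
      have h1 : 2 ^ J < M * (2 ^ J / M + 1) := Nat.lt_mul_div_succ _ (by omega)
      rw [show 2 ^ J / M + 1 = V + 2 by omega] at h1
      have h3 : (2 : ℝ) ^ J < M * (V + 2) := by exact_mod_cast h1
      rw [div_le_iff₀ (by linarith)]
      linarith
    have h2k : 2 * k ≤ 2 ^ kc := by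
      have e1 : 2 ^ (L + 2) ≤ 2 ^ kc := Nat.pow_le_pow_right (by norm_num) (by
        have : 2 ^ 2 < 2 ^ c0 := by omega
        have := (Nat.pow_lt_pow_iff_right (show 1 < 2 by norm_num)).1 this
        omega)
      have e2 : 2 ^ (L + 2) = 2 * 2 ^ (L + 1) := by ring
      omega
    have hρ : ∀ C' : ℕ, C' ≤ Cf + Ct → C' * (2 * k) ≤ 2 ^ kc := by
      intro C' hC'
      have e1 : 2 ^ kc = 2 ^ L * 2 ^ c0 := by rw [hkc, pow_add]
      have e2 : 2 ^ (L + 1) = 2 * 2 ^ L := by ring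
      rw [e1]
      calc C' * (2 * k) ≤ (Cf + Ct) * (2 * (2 * 2 ^ L)) := Nat.mul_le_mul hC' (by omega)
        _ = 2 ^ L * (4 * (Cf + Ct)) := by ring
        _ ≤ 2 ^ L * 2 ^ c0 := Nat.mul_le_mul_left _ (by omega)
    have hnm : ∀ dir : Bool, SmD DmJ kc {g | g ∈ BrR (2 ^ (kc + 4)) (2 ^ (kc + J0)) ∧ g ∈ Dc dir (2 * k)} e0 := by
      intro dir
      cases dir
      · exact hf kc (2 * k) (by omega) (by omega) (hρ Cf (by omega))
      · exact ht kc (2 * k) (by omega) (by omega) (hρ Ct (by omega))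
    have hU := Ub_pos (kc + J)
    have hcov : {t | t ∈ EndK (L + i) y ∧ Dsj k t} ⊆
        ({t | labE t = y ∧ t ∈ ERL false kc (kc + J) (RunB kc s1 (Dc false (2 * k)) V)} ∪
        {t | labE t = y ∧ t ∈ ERL true kc (kc + J) (RunB kc s1 (Dc true (2 * k)) V)}) ∪
        {t | labE t = y ∧ t ∈ WL (kc + J) ∧ ∃ (dir : Bool) (m u : ℕ) (e : ℕ → ℕ), Lf dir (kc + 5) t m u e ∧ ∃ j, j < m ∧
          3 * ((V : ℤ) * 2 ^ (kc + s2)) ≤ |lp dir t (e (j + 1)) - lp dir t (e j)|} := by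
      rintro t ⟨⟨h1, h2, h3⟩, h4⟩
      rw [hKJ] at h1 h2
      rcases hgeo k kc (kc + J) V t (by omega) h2k (by omega) (by omega) (by
        rw [Nat.add_sub_cancel_left]
        exact hV1) h1 h2 h4 with ⟨dir, h5⟩ | h5
      · left
        cases dir
        · exact Or.inl ⟨h3, erl_mono (RunB_mono (by omega)) h5⟩
        · exact Or.inr ⟨h3, erl_mono (RunB_mono (by omega)) h5⟩
      · right
        obtain ⟨dir, m, u, e, h5, j, h6, h7⟩ := h5
        refine ⟨h3, h1, dir, m, u, e, h5, j, h6, le_trans ?_ h7⟩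
        have e1 : (2 : ℤ) ^ (kc + s2) ≤ 2 ^ (kc + (s1 + s2)) := pow_le_pow_right₀ (by norm_num) (by omega)
        have e2 : (0 : ℤ) ≤ V := by positivity
        nlinarith
    have hr : ∀ dir : Bool, gf {t | labE t = y ∧ t ∈ ERL dir kc (kc + J) (RunB kc s1 (Dc dir (2 * k)) V)} ≤
        ENNReal.ofReal (CR ^ J * (C1 / (4 ^ kc * 2 ^ V)) * Ub (kc + J)) * Xb (kc + J) ^ 2 := fun dir =>
      hrun dir kc J y _ _ (by omega) hJ6 (by positivity) (hRB kc _ (by omega) (hnm dir) V (by omega))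
    have hT := htall kc J V y (by omega) hJ6 (by omega)
    refine (gf_mono hcov).trans ((gf_union_le _ _).trans ((add_le_add ((gf_union_le _ _).trans (add_le_add (hr false)
      (hr true))) hT).trans ?_))
    rw [← add_mul, ← add_mul, ← ENNReal.ofReal_add (by positivity) (by positivity),
      ← ENNReal.ofReal_add (by positivity) (by positivity), hKJ]
    refine mul_le_mul_left (ENNReal.ofReal_le_ofReal ?_) _
    have hX : (2 : ℝ) ^ (-(c * 2 ^ i)) = (2 : ℝ) ^ (-((2 : ℝ) ^ J / M)) := by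
      congr 2
      rw [hc, show i = c0 + J by omega, pow_add]
      field_simp
    have h2V : 1 / (2 : ℝ) ^ V ≤ 4 * (2 : ℝ) ^ (-(c * 2 ^ i)) := by
      rw [hX]
      have e1 : (4 : ℝ) * (2 : ℝ) ^ (-((2 : ℝ) ^ J / M)) = (2 : ℝ) ^ (2 - (2 : ℝ) ^ J / M) := by
        rw [sub_eq_add_neg, Real.rpow_add two_pos]
        norm_num
      rw [e1, one_div, ← Real.rpow_natCast, ← Real.rpow_neg (by norm_num)]
      exact Real.rpow_le_rpow_of_exponent_le (by norm_num) (by linarith)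
    have hCR0 : 0 < CR := by linarith
    have hC10 : 0 < C1 := by linarith
    have hCT0 : 0 < CT := by linarith
    have e3 : 2 * CR ^ J * C1 + CT ^ J ≤ (2 * CR * C1 + CT) ^ J := by
      have a1 : 2 * CR ^ J * C1 ≤ (2 * CR * C1) ^ J := by
        rw [mul_pow, mul_pow]
        have b1 : (2 : ℝ) ≤ 2 ^ J := by
          calc (2 : ℝ) = 2 ^ 1 := by norm_num
            _ ≤ _ := pow_le_pow_right₀ (by norm_num) (by omega)
        have b2 : C1 ≤ C1 ^ J := by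
          calc C1 = C1 ^ 1 := (pow_one C1).symm
            _ ≤ _ := pow_le_pow_right₀ hC1 (by omega)
        gcongr
      have a2 : (2 * CR * C1) ^ J + CT ^ J ≤ (2 * CR * C1 + CT) ^ J :=
        pow_add_pow_le (by positivity) hCT0.le (by omega)
      linarith
    have hp2 : (0 : ℝ) < (2 : ℝ) ^ (-(c * 2 ^ i)) := by positivity
    have hmain : (2 * CR ^ J * C1 + CT ^ J) * (4 ^ J * (1 / 2 ^ V)) ≤ C ^ (i + 1) * (2 : ℝ) ^ (-(c * 2 ^ i)) := by
      calc (2 * CR ^ J * C1 + CT ^ J) * (4 ^ J * (1 / 2 ^ V))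
          ≤ (2 * CR * C1 + CT) ^ J * (4 ^ J * (4 * (2 : ℝ) ^ (-(c * 2 ^ i)))) := by gcongr
        _ = 4 * C2 ^ J * (2 : ℝ) ^ (-(c * 2 ^ i)) := by
            rw [hC2, mul_pow]
            ring
        _ ≤ C * C ^ J * (2 : ℝ) ^ (-(c * 2 ^ i)) := by
            have : C2 ≤ C := by linarith
            gcongr
        _ = C ^ (J + 1) * (2 : ℝ) ^ (-(c * 2 ^ i)) := by ring
        _ ≤ C ^ (i + 1) * (2 : ℝ) ^ (-(c * 2 ^ i)) := by
            refine mul_le_mul_of_nonneg_right (pow_le_pow_right₀ (by linarith) (by omega)) hp2.le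
    have e4 : (4 : ℝ) ^ (kc + J) = 4 ^ kc * 4 ^ J := pow_add 4 kc J
    calc CR ^ J * (C1 / (4 ^ kc * 2 ^ V)) * Ub (kc + J) + CR ^ J * (C1 / (4 ^ kc * 2 ^ V)) * Ub (kc + J) +
          CT ^ J / (4 ^ kc * 2 ^ V) * Ub (kc + J)
        = (2 * CR ^ J * C1 + CT ^ J) * (4 ^ J * (1 / 2 ^ V)) * (Ub (kc + J) / 4 ^ (kc + J)) := by
          rw [e4]
          field_simp
          ring
      _ ≤ C ^ (i + 1) * (2 : ℝ) ^ (-(c * 2 ^ i)) * (Ub (kc + J) / 4 ^ (kc + J)) :=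
          mul_le_mul_of_nonneg_right hmain (by positivity)

end TPC

end HexObs
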