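import Pool.Agent.TPC.RunM
import Pool.Agent.TPC.SDOf

/-!
TPC: the literal RunRL of the assembly of SD, no hypothesis.
-/

set_option autoImplicit false

namespace HexObs

namespace TPC

theorem runRL : RunRL := by
  obtain ⟨s, J0, V0, e0, C, he, hC, h1, h2⟩ := run_E
  exact ⟨s, J0, V0, 0, e0, C, he, hC, fun kc S _ hS V hV => h1 kc S hS V hV, fun kc V _ hV => h2 kc V hV⟩

end TPC

end HexObs
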