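import Pool.Agent.TPC.SDGeo
import Pool.Agent.TPC.RunZ
import Pool.Agent.JNT.EventM

/-!
TPC: (SD) from (UR).
-/

set_option autoImplicit false

namespace HexObs

namespace TPC

/-- **(SD) from (UR)** -/
theorem sd_of_UR (hU : UR) : SD :=
  sd_of hU JNT.eventRL_E runRL geoSD fun dir e J he => dj_norm dir e J he

end TPC

end HexObs
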