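import Pool.Agent.TPC.XLowOf
import Pool.Agent.TPC.SDZ
import Pool.Agent.TPF.URZ

/-!
# TPC: `Xb` from below, no hypothesis
-/

set_option autoImplicit false

namespace HexObs

namespace TPC

/-- **The exact order of `Xb` from below.** -/
theorem xLow : XLow := xLow_of (sd_of_UR TPF.ur)

end TPC

end HexObs
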