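import Pool.Agent.TPC.LBu
import Pool.Agent.TPC.Defs

/-!
# TPC: the exact order of the half plane walks, upper half (helper64)

From an upper bound `W0r k ≤ C k ^ (- 5 / 24)` for large `k`:
* `hh_up_of` : `HH m ≤ C m ^ (61 / 48)` for every `m ≥ 1`;
* **`xUp_of`** : `TPC.XUp`.
-/

set_option autoImplicit false

namespace HexObs

namespace TPC

open Finset TS SDN NTW NTA BAR Filter

open scoped ENNReal

/-- the upper bound for the two-point function of the cylinder -/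
def WUp : Prop := ∃ (C : ℝ) (K0 : ℕ), 0 < C ∧ ∀ k : ℕ, K0 ≤ k → PBM.W0r k ≤ C * (k : ℝ) ^ (-(5 / 24) : ℝ)

/-- the form of `PBC.w0_sharp` -/
theorem wUp_of (h : ∃ A C : ℝ, 0 < A ∧ 0 ≤ C ∧ ∀ᶠ k : ℕ in atTop,
    |PBM.W0r k * (k : ℝ) ^ (5 / 24 : ℝ) - A| ≤ C * (k : ℝ) ^ (-(3 / 8) : ℝ)) : WUp := by
  obtain ⟨A, C, hA, hC, h1⟩ := h
  obtain ⟨K, hK⟩ := eventually_atTop.1 h1
  refine ⟨A + C, max K 1, by linarith, fun k hk => ?_⟩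
  have hk1 : (1 : ℝ) ≤ k := by exact_mod_cast (le_max_right _ _).trans hk
  have hk0 : (0 : ℝ) < k := by linarith
  have h2 := (abs_le.1 (hK k ((le_max_left _ _).trans hk))).2
  have h3 : (k : ℝ) ^ (-(3 / 8) : ℝ) ≤ 1 := Real.rpow_le_one_of_one_le_of_nonpos hk1 (by norm_num)
  have h4 : PBM.W0r k * (k : ℝ) ^ (5 / 24 : ℝ) ≤ A + C := by nlinarith
  rw [Real.rpow_neg hk0.le, ← div_eq_mul_inv, le_div_iff₀ (by positivity)]
  exact h4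

/-- **half plane walks, constant upper bound** -/
theorem hh_up_of (h : WUp) : ∃ C : ℝ, 0 < C ∧ ∀ m : ℕ, 1 ≤ m → HH m ≤ ENNReal.ofReal (C * (m : ℝ) ^ (61 / 48 : ℝ)) := by
  obtain ⟨A, C, hA, hC, h1⟩ := lbu
  obtain ⟨C2, K0, hC2, h2⟩ := h
  obtain ⟨B, hB⟩ : ∃ B : ℕ, B = A + K0 := ⟨_, rfl⟩
  have hBp : (0 : ℝ) < B := by
    have : 1 ≤ B := by omega
    exact_mod_cast this
  obtain ⟨E, hE⟩ : ∃ E : ℝ, E = C * (B : ℝ) ^ (25 / 24 : ℝ) * C2 := ⟨_, rfl⟩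
  have hE0 : 0 < E := by rw [hE]; positivity
  refine ⟨√E, by positivity, fun m hm => ?_⟩
  have hmp : (0 : ℝ) < m := by exact_mod_cast hm
  have h3 := h1 m (B * m) hm (Nat.mul_le_mul_right _ (by omega))
  have h4 := h2 (B * m) (by
    calc K0 ≤ B * 1 := by omega
      _ ≤ B * m := Nat.mul_le_mul_left _ hm)
  have h5 : HH m ^ 2 ≤ ENNReal.ofReal (√E * (m : ℝ) ^ (61 / 48 : ℝ)) ^ 2 := by
    refine h3.trans ?_
    rw [← ENNReal.ofReal_pow (by positivity)]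
    apply ENNReal.ofReal_le_ofReal
    push_cast at h4 ⊢
    have e1 : ((B : ℝ) * m) ^ (5 / 4 : ℝ) * ((B : ℝ) * m) ^ (-(5 / 24) : ℝ) =
        (B : ℝ) ^ (25 / 24 : ℝ) * (m : ℝ) ^ (25 / 24 : ℝ) := by
      rw [← Real.rpow_add (by positivity), ← Real.mul_rpow hBp.le hmp.le]
      norm_num
    have e2 : (m : ℝ) ^ (3 / 2 : ℝ) * (m : ℝ) ^ (25 / 24 : ℝ) = ((m : ℝ) ^ (61 / 48 : ℝ)) ^ 2 := by
      rw [← Real.rpow_add hmp, ← Real.rpow_natCast ((m : ℝ) ^ (61 / 48 : ℝ)), ← Real.rpow_mul hmp.le]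
      norm_num
    calc C * ((m : ℝ) ^ (3 / 2 : ℝ) * ((B : ℝ) * m) ^ (5 / 4 : ℝ)) * PBM.W0r (B * m)
        ≤ C * ((m : ℝ) ^ (3 / 2 : ℝ) * ((B : ℝ) * m) ^ (5 / 4 : ℝ)) * (C2 * ((B : ℝ) * m) ^ (-(5 / 24) : ℝ)) :=
          mul_le_mul_of_nonneg_left h4 (by positivity)
      _ = C * C2 * (m : ℝ) ^ (3 / 2 : ℝ) * (((B : ℝ) * m) ^ (5 / 4 : ℝ) * ((B : ℝ) * m) ^ (-(5 / 24) : ℝ)) := by ring
      _ = E * ((m : ℝ) ^ (3 / 2 : ℝ) * (m : ℝ) ^ (25 / 24 : ℝ)) := by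
          rw [e1, hE]
          ring
      _ = (√E * (m : ℝ) ^ (61 / 48 : ℝ)) ^ 2 := by
          rw [e2, mul_pow, Real.sq_sqrt hE0.le]
  exact (ENNReal.pow_le_pow_left_iff (by norm_num)).1 h5

/-- **the exact order of Xb from above** -/
theorem xUp_of (h : WUp) : XUp := by
  obtain ⟨C, hC, h1⟩ := hh_up_of h
  obtain ⟨c, hc, h2⟩ := GLow.UU_low
  refine ⟨(C / c) ^ 2, by positivity, fun k => ?_⟩
  have h3 : Xb k ≤ ENNReal.ofReal (C / c * (2 : ℝ) ^ (25 / 48 * (k : ℝ))) := by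
    refine iSup_le fun i => ?_
    have hi := i.2
    have hU := Num2Aux.UU_pos (2 ^ i.1)
    have h4 := h1 (2 ^ i.1) Nat.one_le_two_pow
    have h5 := h2 (2 ^ i.1) Nat.one_le_two_pow
    have hp : (0 : ℝ) < ((2 ^ i.1 : ℕ) : ℝ) := by positivity
    rw [ENNReal.div_le_iff (by simpa using hU) ENNReal.ofReal_ne_top, ← ENNReal.ofReal_mul (by positivity)]
    refine h4.trans (ENNReal.ofReal_le_ofReal ?_)
    have e1 : ((2 ^ i.1 : ℕ) : ℝ) ^ (61 / 48 : ℝ) =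
        (2 : ℝ) ^ (25 / 48 * (i.1 : ℝ)) * ((2 ^ i.1 : ℕ) : ℝ) ^ (3 / 4 : ℝ) := by
      have e2 : ((2 ^ i.1 : ℕ) : ℝ) = (2 : ℝ) ^ (i.1 : ℝ) := by
        rw [Real.rpow_natCast]
        push_cast
        rfl
      rw [e2, ← Real.rpow_mul (by norm_num), ← Real.rpow_mul (by norm_num), ← Real.rpow_add (by norm_num)]
      congr 1
      ring
    have e3 : (2 : ℝ) ^ (25 / 48 * (i.1 : ℝ)) ≤ (2 : ℝ) ^ (25 / 48 * (k : ℝ)) := by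
      apply Real.rpow_le_rpow_of_exponent_le (by norm_num)
      have : (i.1 : ℝ) ≤ k := by exact_mod_cast (by omega : i.1 ≤ k)
      linarith
    rw [e1]
    calc C * ((2 : ℝ) ^ (25 / 48 * (i.1 : ℝ)) * ((2 ^ i.1 : ℕ) : ℝ) ^ (3 / 4 : ℝ))
        ≤ C * ((2 : ℝ) ^ (25 / 48 * (k : ℝ)) * ((2 ^ i.1 : ℕ) : ℝ) ^ (3 / 4 : ℝ)) := by gcongr
      _ = C / c * (2 : ℝ) ^ (25 / 48 * (k : ℝ)) * (c * ((2 ^ i.1 : ℕ) : ℝ) ^ (3 / 4 : ℝ)) := by field_simp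
      _ ≤ C / c * (2 : ℝ) ^ (25 / 48 * (k : ℝ)) * UU (2 ^ i.1) := by gcongr
  refine (pow_le_pow_left' h3 2).trans (le_of_eq ?_)
  rw [← ENNReal.ofReal_pow (by positivity)]
  congr 1
  have e4 : (2 : ℝ) ^ (25 / 24 * (k : ℝ)) = ((2 : ℝ) ^ (25 / 48 * (k : ℝ))) ^ 2 := by
    rw [← Real.rpow_natCast, ← Real.rpow_mul (by norm_num)]
    congr 1
    push_cast
    ring
  rw [e4]
  ring

end TPC

end HexObs
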