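import Pool.Agent.TPC.XUp0
import Pool.Agent.TPC.XUpOf
import Pool.Agent.PB.CloseS
import Pool.Agent.TPC.Defs

/-!
TPC: **the upper half of (XC)**: `Xb k ^ 2 ≤ C * 2 ^ (25 k / 24)`, no hypothesis (helper51; `hh_up`: helper64).
-/

set_option autoImplicit false

namespace HexObs

namespace TPC

open Filter Topology NTA BAR

open scoped ENNReal

/-- the two-point function of the cylinder from above -/
theorem w0_up : ∃ (A : ℝ) (K0 : ℕ), 0 < A ∧ ∀ k : ℕ, K0 ≤ k → PBM.W0r k ≤ A * (k : ℝ) ^ (-(5 / 24) : ℝ) := by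
  obtain ⟨A, hA, h⟩ := PBC.w0_tendsto
  obtain ⟨K0, hK0⟩ := eventually_atTop.1 (h.eventually (ge_mem_nhds (show A < 2 * A by linarith)))
  refine ⟨2 * A, max 1 K0, by positivity, fun k hk => ?_⟩
  have h1 := hK0 k ((le_max_right _ _).trans hk)
  have hk0 : (0 : ℝ) < k := by exact_mod_cast (show 0 < k from (le_max_left _ _).trans hk)
  have e : (k : ℝ) ^ (-(5 / 24) : ℝ) = ((k : ℝ) ^ (5 / 24 : ℝ))⁻¹ := Real.rpow_neg hk0.le _
  rw [e, ← div_eq_mul_inv, le_div_iff₀ (by positivity)]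
  exact h1

/-- the two-point function of the cylinder from below -/
theorem w0_down : ∃ (A : ℝ) (K0 : ℕ), 0 < A ∧ ∀ k : ℕ, K0 ≤ k → A * (k : ℝ) ^ (-(5 / 24) : ℝ) ≤ PBM.W0r k := by
  obtain ⟨A, hA, h⟩ := PBC.w0_tendsto
  obtain ⟨K0, hK0⟩ := eventually_atTop.1 (h.eventually (le_mem_nhds (show A / 2 < A by linarith)))
  refine ⟨A / 2, max 1 K0, by positivity, fun k hk => ?_⟩
  have h1 := hK0 k ((le_max_right _ _).trans hk)
  have hk0 : (0 : ℝ) < k := by exact_mod_cast (show 0 < k from (le_max_left _ _).trans hk)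
  have e : (k : ℝ) ^ (-(5 / 24) : ℝ) = ((k : ℝ) ^ (5 / 24 : ℝ))⁻¹ := Real.rpow_neg hk0.le _
  rw [e, ← div_eq_mul_inv, div_le_iff₀ (by positivity)]
  exact h1

/-- **the upper half of (XC)** -/
theorem xUp : XUp := Xb_up_of w0_up

/-- **the half plane words of at most `m` rows, with a constant** -/
theorem hh_up : ∃ C : ℝ, 0 < C ∧ ∀ m : ℕ, 1 ≤ m → HH m ≤ ENNReal.ofReal (C * (m : ℝ) ^ (61 / 48 : ℝ)) :=
  hh_up_of w0_up

end TPC

end HexObs
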