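import Pool.Agent.TPC.StSum
import Pool.Agent.TPF.Glue

/-!
TPC: half plane words without a cut, in a box of the same scale (helper51).

* **`low_gen`**: the glueing of 29 (TPF/Glue) with a general target;
* **`na_boxC`**: `HH m ≤ 16 * UU m * gf {t ∈ NAb b m | t ∈ WL L}` if `2 ^ J * m ≤ 2 ^ L`, `J` a constant.
-/

set_option autoImplicit false

namespace HexObs

namespace TPC

open Finset TS SDN NTW NTA BAR TPF

open scoped ENNReal

/-! ### 1. The glueing -/

/-- **the glueing, general target** -/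
theorem low_gen {m : ℕ} {A B Z : Set (List Bool)} {T : Pt → Set (List Bool)} (hA : ∀ s ∈ A, s ∈ NAb true m)
    (hB : ∀ v ∈ B, v ∈ NA m) (hZ : ∀ z ∈ Z, ∃ h, z ∈ Brd h)
    (hT : ∀ (s : List Bool) (x : Bool), s ++ [x] ∈ A → Even s.length → ∀ z ∈ Z, ∀ v ∈ B,
      rev s ++ (z ++ v) ∈ T (jr s)) :
    gf A * gf B * gf Z ≤ ENNReal.ofReal (2 * xc) * ∑ g ∈ Rot3, gf (T g) := by
  classical
  have hform : ∀ a : A, ∃ (s : List Bool) (x : Bool), a.1 = s ++ [x] ∧ Even s.length := by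
    intro a
    have h1 := (hA a.1 a.2).2
    have hne : a.1 ≠ [] := by
      intro h
      rw [h] at h1
      simp at h1
    obtain ⟨x, hx⟩ := last_split hne
    refine ⟨_, x, hx, ?_⟩
    have hl : a.1.length = a.1.dropLast.length + 1 := by
      conv_lhs => rw [hx, List.length_append, List.length_singleton]
    rw [hl, Nat.bodd_succ] at h1
    rw [Nat.even_iff, Nat.mod_two_of_bodd]
    have h2 : a.1.dropLast.length.bodd = false := by simpa using h1
    rw [h2]
    rfl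
  choose f g hfg hev using hform
  let I := A × B × Z
  let F : I → Bool × Pt × List Bool := fun i => (g i.1, jr (f i.1), rev (f i.1) ++ (i.2.2.1 ++ i.2.1.1))
  let G : Bool × Pt × List Bool → ℝ≥0∞ := fun y =>
    if y.2.1 ∈ Rot3 ∧ y.2.2 ∈ T y.2.1 then ENNReal.ofReal xc * wE y.2.2 else 0
  have hs : ∀ a : A, f a ++ [g a] ∈ HpN ((f a).length + 1) := by
    intro a
    have h1 := SSt_HpN (hA a.1 a.2).1.1
    rw [hfg a, List.length_append, List.length_singleton] at h1
    exact h1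
  have hw : ∀ i : I, ∃ d, i.2.2.1 ++ i.2.1.1 ∈ SSt d := by
    rintro ⟨a, v, z⟩
    obtain ⟨h, hz⟩ := hZ z.1 z.2
    exact ⟨_, SSt_cat hz (hB v.1 v.2).1⟩
  have hFinj : Function.Injective F := by
    intro i j hij
    have e1 : g i.1 = g j.1 := congrArg (fun y => y.1) hij
    have e2 : jr (f i.1) = jr (f j.1) := congrArg (fun y => y.2.1) hij
    have e3 : rev (f i.1) ++ (i.2.2.1 ++ i.2.1.1) = rev (f j.1) ++ (j.2.2.1 ++ j.2.1.1) := congrArg (fun y => y.2.2) hij
    have e4 : jd (f i.1) = jd (f j.1) := by rw [← jr_up, ← jr_up, e2]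
    have key : ∀ i j : I, rev (f i.1) ++ (i.2.2.1 ++ i.2.1.1) = rev (f j.1) ++ (j.2.2.1 ++ j.2.1.1) →
        jd (f i.1) = jd (f j.1) → ¬ (f i.1).length < (f j.1).length := by
      intro i j e3 e4 hlt
      obtain ⟨d, hd⟩ := hw i
      obtain ⟨d', hd'⟩ := hw j
      have h1 := glue_cut (hs i.1) (SSt_HpN hd) (hs j.1) (SSt_HpN hd') e3 e4 hlt
      rw [← hfg j.1, NA_cuts (hA j.1.1 j.1.2).1] at h1
      exact Finset.not_nonempty_empty h1
    have h1 := key i j e3 e4
    have h2 := key j i e3.symm e4.symm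
    have e5 := List.append_inj e3 (by rw [rev_length, rev_length]; omega)
    have e6 : f i.1 = f j.1 := by
      have := congrArg rev e5.1
      rwa [rev_rev, rev_rev] at this
    have e7 : i.1 = j.1 := Subtype.ext (by rw [hfg i.1, hfg j.1, e6, e1])
    obtain ⟨h, hz⟩ := hZ _ i.2.2.2
    obtain ⟨h', hz'⟩ := hZ _ j.2.2.2
    have e8 := na_uniq hz hz' (hB _ i.2.1.2) (hB _ j.2.1.2) e5.2
    exact Prod.ext e7 (Prod.ext (Subtype.ext e8.2) (Subtype.ext e8.1))
  have hGF : ∀ i : I, wE i.1.1 * (wE i.2.1.1 * wE i.2.2.1) = G (F i) := by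
    rintro ⟨a, v, z⟩
    have hmem : rev (f a) ++ (z.1 ++ v.1) ∈ T (jr (f a)) :=
      hT (f a) (g a) (by rw [← hfg a]; exact a.2) (hev a) z.1 z.2 v.1 v.2
    show wE a.1 * (wE v.1 * wE z.1) = if jr (f a) ∈ Rot3 ∧ (rev (f a) ++ (z.1 ++ v.1)) ∈ T (jr (f a)) then
      ENNReal.ofReal xc * wE (rev (f a) ++ (z.1 ++ v.1)) else 0
    rw [if_pos ⟨jr_rot3 (hev a), hmem⟩, ← wE_join _ _ (g a), ← hfg a, wE_append]
    ring
  have h1 : gf A * gf B * gf Z = ∑' i : I, wE i.1.1 * (wE i.2.1.1 * wE i.2.2.1) := by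
    rw [ENNReal.tsum_prod']
    unfold gf
    rw [mul_assoc, ← ENNReal.tsum_mul_right]
    refine tsum_congr fun a => ?_
    rw [ENNReal.tsum_prod', ENNReal.tsum_mul_right.symm, ← ENNReal.tsum_mul_left]
    refine tsum_congr fun v => ?_
    show wE a.1 * (wE v.1 * ∑' z : Z, wE z.1) = ∑' z : Z, wE a.1 * (wE v.1 * wE z.1)
    rw [ENNReal.tsum_mul_left, ENNReal.tsum_mul_left]
  have h2 : ∑' y, G y = ENNReal.ofReal (2 * xc) * ∑ g ∈ Rot3, gf (T g) := by
    have h3 : ∀ (x : Bool) (r : Pt), ∑' t : List Bool, G (x, r, t) =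
        if r ∈ Rot3 then ENNReal.ofReal xc * gf (T r) else 0 := by
      intro x r
      by_cases hr : r ∈ Rot3
      · rw [if_pos hr]
        have h4 : ∀ t : List Bool, G (x, r, t) = ENNReal.ofReal xc * (if t ∈ T r then wE t else 0) := by
          intro t
          show (if r ∈ Rot3 ∧ t ∈ T r then ENNReal.ofReal xc * wE t else 0) = _
          by_cases ht : t ∈ T r
          · rw [if_pos ⟨hr, ht⟩, if_pos ht]
          · rw [if_neg (fun h => ht h.2), if_neg ht, mul_zero]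
        rw [tsum_congr h4, ENNReal.tsum_mul_left, gf_ind]
      · rw [if_neg hr]
        have h4 : ∀ t : List Bool, G (x, r, t) = 0 := fun t => if_neg (fun h => hr h.1)
        rw [tsum_congr h4, tsum_zero]
    rw [ENNReal.tsum_prod', tsum_bool]
    have h5 : ∀ x : Bool, ∑' y : Pt × List Bool, G (x, y) = ENNReal.ofReal xc * ∑ g ∈ Rot3, gf (T g) := by
      intro x
      rw [ENNReal.tsum_prod', tsum_congr (h3 x), tsum_eq_sum (s := Rot3) (fun r hr => if_neg hr), Finset.mul_sum]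
      exact Finset.sum_congr rfl fun r hr => if_pos hr
    rw [h5, ← two_mul, ← mul_assoc]
    congr 1
    rw [ENNReal.ofReal_mul (by norm_num)]
    simp
  calc gf A * gf B * gf Z = ∑' i : I, wE i.1.1 * (wE i.2.1.1 * wE i.2.2.1) := h1
    _ = ∑' i : I, G (F i) := tsum_congr hGF
    _ ≤ ∑' y, G y := ENNReal.tsum_comp_le_tsum_of_injective hFinj G
    _ = _ := h2

/-! ### 2. Levels and extent of the glued word -/

lemma rot3_D3 : ∀ R ∈ Rot3, mulE R up ∈ D3 := by decide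

/-- levels of the glued word -/
lemma glue_lev {m h : ℕ} (hh : h ≤ m) {s z v : List Bool} {x : Bool} (hs : s ++ [x] ∈ SSt m) (hz : z ∈ Brd h)
    (hv : v ∈ SSt m) {i : ℕ} (hi : i ≤ (rev s ++ (z ++ v)).length) :
    |ip (vx oo up (rev s ++ (z ++ v)) i) (mulE (jr s) up)| ≤ 9 * m := by
  rw [jr_up]
  have h1 : ∀ j, j ≤ s.length + 1 → 0 ≤ lev s j ∧ lev s j ≤ 3 * m := by
    intro j hj
    have e : lev s j = lev (s ++ [x]) j := by
      unfold lev
      rw [vx_append hj]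
    rw [e]
    rcases Nat.eq_zero_or_pos j with h0 | h0
    · rw [h0, lev_zero]
      omega
    · have := (mem_SSt.1 hs).1 j h0 (by rw [List.length_append, List.length_singleton]; exact hj)
      omega
  have h2 : ∀ j, j ≤ (z ++ v).length → 0 ≤ lev (z ++ v) j ∧ lev (z ++ v) j ≤ 6 * m := by
    intro j hj
    rcases Nat.eq_zero_or_pos j with h0 | h0
    · rw [h0, lev_zero]
      omega
    · have := (mem_SSt.1 (SSt_cat hz hv)).1 j h0 hj
      push_cast at this
      omega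
  have h3 := h1 (s.length + 1) le_rfl
  rcases Nat.lt_or_ge s.length i with h4 | h4
  · obtain ⟨j, rfl⟩ : ∃ j, i = s.length + j := ⟨i - s.length, by omega⟩
    rw [List.length_append, rev_length] at hi
    rw [jlev_snd, jlev_fst s _ (by omega), show s.length + 1 - s.length = 1 by omega, abs_le]
    have h5 := h2 j (by omega)
    have h6 := h1 1 (by omega)
    constructor <;> linarith [h5.1, h5.2, h6.1, h6.2, h3.1, h3.2]
  · rw [jlev_fst s _ (by omega), abs_le]
    have h5 := h1 (s.length + 1 - i) (by omega)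
    constructor <;> linarith [h5.1, h5.2, h3.1, h3.2]

/-- the last part of the glued word, rotated -/
lemma glue_vx (s v : List Bool) {h : ℕ} {z : List Bool} (hz : z ∈ Brd h) (i : ℕ) :
    vx oo up (rev s ++ (z ++ v)) (s.length + (z.length + i)) =
      vx oo up (rev s ++ (z ++ v)) (s.length + z.length) + mulE (jr s) (vx oo up v i) := by
  obtain ⟨R, hR, h1, h2⟩ := jvx_snd s (z ++ v)
  have e : R = jr s := jr_uniq h1
  subst e
  have h3 := h2 (z.length + i)
  have h4 := h2 z.length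
  rw [vx_cat (mem_Brd.1 hz).2.2.1] at h3
  have h5 : vx oo up (z ++ v) z.length = vx oo up z z.length := by rw [vx_append (by omega)]
  rw [h5] at h4
  rw [h3, h4, mulE_add, add_assoc]

/-- a rotated piece of a word of a box -/
lemma wl_piece {K : ℕ} {t : List Bool} (ht : t ∈ WL K) {a b : ℕ} (ha : a ≤ t.length) (hb : b ≤ t.length) {R p : Pt}
    (hR : R ∈ Rot3) (h : vx oo up t b = vx oo up t a + mulE R p) (dir : Bool) : |row dir p| ≤ 2 ^ (K + 3) := by
  have h1 := ht.2 a ha false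
  have h2 := ht.2 a ha true
  have h3 := ht.2 b hb false
  have h4 := ht.2 b hb true
  rw [h] at h3 h4
  have hK : (2 : ℤ) ^ (K + 3) = 8 * 2 ^ K := by rw [pow_add]; ring
  have hK1 : (1 : ℤ) ≤ 2 ^ K := one_le_pow₀ (by norm_num)
  rw [hK]
  generalize vx oo up t a = q at *
  generalize (2 : ℤ) ^ K = y at *
  obtain ⟨q1, q2⟩ := q
  obtain ⟨p1, p2⟩ := p
  have e0 : R = (1, 0) ∨ R = (-1, 1) ∨ R = (0, -1) := by simpa [Rot3] using hR
  rw [abs_le] at h1 h2 h3 h4 ⊢
  simp only [row, lvl, SDN.hd, up, ip, mulE, if_true, Bool.false_eq_true, if_false] at h1 h2 h3 h4 ⊢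
  rcases e0 with rfl | rfl | rfl <;> cases dir <;>
    simp only [if_true, Bool.false_eq_true, if_false, Prod.mk_add_mk] at h1 h2 h3 h4 ⊢ <;>
    constructor <;> omega

/-! ### 3. The weight of the words of a large extent -/

lemma gf_BrU (m : ℕ) : gf (⋃ h ∈ (range (m + 1) : Finset ℕ), Brd h) = ENNReal.ofReal (UU m) := by
  rw [← sum_BT]
  unfold gf
  have h1 := ENNReal.tsum_biUnion' (f := wE) (S := ((range (m + 1) : Finset ℕ) : Set ℕ)) (t := fun h => Brd h) (by
    intro i _ j _ hij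
    refine Set.disjoint_left.2 fun t h1 h2 => hij (Brd_height h1 h2))
  refine h1.trans ?_
  rw [Finset.tsum_subtype' (range (m + 1)) (fun h => ∑' x : Brd h, wE x.1)]
  refine Finset.sum_congr rfl fun h _ => ?_
  rw [← gf_Brd]
  rfl

/-- the monotonicity of the words without a cut -/
lemma NAb_mono {b : Bool} {i m : ℕ} (h : i ≤ m) : NAb b i ⊆ NAb b m := by
  rintro t ⟨⟨h1, h2⟩, h3⟩
  exact ⟨⟨SSt_mono h h1, h2⟩, h3⟩

/-- the normalised weight from the words without a cut, both parities -/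
lemma Xb_le_NAb (b : Bool) {r m : ℕ} (h : 2 ^ r ≤ m) : Xb r ≤ 8 * gf (NAb b m) := by
  refine iSup_le fun i => ?_
  have hi := i.2
  have hU : (0 : ℝ) < UU (2 ^ i.1) := Num2Aux.UU_pos _
  rw [ENNReal.div_le_iff (by simpa using hU) ENNReal.ofReal_ne_top]
  have h1 : (2 : ℕ) ^ i.1 ≤ m := (Nat.pow_le_pow_right (by norm_num) (by omega)).trans h
  refine (HH_le_SSb Nat.one_le_two_pow b).trans ?_
  rw [mul_assoc]
  refine mul_le_mul' le_rfl ?_
  rw [mul_comm]
  exact (SSb_le b _).trans (mul_le_mul' le_rfl (gf_mono (NAb_mono h1)))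

/-- **the weight of the words without a cut and of a large extent** -/
theorem na_far {ε : ℝ} (hε : 0 < ε) : ∃ J k0 : ℕ, ∀ (r m : ℕ) (b : Bool), k0 ≤ r → 2 ^ r ≤ m → m < 2 ^ (r + 1) →
    gf {t | t ∈ NAb b m ∧ t ∉ WL (r + J)} ≤ ENNReal.ofReal ε * Xb r := by
  obtain ⟨D, hD, hx⟩ := Xb_pow
  have hxc := xc_pos
  have hxc1 := B2b_xc_le_one
  obtain ⟨e, he⟩ : ∃ e : ℝ, e = ε / (8 * (6 * (8 * D ^ 6))) := ⟨_, rfl⟩
  have he0 : 0 < e := by rw [he]; positivity
  obtain ⟨J, k0, h⟩ := nar_small he0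
  refine ⟨J + 6, k0, fun r m b hr hm1 hm2 => ?_⟩
  obtain ⟨Bd, hBd⟩ : ∃ Bd, Bd = {t | t ∈ NAb b m ∧ t ∉ WL (r + (J + 6))} := ⟨_, rfl⟩
  rw [← hBd]
  have h1 := low_gen (m := m) (A := NAb true m) (B := Bd) (Z := ⋃ h ∈ (range (m + 1) : Finset ℕ), Brd h)
    (T := fun g => Nar (mulE g up) (r + 3) J) (fun s hs => hs) (fun v hv => by rw [hBd] at hv; exact hv.1.1)
    (fun z hz => by
      rw [Set.mem_iUnion₂] at hz
      obtain ⟨h, -, hz⟩ := hz
      exact ⟨h, hz⟩)
    (by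
      rintro s x hs hev z hz v hv
      rw [hBd] at hv
      rw [Set.mem_iUnion₂] at hz
      obtain ⟨h, hhm, hz⟩ := hz
      rw [mem_range] at hhm
      obtain ⟨hv1, hv2⟩ := hv
      have g1 : rev s ++ (z ++ v) ∈ SA := by
        have h1 := SSt_HpN hs.1.1
        rw [List.length_append, List.length_singleton] at h1
        exact (glue_mem h1 (SSt_HpN (SSt_cat hz hv1.1.1))).2
      refine ⟨g1, fun hW => ?_, fun i hi => ?_⟩
      · refine hv2 ⟨TPF.SSt_SA hv1.1.1, fun i hi dir => ?_⟩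
        have g2 := wl_piece hW (a := s.length + z.length) (b := s.length + (z.length + i))
          (by simp only [List.length_append, rev_length]; omega)
          (by simp only [List.length_append, rev_length]; omega) (jr_rot3 hev) (glue_vx s v hz i) dir
        rwa [show r + 3 + J + 3 = r + (J + 6) by ring] at g2
      · refine (glue_lev (by omega) hs.1.1 hz hv1.1.1 hi).trans ?_
        have g3 : (m : ℤ) ≤ 2 * 2 ^ r := by
          have : m ≤ 2 * 2 ^ r := by rw [pow_succ] at hm2; omega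
          exact_mod_cast this
        rw [pow_add]
        have g4 : (0 : ℤ) < 2 ^ r := by positivity
        omega)
  rw [gf_BrU] at h1
  -- upper bound of the right side
  have h2 : ENNReal.ofReal (2 * xc) * ∑ g ∈ Rot3, gf (Nar (mulE g up) (r + 3) J) ≤
      ENNReal.ofReal (6 * (e * (8 * D ^ 6)) * Ub r) * Xb r ^ 2 := by
    have h3 : ∀ g ∈ Rot3, gf (Nar (mulE g up) (r + 3) J) ≤ ENNReal.ofReal (e * (8 * D ^ 6) * Ub r) * Xb r ^ 2 := by
      intro g hg
      refine (h _ (r + 3) (rot3_D3 g hg) (by omega)).trans ?_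
      have hU := Ub_pow r 3
      have hU0 := Ub_pos r
      calc ENNReal.ofReal (e * Ub (r + 3)) * Xb (r + 3) ^ 2
          ≤ ENNReal.ofReal (e * (2 ^ 3 * Ub r)) * (ENNReal.ofReal (D ^ 3) * Xb r) ^ 2 := by
            refine mul_le_mul' (ENNReal.ofReal_le_ofReal (by nlinarith)) (pow_le_pow_left' (hx _ _) 2)
        _ = _ := by
            rw [mul_pow, ← ENNReal.ofReal_pow (by positivity), ← mul_assoc, ← ENNReal.ofReal_mul (by positivity)]
            congr 2
            ring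
    calc ENNReal.ofReal (2 * xc) * ∑ g ∈ Rot3, gf (Nar (mulE g up) (r + 3) J)
        ≤ ENNReal.ofReal 2 * (Rot3.card • (ENNReal.ofReal (e * (8 * D ^ 6) * Ub r) * Xb r ^ 2)) :=
          mul_le_mul' (ENNReal.ofReal_le_ofReal (by linarith)) (Finset.sum_le_card_nsmul _ _ _ h3)
      _ = _ := by
          have hc : Rot3.card = 3 := by decide
          rw [hc, nsmul_eq_mul, ← mul_assoc, ← mul_assoc]
          congr 1
          rw [show ((3 : ℕ) : ℝ≥0∞) = ENNReal.ofReal 3 by simp, ← ENNReal.ofReal_mul (by norm_num),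
            ← ENNReal.ofReal_mul (by norm_num)]
          congr 1
          ring
  -- cancellation
  have h3 := Xb_le_NAb true hm1
  have h4 : Ub r ≤ UU m := Num2Aux.UU_mono hm1
  have hU0 := Ub_pos r
  have h5 : ENNReal.ofReal (Ub r) * Xb r * gf Bd ≤ ENNReal.ofReal (Ub r) * Xb r * (ENNReal.ofReal ε * Xb r) := by
    calc ENNReal.ofReal (Ub r) * Xb r * gf Bd
        ≤ ENNReal.ofReal (UU m) * (8 * gf (NAb true m)) * gf Bd := by
          refine mul_le_mul' (mul_le_mul' (ENNReal.ofReal_le_ofReal h4) h3) le_rfl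
      _ = 8 * (gf (NAb true m) * gf Bd * ENNReal.ofReal (UU m)) := by ring
      _ ≤ 8 * (ENNReal.ofReal (6 * (e * (8 * D ^ 6)) * Ub r) * Xb r ^ 2) := mul_le_mul' le_rfl (h1.trans h2)
      _ = ENNReal.ofReal (Ub r) * Xb r * (ENNReal.ofReal ε * Xb r) := by
          have e1 : ENNReal.ofReal ε = 8 * ENNReal.ofReal (6 * (e * (8 * D ^ 6))) := by
            rw [show (8 : ℝ≥0∞) = ENNReal.ofReal 8 by simp, ← ENNReal.ofReal_mul (by norm_num), he]
            congr 1
            field_simp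
          rw [e1, ENNReal.ofReal_mul (by positivity)]
          ring
  have h6 : ENNReal.ofReal (Ub r) * Xb r ≠ 0 := mul_ne_zero (by simpa using hU0) (Xb_ne_zero r)
  have h7 : ENNReal.ofReal (Ub r) * Xb r ≠ ⊤ := ENNReal.mul_ne_top ENNReal.ofReal_ne_top (Xb_ne_top r)
  exact (ENNReal.mul_le_mul_iff_right h6 h7).1 h5

/-- **half of the words without a cut is in a box of the same scale** -/
theorem na_half : ∃ J k0 : ℕ, ∀ (r m L : ℕ) (b : Bool), k0 ≤ r → 2 ^ r ≤ m → m < 2 ^ (r + 1) → r + J ≤ L →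
    gf (NAb b m) ≤ 2 * gf {t | t ∈ NAb b m ∧ t ∈ WL L} := by
  obtain ⟨J, k0, h⟩ := na_far (show (0 : ℝ) < 1 / 16 by norm_num)
  refine ⟨J, k0, fun r m L b hr h1 h2 hL => ?_⟩
  obtain ⟨A, hA⟩ : ∃ A, A = gf (NAb b m) := ⟨_, rfl⟩
  obtain ⟨B, hB⟩ : ∃ B, B = gf {t | t ∈ NAb b m ∧ t ∈ WL L} := ⟨_, rfl⟩
  rw [← hA, ← hB]
  have h3 : gf {t | t ∈ NAb b m ∧ t ∉ WL (r + J)} ≤ ENNReal.ofReal (1 / 2) * A := by
    refine (h r m b hr h1 h2).trans ((mul_le_mul' le_rfl (Xb_le_NAb b h1)).trans (le_of_eq ?_))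
    rw [← hA, ← mul_assoc, show (8 : ℝ≥0∞) = ENNReal.ofReal 8 by simp, ← ENNReal.ofReal_mul (by norm_num)]
    norm_num
  have h4 : A ≤ B + ENNReal.ofReal (1 / 2) * A := by
    conv_lhs => rw [hA]
    refine (gf_mono (fun t ht => ?_)).trans ((gf_union_le {t | t ∈ NAb b m ∧ t ∈ WL L}
      {t | t ∈ NAb b m ∧ t ∉ WL (r + J)}).trans (add_le_add hB.ge h3))
    by_cases ht2 : t ∈ WL (r + J)
    · exact Or.inl ⟨ht, WL_mn hL ht2⟩
    · exact Or.inr ⟨ht, ht2⟩
  by_cases hAt : A = ⊤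
  · have hBt : B = ⊤ := by
      by_contra hne
      have h5 : gf {t | t ∈ NAb b m ∧ t ∉ WL (r + J)} ≠ ⊤ := ne_top_of_le_ne_top
        (ENNReal.mul_ne_top ENNReal.ofReal_ne_top (Xb_ne_top r)) (h r m b hr h1 h2)
      have h6 : A ≤ B + gf {t | t ∈ NAb b m ∧ t ∉ WL (r + J)} := by
        conv_lhs => rw [hA]
        refine (gf_mono (fun t ht => ?_)).trans ((gf_union_le {t | t ∈ NAb b m ∧ t ∈ WL L}
          {t | t ∈ NAb b m ∧ t ∉ WL (r + J)}).trans (add_le_add hB.ge le_rfl))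
        by_cases ht2 : t ∈ WL (r + J)
        · exact Or.inl ⟨ht, WL_mn hL ht2⟩
        · exact Or.inr ⟨ht, ht2⟩
      rw [hAt] at h6
      exact (ENNReal.add_ne_top.2 ⟨hne, h5⟩) (top_le_iff.1 h6)
    rw [hBt]
    simp
  · have e1 : A = ENNReal.ofReal (1 / 2) * A + ENNReal.ofReal (1 / 2) * A := by
      rw [← add_mul, ← ENNReal.ofReal_add (by norm_num) (by norm_num), add_halves, ENNReal.ofReal_one, one_mul]
    have h5 : ENNReal.ofReal (1 / 2) * A ≤ B := by
      refine (ENNReal.add_le_add_iff_right (a := ENNReal.ofReal (1 / 2) * A)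
        (ENNReal.mul_ne_top ENNReal.ofReal_ne_top hAt)).1 ?_
      rw [← e1]
      exact h4
    calc A = ENNReal.ofReal (1 / 2) * A + ENNReal.ofReal (1 / 2) * A := e1
      _ ≤ B + B := add_le_add h5 h5
      _ = 2 * B := (two_mul B).symm

/-- **half plane words without a cut, in a box of the same scale** -/
theorem na_boxC : ∃ J : ℕ, ∀ (L m : ℕ) (b : Bool), 1 ≤ m → 2 ^ J * m ≤ 2 ^ L →
    HH m ≤ ENNReal.ofReal (16 * UU m) * gf {t | t ∈ NAb b m ∧ t ∈ WL L} := by
  obtain ⟨J, k0, h⟩ := na_half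
  obtain ⟨K, hK⟩ := na_box
  obtain ⟨J1, hJ1⟩ : ∃ J1 : ℕ, ∀ L, J1 ≤ L → K * (L + 1) * (2 ^ k0 + 1) ≤ 2 ^ L := by
    have h1 := tendsto_pow_const_div_const_pow_of_one_lt 1 (show (1 : ℝ) < 2 by norm_num)
    have h2 : ∀ᶠ n : ℕ in Filter.atTop, (n : ℝ) ^ 1 / 2 ^ n < 1 / (2 * (K + 1) * (2 ^ k0 + 1)) :=
      (tendsto_order.1 h1).2 _ (by positivity)
    obtain ⟨n0, hn0⟩ := Filter.eventually_atTop.1 h2
    refine ⟨max 1 n0, fun L hL => ?_⟩
    have h3 := hn0 L ((le_max_right _ _).trans hL)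
    have hL1 : (1 : ℝ) ≤ L := by exact_mod_cast (le_max_left _ _).trans hL
    rw [pow_one, div_lt_div_iff₀ (by positivity) (by positivity)] at h3
    have h4 : (K : ℝ) * (L + 1) * (2 ^ k0 + 1) ≤ 2 ^ L := by
      have h5 : (K : ℝ) * (L + 1) ≤ L * (2 * (K + 1)) := by
        have hK0 : (0 : ℝ) ≤ K := Nat.cast_nonneg K
        nlinarith
      have h6 : (0 : ℝ) < 2 ^ k0 + 1 := by positivity
      nlinarith [mul_le_mul_of_nonneg_right h5 h6.le]
    exact_mod_cast h4
  refine ⟨max (J + 1) (max J1 5), fun L m b hm hL => ?_⟩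
  have h2J : ∀ j, j ≤ max (J + 1) (max J1 5) → 2 ^ j * m ≤ 2 ^ L := fun j hj =>
    (Nat.mul_le_mul_right m (Nat.pow_le_pow_right (by norm_num) hj)).trans hL
  have hLj : ∀ j, j ≤ max (J + 1) (max J1 5) → j ≤ L := by
    intro j hj
    have h3 : 2 ^ j ≤ 2 ^ L := (Nat.le_mul_of_pos_right _ hm).trans (h2J j hj)
    exact (Nat.pow_le_pow_iff_right (by norm_num)).1 h3
  by_cases hmk : m < 2 ^ k0
  · refine hK L m b hm (hLj 5 (by omega)) ((Nat.mul_le_mul_left _ ?_).trans (hJ1 L (hLj J1 (by omega))))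
    omega
  · obtain ⟨r, hr⟩ : ∃ r, r = Nat.log 2 m := ⟨_, rfl⟩
    have h1 : 2 ^ r ≤ m := by rw [hr]; exact Nat.pow_log_le_self 2 (by omega)
    have h2 : m < 2 ^ (r + 1) := by rw [hr]; exact Nat.lt_pow_succ_log_self (by norm_num) m
    have h3 : k0 ≤ r := by
      have h4 : 2 ^ k0 < 2 ^ (r + 1) := lt_of_le_of_lt (by omega) h2
      have := (Nat.pow_lt_pow_iff_right (by norm_num)).1 h4
      omega
    have h4 : r + J ≤ L := by
      have h5 : 2 ^ (r + J) ≤ 2 ^ L := by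
        refine le_trans ?_ (h2J J (by omega))
        rw [pow_add, mul_comm]
        exact Nat.mul_le_mul_left _ h1
      exact (Nat.pow_le_pow_iff_right (by norm_num)).1 h5
    have hU := Num2Aux.UU_pos m
    calc HH m ≤ 8 * gf (SSb b m) := HH_le_SSb hm b
      _ ≤ 8 * (ENNReal.ofReal (UU m) * gf (NAb b m)) := mul_le_mul' le_rfl (SSb_le b m)
      _ ≤ 8 * (ENNReal.ofReal (UU m) * (2 * gf {t | t ∈ NAb b m ∧ t ∈ WL L})) :=
          mul_le_mul' le_rfl (mul_le_mul' le_rfl (h r m L b h3 h1 h2 h4))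
      _ = _ := by
          rw [ENNReal.ofReal_mul (by norm_num), show ENNReal.ofReal 16 = 16 by simp]
          ring

end TPC

end HexObs
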