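import Pool.Agent.TPC.Defs
import Pool.Agent.NTS.ExDefs
import Pool.Agent.GLow.Alpha
import Pool.Agent.PHW.Dict

/-!
TPC, row C2, the core: from the exact orders of `Xb`, of the sum of the bridge weights and of the mean lengths, and from the
facts about the walks with exactly n letters: `c μ ^ n n ^ (11 / 32) ≤ a n ≤ C μ ^ n n ^ (11 / 32)` (helper65).
-/

set_option autoImplicit false

namespace HexObs

namespace TPC

open Finset TS SDN NTW NTA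

open scoped ENNReal

namespace An

lemma muB_eq : muB = 1 / xc := le_antisymm muB_le le_muB

lemma muB_pos : 0 < muB := by
  rw [muB_eq]
  exact one_div_pos.2 xc_pos

lemma muB_pow (n : ℕ) : muB ^ n * xc ^ n = 1 := by
  rw [← mul_pow, muB_eq, one_div, inv_mul_cancel₀ xc_pos.ne', one_pow]

/-- the number of walks is at least one -/
lemma aB_pos {n : ℕ} (hn : 1 ≤ n) : (0 : ℝ) < aB n := by
  by_contra hcon
  have h0 : (aB n : ℝ) = 0 := le_antisymm (not_lt.1 hcon) (Nat.cast_nonneg _)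
  have hb : BddBelow (Set.range fun n : {n : ℕ // 1 ≤ n} => ((aB n.1 : ℝ) ^ ((1 : ℝ) / (n.1 : ℝ)))) := by
    refine ⟨0, ?_⟩
    rintro x ⟨i, rfl⟩
    positivity
  have h1 : muB ≤ (aB n : ℝ) ^ ((1 : ℝ) / (n : ℝ)) := ciInf_le hb ⟨n, hn⟩
  have hn0 : (n : ℝ) ≠ 0 := by
    have : (0 : ℝ) < n := by exact_mod_cast hn
    exact this.ne'
  rw [h0, Real.zero_rpow (one_div_ne_zero hn0)] at h1
  exact absurd muB_pos (not_lt.2 h1)

/-- the weight of the words with n letters and the number of the walks with n steps -/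
lemma gf_aB {n : ℕ} (hn : 1 ≤ n) : gf (SawN n) = ENNReal.ofReal (2 / 3 * (aB n * xc ^ n)) := by
  rw [PHWDict.gf_SawN]
  have h2 : (2 : ℝ) * aB n = 3 * cS n := by exact_mod_cast aB_eq hn
  congr 1
  have h3 : (cS n : ℝ) = 2 / 3 * aB n := by linarith
  rw [h3]
  ring

/-- finitely many positive numbers -/
lemma small {r : ℕ → ℝ} (hr : ∀ n, 1 ≤ n → 0 < r n) (N : ℕ) :
    ∃ c C : ℝ, 0 < c ∧ 0 < C ∧ ∀ n, 1 ≤ n → n < N → c ≤ r n ∧ r n ≤ C := by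
  induction N with
  | zero => exact ⟨1, 1, one_pos, one_pos, fun n _ h => absurd h (Nat.not_lt_zero n)⟩
  | succ N ih =>
    obtain ⟨c, C, hc, hC, h⟩ := ih
    rcases Nat.eq_zero_or_pos N with h0 | h0
    · refine ⟨c, C, hc, hC, fun n h1 h2 => ?_⟩
      omega
    · refine ⟨min c (r N), max C (r N), lt_min hc (hr N h0), lt_max_of_lt_left hC, fun n h1 h2 => ?_⟩
      rcases Nat.lt_or_ge n N with h3 | h3
      · obtain ⟨h4, h5⟩ := h n h1 h3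
        exact ⟨(min_le_left _ _).trans h4, h5.trans (le_max_left _ _)⟩
      · have h4 : n = N := by omega
        rw [h4]
        exact ⟨min_le_right _ _, le_max_right _ _⟩

/-- every large n has a scale -/
lemma scale {m : ℕ → ℝ} {c : ℝ} (hc : 0 < c) (hlo : ∀ k : ℕ, c * 2 ^ (4 / 3 * (k : ℝ)) ≤ m k) {k0 n : ℕ}
    (hn : m k0 ≤ n) : ∃ k, k0 ≤ k ∧ m k ≤ n ∧ (n : ℝ) < m (k + 1) := by
  classical
  obtain ⟨B, hB⟩ : ∃ B : ℕ, (n : ℝ) / c < B := exists_nat_gt _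
  have hex : ∃ j : ℕ, k0 ≤ j ∧ (n : ℝ) < m (j + 1) := by
    refine ⟨max k0 B, le_max_left _ _, ?_⟩
    have h1 : (n : ℝ) < c * B := by
      rw [div_lt_iff₀ hc] at hB
      linarith
    refine lt_of_lt_of_le h1 (le_trans ?_ (hlo _))
    refine mul_le_mul_of_nonneg_left ?_ hc.le
    have h2 : (B : ℝ) ≤ (2 : ℝ) ^ B := by exact_mod_cast (Nat.lt_two_pow_self (n := B)).le
    refine h2.trans ?_
    rw [← Real.rpow_natCast]
    refine Real.rpow_le_rpow_of_exponent_le one_le_two ?_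
    have h3 : (B : ℝ) ≤ ((max k0 B + 1 : ℕ) : ℝ) := by exact_mod_cast (le_max_right k0 B).trans (Nat.le_succ _)
    have h4 : (0 : ℝ) ≤ B := Nat.cast_nonneg _
    linarith
  obtain ⟨h1, h2⟩ := Nat.find_spec hex
  refine ⟨Nat.find hex, h1, ?_, h2⟩
  rcases Nat.eq_or_lt_of_le h1 with h3 | h3
  · rw [← h3]
    exact hn
  · obtain ⟨j, hj⟩ : ∃ j, Nat.find hex = j + 1 := ⟨Nat.find hex - 1, by omega⟩
    have h4 := Nat.find_min hex (m := j) (by omega)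
    rw [hj]
    by_contra h5
    exact h4 ⟨by omega, not_le.1 h5⟩

lemma Ub_two : ∃ c C : ℝ, 0 < c ∧ 0 < C ∧ ∀ k : ℕ, c * 2 ^ (3 / 4 * (k : ℝ)) ≤ Ub k ∧
    Ub k ≤ C * 2 ^ (3 / 4 * (k : ℝ)) := by
  obtain ⟨c, hc, h1⟩ := GLow.UU_low
  obtain ⟨C, hC, h2⟩ := GLow.UU_up
  have e : ∀ k : ℕ, (((2 ^ k : ℕ) : ℝ)) ^ (3 / 4 : ℝ) = 2 ^ (3 / 4 * (k : ℝ)) := by
    intro k
    push_cast
    rw [← Real.rpow_natCast, ← Real.rpow_mul (by norm_num)]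
    congr 1
    ring
  refine ⟨c, C, hc, hC, fun k => ?_⟩
  rw [← e]
  exact ⟨h1 (2 ^ k) Nat.one_le_two_pow, h2 (2 ^ k) Nat.one_le_two_pow⟩

/-- the power of the scale -/
lemma pow_scale (k : ℕ) : ((2 : ℝ) ^ (4 / 3 * (k : ℝ))) ^ (11 / 32 : ℝ) = 2 ^ (11 / 24 * (k : ℝ)) := by
  rw [← Real.rpow_mul (by norm_num)]
  congr 1
  ring

lemma pow_sum (k : ℕ) : (2 : ℝ) ^ (3 / 4 * (k : ℝ)) / 2 ^ (4 / 3 * (k : ℝ)) * 2 ^ (25 / 24 * (k : ℝ)) =
    2 ^ (11 / 24 * (k : ℝ)) := by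
  rw [← Real.rpow_sub (by norm_num), ← Real.rpow_add (by norm_num)]
  congr 1
  ring

/-- the order of the weight of the scale k, from above -/
lemma nuX_up {m : ℕ → ℝ} (hlo : ∃ c : ℝ, 0 < c ∧ ∀ k : ℕ, c * 2 ^ (4 / 3 * (k : ℝ)) ≤ m k) (hU : XUp) :
    ∃ C : ℝ, 0 < C ∧ ∀ k : ℕ, nuX m k ≤ ENNReal.ofReal (C * 2 ^ (11 / 24 * (k : ℝ))) := by
  obtain ⟨c, hc, h1⟩ := hlo
  obtain ⟨_, A, _, hA, h2⟩ := Ub_two
  obtain ⟨X, hX, h3⟩ := hU
  refine ⟨A / c * X, by positivity, fun k => ?_⟩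
  have hp : (0 : ℝ) < 2 ^ (4 / 3 * (k : ℝ)) := by positivity
  have hm : 0 < m k := lt_of_lt_of_le (by positivity) (h1 k)
  have h4 : Ub k / m k ≤ A / c * (2 ^ (3 / 4 * (k : ℝ)) / 2 ^ (4 / 3 * (k : ℝ))) := by
    calc Ub k / m k ≤ (A * 2 ^ (3 / 4 * (k : ℝ))) / (c * 2 ^ (4 / 3 * (k : ℝ))) :=
          div_le_div₀ (by positivity) (h2 k).2 (by positivity) (h1 k)
      _ = _ := by
          field_simp
  unfold nuX
  calc ENNReal.ofReal (Ub k / m k) * Xb k ^ 2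
      ≤ ENNReal.ofReal (A / c * (2 ^ (3 / 4 * (k : ℝ)) / 2 ^ (4 / 3 * (k : ℝ)))) *
        ENNReal.ofReal (X * (2 : ℝ) ^ (25 / 24 * (k : ℝ))) := mul_le_mul' (ENNReal.ofReal_le_ofReal h4) (h3 k)
    _ = _ := by
        rw [← ENNReal.ofReal_mul (by positivity), ← pow_sum]
        congr 1
        ring

/-- the order of the weight of the scale k, from below -/
lemma nuX_low {m : ℕ → ℝ} (hm : ∀ k, 0 < m k) (hup : ∃ C : ℝ, 0 < C ∧ ∀ k : ℕ, m k ≤ C * 2 ^ (4 / 3 * (k : ℝ)))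
    (hL : XLow) : ∃ c : ℝ, 0 < c ∧ ∀ k : ℕ, ENNReal.ofReal (c * 2 ^ (11 / 24 * (k : ℝ))) ≤ nuX m k := by
  obtain ⟨C, hC, h1⟩ := hup
  obtain ⟨a, _, ha, _, h2⟩ := Ub_two
  obtain ⟨X, hX, h3⟩ := hL
  refine ⟨a / C * X, by positivity, fun k => ?_⟩
  have hp : (0 : ℝ) < 2 ^ (4 / 3 * (k : ℝ)) := by positivity
  have hUb := Ub_pos k
  have h4 : a / C * (2 ^ (3 / 4 * (k : ℝ)) / 2 ^ (4 / 3 * (k : ℝ))) ≤ Ub k / m k := by
    calc a / C * (2 ^ (3 / 4 * (k : ℝ)) / 2 ^ (4 / 3 * (k : ℝ))) =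
          (a * 2 ^ (3 / 4 * (k : ℝ))) / (C * 2 ^ (4 / 3 * (k : ℝ))) := by
          field_simp
      _ ≤ _ := div_le_div₀ hUb.le (h2 k).1 (hm k) (h1 k)
  unfold nuX
  calc ENNReal.ofReal (a / C * X * 2 ^ (11 / 24 * (k : ℝ)))
      = ENNReal.ofReal (a / C * (2 ^ (3 / 4 * (k : ℝ)) / 2 ^ (4 / 3 * (k : ℝ)))) *
        ENNReal.ofReal (X * (2 : ℝ) ^ (25 / 24 * (k : ℝ))) := by
        rw [← ENNReal.ofReal_mul (by positivity), ← pow_sum]
        congr 1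
        ring
    _ ≤ _ := mul_le_mul' (ENNReal.ofReal_le_ofReal h4) (h3 k)

end An

open An

/-- **the number of the walks of n steps up to constants, from the facts** -/
theorem an_core {m : ℕ → ℝ} (hF : FactsX m) (hup : ∃ C : ℝ, 0 < C ∧ ∀ k : ℕ, m k ≤ C * 2 ^ (4 / 3 * (k : ℝ)))
    (hlo : ∃ c : ℝ, 0 < c ∧ ∀ k : ℕ, c * 2 ^ (4 / 3 * (k : ℝ)) ≤ m k) (hU : XUp) (hL : XLow) :
    ∃ c C : ℝ, 0 < c ∧ 0 < C ∧ ∀ n : ℕ, 1 ≤ n →
      c * (muB ^ n * (n : ℝ) ^ ((11 : ℝ) / 32)) ≤ (aB n : ℝ) ∧ (aB n : ℝ) ≤ C * (muB ^ n * (n : ℝ) ^ ((11 : ℝ) / 32)) := by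
  obtain ⟨a, _, k1, ha, _, hbig⟩ := hF.big
  obtain ⟨A, k2, hA, hall⟩ := hF.all
  obtain ⟨B, hB, hnu⟩ := nuX_up hlo hU
  have hmpos : ∀ k, 0 < m k := by
    obtain ⟨c, hc, h⟩ := hlo
    exact fun k => lt_of_lt_of_le (by positivity) (h k)
  obtain ⟨b, hb, hnl⟩ := nuX_low hmpos hup hL
  obtain ⟨M, hM, hMu⟩ := hup
  obtain ⟨q, hq, hqm⟩ := hlo
  obtain ⟨k0, hk0⟩ : ∃ k0 : ℕ, k0 = max k1 k2 := ⟨_, rfl⟩
  obtain ⟨N, hN⟩ : ∃ N : ℕ, m k0 ≤ N := exists_nat_ge _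
  have hmu := muB_pos
  have hx := xc_pos
  obtain ⟨r, hr⟩ : ∃ r : ℕ → ℝ, r = fun n => (aB n : ℝ) / (muB ^ n * (n : ℝ) ^ ((11 : ℝ) / 32)) := ⟨_, rfl⟩
  have hden : ∀ n : ℕ, 1 ≤ n → 0 < muB ^ n * (n : ℝ) ^ ((11 : ℝ) / 32) := by
    intro n hn
    have : (0 : ℝ) < n := by exact_mod_cast hn
    positivity
  have hrp : ∀ n, 1 ≤ n → 0 < r n := by
    intro n hn
    rw [hr]
    exact div_pos (aB_pos hn) (hden n hn)
  obtain ⟨c1, C1, hc1, hC1, hsm⟩ := small hrp N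
  obtain ⟨c2, hc2⟩ : ∃ c2 : ℝ, c2 = 3 / 2 * (a * (b * ((1 / (M * 2 ^ (4 / 3 : ℝ))) ^ ((11 : ℝ) / 32)))) := ⟨_, rfl⟩
  obtain ⟨C2, hC2⟩ : ∃ C2 : ℝ, C2 = 3 / 2 * (A * (B * ((1 / q) ^ ((11 : ℝ) / 32)))) := ⟨_, rfl⟩
  have hc20 : 0 < c2 := by rw [hc2]; positivity
  have hC20 : 0 < C2 := by rw [hC2]; positivity
  refine ⟨min c1 c2, max C1 C2, lt_min hc1 hc20, lt_max_of_lt_left hC1, fun n hn => ?_⟩
  have hD := hden n hn
  have key : c1 ≤ r n ∧ r n ≤ C1 ∨ c2 ≤ r n ∧ r n ≤ C2 := by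
    rcases Nat.lt_or_ge n N with h | h
    · exact Or.inl (hsm n hn h)
    · right
      have hnN : m k0 ≤ n := hN.trans (by exact_mod_cast h)
      obtain ⟨k, hk, h1, h2⟩ := scale hq hqm hnN
      have hn0 : (0 : ℝ) < n := by exact_mod_cast hn
      have hp : (0 : ℝ) < 2 ^ (4 / 3 * (k : ℝ)) := by positivity
      have u1 : gf (SawN n) ≤ ENNReal.ofReal A * nuX m k :=
        hall k n ((hk0 ▸ le_max_right k1 k2 : k2 ≤ k0).trans hk) h1 h2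
      have l1 : ENNReal.ofReal a * nuX m k ≤ gf (SawN n) := by
        refine (hbig k n ((hk0 ▸ le_max_left k1 k2 : k1 ≤ k0).trans hk) h1 h2).trans (gf_mono ?_)
        exact fun t ht => ht.1
      -- the scale of n
      have s1 : (2 : ℝ) ^ (11 / 24 * (k : ℝ)) ≤ (1 / q) ^ ((11 : ℝ) / 32) * (n : ℝ) ^ ((11 : ℝ) / 32) := by
        rw [← pow_scale, ← Real.mul_rpow (by positivity) hn0.le]
        refine Real.rpow_le_rpow hp.le ?_ (by norm_num)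
        rw [one_div, inv_mul_eq_div, le_div_iff₀ hq, mul_comm]
        exact (hqm k).trans h1
      have s2 : (1 / (M * 2 ^ (4 / 3 : ℝ))) ^ ((11 : ℝ) / 32) * (n : ℝ) ^ ((11 : ℝ) / 32) ≤
          (2 : ℝ) ^ (11 / 24 * (k : ℝ)) := by
        rw [← pow_scale, ← Real.mul_rpow (by positivity) hn0.le]
        refine Real.rpow_le_rpow (by positivity) ?_ (by norm_num)
        have h3 := h2.le.trans (hMu (k + 1))
        have e : (2 : ℝ) ^ (4 / 3 * ((k + 1 : ℕ) : ℝ)) = 2 ^ (4 / 3 : ℝ) * 2 ^ (4 / 3 * (k : ℝ)) := by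
          rw [← Real.rpow_add (by norm_num)]
          congr 1
          push_cast
          ring
        rw [e] at h3
        rw [one_div, inv_mul_eq_div, div_le_iff₀ (by positivity)]
        linarith
      rw [gf_aB hn] at u1 l1
      have hcs : (0 : ℝ) ≤ aB n * xc ^ n := by positivity
      -- upper
      have u2 : 2 / 3 * ((aB n : ℝ) * xc ^ n) ≤ A * (B * 2 ^ (11 / 24 * (k : ℝ))) := by
        have u3 := u1.trans (mul_le_mul' le_rfl (hnu k))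
        rwa [← ENNReal.ofReal_mul hA.le, ENNReal.ofReal_le_ofReal_iff (by positivity)] at u3
      have l2 : a * (b * 2 ^ (11 / 24 * (k : ℝ))) ≤ 2 / 3 * ((aB n : ℝ) * xc ^ n) := by
        have l3 := (mul_le_mul' le_rfl (hnl k)).trans l1
        rwa [← ENNReal.ofReal_mul ha.le, ENNReal.ofReal_le_ofReal_iff (by positivity)] at l3
      have hrn : r n = ((aB n : ℝ) * xc ^ n) / (n : ℝ) ^ ((11 : ℝ) / 32) := by
        rw [hr]
        have h3 := muB_pow n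
        have h4 : (0 : ℝ) < xc ^ n := by positivity
        have h5 : (0 : ℝ) < muB ^ n := by positivity
        have h6 : (0 : ℝ) < (n : ℝ) ^ ((11 : ℝ) / 32) := by positivity
        simp only
        rw [div_eq_div_iff (by positivity) h6.ne']
        calc (aB n : ℝ) * (n : ℝ) ^ ((11 : ℝ) / 32) = (aB n : ℝ) * (n : ℝ) ^ ((11 : ℝ) / 32) * (muB ^ n * xc ^ n) := by
              rw [h3, mul_one]
          _ = _ := by ring
      have hnp : (0 : ℝ) < (n : ℝ) ^ ((11 : ℝ) / 32) := by positivity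
      rw [hrn]
      constructor
      · rw [le_div_iff₀ hnp, hc2]
        calc 3 / 2 * (a * (b * (1 / (M * 2 ^ (4 / 3 : ℝ))) ^ ((11 : ℝ) / 32))) * (n : ℝ) ^ ((11 : ℝ) / 32)
            = 3 / 2 * (a * (b * ((1 / (M * 2 ^ (4 / 3 : ℝ))) ^ ((11 : ℝ) / 32) * (n : ℝ) ^ ((11 : ℝ) / 32)))) := by ring
          _ ≤ 3 / 2 * (a * (b * (2 : ℝ) ^ (11 / 24 * (k : ℝ)))) := by gcongr
          _ ≤ _ := by linarith
      · rw [div_le_iff₀ hnp, hC2]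
        calc (aB n : ℝ) * xc ^ n ≤ 3 / 2 * (A * (B * 2 ^ (11 / 24 * (k : ℝ)))) := by linarith
          _ ≤ 3 / 2 * (A * (B * ((1 / q) ^ ((11 : ℝ) / 32) * (n : ℝ) ^ ((11 : ℝ) / 32)))) := by gcongr
          _ = _ := by ring
  have hrD : r n * (muB ^ n * (n : ℝ) ^ ((11 : ℝ) / 32)) = aB n := by
    rw [hr]
    exact div_mul_cancel₀ _ hD.ne'
  rw [← hrD]
  rcases key with ⟨h1, h2⟩ | ⟨h1, h2⟩
  · exact ⟨mul_le_mul_of_nonneg_right ((min_le_left _ _).trans h1) hD.le,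
      mul_le_mul_of_nonneg_right (h2.trans (le_max_left _ _)) hD.le⟩
  · exact ⟨mul_le_mul_of_nonneg_right ((min_le_right _ _).trans h1) hD.le,
      mul_le_mul_of_nonneg_right (h2.trans (le_max_right _ _)) hD.le⟩

end TPC

end HexObs
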