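import Pool.Agent.TPC.AnO
import Pool.Agent.EN.FactsZ
import Pool.Agent.VF.MeanZ
import Pool.Agent.VF.SharpZ

/-!
TPC, row C2: the number of the self-avoiding walks of n steps on the honeycomb lattice up to constants, every n, from the
exact order of `Xb` (helper65).

* `an_const : XUp → XLow → c μ ^ n n ^ (11 / 32) ≤ a n ≤ C μ ^ n n ^ (11 / 32)`, every n ≥ 1;
* `an_public` : the same in the encoding of the frozen statement (third adjacency).
-/

set_option autoImplicit false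

namespace HexObs

namespace TPC

/-- **the number of the walks of n steps up to constants** -/
theorem an_const (hU : XUp) (hL : XLow) : ∃ c C : ℝ, 0 < c ∧ 0 < C ∧ ∀ n : ℕ, 1 ≤ n →
    c * (muB ^ n * (n : ℝ) ^ ((11 : ℝ) / 32)) ≤ (aB n : ℝ) ∧ (aB n : ℝ) ≤ C * (muB ^ n * (n : ℝ) ^ ((11 : ℝ) / 32)) :=
  an_core EN.factsX_M (VF.mUp VF.sharpZ) (VF.mLow VF.sharpZ) hU hL

/-- the same in the encoding of the frozen statement -/
theorem an_public (hU : XUp) (hL : XLow) :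
    ∀ Adj : ℤ × ℤ → ℤ × ℤ → Prop,
      Adj = (fun p q : ℤ × ℤ =>
          q - p = (1, 0) ∨ q - p = (-1, 0) ∨
          (q - p = (0, 1) ∧ Even (p.1 + p.2)) ∨
          (q - p = (0, -1) ∧ Even (q.1 + q.2))) →
      ∀ a : ℕ → ℕ,
        (∀ n : ℕ, a n = Set.ncard {f : Fin (n + 1) → ℤ × ℤ |
            f 0 = 0 ∧ Function.Injective f ∧
            ∀ i : Fin n, Adj (f i.castSucc) (f i.succ)}) →
        ∀ μ : ℝ,
          μ = (⨅ n : {n : ℕ // 1 ≤ n}, ((a n.1 : ℝ) ^ ((1 : ℝ) / (n.1 : ℝ)))) →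
          ∃ c C : ℝ, 0 < c ∧ 0 < C ∧ ∀ n : ℕ, 1 ≤ n →
            c * (μ ^ n * (n : ℝ) ^ ((11 : ℝ) / 32)) ≤ (a n : ℝ) ∧
            (a n : ℝ) ≤ C * (μ ^ n * (n : ℝ) ^ ((11 : ℝ) / 32)) := by
  intro Adj hAdj a ha μ hμ
  have h1 : a = aB := by
    funext n
    rw [ha n, hAdj]
    rfl
  have h2 : μ = muB := by
    rw [hμ, h1]
    rfl
  subst hAdj
  rw [h1, h2]
  exact an_const hU hL

end TPC

end HexObs
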