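import Pool.Agent.TPC.St
import Pool.Agent.NTA.RunX

/-!
TPC: the flat walks with a large extent, all extents (helper51).
-/

set_option autoImplicit false

namespace HexObs

namespace TPC

open Finset TS SDN NTW NTA SIM

open scoped ENNReal

/-- flat walks (levels in the direction d) with a large extent -/
def Nar (d : Pt) (r J : ℕ) : Set (List Bool) :=
  {t | t ∈ SA ∧ t ∉ WL (r + J) ∧ ∀ i, i ≤ t.length → |ip (vx oo up t i) d| ≤ 4 * 2 ^ r}

lemma Ub_pow (r j : ℕ) : Ub (r + j) ≤ 2 ^ j * Ub r := by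
  induction j with
  | zero => simp
  | succ j ih =>
    have h1 := Ub_succ (r + j)
    calc Ub (r + (j + 1)) ≤ 2 * Ub (r + j) := h1
      _ ≤ 2 * (2 ^ j * Ub r) := by linarith
      _ = 2 ^ (j + 1) * Ub r := by ring

/-- every self-avoiding word is in a box -/
lemma mem_WL_of {t : List Bool} (ht : t ∈ SA) : ∃ K, t ∈ WL K := by
  classical
  obtain ⟨M, hM⟩ : ∃ M : ℕ, ∀ i, i ≤ t.length → ∀ dir, |row dir (vx oo up t i)| ≤ M := by
    refine ⟨((range (t.length + 1)).sup fun i => (row false (vx oo up t i)).natAbs) +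
      ((range (t.length + 1)).sup fun i => (row true (vx oo up t i)).natAbs), fun i hi dir => ?_⟩
    have h1 : (row false (vx oo up t i)).natAbs ≤ (range (t.length + 1)).sup fun i => (row false (vx oo up t i)).natAbs :=
      Finset.le_sup (f := fun i => (row false (vx oo up t i)).natAbs) (mem_range.2 (by omega))
    have h2 : (row true (vx oo up t i)).natAbs ≤ (range (t.length + 1)).sup fun i => (row true (vx oo up t i)).natAbs :=
      Finset.le_sup (f := fun i => (row true (vx oo up t i)).natAbs) (mem_range.2 (by omega))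
    rw [Int.abs_eq_natAbs]
    cases dir <;> omega
  refine ⟨M, ht, fun i hi dir => (hM i hi dir).trans ?_⟩
  exact_mod_cast (Nat.lt_two_pow_self (n := M)).le

lemma WL_mn {K L : ℕ} (h : K ≤ L) {t : List Bool} (ht : t ∈ WL K) : t ∈ WL L :=
  ⟨ht.1, fun i hi dir => (ht.2 i hi dir).trans (pow_le_pow_right₀ (by norm_num) h)⟩

lemma Nar_sub (d : Pt) (r J : ℕ) : Nar d r J ⊆ ⋃ j : ℕ,
    {t | t ∈ WL (r + (J + 1 + j)) ∧ t ∉ WL (r + (J + 1 + j) - 1) ∧
      ∀ i, i ≤ t.length → |ip (vx oo up t i) d| ≤ 4 * 2 ^ r} := by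
  rintro t ⟨h1, h2, h3⟩
  classical
  have hex := mem_WL_of h1
  have h4 := Nat.find_spec hex
  have h5 : ∀ K, K < Nat.find hex → t ∉ WL K := fun K hK => Nat.find_min hex hK
  generalize Nat.find hex = K at *
  have h6 : r + J < K := by
    by_contra h
    exact h2 (WL_mn (by omega) h4)
  rw [Set.mem_iUnion]
  refine ⟨K - (r + J + 1), ?_, ?_, h3⟩
  · rw [show r + (J + 1 + (K - (r + J + 1))) = K by omega]
    exact h4
  · rw [show r + (J + 1 + (K - (r + J + 1))) = K by omega]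
    exact h5 _ (by omega)

/-- one double exponential beats every power -/
lemma pow_beats {C c : ℝ} (hC : 1 ≤ C) (hc : 0 < c) :
    ∃ n0 : ℕ, ∀ n : ℕ, n0 ≤ n → C ^ n * (2 : ℝ) ^ (-(c * 2 ^ n)) ≤ (2 : ℝ) ^ (-(c / 2 * 2 ^ n)) := by
  obtain ⟨a, ha⟩ : ∃ a : ℕ, C ≤ 2 ^ a := by
    obtain ⟨a, ha⟩ := pow_unbounded_of_one_lt C (show (1 : ℝ) < 2 by norm_num)
    exact ⟨a, ha.le⟩
  have h1 := tendsto_pow_const_div_const_pow_of_one_lt 1 (show (1 : ℝ) < 2 by norm_num)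
  have h2 : ∀ᶠ n : ℕ in Filter.atTop, (n : ℝ) ^ 1 / 2 ^ n < c / 2 / (a + 1) :=
    (tendsto_order.1 h1).2 _ (by positivity)
  obtain ⟨n0, hn0⟩ := Filter.eventually_atTop.1 h2
  refine ⟨n0, fun n hn => ?_⟩
  have h3 := hn0 n hn
  rw [pow_one, div_lt_div_iff₀ (by positivity) (by positivity)] at h3
  have h4 : (a : ℝ) * n ≤ c / 2 * 2 ^ n := by nlinarith [Nat.cast_nonneg (α := ℝ) n]
  calc C ^ n * (2 : ℝ) ^ (-(c * 2 ^ n)) ≤ (2 ^ a) ^ n * (2 : ℝ) ^ (-(c * 2 ^ n)) :=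
        mul_le_mul_of_nonneg_right (pow_le_pow_left₀ (by linarith) ha n) (Real.rpow_nonneg (by norm_num) _)
    _ = (2 : ℝ) ^ ((a : ℝ) * n + -(c * 2 ^ n)) := by
        rw [Real.rpow_add (by norm_num), ← pow_mul, ← Real.rpow_natCast 2 (a * n)]
        push_cast
        ring
    _ ≤ _ := Real.rpow_le_rpow_of_exponent_le (by norm_num) (by linarith)

lemma two_sum {c : ℝ} (hc : 0 < c) : ∃ n0 : ℕ, ∀ J j : ℕ, n0 ≤ J →
    (2 : ℝ) ^ (-(c * 2 ^ (J + j))) ≤ (2 : ℝ) ^ (-(c * 2 ^ J)) * (1 / 2) ^ j := by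
  obtain ⟨n0, hn0⟩ := pow_unbounded_of_one_lt (1 / c) (show (1 : ℝ) < 2 by norm_num)
  refine ⟨n0, fun J j hJ => ?_⟩
  have h1 : 1 ≤ c * 2 ^ J := by
    have h2 : (2 : ℝ) ^ n0 ≤ 2 ^ J := pow_le_pow_right₀ (by norm_num) hJ
    rw [div_lt_iff₀ hc] at hn0
    nlinarith
  have h2 : (j : ℝ) + 1 ≤ 2 ^ j := by
    have : j + 1 ≤ 2 ^ j := Nat.lt_two_pow_self
    exact_mod_cast this
  have h3 : (1 / 2 : ℝ) ^ j = (2 : ℝ) ^ (-(j : ℝ)) := by
    rw [Real.rpow_neg (by norm_num), Real.rpow_natCast, one_div, inv_pow]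
  rw [h3, ← Real.rpow_add (by norm_num), pow_add]
  refine Real.rpow_le_rpow_of_exponent_le (by norm_num) ?_
  have hj0 : (0 : ℝ) ≤ j := Nat.cast_nonneg j
  nlinarith [mul_le_mul_of_nonneg_left h2 (show 0 ≤ c * 2 ^ J by positivity)]

/-- **(ST), all extents** -/
theorem nar_le : ∃ (c : ℝ) (k0 J0 : ℕ), 0 < c ∧ ∀ (d : Pt) (r J : ℕ), d ∈ D3 → k0 ≤ r → J0 ≤ J →
    gf (Nar d r J) ≤ ENNReal.ofReal ((2 : ℝ) ^ (-(c * 2 ^ J)) * Ub r) * Xb r ^ 2 := by
  obtain ⟨C, c, k0, J0, hC, hc, -, hst⟩ := st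
  obtain ⟨D, hD, hx⟩ := Xb_pow
  have hE1 : 1 ≤ 2 * C * D ^ 2 := by
    have : (1 : ℝ) ≤ D ^ 2 := one_le_pow₀ hD
    nlinarith
  obtain ⟨n1, hn1⟩ := pow_beats hE1 hc
  obtain ⟨n2, hn2⟩ := two_sum (show 0 < c / 2 by positivity)
  obtain ⟨n3, hn3⟩ := pow_unbounded_of_one_lt (2 / c) (show (1 : ℝ) < 2 by norm_num)
  refine ⟨c / 2, k0, max J0 (max n1 (max n2 (n3 + 1))), by positivity, fun d r J hd hr hJ => ?_⟩
  have hJ0 : J0 ≤ J := (le_max_left _ _).trans hJ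
  have hJ1 : n1 ≤ J := ((le_max_left _ _).trans (le_max_right _ _)).trans hJ
  have hJ2 : n2 ≤ J := ((le_max_left _ _).trans ((le_max_right _ _).trans (le_max_right _ _))).trans hJ
  have hJ3 : n3 + 1 ≤ J := ((le_max_right _ _).trans ((le_max_right _ _).trans (le_max_right _ _))).trans hJ
  have hU := Ub_pos r
  have key : ∀ j : ℕ, gf {t | t ∈ WL (r + (J + 1 + j)) ∧ t ∉ WL (r + (J + 1 + j) - 1) ∧
      ∀ i, i ≤ t.length → |ip (vx oo up t i) d| ≤ 4 * 2 ^ r} ≤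
      ENNReal.ofReal ((2 : ℝ) ^ (-(c / 2 * 2 ^ (J + 1))) * Ub r * (1 / 2) ^ j) * Xb r ^ 2 := by
    intro j
    refine (hst d r (J + 1 + j) hd hr (by omega)).trans ?_
    calc ENNReal.ofReal (C ^ (J + 1 + j) * (2 : ℝ) ^ (-(c * 2 ^ (J + 1 + j))) * Ub (r + (J + 1 + j))) *
          Xb (r + (J + 1 + j)) ^ 2
        ≤ ENNReal.ofReal (C ^ (J + 1 + j) * (2 : ℝ) ^ (-(c * 2 ^ (J + 1 + j))) * (2 ^ (J + 1 + j) * Ub r)) *
          (ENNReal.ofReal (D ^ (J + 1 + j)) * Xb r) ^ 2 := by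
          refine mul_le_mul' (ENNReal.ofReal_le_ofReal ?_) (pow_le_pow_left' (hx _ _) 2)
          exact mul_le_mul_of_nonneg_left (Ub_pow _ _) (by positivity)
      _ = ENNReal.ofReal ((2 * C * D ^ 2) ^ (J + 1 + j) * (2 : ℝ) ^ (-(c * 2 ^ (J + 1 + j))) * Ub r) * Xb r ^ 2 := by
          rw [mul_pow, ← ENNReal.ofReal_pow (by positivity), ← mul_assoc, ← ENNReal.ofReal_mul (by positivity)]
          congr 2
          rw [mul_pow (2 * C), mul_pow 2 C]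
          ring
      _ ≤ _ := by
          refine mul_le_mul' (ENNReal.ofReal_le_ofReal ?_) le_rfl
          refine (mul_le_mul_of_nonneg_right ((hn1 (J + 1 + j) (by omega)).trans (hn2 (J + 1) j (by omega))) hU.le).trans
            (le_of_eq (by ring))
  refine (gf_mono (Nar_sub d r J)).trans ((ENNReal.tsum_iUnion_le_tsum wE _).trans ((ENNReal.tsum_le_tsum key).trans ?_))
  rw [ENNReal.tsum_mul_right]
  refine mul_le_mul' ?_ le_rfl
  have h1 : ∑' j : ℕ, ENNReal.ofReal ((2 : ℝ) ^ (-(c / 2 * 2 ^ (J + 1))) * Ub r * (1 / 2) ^ j) =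
      ENNReal.ofReal ((2 : ℝ) ^ (-(c / 2 * 2 ^ (J + 1))) * Ub r * 2) := by
    rw [← ENNReal.ofReal_tsum_of_nonneg (fun j => by positivity)
      ((summable_geometric_of_lt_one (by norm_num) (by norm_num)).mul_left _), tsum_mul_left, tsum_geometric_two]
  rw [h1]
  refine ENNReal.ofReal_le_ofReal ?_
  have h2 : (2 : ℝ) ^ (-(c / 2 * 2 ^ (J + 1))) * 2 ≤ (2 : ℝ) ^ (-(c / 2 * 2 ^ J)) := by
    have h3 : (2 : ℝ) ^ (-(c / 2 * 2 ^ (J + 1))) * 2 = (2 : ℝ) ^ (-(c / 2 * 2 ^ (J + 1)) + 1) := by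
      rw [Real.rpow_add (by norm_num), Real.rpow_one]
    rw [h3]
    refine Real.rpow_le_rpow_of_exponent_le (by norm_num) ?_
    have h4 : (2 : ℝ) ^ n3 ≤ 2 ^ J := pow_le_pow_right₀ (by norm_num) (by omega)
    rw [div_lt_iff₀ hc] at hn3
    have h5 : 1 ≤ c / 2 * 2 ^ J := by nlinarith
    rw [pow_succ]
    linarith
  nlinarith

/-- (ST), all extents, small constant -/
theorem nar_small {ε : ℝ} (hε : 0 < ε) : ∃ J k0 : ℕ, ∀ (d : Pt) (r : ℕ), d ∈ D3 → k0 ≤ r →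
    gf (Nar d r J) ≤ ENNReal.ofReal (ε * Ub r) * Xb r ^ 2 := by
  obtain ⟨c, k0, J0, hc, h⟩ := nar_le
  have h1 : Filter.Tendsto (fun J : ℕ => c * (2 : ℝ) ^ J) Filter.atTop Filter.atTop :=
    Filter.Tendsto.const_mul_atTop hc (tendsto_pow_atTop_atTop_of_one_lt (by norm_num))
  have h2 : ∀ᶠ J : ℕ in Filter.atTop, -(Real.log ε / Real.log 2) ≤ c * (2 : ℝ) ^ J := h1.eventually_ge_atTop _
  obtain ⟨J1, hJ1⟩ := Filter.eventually_atTop.1 h2
  refine ⟨max J0 J1, k0, fun d r hd hr => (h d r _ hd hr (le_max_left _ _)).trans ?_⟩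
  refine mul_le_mul' (ENNReal.ofReal_le_ofReal ?_) le_rfl
  refine mul_le_mul_of_nonneg_right ?_ (Ub_pos r).le
  have h3 := hJ1 (max J0 J1) (le_max_right _ _)
  have hl : 0 < Real.log 2 := Real.log_pos (by norm_num)
  have h4 : (2 : ℝ) ^ (Real.log ε / Real.log 2) = ε := by
    rw [Real.rpow_def_of_pos (by norm_num), mul_div_cancel₀ _ hl.ne', Real.exp_log hε]
  calc (2 : ℝ) ^ (-(c * 2 ^ (max J0 J1))) ≤ (2 : ℝ) ^ (Real.log ε / Real.log 2) :=
        Real.rpow_le_rpow_of_exponent_le (by norm_num) (by linarith)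
    _ = ε := h4

end TPC

end HexObs
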