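import Pool.Agent.GLD.Lift
import Pool.Agent.SDN.Defs
import Pool.Agent.HexObs.Sym

/-!
# TPC, A6: the words of the cylinder are words of the plane that are disjoint from their translates

A word of the cylinder with `2 k` rows (rapidities 0) between the antipodal cut edges is lifted to the plane with the
disjointness from its translates kept. The outer end of the first cut edge may be visited, so the first letter is
dropped: the rest is self-avoiding from its first vertex on, in a frame turned by 60 degrees.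
-/

set_option autoImplicit false

namespace HexObs

namespace TPC

open HexObs.SDN
open Pool.Agent.GLD (rt2 rt2_add rt2_sub rt2_inj vx_rt2 rt2_start PE lift_word Wm W0 W0_iSup two_k)
open Pool.Agent.NUF.Cyl (Nm Cy pL nmN tr nmN_tr)
open Pool.Agent.NUN (Om mem_Om)
open scoped ENNReal

/-- self-avoiding words with the end `(K, K)`, disjoint from their translates by the multiples of `(2 k, 2 k)`:
the translation has `2 k` rows in the direction `false`, `-2 k` rows in the direction `true`. -/
def Cyw (k : ℕ) (K : ℤ) : Set (List Bool) := {t | t ∈ SA ∧ vx oo up t t.length = (K, K) ∧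
  ∀ i j, i ≤ t.length → j ≤ t.length → ∀ m : ℤ, m ≠ 0 → vx oo up t i ≠ vx oo up t j + (2 * k * m, 2 * k * m)}

theorem rt2_tr (n : ℤ) (p : Pt) : rt2 (tr n p) = rt2 p + (-2 * n, n) := by
  refine Prod.ext ?_ ?_ <;> simp only [rt2, tr, Prod.fst_add, Prod.snd_add] <;> ring

variable {k : ℕ}

/-- the lift of a word of the cylinder is disjoint from its translates. -/
theorem lift_disj (hk : 1 ≤ k) {M : ℕ} {t : List Bool} (ht : (Cy (2 * k) (two_k hk)).Arr (Om (2 * k) M) (pL 0) t)
    {i j : ℕ} (hi : 1 ≤ i) (hij : i < j) (hj : j ≤ t.length) (m : ℤ) :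
    vx oo up t i ≠ vx oo up t j + (-2 * (2 * k * m), 2 * k * m) := by
  set C := Cy (2 * k) (two_k hk) with hC
  set v0 : Pt := _root_.EXL.B (-1) 0 with hv0
  have hp : (pL 0 : Pt × Pt) = (v0, (1, -1)) := rfl
  have rot : ∀ i, vx oo up t i = rt2 (vx v0 (1, -1) t i - v0) := fun i => by
    rw [← rt2_start]
    exact vx_rt2 v0 (1, -1) t i
  intro e
  rw [rot, rot] at e
  have e1 : rt2 (vx v0 (1, -1) t i - v0) = rt2 (tr (2 * k * m) (vx v0 (1, -1) t j - v0)) := by
    rw [rt2_tr]
    exact e
  have e2 := rt2_inj e1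
  have e3 : vx v0 (1, -1) t i = tr (2 * k * m) (vx v0 (1, -1) t j) := by
    have h1 := congrArg Prod.fst e2
    have h2 := congrArg Prod.snd e2
    simp only [tr, Prod.fst_sub, Prod.snd_sub] at h1 h2
    refine Prod.ext ?_ ?_ <;> simp only [tr] <;> omega
  refine ht.inj i j hi hij hj ?_
  rw [hp]
  show C.nm (vx v0 (1, -1) t i) = C.nm (vx v0 (1, -1) t j)
  rw [e3]
  show nmN (2 * k) _ = nmN (2 * k) _
  have h3 := nmN_tr (2 * k) (two_k hk) m (vx v0 (1, -1) t j)
  push_cast at h3
  exact h3

theorem vx_co (v d : Pt) (b : Bool) (t : List Bool) (i : ℕ) : vx v d (b :: t) (i + 1) = vx (v + d) (turn b d) t i := by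
  unfold vx
  rw [add_comm i 1, vs_shift]
  have h1 : vs v d (tf (b :: t)) 1 = v + d := rfl
  have h2 : ds d (tf (b :: t)) 1 = turn b d := rfl
  rw [h1, h2]
  apply vs_congr
  intro k _
  rw [add_comm 1 k]
  rfl

/-- the reflection that fixes `up`. -/
def lm (p : Pt) : Pt := (-p.1, p.1 + p.2)

theorem vx_not (s : List Bool) {i : ℕ} (hi : i ≤ s.length + 1) : vx oo up (s.map not) i = lm (vx oo up s i) := by
  have h := vx_refl (-1, 1) oo oo up s hi
  have e : mulE (-1, 1) (conjE up) = up := by decide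
  rw [e] at h
  rw [h]
  refine Prod.ext ?_ ?_ <;> simp only [lm, mulE, conjE, oo, Prod.fst_add, Prod.snd_add, Prod.fst_sub, Prod.snd_sub] <;>
    ring

theorem lm_lm (p : Pt) : lm (lm p) = p := by
  refine Prod.ext ?_ ?_ <;> simp only [lm] <;> ring

/-- the frame after a right turn. -/
theorem vx_fr (s : List Bool) (i : ℕ) : vx oo up (false :: s) (i + 1) =
    up + ((vx oo up s i).1 + (vx oo up s i).2, -(vx oo up s i).1) := by
  rw [vx_co]
  have h := vx_mulE (1, -1) oo (oo + up) up s i
  have e : mulE (1, -1) up = turn false up := by decide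
  rw [e] at h
  rw [h]
  refine Prod.ext ?_ ?_ <;> simp only [mulE, oo, up, Prod.fst_add, Prod.snd_add, Prod.fst_sub, Prod.snd_sub] <;> ring

/-- the frame after a left turn, reflected. -/
theorem vx_fl (s : List Bool) {i : ℕ} (hi : i ≤ s.length + 1) : vx oo up (true :: s) (i + 1) =
    up + (-((vx oo up (s.map not) i).1 + (vx oo up (s.map not) i).2), (vx oo up (s.map not) i).2) := by
  have h1 : vx oo up s i = lm (vx oo up (s.map not) i) := by
    rw [vx_not s hi, lm_lm]
  rw [vx_co]
  have h := vx_mulE (0, 1) oo (oo + up) up s i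
  have e : mulE (0, 1) up = turn true up := by decide
  rw [e] at h
  rw [h, h1]
  refine Prod.ext ?_ ?_ <;> simp only [lm, mulE, oo, up, Prod.fst_add, Prod.snd_add, Prod.fst_sub, Prod.snd_sub] <;>
    ring

/-- the rest of the word. -/
def rst (t : List Bool) : List Bool := if t.head? = some true then t.tail.map not else t.tail

/-- the general form: the vertices of the word are images of the vertices of the rest. -/
theorem Cyw_of (hk : 1 ≤ k) {s : List Bool} {K : ℤ} {t : List Bool} (φ : Pt → Pt) (hl : t.length = s.length + 1)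
    (hφ : ∀ i, i ≤ s.length → vx oo up t (i + 1) = up + φ (vx oo up s i))
    (hi : ∀ i j, 1 ≤ i → i < j → j ≤ t.length → vx oo up t i ≠ vx oo up t j)
    (hd : ∀ i j, 1 ≤ i → i < j → j ≤ t.length → ∀ m : ℤ, vx oo up t i ≠ vx oo up t j + (-2 * (2 * k * m), 2 * k * m))
    (he : φ (vx oo up s s.length) = (-2 * K, K)) (σ : ℤ) (hσ : σ * σ = 1)
    (hφ1 : ∀ p q n, p = q + (n, n) → φ p = φ q + (-2 * (σ * n), σ * n))
    (hφ2 : ∀ p n, φ p = (-2 * n, n) → p = (σ * n, σ * n)) : s ∈ Cyw k (σ * K) := by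
  have hinj : ∀ i j, i < j → j ≤ s.length → vx oo up s i ≠ vx oo up s j := by
    intro i j h1 h2 h3
    refine hi (i + 1) (j + 1) (by omega) (by omega) (by omega) ?_
    rw [hφ i (by omega), hφ j h2, h3]
  have hdj : ∀ i j, i < j → j ≤ s.length → ∀ m : ℤ, vx oo up s i ≠ vx oo up s j + (2 * k * m, 2 * k * m) := by
    intro i j h1 h2 m h3
    refine hd (i + 1) (j + 1) (by omega) (by omega) (by omega) (σ * m) ?_
    rw [hφ i (by omega), hφ j h2, hφ1 _ _ _ h3]
    refine Prod.ext ?_ ?_ <;> simp only [Prod.fst_add, Prod.snd_add] <;> ring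
  refine ⟨⟨fun i _ _ => Set.mem_univ _, hinj⟩, hφ2 _ _ he, fun i j h1 h2 m hm h3 => ?_⟩
  rcases lt_trichotomy i j with h | h | h
  · exact hdj i j h h2 m h3
  · subst h
    have h4 := congrArg Prod.fst h3
    simp only [Prod.fst_add] at h4
    have h5 : 2 * (k : ℤ) * m ≠ 0 := mul_ne_zero (by omega) hm
    omega
  · refine hdj j i h h1 (-m) ?_
    rw [h3]
    refine Prod.ext ?_ ?_ <;> simp only [Prod.fst_add, Prod.snd_add] <;> ring

/-- **A word of the cylinder without its first letter.** -/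
theorem rst_mem (hk : 1 ≤ k) {M : ℕ} {t : List Bool} (ht : (Cy (2 * k) (two_k hk)).Arr (Om (2 * k) M) (pL 0) t)
    (he : (Cy (2 * k) (two_k hk)).rv ((Cy (2 * k) (two_k hk)).le (pL 0) t) = pL (k : ℤ)) :
    ∃ z : ℤ, rst t ∈ Cyw k ((2 * z + 1) * k) := by
  obtain ⟨z, h1, h2, h3, -, -⟩ := lift_word hk ht he
  have h5 : ∀ i j, 1 ≤ i → i < j → j ≤ t.length → ∀ m : ℤ,
      vx oo up t i ≠ vx oo up t j + (-2 * (2 * k * m), 2 * k * m) := fun i j hi hij hj m => lift_disj hk ht hi hij hj m
  obtain ⟨b, s, rfl⟩ : ∃ b s, t = b :: s := by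
    rcases t with _ | ⟨b, s⟩
    · simp at h1
    · exact ⟨b, s, rfl⟩
  have hlen : (b :: s).length = s.length + 1 := List.length_cons
  cases b
  · refine ⟨-z - 1, ?_⟩
    have e0 : rst (false :: s) = s := by simp [rst]
    have e1 : (2 * (-z - 1) + 1) * (k : ℤ) = (-1) * ((2 * z + 1) * k) := by ring
    rw [e0, e1]
    refine Cyw_of hk (fun p => (p.1 + p.2, -p.1)) hlen (fun i _ => vx_fr s i) h2 h5 ?_ (-1) (by norm_num) ?_ ?_
    · rw [hlen, vx_fr] at h3
      exact add_left_cancel h3
    · rintro p q n rfl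
      refine Prod.ext ?_ ?_ <;> simp only [Prod.fst_add, Prod.snd_add] <;> ring
    · intro p n h
      have h6 := congrArg Prod.fst h
      have h7 := congrArg Prod.snd h
      simp only at h6 h7
      refine Prod.ext ?_ ?_ <;> simp only <;> omega
  · refine ⟨z, ?_⟩
    have e0 : rst (true :: s) = s.map not := by simp [rst]
    have e1 : (2 * z + 1) * (k : ℤ) = 1 * ((2 * z + 1) * k) := by ring
    rw [e0, e1]
    have hlen' : (true :: s).length = (s.map not).length + 1 := by rw [List.length_map]; exact hlen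
    refine Cyw_of hk (fun p => (-(p.1 + p.2), p.2)) hlen' (fun i hi => vx_fl s (by
      rw [List.length_map] at hi
      omega)) h2 h5 ?_ 1 (by norm_num) ?_ ?_
    · rw [hlen, vx_fl s (by omega)] at h3
      rw [List.length_map]
      exact add_left_cancel h3
    · rintro p q n rfl
      refine Prod.ext ?_ ?_ <;> simp only [Prod.fst_add, Prod.snd_add] <;> ring
    · intro p n h
      have h6 := congrArg Prod.fst h
      have h7 := congrArg Prod.snd h
      simp only at h6 h7
      refine Prod.ext ?_ ?_ <;> simp only <;> omega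

theorem gf_iUnion_le {ι : Type*} [Countable ι] (F : ι → Set (List Bool)) : gf (⋃ i, F i) ≤ ∑' i, gf (F i) :=
  ENNReal.tsum_iUnion_le_tsum wE F

/-- **A6.** The two-point function of the cylinder is bounded by the words of the plane that are disjoint from their
translates by the period. -/
theorem W0_le_Cyw (hk : 1 ≤ k) :
    ENNReal.ofReal (W0 hk).re ≤ 2 * ENNReal.ofReal xc * ∑' z : ℤ, gf (Cyw k ((2 * z + 1) * k)) := by
  classical
  rw [W0_iSup]
  refine iSup_le fun M => ?_
  refine le_trans ?_ (mul_le_mul_right (gf_iUnion_le fun z : ℤ => Cyw k ((2 * z + 1) * k)) _)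
  unfold Wm Nm.Ws
  rw [← gf_finset]
  obtain ⟨P, hP⟩ : ∃ P : Set (List Bool), P = {t | (Cy (2 * k) (two_k hk)).Arr (Om (2 * k) M) (pL 0) t ∧
    (Cy (2 * k) (two_k hk)).rv ((Cy (2 * k) (two_k hk)).le (pL 0) t) = pL (k : ℤ)} := ⟨_, rfl⟩
  have hPne : ∀ t ∈ P, ∃ b s, t = b :: s := by
    intro t ht
    rw [hP] at ht
    obtain ⟨z, h1, -⟩ := lift_word hk ht.1 ht.2
    rcases t with _ | ⟨b, s⟩
    · simp at h1
    · exact ⟨b, s, rfl⟩
  have key : ∀ b : Bool, gf {t | t ∈ P ∧ t.head? = some b} ≤
      ENNReal.ofReal xc * gf (⋃ z : ℤ, Cyw k ((2 * z + 1) * k)) := by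
    intro b
    refine gf_le_of_inj rst ?_ ?_ _ ?_
    · rintro t ⟨ht, -⟩
      rw [hP] at ht
      obtain ⟨z, hz⟩ := rst_mem hk ht.1 ht.2
      exact Set.mem_iUnion.2 ⟨z, hz⟩
    · rintro t ⟨ht, hb⟩ t' ⟨ht', hb'⟩ e
      obtain ⟨c, s, rfl⟩ := hPne t ht
      obtain ⟨c', s', rfl⟩ := hPne t' ht'
      simp only [List.head?_cons, Option.some.injEq] at hb hb'
      subst hb
      subst hb'
      cases c'
      · simp only [rst, List.head?_cons, Option.some.injEq, Bool.false_eq_true, if_false, List.tail_cons] at e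
        rw [e]
      · simp only [rst, List.head?_cons, if_true, List.tail_cons] at e
        have e' := congrArg (List.map not) e
        rw [map_not_not, map_not_not] at e'
        rw [e']
    · rintro t ⟨ht, -⟩
      obtain ⟨c, s, rfl⟩ := hPne t ht
      have h1 : wE (rst (c :: s)) = wE s := by
        cases c
        · simp [rst]
        · simp only [rst, List.head?_cons, if_true, List.tail_cons]
          exact wE_map_not s
      rw [h1]
      apply le_of_eq
      unfold wE
      rw [← ENNReal.ofReal_mul xc_pos.le, List.length_cons, pow_succ, mul_comm]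
  have hsub : ((((Cy (2 * k) (two_k hk)).arr (Om (2 * k) M) (pL 0)).filter fun t =>
      (Cy (2 * k) (two_k hk)).rv ((Cy (2 * k) (two_k hk)).le (pL 0) t) ∈ ({pL (k : ℤ)} : Finset (Pt × Pt)) :
      Finset (List Bool)) : Set (List Bool)) ⊆
      {t | t ∈ P ∧ t.head? = some false} ∪ {t | t ∈ P ∧ t.head? = some true} := by
    intro t ht
    rw [Finset.mem_coe, Finset.mem_filter, Nm.mem_arr, Finset.mem_singleton] at ht
    have ht' : t ∈ P := by
      rw [hP]
      exact ht
    obtain ⟨b, s, rfl⟩ := hPne t ht'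
    cases b
    · exact Or.inl ⟨ht', rfl⟩
    · exact Or.inr ⟨ht', rfl⟩
  calc gf _ ≤ gf ({t | t ∈ P ∧ t.head? = some false} ∪ {t | t ∈ P ∧ t.head? = some true}) := gf_mono hsub
    _ ≤ gf {t | t ∈ P ∧ t.head? = some false} + gf {t | t ∈ P ∧ t.head? = some true} := gf_union_le _ _
    _ ≤ ENNReal.ofReal xc * gf (⋃ z : ℤ, Cyw k ((2 * z + 1) * k)) +
        ENNReal.ofReal xc * gf (⋃ z : ℤ, Cyw k ((2 * z + 1) * k)) := add_le_add (key false) (key true)
    _ = 2 * ENNReal.ofReal xc * gf (⋃ z : ℤ, Cyw k ((2 * z + 1) * k)) := by ring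

end TPC

end HexObs
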