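import Pool.Agent.TPC.EmbU
import Pool.Agent.TPC.NaC
import Pool.Agent.TPF.Low
import Pool.Agent.BAR.WBd

/-!
# TPC: the lower bound of the two-point function of the cylinder with all rapidities 0 (helper64)

* `low_dep` : the glueing `rev s ++ (z ++ v)`, the bridge `z` in a class that depends on `s` and `v`, general target;
* `Gd b m L` : half plane words without a cut, in a box, whose last step is not perpendicular to the period;
* **`lbu`** : `HH m ^ 2 ≤ C m ^ (3 / 2) k ^ (5 / 4) W0r k` if `A m ≤ k`.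
-/

set_option autoImplicit false

namespace HexObs

namespace TPC

open Finset TS SDN NTW NTA BAR TPF

open scoped ENNReal

/-! ### 1. The glueing -/

/-- **the glueing**, the bridge in a class that depends on the two half plane words, general target -/
theorem low_dep {m : ℕ} {A B : Set (List Bool)} {Z : List Bool → List Bool → Set (List Bool)}
    {T : Pt → Set (List Bool)} {δ : ℝ≥0∞} (hA : ∀ s ∈ A, s ∈ NAb true m)
    (hB : ∀ v ∈ B, v ∈ NA m) (hZ : ∀ s v, ∀ z ∈ Z s v, ∃ h, z ∈ Brd h)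
    (hδ : ∀ s ∈ A, ∀ v ∈ B, δ ≤ gf (Z s v))
    (hT : ∀ (s : List Bool) (x : Bool), s ++ [x] ∈ A → Even s.length → ∀ v ∈ B, ∀ z ∈ Z (s ++ [x]) v,
      rev s ++ (z ++ v) ∈ T (jr s)) :
    gf A * gf B * δ ≤ ENNReal.ofReal (2 * xc) * ∑ g ∈ Rot3, gf (T g) := by
  classical
  have hform : ∀ a : A, ∃ (s : List Bool) (x : Bool), a.1 = s ++ [x] ∧ Even s.length := by
    intro a
    have h1 := (hA a.1 a.2).2
    have hne : a.1 ≠ [] := by
      intro h
      rw [h] at h1
      simp at h1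
    obtain ⟨x, hx⟩ := last_split hne
    refine ⟨_, x, hx, ?_⟩
    have hl : a.1.length = a.1.dropLast.length + 1 := by
      conv_lhs => rw [hx, List.length_append, List.length_singleton]
    rw [hl, Nat.bodd_succ] at h1
    rw [Nat.even_iff, Nat.mod_two_of_bodd]
    have h2 : a.1.dropLast.length.bodd = false := by simpa using h1
    rw [h2]
    rfl
  choose f g hfg hev using hform
  let I := Σ (a : A) (v : B), (Z a.1 v.1 : Set (List Bool))
  let F : I → Bool × Pt × List Bool := fun i => (g i.1, jr (f i.1), rev (f i.1) ++ (i.2.2.1 ++ i.2.1.1))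
  let G : Bool × Pt × List Bool → ℝ≥0∞ := fun y =>
    if y.2.1 ∈ Rot3 ∧ y.2.2 ∈ T y.2.1 then ENNReal.ofReal xc * wE y.2.2 else 0
  have hs : ∀ a : A, f a ++ [g a] ∈ HpN ((f a).length + 1) := by
    intro a
    have h1 := SSt_HpN (hA a.1 a.2).1.1
    rw [hfg a, List.length_append, List.length_singleton] at h1
    exact h1
  have hw : ∀ i : I, ∃ d, i.2.2.1 ++ i.2.1.1 ∈ SSt d := by
    rintro ⟨a, v, z⟩
    obtain ⟨h, hz⟩ := hZ _ _ z.1 z.2
    exact ⟨_, SSt_cat hz (hB v.1 v.2).1⟩
  have hFinj : Function.Injective F := by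
    intro i j hij
    have e1 : g i.1 = g j.1 := congrArg (fun y => y.1) hij
    have e2 : jr (f i.1) = jr (f j.1) := congrArg (fun y => y.2.1) hij
    have e3 : rev (f i.1) ++ (i.2.2.1 ++ i.2.1.1) = rev (f j.1) ++ (j.2.2.1 ++ j.2.1.1) := congrArg (fun y => y.2.2) hij
    have e4 : jd (f i.1) = jd (f j.1) := by rw [← jr_up, ← jr_up, e2]
    have key : ∀ i j : I, rev (f i.1) ++ (i.2.2.1 ++ i.2.1.1) = rev (f j.1) ++ (j.2.2.1 ++ j.2.1.1) →
        jd (f i.1) = jd (f j.1) → ¬ (f i.1).length < (f j.1).length := by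
      intro i j e3 e4 hlt
      obtain ⟨d, hd⟩ := hw i
      obtain ⟨d', hd'⟩ := hw j
      have h1 := glue_cut (hs i.1) (SSt_HpN hd) (hs j.1) (SSt_HpN hd') e3 e4 hlt
      rw [← hfg j.1, NA_cuts (hA j.1.1 j.1.2).1] at h1
      exact Finset.not_nonempty_empty h1
    have h1 := key i j e3 e4
    have h2 := key j i e3.symm e4.symm
    have e5 := List.append_inj e3 (by rw [rev_length, rev_length]; omega)
    have e6 : f i.1 = f j.1 := by
      have := congrArg rev e5.1
      rwa [rev_rev, rev_rev] at this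
    have e7 : i.1 = j.1 := Subtype.ext (by rw [hfg i.1, hfg j.1, e6, e1])
    obtain ⟨h, hz⟩ := hZ _ _ _ i.2.2.2
    obtain ⟨h', hz'⟩ := hZ _ _ _ j.2.2.2
    have e8 := na_uniq hz hz' (hB _ i.2.1.2) (hB _ j.2.1.2) e5.2
    obtain ⟨a, v, z⟩ := i
    obtain ⟨a', v', z'⟩ := j
    simp only at e7 e8
    subst e7
    have e9 : v = v' := Subtype.ext e8.2
    subst e9
    have e10 : z = z' := Subtype.ext e8.1
    subst e10
    rfl
  have hGF : ∀ i : I, wE i.1.1 * (wE i.2.1.1 * wE i.2.2.1) = G (F i) := by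
    rintro ⟨a, v, z⟩
    have hmem : rev (f a) ++ (z.1 ++ v.1) ∈ T (jr (f a)) :=
      hT (f a) (g a) (by rw [← hfg a]; exact a.2) (hev a) v.1 v.2 z.1 (by rw [← hfg a]; exact z.2)
    show wE a.1 * (wE v.1 * wE z.1) = if jr (f a) ∈ Rot3 ∧ (rev (f a) ++ (z.1 ++ v.1)) ∈ T (jr (f a)) then
      ENNReal.ofReal xc * wE (rev (f a) ++ (z.1 ++ v.1)) else 0
    rw [if_pos ⟨jr_rot3 (hev a), hmem⟩, ← wE_join _ _ (g a), ← hfg a, wE_append]
    ring
  have h1 : gf A * gf B * δ ≤ ∑' i : I, wE i.1.1 * (wE i.2.1.1 * wE i.2.2.1) := by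
    rw [ENNReal.tsum_sigma']
    unfold gf
    rw [mul_assoc, ← ENNReal.tsum_mul_right]
    refine ENNReal.tsum_le_tsum fun a => ?_
    rw [ENNReal.tsum_sigma', ← ENNReal.tsum_mul_right, ← ENNReal.tsum_mul_left]
    refine ENNReal.tsum_le_tsum fun v => ?_
    have h2 := hδ a.1 a.2 v.1 v.2
    calc wE a.1 * (wE v.1 * δ) ≤ wE a.1 * (wE v.1 * gf (Z a.1 v.1)) := by gcongr
      _ = ∑' z : (Z a.1 v.1 : Set (List Bool)), wE a.1 * (wE v.1 * wE z.1) := by
        unfold gf
        rw [ENNReal.tsum_mul_left, ENNReal.tsum_mul_left]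
  have h2 : ∑' y, G y = ENNReal.ofReal (2 * xc) * ∑ g ∈ Rot3, gf (T g) := by
    have h3 : ∀ (x : Bool) (r : Pt), ∑' t : List Bool, G (x, r, t) =
        if r ∈ Rot3 then ENNReal.ofReal xc * gf (T r) else 0 := by
      intro x r
      by_cases hr : r ∈ Rot3
      · rw [if_pos hr]
        have h4 : ∀ t : List Bool, G (x, r, t) = ENNReal.ofReal xc * (if t ∈ T r then wE t else 0) := by
          intro t
          show (if r ∈ Rot3 ∧ t ∈ T r then ENNReal.ofReal xc * wE t else 0) = _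
          by_cases ht : t ∈ T r
          · rw [if_pos ⟨hr, ht⟩, if_pos ht]
          · rw [if_neg (fun h => ht h.2), if_neg ht, mul_zero]
        rw [tsum_congr h4, ENNReal.tsum_mul_left, gf_ind]
      · rw [if_neg hr]
        have h4 : ∀ t : List Bool, G (x, r, t) = 0 := fun t => if_neg (fun h => hr h.1)
        rw [tsum_congr h4, tsum_zero]
    rw [ENNReal.tsum_prod', tsum_bool]
    have h5 : ∀ x : Bool, ∑' y : Pt × List Bool, G (x, y) = ENNReal.ofReal xc * ∑ g ∈ Rot3, gf (T g) := by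
      intro x
      rw [ENNReal.tsum_prod', tsum_congr (h3 x), tsum_eq_sum (s := Rot3) (fun r hr => if_neg hr), Finset.mul_sum]
      exact Finset.sum_congr rfl fun r hr => if_pos hr
    rw [h5, ← two_mul, ← mul_assoc]
    congr 1
    rw [ENNReal.ofReal_mul (by norm_num)]
    simp
  calc gf A * gf B * δ ≤ ∑' i : I, wE i.1.1 * (wE i.2.1.1 * wE i.2.2.1) := h1
    _ = ∑' i : I, G (F i) := tsum_congr hGF
    _ ≤ ∑' y, G y := ENNReal.tsum_comp_le_tsum_of_injective hFinj G
    _ = _ := h2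

/-! ### 2. The glued words -/

/-- half plane words without a cut, in a box, the last step not perpendicular to the period -/
def Gd (b : Bool) (m L : ℕ) : Set (List Bool) := {t | t ∈ NAb b m ∧ t ∈ WL L ∧ t ≠ [] ∧
  dx up t (t.length - 1) ≠ (1, -1) ∧ dx up t (t.length - 1) ≠ (-1, 1)}

/-- the target of the glueing -/
def TT (k : ℕ) (g : Pt) : Set (List Bool) := if g = (1, 0) then PlC k false else if g = (0, -1) then PlC k true else ∅

/-- the first step of the glued word in the frame of the bridge -/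
lemma jr_dx (s : List Bool) : mulE (jr s) (dx up s s.length) = up := by
  obtain ⟨R, hR, h1, -, h3⟩ := frame_rev s
  have h4 := h3 0 (Nat.zero_le _)
  rw [Nat.sub_zero] at h4
  have h5 : dx up (rev s) 0 = up := rfl
  rw [h5] at h4
  apply mulE_inj hR
  rw [← jr_up s] at h1
  have h6 : mulE (mulE R (jr s)) up = -up := by rw [← mulE_assoc, h1]
  have h7 : mulE R (jr s) = (-1, 0) := by
    rw [mulE_comm] at h6
    apply mulE_inj (mem_dirs.1 BAR.up_dirs)
    rw [h6]
    decide
  rw [mulE_assoc, h7, h4]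
  ext <;> simp [mulE]

/-- levels of the glued word, in the frame of the bridge -/
lemma glue_levU {m h : ℕ} {s z v : List Bool} {x : Bool} (hs : s ++ [x] ∈ SSt m) (hz : z ∈ Brd h)
    (hv : v ∈ SSt m) {i : ℕ} (hi : i ≤ (rev s ++ (z ++ v)).length) :
    -(3 * m : ℤ) ≤ ip (vx oo up (rev s ++ (z ++ v)) i) (mulE (jr s) up) ∧
      ip (vx oo up (rev s ++ (z ++ v)) i) (mulE (jr s) up) ≤ 6 * m + 3 * h := by
  rw [jr_up]
  have h1 : ∀ j, j ≤ s.length + 1 → 0 ≤ lev s j ∧ lev s j ≤ 3 * m := by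
    intro j hj
    have e : lev s j = lev (s ++ [x]) j := by
      unfold lev
      rw [vx_append hj]
    rw [e]
    rcases Nat.eq_zero_or_pos j with h0 | h0
    · rw [h0, lev_zero]
      omega
    · have := (mem_SSt.1 hs).1 j h0 (by rw [List.length_append, List.length_singleton]; exact hj)
      omega
  have h2 : ∀ j, j ≤ (z ++ v).length → 0 ≤ lev (z ++ v) j ∧ lev (z ++ v) j ≤ 3 * m + 3 * h := by
    intro j hj
    rcases Nat.eq_zero_or_pos j with h0 | h0
    · rw [h0, lev_zero]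
      omega
    · have := (mem_SSt.1 (SSt_cat hz hv)).1 j h0 hj
      push_cast at this
      omega
  have h3 := h1 (s.length + 1) le_rfl
  rcases Nat.lt_or_ge s.length i with h4 | h4
  · obtain ⟨j, rfl⟩ : ∃ j, i = s.length + j := ⟨i - s.length, by omega⟩
    rw [List.length_append, rev_length] at hi
    rw [jlev_snd, jlev_fst s _ (by omega), show s.length + 1 - s.length = 1 by omega]
    have h5 := h2 j (by omega)
    have h6 : 0 < lev s (s.length + 1) := by
      have e : lev s (s.length + 1) = lev (s ++ [x]) (s.length + 1) := by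
        unfold lev
        rw [vx_append le_rfl]
      rw [e]
      exact ((mem_SSt.1 hs).1 (s.length + 1) (by omega) (by rw [List.length_append, List.length_singleton])).1
    rw [lev_one]
    constructor <;> omega
  · rw [jlev_fst s _ (by omega)]
    have h5 := h1 (s.length + 1 - i) (by omega)
    constructor <;> linarith [h5.1, h5.2, h3.1, h3.2]

/-- the steps of the last part of the glued word, rotated -/
lemma glue_dx (s v : List Bool) {h : ℕ} {z : List Bool} (hz : z ∈ Brd h) (i : ℕ) :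
    dx up (rev s ++ (z ++ v)) (s.length + (z.length + i)) = mulE (jr s) (dx up v i) := by
  have h1 := glue_vx s v hz i
  have h2 := glue_vx s v hz (i + 1)
  have h3 : vx oo up (rev s ++ (z ++ v)) (s.length + (z.length + (i + 1))) =
    vx oo up (rev s ++ (z ++ v)) (s.length + (z.length + i)) +
      dx up (rev s ++ (z ++ v)) (s.length + (z.length + i)) := rfl
  have h4 : vx oo up v (i + 1) = vx oo up v i + dx up v i := rfl
  rw [h2, h1, h4, mulE_add, ← add_assoc] at h3
  exact (add_left_cancel h3).symm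

/-- the glued word is disjoint from its translates -/
theorem glue_TT {m k L L' : ℕ} (hmk : 3 * m < k) {s z v : List Bool} {x : Bool} (hs : s ++ [x] ∈ Gd true m L)
    (hev : Even s.length) (hv : v ∈ Gd false m L')
    (hz : z ∈ ZB (((k : ℤ), (k : ℤ)) + up - ev (s ++ [x]) - ev v)) : rev s ++ (z ++ v) ∈ TT k (jr s) := by
  obtain ⟨hs1, -, -, hs4, hs5⟩ := hs
  obtain ⟨hv1, -, hv3, hv4, hv5⟩ := hv
  obtain ⟨⟨h, hzB⟩, hzq⟩ := hz
  have hsn : s ++ [x] ∈ HpN (s.length + 1) := by
    have h1 := SSt_HpN hs1.1.1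
    rwa [List.length_append, List.length_singleton] at h1
  have hd : z ++ v ∈ SSt (h + m) := SSt_cat hzB hv1.1.1
  have hvpos : 0 < v.length := List.length_pos_iff.2 hv3
  obtain ⟨w, hw⟩ : ∃ w, w = rev s ++ (z ++ v) := ⟨_, rfl⟩
  have hwl : w.length = s.length + (z.length + v.length) := by
    rw [hw]
    simp only [List.length_append, rev_length]
  have a0 : w ≠ [] := by
    intro e
    rw [e] at hwl
    simp at hwl
    omega
  have a1 : w ∈ SA := by
    rw [hw]
    exact (glue_mem hsn (SSt_HpN hd)).2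
  have a2 : vx oo up w w.length = mulE (jr s) ((k : ℤ), (k : ℤ)) := by
    have h1 : ev w = mulE (jr s) ((k : ℤ), (k : ℤ)) := by
      rw [hw, disp, ev_cat hzB, hzq, ev_snoc]
      congr 1
      abel
    exact h1
  have hh : (3 : ℤ) * h ≤ 3 * k + 2 := by
    have h1 := (mem_Brd.1 hzB).2.2.2
    have h2 : ip (ev z) up = 3 * h := h1
    rw [hzq, ip_sub_left, ip_sub_left, ip_add_left] at h2
    have h3 := ev_nonneg hs1.1.1
    have h4 := ev_nonneg hv1.1.1
    have h5 : ip ((k : ℤ), (k : ℤ)) up = 3 * k := by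
      simp only [ip, up]
      ring
    have h6 : ip up up = 2 := by decide
    rw [h5, h6] at h2
    omega
  have a3 : ∀ i j, i ≤ w.length → j ≤ w.length → ∀ m' : ℤ, m' ≠ 0 →
      vx oo up w i ≠ vx oo up w j + mulE (jr s) (2 * k * m', 2 * k * m') := by
    intro i j hi hj m' hm' e
    rw [hw] at hi hj e
    have h1 := glue_levU hs1.1.1 hzB hv1.1.1 hi
    have h2 := glue_levU hs1.1.1 hzB hv1.1.1 hj
    rw [e, ip_add_left, ip_mulE, jr_nrm, one_mul] at h1
    have h3 : ip (2 * (k : ℤ) * m', 2 * (k : ℤ) * m') up = 6 * k * m' := by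
      simp only [ip, up]
      ring
    rw [h3] at h1
    have hmk' : (3 * m : ℤ) < k := by exact_mod_cast hmk
    have hk0 : (0 : ℤ) ≤ k := Int.natCast_nonneg k
    rcases lt_or_gt_of_ne hm' with h4 | h4
    · have h5 : 6 * (k : ℤ) * m' ≤ -(6 * k) := by nlinarith
      linarith [h1.1, h2.2]
    · have h5 : 6 * (k : ℤ) ≤ 6 * k * m' := by nlinarith
      linarith [h1.2, h2.1]
  have a4 : dx up w (w.length - 1) = mulE (jr s) (dx up v (v.length - 1)) := by
    rw [hwl, show s.length + (z.length + v.length) - 1 = s.length + (z.length + (v.length - 1)) by omega, hw]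
    exact glue_dx s v hzB _
  rw [← hw]
  have hR := jr_rot3 hev
  have hjd := jr_dx s
  have hs4' : dx up s s.length ≠ (1, -1) := by
    rw [List.length_append, List.length_singleton, Nat.add_sub_cancel, dx_append le_rfl] at hs4
    exact hs4
  have hdd : dx up v (v.length - 1) ∈ dirs := dx_mem BAR.up_dirs _ _
  unfold TT
  have e0 : jr s = (1, 0) ∨ jr s = (-1, 1) ∨ jr s = (0, -1) := by simpa [Rot3] using hR
  rcases e0 with e | e | e <;> rw [e] at a2 a3 a4 hjd ⊢
  · rw [if_pos rfl]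
    refine ⟨a0, a1, ?_, ?_, ?_⟩
    · rw [a2]
      refine Prod.ext ?_ ?_ <;> simp [mulE, gu]
    · intro i j hi hj m' hm' e'
      refine a3 i j hi hj m' hm' ?_
      rw [e']
      refine Prod.ext ?_ ?_ <;> simp [mulE, gu]
    · rw [a4]
      revert hv5
      generalize dx up v (v.length - 1) = d at hdd
      revert d
      decide
  · exfalso
    apply hs4'
    apply mulE_inj (u := (-1, 1)) (by decide)
    rw [hjd]
    decide
  · rw [if_neg (by decide), if_pos rfl]
    refine ⟨a0, a1, ?_, ?_, ?_⟩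
    · rw [a2]
      refine Prod.ext ?_ ?_ <;> simp only [mulE, gu, if_true] <;> ring
    · intro i j hi hj m' hm' e'
      refine a3 i j hi hj m' hm' ?_
      rw [e']
      refine Prod.ext ?_ ?_ <;> simp only [mulE, gu, if_true, Prod.fst_add, Prod.snd_add] <;> ring
    · rw [a4]
      revert hv5
      generalize dx up v (v.length - 1) = d at hdd
      revert d
      decide

/-! ### 3. The mass of the good words -/

lemma gf_nil : gf ({[]} : Set (List Bool)) = 1 := by
  have e : ({[]} : Set (List Bool)) = (({[]} : Finset (List Bool)) : Set (List Bool)) := by simp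
  rw [e, gf_finset]
  simp

/-- a word in a box, reflected -/
lemma wl_not {L : ℕ} {t : List Bool} (ht : t ∈ WL L) {i : ℕ} (hi : i ≤ t.length) (dir : Bool) :
    |row dir (vx oo up (t.map not) i)| ≤ 2 ^ (L + 2) := by
  have h1 := ht.2 i hi false
  have h2 := ht.2 i hi true
  rw [TPC.vx_not t (by omega)]
  have hK : (2 : ℤ) ^ (L + 2) = 4 * 2 ^ L := by rw [pow_add]; ring
  have hK1 : (1 : ℤ) ≤ 2 ^ L := one_le_pow₀ (by norm_num)
  rw [hK]
  generalize vx oo up t i = q at *
  generalize (2 : ℤ) ^ L = y at *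
  obtain ⟨q1, q2⟩ := q
  rw [abs_le] at h1 h2 ⊢
  simp only [row, lvl, SDN.hd, up, ip, lm, if_true, Bool.false_eq_true, if_false] at h1 h2 ⊢
  cases dir <;> simp only [if_true, Bool.false_eq_true, if_false] at h1 h2 ⊢ <;> constructor <;> omega

lemma NAb_not {b : Bool} {m : ℕ} {t : List Bool} (h : t ∈ NAb b m) : t.map not ∈ NAb b m := by
  obtain ⟨⟨h1, h2⟩, h3⟩ := h
  refine ⟨⟨SSt_not h1, fun j hj => ?_⟩, by rw [List.length_map]; exact h3⟩
  rintro ⟨c, s, hc, hs, e⟩
  refine h2 j hj ⟨c.map not, s.map not, Brd_not hc, fun i i1 i2 => ?_, ?_⟩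
  · rw [List.length_map] at i2
    rw [lev_not s (by omega)]
    exact hs i i1 i2
  · rw [← List.map_append, ← e, map_not_not]

lemma dx_not (t : List Bool) {i : ℕ} (hi : i ≤ t.length) : dx up (t.map not) i = lm (dx up t i) := by
  have h := dx_refl (-1, 1) up t hi
  have e : mulE (-1, 1) (conjE up) = up := by decide
  rw [e] at h
  rw [h]
  refine Prod.ext ?_ ?_ <;> simp only [lm, mulE, conjE] <;> ring

/-- the word of two right turns -/
lemma ff_mem {m : ℕ} (hm : 1 ≤ m) (L : ℕ) : [false, false] ∈ Gd false m L := by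
  have e0 : vx oo up [false, false] 0 = (0, 0) := by decide
  have e1 : vx oo up [false, false] 1 = (0, 1) := by decide
  have e2 : vx oo up [false, false] 2 = (1, 1) := by decide
  have l1 : lev [false, false] 1 = 2 := by decide
  have l2 : lev [false, false] 2 = 3 := by decide
  have hS : [false, false] ∈ SSt m := by
    rw [mem_SSt]
    have : (1 : ℤ) ≤ m := by exact_mod_cast hm
    refine ⟨fun i hi hi' => ?_, fun i k hik hk => ?_⟩
    · simp only [List.length_cons, List.length_nil, zero_add, Nat.reduceAdd] at hi'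
      have : i = 1 ∨ i = 2 := by omega
      rcases this with rfl | rfl
      · rw [l1]
        omega
      · rw [l2]
        omega
    · simp only [List.length_cons, List.length_nil, zero_add, Nat.reduceAdd] at hk
      have : (i = 0 ∧ k = 1) ∨ (i = 0 ∧ k = 2) ∨ (i = 1 ∧ k = 2) := by omega
      rcases this with ⟨rfl, rfl⟩ | ⟨rfl, rfl⟩ | ⟨rfl, rfl⟩
      · rw [e0, e1]; decide
      · rw [e0, e2]; decide
      · rw [e1, e2]; decide
  refine ⟨⟨⟨hS, ?_⟩, by decide⟩, ⟨TPF.SSt_SA hS, ?_⟩, by simp, by decide, by decide⟩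
  · rintro j hj ⟨c, s, hc, -, e⟩
    have hc3 := (mem_Brd.1 hc).2.2.1
    have hc4 := (mem_Brd.1 hc).2.2.2
    rcases c with _ | ⟨a, _ | ⟨b, c⟩⟩
    · simp only [List.length_nil, lev_zero] at hc4
      omega
    · simp only [List.cons_append, List.cons.injEq] at e
      rw [← e.1] at hc3
      exact absurd hc3 (by decide)
    · simp only [List.cons_append, List.cons.injEq] at e
      obtain ⟨e1, e2, e3⟩ := e
      have e4 : c = [] := (List.append_eq_nil_iff.1 e3.symm).1
      rw [← e1, ← e2, e4] at hc3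
      exact absurd hc3 (by decide)
  · intro i hi dir
    simp only [List.length_cons, List.length_nil, zero_add, Nat.reduceAdd] at hi
    have h1 : (1 : ℤ) ≤ 2 ^ L := one_le_pow₀ (by norm_num)
    refine le_trans ?_ h1
    have : i = 0 ∨ i = 1 ∨ i = 2 := by omega
    rcases this with rfl | rfl | rfl
    · rw [e0]; revert dir; decide
    · rw [e1]; revert dir; decide
    · rw [e2]; revert dir; decide

/-- **the mass of the good words** -/
theorem gd_mass {m : ℕ} (hm : 1 ≤ m) (b : Bool) (L : ℕ) :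
    gf {t | t ∈ NAb b m ∧ t ∈ WL L} ≤ 6 * gf (Gd b m (L + 2)) := by
  have h0 : {t | t ∈ NAb b m ∧ t ∈ WL L} ⊆ ({t | t = [] ∧ t ∈ NAb b m} ∪ Gd b m (L + 2)) ∪
      {t | t ∈ NAb b m ∧ t ∈ WL L ∧ t ≠ [] ∧
        (dx up t (t.length - 1) = (1, -1) ∨ dx up t (t.length - 1) = (-1, 1))} := by
    rintro t ⟨h1, h2⟩
    by_cases h3 : t = []
    · exact Or.inl (Or.inl ⟨h3, h1⟩)
    · by_cases h4 : dx up t (t.length - 1) = (1, -1) ∨ dx up t (t.length - 1) = (-1, 1)
      · exact Or.inr ⟨h1, h2, h3, h4⟩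
      · rw [not_or] at h4
        exact Or.inl (Or.inr ⟨h1, WL_mn (by omega) h2, h3, h4.1, h4.2⟩)
  have h1 : gf {t | t ∈ NAb b m ∧ t ∈ WL L ∧ t ≠ [] ∧
      (dx up t (t.length - 1) = (1, -1) ∨ dx up t (t.length - 1) = (-1, 1))} ≤ 1 * gf (Gd b m (L + 2)) := by
    refine gf_le_of_inj (List.map not) ?_ map_not_inj.injOn _ (fun t _ => by rw [wE_map_not, one_mul])
    rintro t ⟨h1, h2, h3, h4⟩
    have h5 : dx up (t.map not) ((t.map not).length - 1) = lm (dx up t (t.length - 1)) := by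
      rw [List.length_map]
      exact dx_not t (by omega)
    refine ⟨NAb_not h1, ⟨TPF.SSt_SA (SSt_not h1.1.1), fun i hi dir => ?_⟩, ?_, ?_, ?_⟩
    · rw [List.length_map] at hi
      exact wl_not h2 hi dir
    · intro e
      exact h3 (List.map_eq_nil_iff.1 e)
    · rw [h5]
      rcases h4 with h4 | h4 <;> rw [h4] <;> decide
    · rw [h5]
      rcases h4 with h4 | h4 <;> rw [h4] <;> decide
  have h2 : gf {t | t = [] ∧ t ∈ NAb b m} ≤ 4 * gf (Gd b m (L + 2)) := by
    cases b
    · refine (gf_mono (Q := {[]}) (fun t ht => ht.1)).trans ?_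
      rw [gf_nil]
      have h3 : wE [false, false] ≤ gf (Gd false m (L + 2)) := by
        have h4 : ({[false, false]} : Set (List Bool)) ⊆ Gd false m (L + 2) := by
          rintro t rfl
          exact ff_mem hm _
        refine le_trans (le_of_eq ?_) (gf_mono h4)
        have e : ({[false, false]} : Set (List Bool)) = (({[false, false]} : Finset (List Bool)) : Set (List Bool)) := by
          simp
        rw [e, gf_finset]
        simp [wE]
      refine le_trans ?_ (mul_le_mul' le_rfl h3)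
      unfold wE
      simp only [List.length_cons, List.length_nil, zero_add, Nat.reduceAdd]
      rw [xc_sq, show (4 : ℝ≥0∞) = ENNReal.ofReal 4 by simp, ← ENNReal.ofReal_mul (by norm_num), ← ENNReal.ofReal_one]
      apply ENNReal.ofReal_le_ofReal
      have h5 : √(2 : ℝ) ≤ 2 := by
        rw [Real.sqrt_le_left (by norm_num)]
        norm_num
      have h6 : 0 < 2 + √(2 : ℝ) := by positivity
      rw [mul_one_div, le_div_iff₀ h6]
      linarith
    · have e : {t : List Bool | t = [] ∧ t ∈ NAb true m} = ∅ := by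
        ext t
        simp only [Set.mem_ofPred_eq, Set.mem_empty_iff_false, iff_false, not_and]
        rintro rfl h
        exact absurd h.2 (by decide)
      rw [e]
      have : gf (∅ : Set (List Bool)) = 0 := by simp [gf]
      rw [this]
      exact bot_le
  calc gf {t | t ∈ NAb b m ∧ t ∈ WL L} ≤ _ := gf_mono h0
    _ ≤ _ := gf_union_le _ _
    _ ≤ _ := add_le_add (gf_union_le _ _) le_rfl
    _ ≤ (4 * gf (Gd b m (L + 2)) + gf (Gd b m (L + 2))) + 1 * gf (Gd b m (L + 2)) :=
        add_le_add (add_le_add h2 le_rfl) h1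
    _ = 6 * gf (Gd b m (L + 2)) := by ring

/-! ### 4. The bound -/

/-- **the lower bound of the two-point function of the cylinder with all rapidities 0** -/
theorem lbu : ∃ (A : ℕ) (C : ℝ), 1 ≤ A ∧ 0 < C ∧ ∀ m k : ℕ, 1 ≤ m → A * m ≤ k →
    HH m ^ 2 ≤ ENNReal.ofReal (C * ((m : ℝ) ^ (3 / 2 : ℝ) * (k : ℝ) ^ (5 / 4 : ℝ)) * PBM.W0r k) := by
  obtain ⟨c1, t0, hc1, hloc⟩ := RP.localTube 4 (η := 1) one_pos
  have hloc' : ∀ (t : ℕ) (x : ℤ), t0 ≤ t → Even (x - t) → |x| ≤ (4 : ℕ) * t →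
      ENNReal.ofReal (c1 * (uu t / t)) ≤ gf (RP.EndB t x) := fun t x h1 h2 h3 =>
    (hloc t x h1 h2 h3).trans (gf_mono fun b hb => hb.1)
  obtain ⟨C3, hC3, hUU⟩ := GLow.UU_up
  obtain ⟨c4, hc4, huu⟩ := GLow.uu_low
  obtain ⟨J, hJ⟩ := na_boxC
  have hxc := xc_pos
  obtain ⟨C, hC⟩ : ∃ C : ℝ, C = 16 * (96 * C3) ^ 2 * (3 : ℝ) ^ (5 / 4 : ℝ) / (c1 * c4) := ⟨_, rfl⟩
  have hC0 : 0 < C := by rw [hC]; positivity
  refine ⟨200 * 2 ^ (J + 3) + (200 + 4 * t0), C, by omega, hC0, fun m k hm hmk => ?_⟩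
  have hkm : 200 * 2 ^ (J + 3) * m + (200 + 4 * t0) * m ≤ k := by rw [← add_mul]; exact hmk
  have hk1 : 1 ≤ k := by
    have : (200 + 4 * t0) * 1 ≤ (200 + 4 * t0) * m := Nat.mul_le_mul_left _ hm
    omega
  have hkR : (1 : ℝ) ≤ k := by exact_mod_cast hk1
  have hkp : (0 : ℝ) < k := by linarith
  have hmR : (1 : ℝ) ≤ m := by exact_mod_cast hm
  have hmp : (0 : ℝ) < m := by linarith
  obtain ⟨L, hL⟩ : ∃ L, L = Nat.log 2 m + 1 + J := ⟨_, rfl⟩
  have hL1 : 2 ^ J * m ≤ 2 ^ L := by
    have h1 : m < 2 ^ (Nat.log 2 m + 1) := Nat.lt_pow_succ_log_self (by norm_num) m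
    rw [hL, pow_add, mul_comm (2 ^ J) m]
    exact Nat.mul_le_mul_right _ h1.le
  have hL2 : 2 ^ (L + 2) ≤ 2 ^ (J + 3) * m := by
    have h1 : 2 ^ Nat.log 2 m ≤ m := Nat.pow_log_le_self 2 (by omega)
    have h2 : 2 ^ (L + 2) = 2 ^ (J + 3) * 2 ^ Nat.log 2 m := by
      rw [hL, ← pow_add]
      congr 1
      omega
    rw [h2]
    exact Nat.mul_le_mul_left _ h1
  obtain ⟨D, hD⟩ : ∃ D, D = 3 * k := ⟨_, rfl⟩
  have hDp : (0 : ℝ) < D := by
    rw [hD]
    push_cast
    positivity
  have hLD : 200 * 2 ^ (L + 2) ≤ D := by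
    have : 200 * 2 ^ (L + 2) ≤ 200 * (2 ^ (J + 3) * m) := Nat.mul_le_mul_left _ hL2
    rw [← mul_assoc] at this
    omega
  have hDt : 200 + 4 * t0 ≤ D := by
    have : (200 + 4 * t0) * 1 ≤ (200 + 4 * t0) * m := Nat.mul_le_mul_left _ hm
    omega
  have h3mk : 3 * m < k := by
    have : 200 * m ≤ (200 + 4 * t0) * m := Nat.mul_le_mul_right _ (by omega)
    omega
  -- the mass of the half plane words
  have hmass : ∀ b : Bool, HH m ≤ ENNReal.ofReal (96 * C3 * (m : ℝ) ^ (3 / 4 : ℝ)) * gf (Gd b m (L + 2)) := by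
    intro b
    refine (hJ L m b hm hL1).trans ((mul_le_mul' le_rfl (gd_mass hm b L)).trans ?_)
    rw [← mul_assoc, show (6 : ℝ≥0∞) = ENNReal.ofReal 6 by simp, ← ENNReal.ofReal_mul (by
      have := Num2Aux.UU_pos m
      positivity)]
    refine mul_le_mul' (ENNReal.ofReal_le_ofReal ?_) le_rfl
    have := hUU m hm
    linarith
  have hmain := low_dep (m := m) (A := Gd true m (L + 2)) (B := Gd false m (L + 2))
    (Z := fun s v => ZB (((k : ℤ), (k : ℤ)) + up - ev s - ev v)) (T := TT k)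
    (δ := ENNReal.ofReal (c1 * (uu D / D))) (fun s hs => hs.1) (fun v hv => hv.1.1) (fun s v z hz => hz.1)
    (fun s hs v hv => delta (b := false) hloc' hc1 (D := D) (q := ((k : ℤ), (k : ℤ))) (by
        rw [hD]
        simp only [ip, up]
        push_cast
        ring) (by
        rw [hD]
        simp only
        rw [abs_of_nonneg (by positivity)]
        push_cast
        linarith) (by
        have e : ip ((k : ℤ), (k : ℤ)) up - (if (false : Bool) = true then 2 else 0) = 3 * k := by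
          simp only [ip, up, Bool.false_eq_true, if_false]
          ring
        rw [e]
        exact dvd_mul_right _ _) hLD hDt ⟨hs.1, hs.2.1⟩ ⟨hv.1, hv.2.1⟩)
    (fun s x hs hev v hv z hz => glue_TT h3mk hs hev hv hz)
  have hsum : ENNReal.ofReal (2 * xc) * ∑ g ∈ Rot3, gf (TT k g) ≤ ENNReal.ofReal (16 * PBM.W0r k) := by
    have e1 : ∑ g ∈ Rot3, gf (TT k g) = gf (PlC k false) + gf (PlC k true) := by
      have e2 : Rot3 = {(1, 0), (-1, 1), (0, -1)} := rfl
      rw [e2, Finset.sum_insert (by decide), Finset.sum_insert (by decide), Finset.sum_singleton]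
      unfold TT
      rw [if_pos rfl, if_neg (by decide), if_neg (by decide), if_neg (by decide), if_pos rfl]
      have : gf (∅ : Set (List Bool)) = 0 := by simp [gf]
      rw [this, zero_add]
    rw [e1]
    calc ENNReal.ofReal (2 * xc) * (gf (PlC k false) + gf (PlC k true))
        ≤ ENNReal.ofReal (2 * xc) * (ENNReal.ofReal (4 / xc * PBM.W0r k) + ENNReal.ofReal (4 / xc * PBM.W0r k)) :=
          mul_le_mul' le_rfl (add_le_add (gf_PlC hk1 _) (gf_PlC hk1 _))
      _ = ENNReal.ofReal (16 * PBM.W0r k) := by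
          rw [← two_mul, ← mul_assoc, show (2 : ℝ≥0∞) = ENNReal.ofReal 2 by simp, ← ENNReal.ofReal_mul (by positivity),
            ← ENNReal.ofReal_mul (by positivity)]
          congr 1
          field_simp
          ring
  have hmain2 := hmain.trans hsum
  -- the local lower bound
  have hδ : ENNReal.ofReal (c1 * c4 * ((3 : ℝ) ^ (5 / 4 : ℝ) * (k : ℝ) ^ (5 / 4 : ℝ))⁻¹) ≤
      ENNReal.ofReal (c1 * (uu D / D)) := by
    apply ENNReal.ofReal_le_ofReal
    have e1 : c4 * (D : ℝ) ^ (-(5 / 4) : ℝ) ≤ uu D / D := by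
      rw [le_div_iff₀ hDp]
      have := huu D (by omega)
      have e2 : c4 * (D : ℝ) ^ (-(5 / 4) : ℝ) * D = c4 * (D : ℝ) ^ (-(1 / 4) : ℝ) := by
        nth_rewrite 2 [← Real.rpow_one (D : ℝ)]
        rw [mul_assoc, ← Real.rpow_add hDp]
        norm_num
      rw [e2]
      exact this
    have e2 : (D : ℝ) ^ (-(5 / 4) : ℝ) = ((3 : ℝ) ^ (5 / 4 : ℝ) * (k : ℝ) ^ (5 / 4 : ℝ))⁻¹ := by
      rw [Real.rpow_neg hDp.le, hD]
      push_cast
      rw [Real.mul_rpow (by norm_num) hkp.le]
    rw [e2] at e1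
    calc c1 * c4 * ((3 : ℝ) ^ (5 / 4 : ℝ) * (k : ℝ) ^ (5 / 4 : ℝ))⁻¹
        = c1 * (c4 * ((3 : ℝ) ^ (5 / 4 : ℝ) * (k : ℝ) ^ (5 / 4 : ℝ))⁻¹) := by ring
      _ ≤ _ := mul_le_mul_of_nonneg_left e1 hc1.le
  obtain ⟨x, hx⟩ : ∃ x : ℝ, x = 96 * C3 * (m : ℝ) ^ (3 / 4 : ℝ) := ⟨_, rfl⟩
  obtain ⟨y, hy⟩ : ∃ y : ℝ, y = c1 * c4 * ((3 : ℝ) ^ (5 / 4 : ℝ) * (k : ℝ) ^ (5 / 4 : ℝ))⁻¹ := ⟨_, rfl⟩
  have hx0 : 0 < x := by rw [hx]; positivity
  have hy0 : 0 < y := by rw [hy]; positivity
  rw [← hy] at hδ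
  rw [← hx] at hmass
  have hfin : HH m ^ 2 * ENNReal.ofReal y ≤ ENNReal.ofReal (x ^ 2 * (16 * PBM.W0r k)) := by
    calc HH m ^ 2 * ENNReal.ofReal y
        = HH m * HH m * ENNReal.ofReal y := by rw [sq]
      _ ≤ (ENNReal.ofReal x * gf (Gd true m (L + 2))) * (ENNReal.ofReal x * gf (Gd false m (L + 2))) *
          ENNReal.ofReal (c1 * (uu D / D)) := mul_le_mul' (mul_le_mul' (hmass true) (hmass false)) hδ
      _ = (ENNReal.ofReal x * ENNReal.ofReal x) * (gf (Gd true m (L + 2)) * gf (Gd false m (L + 2)) *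
          ENNReal.ofReal (c1 * (uu D / D))) := by ring
      _ ≤ (ENNReal.ofReal x * ENNReal.ofReal x) * ENNReal.ofReal (16 * PBM.W0r k) := mul_le_mul' le_rfl hmain2
      _ = _ := by
          rw [← ENNReal.ofReal_mul hx0.le, ← ENNReal.ofReal_mul (by positivity)]
          congr 1
          ring
  have hy1 : ENNReal.ofReal y ≠ 0 := by simpa using hy0
  rw [← ENNReal.le_div_iff_mul_le (Or.inl hy1) (Or.inl ENNReal.ofReal_ne_top)] at hfin
  refine hfin.trans ?_
  rw [← ENNReal.ofReal_div_of_pos hy0]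
  apply ENNReal.ofReal_le_ofReal
  have e1 : (m : ℝ) ^ (3 / 2 : ℝ) = ((m : ℝ) ^ (3 / 4 : ℝ)) ^ 2 := by
    rw [← Real.rpow_natCast, ← Real.rpow_mul hmp.le]
    norm_num
  have hk54 : 0 < (k : ℝ) ^ (5 / 4 : ℝ) := by positivity
  have h354 : 0 < (3 : ℝ) ^ (5 / 4 : ℝ) := by positivity
  apply le_of_eq
  rw [hx, hy, hC, e1]
  field_simp

end TPC

end HexObs
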