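import Pool.Agent.TPC.Defs
import Pool.Agent.SIM.RareW

/-!
# TPC A1: the pattern alpha ++ beta has a positive fraction of the mass of the bridges

* `win_mass` : bridges with the lateral displacement in a window, in a tube (localTube summed);
* `second` : second moment inequality;
* `pat_mass` : **ofReal (c * uu t) ≤ gf {G ∈ Brd t | G ∈ Pat s ρ}** for 2 ρ ≤ t ≤ 3 ρ;
* `rare_pat` : bridges without the pattern between two cuts are rare.
-/

set_option autoImplicit false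

namespace HexObs

namespace TPC

open Finset TS SDN RP

open scoped ENNReal

namespace PatA

/-- bridges of height t with the lateral displacement in a window of n values -/
lemma win_mass (R : ℕ) {η : ℝ} (hη : 0 < η) : ∃ (c : ℝ) (t0 : ℕ), 0 < c ∧ 1 ≤ t0 ∧ ∀ (t n : ℕ) (a : ℤ), t0 ≤ t →
    0 ≤ a → Even (a - t) → a + 2 * n ≤ R * t → ENNReal.ofReal (c * (n * (uu t / t))) ≤
      gf {G | G ∈ Brd t ∧ a ≤ latE G ∧ latE G ≤ a + 2 * n ∧
        ∀ i, i ≤ G.length → -(η * t) ≤ (lat G i : ℝ) ∧ (lat G i : ℝ) ≤ latE G + η * t} := by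
  obtain ⟨c, t0, hc, h⟩ := localTube R hη
  refine ⟨c, t0 + 1, hc, by omega, fun t n a ht ha hev hn => ?_⟩
  obtain ⟨F, hF⟩ : ∃ F : ℕ → Set (List Bool), F = fun j : ℕ => {b | b ∈ EndB t (a + 2 * (j : ℤ)) ∧ ∀ i, i ≤ b.length →
      ((min 0 (a + 2 * (j : ℤ)) : ℤ) : ℝ) - η * t ≤ lat b i ∧
        (lat b i : ℝ) ≤ ((max 0 (a + 2 * (j : ℤ)) : ℤ) : ℝ) + η * t} := ⟨_, rfl⟩
  have hsub : (⋃ j ∈ range n, F j) ⊆ {G | G ∈ Brd t ∧ a ≤ latE G ∧ latE G ≤ a + 2 * n ∧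
        ∀ i, i ≤ G.length → -(η * t) ≤ (lat G i : ℝ) ∧ (lat G i : ℝ) ≤ latE G + η * t} := by
    intro G hG
    rw [Set.mem_iUnion₂] at hG
    obtain ⟨j, hj, hG⟩ := hG
    rw [hF] at hG
    obtain ⟨⟨hB, hE⟩, hT⟩ := hG
    rw [mem_range] at hj
    refine ⟨hB, by rw [hE]; omega, by rw [hE]; omega, ?_⟩
    intro i hi
    have h2 := hT i hi
    have h0 : (0 : ℤ) ≤ a + 2 * (j : ℤ) := by omega
    rw [min_eq_left h0, max_eq_right h0] at h2
    rw [hE]
    push_cast at h2 ⊢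
    exact ⟨by linarith [h2.1], h2.2⟩
  refine le_trans ?_ (gf_mono hsub)
  have hdis : ∀ i ∈ range n, ∀ j ∈ range n, i ≠ j → Disjoint (F i) (F j) := by
    intro i _ j _ hij
    rw [Set.disjoint_left]
    intro G hi hj
    rw [hF] at hi hj
    have h1 := hi.1.2
    have h2 := hj.1.2
    rw [h1] at h2
    omega
  rw [gf_biUnion _ _ hdis]
  have hterm : ∀ j ∈ range n, ENNReal.ofReal (c * (uu t / t)) ≤ gf (F j) := by
    intro j hj
    rw [mem_range] at hj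
    rw [hF]
    refine h t (a + 2 * (j : ℤ)) (by omega) ?_ ?_
    · have : a + 2 * (j : ℤ) - t = (a - t) + 2 * j := by ring
      rw [this]
      exact hev.add (even_two_mul _)
    · rw [abs_of_nonneg (by omega)]
      omega
  refine le_trans ?_ (sum_le_sum hterm)
  rw [sum_const, card_range, nsmul_eq_mul, ← ENNReal.ofReal_natCast, ← ENNReal.ofReal_mul (Nat.cast_nonneg _)]
  apply ENNReal.ofReal_le_ofReal
  exact le_of_eq (by ring)

/-- the parity -/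
lemma par (a : ℤ) (t : ℕ) : ∃ δ : ℤ, 0 ≤ δ ∧ δ ≤ 1 ∧ Even (a + δ - t) := by
  rcases Int.even_or_odd (a - t) with h1 | h1
  · exact ⟨0, le_rfl, by norm_num, by rwa [add_zero]⟩
  · refine ⟨1, by norm_num, le_rfl, ?_⟩
    have : a + 1 - t = (a - t) + 1 := by ring
    rw [this]
    exact h1.add_one

/-- the narrow bridges -/
lemma paA_mass : ∃ (c : ℝ) (ρ0 : ℕ), 0 < c ∧ 1 ≤ ρ0 ∧ ∀ ρ t : ℕ, ρ0 ≤ ρ → ρ + 2 ≤ t → t ≤ 3 * ρ →
    ENNReal.ofReal (c * uu t) ≤ gf {A | A ∈ Brd t ∧ A ∈ PaA ρ} := by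
  obtain ⟨c, t0, hc, ht0, h⟩ := win_mass 1 (show (0 : ℝ) < 1 / 100 by norm_num)
  refine ⟨c / 200, t0 + 100, by positivity, by omega, fun ρ t hρ h1 h2 => ?_⟩
  obtain ⟨δ, hδ0, hδ1, hδ⟩ := par 0 t
  rw [zero_add] at hδ
  have hkey := h t (ρ / 32) δ (by omega) hδ0 hδ (by omega)
  refine le_trans ?_ (hkey.trans (gf_mono ?_))
  · apply ENNReal.ofReal_le_ofReal
    have hu := uu_pos t
    have ht : (0 : ℝ) < t := by
      have : 0 < t := by omega
      exact_mod_cast this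
    have h3 : (t : ℝ) ≤ 200 * ((ρ / 32 : ℕ) : ℝ) := by
      have : t ≤ 200 * (ρ / 32) := by omega
      exact_mod_cast this
    have e : c * (((ρ / 32 : ℕ) : ℝ) * (uu t / t)) = c / 200 * uu t * (200 * ((ρ / 32 : ℕ) : ℝ) / t) := by
      field_simp
    rw [e]
    have h4 : 1 ≤ 200 * ((ρ / 32 : ℕ) : ℝ) / t := by rwa [le_div_iff₀ ht, one_mul]
    have h5 : 0 ≤ c / 200 * uu t := by positivity
    nlinarith
  · rintro G ⟨hB, h3, h4, h5⟩
    refine ⟨hB, t, h1, hB, fun i hi => ?_⟩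
    obtain ⟨h6, h7⟩ := h5 i hi
    have hρR : (100 : ℝ) ≤ ρ := by
      have : 100 ≤ ρ := by omega
      exact_mod_cast this
    have htR : (t : ℝ) ≤ 3 * ρ := by exact_mod_cast h2
    have h8 : (latE G : ℝ) ≤ 1 + ρ / 16 := by
      have h9 : 32 * latE G ≤ 32 + 2 * (ρ : ℤ) := by
        have : (32 : ℤ) * ((ρ / 32 : ℕ) : ℤ) ≤ ρ := by
          have : 32 * (ρ / 32) ≤ ρ := Nat.mul_div_le ρ 32
          exact_mod_cast this
        linarith
      have : (32 : ℝ) * latE G ≤ 32 + 2 * ρ := by exact_mod_cast h9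
      linarith
    have h9 : |8 * (lat G i : ℝ)| ≤ ρ := by
      rw [abs_le]
      constructor <;> nlinarith
    exact_mod_cast h9

/-- the bridges with a large lateral displacement, to the right -/
lemma paB_mass0 : ∃ (c : ℝ) (ρ0 : ℕ), 0 < c ∧ 1 ≤ ρ0 ∧ ∀ ρ t : ℕ, ρ0 ≤ ρ → t + 2 ≤ ρ → ρ ≤ 2 * t →
    ENNReal.ofReal (c * uu t) ≤ gf {B | B ∈ Brd t ∧ B ∈ PaB false ρ} := by
  obtain ⟨c, t0, hc, ht0, h⟩ := win_mass 6 (show (0 : ℝ) < 1 by norm_num)
  refine ⟨c / 8, 2 * t0 + 100, by positivity, by omega, fun ρ t hρ h1 h2 => ?_⟩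
  obtain ⟨δ, hδ0, hδ1, hδ⟩ := par (2 * ρ) t
  have hkey := h t (ρ / 4) (2 * ρ + δ) (by omega) (by omega) hδ (by omega)
  refine le_trans ?_ (hkey.trans (gf_mono ?_))
  · apply ENNReal.ofReal_le_ofReal
    have hu := uu_pos t
    have ht : (0 : ℝ) < t := by
      have : 0 < t := by omega
      exact_mod_cast this
    have h3 : (t : ℝ) ≤ 8 * ((ρ / 4 : ℕ) : ℝ) := by
      have : t ≤ 8 * (ρ / 4) := by omega
      exact_mod_cast this
    have e : c * (((ρ / 4 : ℕ) : ℝ) * (uu t / t)) = c / 8 * uu t * (8 * ((ρ / 4 : ℕ) : ℝ) / t) := by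
      field_simp
    rw [e]
    have h4 : 1 ≤ 8 * ((ρ / 4 : ℕ) : ℝ) / t := by rwa [le_div_iff₀ ht, one_mul]
    have h5 : 0 ≤ c / 8 * uu t := by positivity
    nlinarith
  · rintro G ⟨hB, h3, h4, h5⟩
    refine ⟨hB, t, h1, hB, ?_⟩
    simp only [Bool.false_eq_true, if_false]
    omega

/-- mirror images -/
lemma gf_not (S : Set (List Bool)) : gf {t | t.map not ∈ S} = gf S := by
  have hmm : ∀ t : List Bool, (t.map not).map not = t := map_not_not
  apply le_antisymm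
  · have h := gf_le_of_inj (P := {t | t.map not ∈ S}) (Q := S) (fun t => t.map not) (fun t ht => ht) (fun a _ b _ hab => by
      have := congrArg (List.map not) hab
      rwa [hmm, hmm] at this) 1 (fun t _ => by
      unfold wE
      rw [List.length_map, one_mul])
    rwa [one_mul] at h
  · have h := gf_le_of_inj (P := S) (Q := {t | t.map not ∈ S}) (fun t => t.map not) (fun t ht => by
      show (t.map not).map not ∈ S
      rwa [hmm]) (fun a _ b _ hab => by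
      have := congrArg (List.map not) hab
      rwa [hmm, hmm] at this) 1 (fun t _ => by
      unfold wE
      rw [List.length_map, one_mul])
    rwa [one_mul] at h

/-- the bridges with a large lateral displacement -/
lemma paB_mass (s : Bool) : ∃ (c : ℝ) (ρ0 : ℕ), 0 < c ∧ 1 ≤ ρ0 ∧ ∀ ρ t : ℕ, ρ0 ≤ ρ → t + 2 ≤ ρ → ρ ≤ 2 * t →
    ENNReal.ofReal (c * uu t) ≤ gf {B | B ∈ Brd t ∧ B ∈ PaB s ρ} := by
  cases s with
  | false => exact paB_mass0
  | true =>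
    obtain ⟨c, ρ0, hc, h0, h⟩ := paB_mass0
    refine ⟨c, ρ0, hc, h0, fun ρ t h1 h2 h3 => (h ρ t h1 h2 h3).trans ?_⟩
    rw [← gf_not {B | B ∈ Brd t ∧ B ∈ PaB true ρ}]
    refine gf_mono ?_
    rintro B ⟨hB, t', h4, h5, h6⟩
    refine ⟨Brd_not hB, t', h4, Brd_not h5, ?_⟩
    simp only [if_true, latE_not, neg_neg]
    simpa using h6

/-! ### the second moment -/

lemma two_mul_le (a b : ℝ≥0∞) : 2 * a * b ≤ a ^ 2 + b ^ 2 := by
  rcases eq_or_ne a ⊤ with rfl | ha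
  · simp
  rcases eq_or_ne b ⊤ with rfl | hb
  · simp
  lift a to NNReal using ha
  lift b to NNReal using hb
  have h : 2 * a * b ≤ a ^ 2 + b ^ 2 := by
    have := two_mul_le_add_sq (a : ℝ) (b : ℝ)
    exact_mod_cast this
  exact_mod_cast h

/-- **second moment inequality** -/
theorem second (W : Finset ℕ) (F : ℕ → Set (List Bool)) (l : ℝ≥0∞) :
    2 * l * ∑ s ∈ W, gf (F s) ≤ l ^ 2 * gf (⋃ s ∈ W, F s) + ∑ s ∈ W, ∑ s' ∈ W, gf (F s ∩ F s') := by
  classical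
  obtain ⟨I, hI⟩ : ∃ I : Set (List Bool) → List Bool → ℝ≥0∞, I = fun S t => if t ∈ S then 1 else 0 := ⟨_, rfl⟩
  have hg : ∀ S : Set (List Bool), gf S = ∑' t, wE t * I S t := by
    intro S
    unfold gf
    rw [_root_.tsum_subtype S (fun t => wE t)]
    refine tsum_congr fun t => ?_
    rw [Set.indicator_apply, hI]
    by_cases h : t ∈ S <;> simp [h]
  have hs : ∀ (V : Finset ℕ) (G : ℕ → Set (List Bool)), ∑ s ∈ V, gf (G s) = ∑' t, wE t * ∑ s ∈ V, I (G s) t := by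
    intro V G
    rw [Finset.sum_congr rfl fun s _ => hg (G s), ← Summable.tsum_finsetSum (fun _ _ => ENNReal.summable)]
    exact tsum_congr fun t => by rw [Finset.mul_sum]
  have hs2 : ∑ s ∈ W, ∑ s' ∈ W, gf (F s ∩ F s') = ∑' t, wE t * (∑ s ∈ W, I (F s) t) ^ 2 := by
    rw [Finset.sum_congr rfl fun s _ => hs W fun s' => F s ∩ F s', ← Summable.tsum_finsetSum (fun _ _ => ENNReal.summable)]
    refine tsum_congr fun t => ?_
    rw [← Finset.mul_sum]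
    congr 1
    rw [sq, Finset.sum_mul_sum]
    refine Finset.sum_congr rfl fun s _ => Finset.sum_congr rfl fun s' _ => ?_
    rw [hI]
    by_cases h : t ∈ F s <;> by_cases h' : t ∈ F s' <;> simp [h, h']
  rw [hs, hs2, hg, ← ENNReal.tsum_mul_left, ← ENNReal.tsum_mul_left, ← ENNReal.tsum_add]
  refine ENNReal.tsum_le_tsum fun t => ?_
  by_cases h : t ∈ ⋃ s ∈ W, F s
  · have e : I (⋃ s ∈ W, F s) t = 1 := by
      rw [hI]
      simp only [h, if_true]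
    rw [e, mul_one]
    calc 2 * l * (wE t * ∑ s ∈ W, I (F s) t) = wE t * (2 * l * ∑ s ∈ W, I (F s) t) := by ring
      _ ≤ wE t * (l ^ 2 + (∑ s ∈ W, I (F s) t) ^ 2) := mul_le_mul' le_rfl (two_mul_le _ _)
      _ = _ := by ring
  · have e : ∑ s ∈ W, I (F s) t = 0 := by
      refine Finset.sum_eq_zero fun s hs => ?_
      rw [hI]
      have : t ∉ F s := fun h1 => h (Set.mem_iUnion₂.2 ⟨s, hs, h1⟩)
      simp only [this, if_false]
    rw [e, mul_zero, mul_zero]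
    exact zero_le

/-- alpha of height h, beta of height t - h -/
def FP (s : Bool) (ρ t h : ℕ) : Set (List Bool) := {G | ∃ A B, (A ∈ Brd h ∧ A ∈ PaA ρ) ∧ (B ∈ Brd (t - h) ∧ B ∈ PaB s ρ) ∧
  G = A ++ B}

lemma FP_low (s : Bool) (ρ t h : ℕ) :
    gf {A | A ∈ Brd h ∧ A ∈ PaA ρ} * gf {B | B ∈ Brd (t - h) ∧ B ∈ PaB s ρ} ≤ gf (FP s ρ t h) :=
  mul_le_gf (fun A hA B hB => ⟨A, B, hA, hB, rfl⟩) fun _ hA _ hB _ hA' _ hB' he =>
    (cut_unique hA.1 hA'.1 hB.1 hB'.1 he).1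

lemma FP_up (s : Bool) (ρ t h : ℕ) : gf (FP s ρ t h) ≤ gf (Brd h) * gf (Brd (t - h)) :=
  gf_le_mul (by
    rintro G ⟨A, B, hA, hB, rfl⟩
    exact ⟨A, hA.1, B, hB.1, rfl⟩)

lemma FP_two (s : Bool) (ρ : ℕ) {t h h' : ℕ} (hh : h ≤ h') :
    gf (FP s ρ t h ∩ FP s ρ t h') ≤ gf (Brd h) * (gf (Brd (h' - h)) * gf (Brd (t - h'))) := by
  refine (gf_le_mul (R := {V | ∃ C B, C ∈ Brd (h' - h) ∧ B ∈ Brd (t - h') ∧ V = C ++ B}) ?_).trans
    (mul_le_mul' le_rfl (gf_le_mul ?_))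
  · rintro G ⟨⟨A, B, hA, hB, rfl⟩, A', B', hA', hB', he⟩
    obtain ⟨v, hv, h1, h2⟩ := cut_nested hA.1 hA'.1 hB.1 hB'.1 hh he
    exact ⟨A, hA.1, B, ⟨v, B', hv, hB'.1, h2⟩, rfl⟩
  · rintro V ⟨C, B, hC, hB, rfl⟩
    exact ⟨C, hC, B, hB, rfl⟩

/-- numbers -/
lemma fin_num {x S D u U ρ c C : ℝ} (hρ : 0 < ρ) (hU : 0 < U) (hc : 0 < c) (hC : 0 < C)
    (hS : c * (U ^ 2 / ρ) ≤ S) (hD : D ≤ C * (U ^ 3 / ρ)) (hu : u ≤ U / ρ)
    (h : 2 * (C / c * U) * S ≤ (C / c * U) ^ 2 * x + D) : c ^ 2 / C * u ≤ x := by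
  obtain ⟨l, hl⟩ : ∃ l, l = C / c * U := ⟨_, rfl⟩
  rw [← hl] at h
  have hl0 : 0 < l := by rw [hl]; positivity
  have h1 : D ≤ l * S := by
    refine hD.trans ?_
    have h2 : l * (c * (U ^ 2 / ρ)) ≤ l * S := mul_le_mul_of_nonneg_left hS hl0.le
    refine le_trans (le_of_eq ?_) h2
    rw [hl]
    field_simp
  have h2 : l * S ≤ l ^ 2 * x := by nlinarith
  have h3 : S ≤ l * x := by
    have : l * S ≤ l * (l * x) := by nlinarith
    exact le_of_mul_le_mul_left this hl0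
  have h4 : c * (U ^ 2 / ρ) ≤ C / c * U * x := by
    rw [← hl]
    exact hS.trans h3
  have h5 : C / c * U * (c ^ 2 / C * (U / ρ)) ≤ C / c * U * x := by
    refine le_trans (le_of_eq ?_) h4
    field_simp
  have h6 := le_of_mul_le_mul_left h5 (by positivity)
  refine le_trans ?_ h6
  exact mul_le_mul_of_nonneg_left hu (by positivity)

/-- **the mass of the pattern** -/
theorem pat_mass (s : Bool) : ∃ (c : ℝ) (ρ0 : ℕ), 0 < c ∧ 1 ≤ ρ0 ∧ ∀ ρ t : ℕ, ρ0 ≤ ρ → 2 * ρ ≤ t → t ≤ 3 * ρ →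
    ENNReal.ofReal (c * uu t) ≤ gf {G | G ∈ Brd t ∧ G ∈ Pat s ρ} := by
  obtain ⟨cA, ρA, hcA, hρA, hA⟩ := paA_mass
  obtain ⟨cB, ρB, hcB, hρB, hB⟩ := paB_mass s
  have hCW : 0 < 6 + CW := SIM.RareA.CW0
  obtain ⟨c3, hc3⟩ : ∃ c3 : ℝ, c3 = cA * cB / (40 * (6 + CW) ^ 2) := ⟨_, rfl⟩
  have hc30 : 0 < c3 := by rw [hc3]; positivity
  refine ⟨c3 ^ 2 / 6, ρA + ρB + 40, by positivity, by omega, fun ρ t hρ h1 h2 => ?_⟩
  obtain ⟨W, hW⟩ : ∃ W : Finset ℕ, W = Icc (t + 2 - ρ) (t - (ρ + 1) / 2) := ⟨_, rfl⟩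
  have hWm : ∀ h ∈ W, ρ + 2 ≤ h ∧ h ≤ t ∧ t - h + 2 ≤ ρ ∧ ρ ≤ 2 * (t - h) := by
    intro h hh
    rw [hW, mem_Icc] at hh
    omega
  have hρR : (40 : ℝ) ≤ ρ := by
    have : 40 ≤ ρ := by omega
    exact_mod_cast this
  have hρ0 : (0 : ℝ) < ρ := by linarith
  have htR : (t : ℝ) ≤ 3 * ρ := by exact_mod_cast h2
  have htR2 : 2 * (ρ : ℝ) ≤ t := by exact_mod_cast h1
  have ht0 : (0 : ℝ) < t := by linarith
  obtain ⟨U, hU⟩ : ∃ U : ℝ, U = UU t := ⟨_, rfl⟩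
  have hU0 : 0 < U := by rw [hU]; exact Num2Aux.UU_pos t
  have hU1 : 1 ≤ U := by
    rw [hU]
    have h3 := Num2Aux.UU_mono (Nat.zero_le t)
    have h4 : UU 0 = 1 := by
      unfold UU
      rw [zero_add, sum_range_one, uu_zero]
    linarith
  have hut : uu t ≤ U / ρ := by
    rw [le_div_iff₀ hρ0]
    have h3 := Num2Aux.mul_le_UU t
    have h4 := uu_pos t
    rw [← hU] at h3
    nlinarith
  have huk : ∀ h : ℕ, ρ ≤ 2 * h → h ≤ t → uu h ≤ 2 * (U / ρ) := by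
    intro h h3 h4
    have h5 := Num2Aux.mul_le_UU h
    have h6 : UU h ≤ U := by rw [hU]; exact Num2Aux.UU_mono h4
    have h7 : (ρ : ℝ) ≤ 2 * h := by exact_mod_cast h3
    have h8 := uu_pos h
    rw [show 2 * (U / ρ) = 2 * U / ρ by ring, le_div_iff₀ hρ0]
    nlinarith
  have hlow : U / ρ ≤ 3 * (6 + CW) * uu t := by
    have h3 := UU_le_mul (T := t) (by omega)
    rw [← hU] at h3
    rw [div_le_iff₀ hρ0]
    have h4 := uu_pos t
    calc U ≤ (6 + CW) * (t * uu t) := h3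
      _ ≤ (6 + CW) * (3 * ρ * uu t) := by gcongr
      _ = _ := by ring
  have hcard : (W.card : ℝ) ≤ ρ ∧ (ρ : ℝ) / 4 ≤ W.card := by
    rw [hW, Nat.card_Icc]
    constructor
    · have : t - (ρ + 1) / 2 + 1 - (t + 2 - ρ) ≤ ρ := by omega
      exact_mod_cast this
    · have : ρ ≤ 4 * (t - (ρ + 1) / 2 + 1 - (t + 2 - ρ)) := by omega
      have h3 : (ρ : ℝ) ≤ 4 * ((t - (ρ + 1) / 2 + 1 - (t + 2 - ρ) : ℕ) : ℝ) := by exact_mod_cast this
      linarith
  -- the union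
  have hsub : (⋃ h ∈ W, FP s ρ t h) ⊆ {G | G ∈ Brd t ∧ G ∈ Pat s ρ} := by
    intro G hG
    rw [Set.mem_iUnion₂] at hG
    obtain ⟨h, hh, A, B, hA', hB', rfl⟩ := hG
    have h3 := Brd_append hA'.1 hB'.1
    rw [show h + (t - h) = t by have := hWm h hh; omega] at h3
    exact ⟨h3, A, B, hA'.2, hB'.2, rfl⟩
  have hfin : gf {G | G ∈ Brd t ∧ G ∈ Pat s ρ} ≠ ⊤ := by
    refine ne_top_of_le_ne_top ?_ (gf_mono (Q := Brd t) fun Z hZ => hZ.1)
    rw [SIM.RareA.BT_uu]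
    exact ENNReal.ofReal_ne_top
  -- the first moment
  have hS : ∀ h ∈ W, ENNReal.ofReal (cA * cB * uu t ^ 2) ≤ gf (FP s ρ t h) := by
    intro h hh
    obtain ⟨b1, b2, b3, b4⟩ := hWm h hh
    refine le_trans ?_ (FP_low s ρ t h)
    refine le_trans ?_ (mul_le_mul' (hA ρ h (by omega) b1 (by omega)) (hB ρ (t - h) (by omega) b3 b4))
    rw [← ENNReal.ofReal_mul (mul_nonneg hcA.le (uu_pos _).le)]
    apply ENNReal.ofReal_le_ofReal
    have h3 : uu t ≤ uu h := uu_anti b2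
    have h4 : uu t ≤ uu (t - h) := uu_anti (by omega)
    have h5 := uu_pos t
    have h6 : uu t * uu t ≤ uu h * uu (t - h) := mul_le_mul h3 h4 h5.le (uu_pos _).le
    calc cA * cB * uu t ^ 2 = cA * cB * (uu t * uu t) := by ring
      _ ≤ cA * cB * (uu h * uu (t - h)) := mul_le_mul_of_nonneg_left h6 (by positivity)
      _ = _ := by ring
  -- the second moment
  have hD : ∀ h ∈ W, ∑ h' ∈ W, gf (FP s ρ t h ∩ FP s ρ t h') ≤ ENNReal.ofReal (6 * (U ^ 3 / ρ ^ 2)) := by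
    intro h hh
    have hq : ∀ v w : ℕ, v ∈ W → w ∈ W → v ≤ w → gf (FP s ρ t v ∩ FP s ρ t w) ≤
        ENNReal.ofReal (2 * (U / ρ) ^ 2 * uu (w - v)) := by
      intro v w hv hw hvw
      obtain ⟨v1, v2, v3, v4⟩ := hWm v hv
      obtain ⟨w1, w2, w3, w4⟩ := hWm w hw
      refine (FP_two s ρ hvw).trans ?_
      rw [SIM.RareA.BT_uu, SIM.RareA.BT_uu, SIM.RareA.BT_uu, ← ENNReal.ofReal_mul (uu_pos _).le,
        ← ENNReal.ofReal_mul (uu_pos _).le]
      apply ENNReal.ofReal_le_ofReal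
      have h3 : uu v ≤ U / ρ := by
        have h5 := Num2Aux.mul_le_UU v
        have h6 : UU v ≤ U := by rw [hU]; exact Num2Aux.UU_mono v2
        have h7 : (ρ : ℝ) ≤ v := by
          have : ρ ≤ v := by omega
          exact_mod_cast this
        have h8 := uu_pos v
        rw [le_div_iff₀ hρ0]
        nlinarith
      have h4 := huk (t - w) w4 (by omega)
      have hUr : 0 < U / ρ := by positivity
      calc uu v * (uu (w - v) * uu (t - w)) ≤ U / ρ * (uu (w - v) * (2 * (U / ρ))) := by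
            refine mul_le_mul h3 (mul_le_mul_of_nonneg_left h4 (uu_pos _).le)
              (mul_nonneg (uu_pos _).le (uu_pos _).le) hUr.le
        _ = _ := by ring
    have hterm : ∀ h' ∈ W, gf (FP s ρ t h ∩ FP s ρ t h') ≤
        ENNReal.ofReal (2 * (U / ρ) ^ 2 * uu ((h' - h) + (h - h'))) := by
      intro h' hh'
      rcases le_total h h' with h3 | h3
      · rw [Nat.sub_eq_zero_of_le h3, add_zero]
        exact hq h h' hh hh' h3
      · rw [Set.inter_comm, Nat.sub_eq_zero_of_le h3, zero_add]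
        exact hq h' h hh' hh h3
    refine (sum_le_sum hterm).trans ?_
    rw [← ENNReal.ofReal_sum_of_nonneg (fun h' _ => mul_nonneg (by positivity) (uu_pos _).le), ← mul_sum]
    apply ENNReal.ofReal_le_ofReal
    have himg : ∀ V : Finset ℕ, ∀ f : ℕ → ℕ, Set.InjOn f V → (∀ x ∈ V, f x ≤ t) → ∑ x ∈ V, uu (f x) ≤ U := by
      intro V f hinj hf
      rw [hU]
      unfold UU
      rw [← sum_image (f := uu) (s := V) (g := f) hinj]
      refine sum_le_sum_of_subset_of_nonneg ?_ fun y _ _ => (uu_pos y).le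
      intro y hy
      rw [mem_image] at hy
      obtain ⟨x, hx, rfl⟩ := hy
      rw [mem_range]
      have := hf x hx
      omega
    have hle : ∑ h' ∈ W, uu ((h' - h) + (h - h')) ≤ 2 * U := by
      rw [← sum_filter_add_sum_filter_not W (· < h)]
      have e1 := himg (W.filter (· < h)) (fun h' => (h' - h) + (h - h')) (by
        intro a ha b hb hab
        simp only [coe_filter, Set.mem_ofPred_eq] at ha hb hab
        omega) (fun x hx => by
        rw [mem_filter] at hx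
        have h3 := hWm x hx.1
        have h4 := hWm h hh
        omega)
      have e2 := himg (W.filter (fun x => ¬ x < h)) (fun h' => (h' - h) + (h - h')) (by
        intro a ha b hb hab
        simp only [coe_filter, Set.mem_ofPred_eq] at ha hb hab
        omega) (fun x hx => by
        rw [mem_filter] at hx
        have h3 := hWm x hx.1
        omega)
      linarith
    have h0 : 0 ≤ 2 * (U / ρ) ^ 2 := by positivity
    calc 2 * (U / ρ) ^ 2 * ∑ h' ∈ W, uu ((h' - h) + (h - h')) ≤ 2 * (U / ρ) ^ 2 * (2 * U) :=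
          mul_le_mul_of_nonneg_left hle h0
      _ ≤ _ := by
          rw [div_pow]
          have h3 : 0 ≤ U ^ 3 / (ρ : ℝ) ^ 2 := by positivity
          have h4 : 2 * (U ^ 2 / (ρ : ℝ) ^ 2) * (2 * U) = 4 * (U ^ 3 / (ρ : ℝ) ^ 2) := by ring
          rw [h4]
          linarith
  -- the conclusion
  obtain ⟨x, hx⟩ : ∃ x : ℝ, x = (gf {G | G ∈ Brd t ∧ G ∈ Pat s ρ}).toReal := ⟨_, rfl⟩
  have hx0 : 0 ≤ x := by rw [hx]; exact ENNReal.toReal_nonneg
  have ex : gf {G | G ∈ Brd t ∧ G ∈ Pat s ρ} = ENNReal.ofReal x := by rw [hx, ENNReal.ofReal_toReal hfin]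
  rw [ex]
  apply ENNReal.ofReal_le_ofReal
  obtain ⟨S, hSe⟩ : ∃ S : ℝ, S = c3 * (U ^ 2 / ρ) := ⟨_, rfl⟩
  have hS0 : 0 < S := by rw [hSe]; positivity
  have hS1 : ENNReal.ofReal S ≤ ∑ h ∈ W, gf (FP s ρ t h) := by
    refine le_trans ?_ (sum_le_sum hS)
    rw [sum_const, nsmul_eq_mul, ← ENNReal.ofReal_natCast, ← ENNReal.ofReal_mul (Nat.cast_nonneg _)]
    apply ENNReal.ofReal_le_ofReal
    have h3 : (U / ρ) ^ 2 ≤ (3 * (6 + CW) * uu t) ^ 2 := pow_le_pow_left₀ (by positivity) hlow 2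
    have h4 : c3 * (U ^ 2 / ρ) = cA * cB * (U / ρ) ^ 2 / (40 * (6 + CW) ^ 2) * ρ := by
      rw [hc3]
      field_simp
    have h5 := uu_pos t
    rw [hSe, h4]
    calc cA * cB * (U / ρ) ^ 2 / (40 * (6 + CW) ^ 2) * ρ ≤
          cA * cB * (3 * (6 + CW) * uu t) ^ 2 / (40 * (6 + CW) ^ 2) * ρ := by gcongr
      _ = 9 / 10 * (cA * cB * uu t ^ 2) * (ρ / 4) := by
          field_simp
          ring
      _ ≤ 1 * (cA * cB * uu t ^ 2) * (W.card : ℝ) := by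
          refine mul_le_mul ?_ hcard.2 (by positivity) (by positivity)
          have : 0 ≤ cA * cB * uu t ^ 2 := by positivity
          linarith
      _ = _ := by ring
  obtain ⟨D, hDe⟩ : ∃ D : ℝ, D = 6 * (U ^ 3 / ρ) := ⟨_, rfl⟩
  have hD0 : 0 < D := by rw [hDe]; positivity
  have hD1 : ∑ h ∈ W, ∑ h' ∈ W, gf (FP s ρ t h ∩ FP s ρ t h') ≤ ENNReal.ofReal D := by
    refine (sum_le_sum hD).trans ?_
    rw [sum_const, nsmul_eq_mul, ← ENNReal.ofReal_natCast, ← ENNReal.ofReal_mul (Nat.cast_nonneg _)]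
    apply ENNReal.ofReal_le_ofReal
    rw [hDe]
    calc (W.card : ℝ) * (6 * (U ^ 3 / ρ ^ 2)) ≤ ρ * (6 * (U ^ 3 / ρ ^ 2)) :=
          mul_le_mul_of_nonneg_right hcard.1 (by positivity)
      _ = _ := by field_simp
  refine fin_num (S := S) (D := D) hρ0 hU0 hc30 (show (0 : ℝ) < 6 by norm_num) (le_of_eq hSe.symm) (le_of_eq hDe) hut ?_
  obtain ⟨l, hl⟩ : ∃ l : ℝ, l = 6 / c3 * U := ⟨_, rfl⟩
  have hl0 : 0 < l := by rw [hl]; positivity
  rw [← hl]
  have hsec := second W (FP s ρ t) (ENNReal.ofReal l)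
  have h3 : 2 * ENNReal.ofReal l * ENNReal.ofReal S ≤ ENNReal.ofReal l ^ 2 * ENNReal.ofReal x + ENNReal.ofReal D := by
    refine (mul_le_mul' le_rfl hS1).trans (hsec.trans (add_le_add (mul_le_mul' le_rfl ?_) hD1))
    rw [← ex]
    exact gf_mono hsub
  rw [show (2 : ℝ≥0∞) = ENNReal.ofReal 2 by norm_num, ← ENNReal.ofReal_mul (by norm_num), ← ENNReal.ofReal_mul (by positivity),
    ← ENNReal.ofReal_pow hl0.le, ← ENNReal.ofReal_mul (by positivity), ← ENNReal.ofReal_add (by positivity) hD0.le,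
    ENNReal.ofReal_le_ofReal_iff (by positivity)] at h3
  exact h3

end PatA

open PatA

/-- **A1: the mass of the pattern** -/
theorem pat_mass (s : Bool) : ∃ (c : ℝ) (ρ0 : ℕ), 0 < c ∧ 1 ≤ ρ0 ∧ ∀ ρ t : ℕ, ρ0 ≤ ρ → 2 * ρ ≤ t → t ≤ 3 * ρ →
    ENNReal.ofReal (c * uu t) ≤ gf {G | G ∈ Brd t ∧ G ∈ Pat s ρ} := PatA.pat_mass s

/-- **A1: bridges without the pattern are rare** -/
theorem rare_pat (s : Bool) {ε : ℝ} (hε : 0 < ε) : ∃ C ρ0 : ℕ, 1 ≤ C ∧ 1 ≤ ρ0 ∧ ∀ ρ h : ℕ, ρ0 ≤ ρ → C * ρ ≤ h →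
    gf {Z | Z ∈ Brd h ∧ Z ∈ NoPat s ρ} ≤ ENNReal.ofReal (ε * uu h) := by
  obtain ⟨c, ρ0, hc, h0, hm⟩ := pat_mass s
  obtain ⟨C, hC, h⟩ := SIM.rare hc hε
  refine ⟨C, ρ0, hC, h0, fun ρ k hρ hk => le_trans (gf_mono ?_) (h ρ (Pat s ρ) (by omega) (fun t => hm ρ t hρ) k hk)⟩
  rintro Z ⟨hZ, hN⟩
  refine ⟨hZ, ?_⟩
  rintro ⟨A, G, B, hA, hG, -, he⟩
  exact hN A G B hA hG he

end TPC

end HexObs
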