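import Pool.Agent.TPC.Defs
import Pool.Agent.TPC.CylLift
import Pool.Agent.BAR.Lat
import Pool.Agent.T2.ANorm

/-!
# TPC, A7: the two-point function of the cylinder from above, `Xb` from below

`Cyw` is summed over the scales and the windings with (SD).
-/

set_option autoImplicit false

namespace HexObs

namespace TPC

open Finset TS SDN NTW NTA

open scoped ENNReal

/-- the words of the cylinder by scales -/
theorem Cyw_sub {k L : ℕ} (hL : L = Nat.log 2 k) (hk : 2 ≤ k) (z : ℤ) : Cyw k ((2 * z + 1) * k) ⊆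
    ⋃ i : ℕ, {t | (t ∈ EndK (L + i) ((2 * z + 1) * k, (2 * z + 1) * k) ∧ Dsj k t) ∧ |2 * z + 1| ≤ 2 ^ i} := by
  intro t ht
  obtain ⟨h1, h2, h3⟩ := ht
  classical
  have hex := BAR.WL_ex h1
  obtain ⟨K, hK⟩ : ∃ K, K = Nat.find hex := ⟨_, rfl⟩
  have hK1 : t ∈ WL K := by
    rw [hK]
    exact Nat.find_spec hex
  have hK2 : ∀ j, j < K → t ∉ WL j := by
    intro j hj
    rw [hK] at hj
    exact Nat.find_min hex hj
  -- the end
  have h4 : |(2 * z + 1) * (k : ℤ)| ≤ 2 ^ K := by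
    have h5 := hK1.2 t.length le_rfl false
    have h6 : row false (vx oo up t t.length) = (2 * z + 1) * (k : ℤ) := by
      rw [h2]
      unfold row lvl
      have h7 : ip (((2 * z + 1) * (k : ℤ), (2 * z + 1) * (k : ℤ)) : Pt) (hd false) = 3 * ((2 * z + 1) * k) := by
        simp only [ip, hd, up, Bool.false_eq_true, if_false]
        ring
      rw [h7]
      exact Int.mul_ediv_cancel_left _ (by norm_num)
    rw [h6] at h5
    exact h5
  have hL1 : 2 ^ L ≤ k := by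
    rw [hL]
    exact Nat.pow_log_le_self 2 (by omega)
  have hL2 : 1 ≤ L := by
    rw [hL]
    exact (Nat.le_log_iff_pow_le (by norm_num) (by omega)).2 (by omega)
  have hodd : 1 ≤ |2 * z + 1| := Int.one_le_abs (by omega)
  rw [abs_mul, Nat.abs_cast] at h4
  have hL1' : ((2 : ℤ)) ^ L ≤ k := by exact_mod_cast hL1
  have hp : (0 : ℤ) < 2 ^ L := by positivity
  have hLK : L ≤ K := by
    have h5 : (2 : ℤ) ^ L ≤ 2 ^ K := by nlinarith
    exact (pow_le_pow_iff_right₀ (by norm_num : (1 : ℤ) < 2)).1 h5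
  refine Set.mem_iUnion.2 ⟨K - L, ⟨⟨?_, ?_, ?_⟩, ?_⟩, ?_⟩
  · rw [show L + (K - L) = K by omega]
    exact hK1
  · rw [show L + (K - L) - 1 = K - 1 by omega]
    exact hK2 _ (by omega)
  · exact h2
  · exact h3
  · have h5 : (2 : ℤ) ^ K = 2 ^ (K - L) * 2 ^ L := by rw [← pow_add, show K - L + L = K by omega]
    rw [h5] at h4
    by_contra hcon
    push Not at hcon
    nlinarith [mul_le_mul_of_nonneg_left hL1' (abs_nonneg (2 * z + 1)), mul_lt_mul_of_pos_right hcon hp]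

/-- the number of the windings at the scale i -/
theorem wind_card (i : ℕ) : {z : ℤ | |2 * z + 1| ≤ 2 ^ i} ⊆ Set.Icc (-(2 : ℤ) ^ i) (2 ^ i - 1) := by
  intro z hz
  have h1 : |2 * z + 1| ≤ 2 ^ i := hz
  rw [abs_le] at h1
  have h2 : (1 : ℤ) ≤ 2 ^ i := one_le_pow₀ (by norm_num)
  exact ⟨by omega, by omega⟩

theorem tsum_wind (i : ℕ) (f : ℤ → ℝ≥0∞) (b : ℝ≥0∞) (hf : ∀ z, f z ≤ b) (h0 : ∀ z, ¬|2 * z + 1| ≤ 2 ^ i → f z = 0) :
    ∑' z : ℤ, f z ≤ 2 ^ (i + 1) * b := by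
  classical
  have h1 : ∑' z : ℤ, f z = ∑ z ∈ Finset.Icc (-(2 : ℤ) ^ i) (2 ^ i - 1), f z := by
    refine tsum_eq_sum fun z hz => h0 z fun h => hz ?_
    have := wind_card i h
    exact Finset.mem_Icc.2 this
  rw [h1]
  refine (Finset.sum_le_card_nsmul _ _ b fun z _ => hf z).trans (le_of_eq ?_)
  rw [Int.card_Icc, nsmul_eq_mul]
  have h2 : (2 ^ i - 1 + 1 - -(2 : ℤ) ^ i).toNat = 2 ^ (i + 1) := by
    have h3 : (2 ^ i - 1 + 1 - -(2 : ℤ) ^ i) = ((2 ^ (i + 1) : ℕ) : ℤ) := by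
      push_cast
      ring
    rw [h3, Int.toNat_natCast]
  rw [h2]
  push_cast
  rfl

theorem ser_sum {B c : ℝ} (hB : 0 ≤ B) (hc : 0 < c) : Summable fun i : ℕ => B ^ i * (2 : ℝ) ^ (-(c * 2 ^ i)) := by
  obtain ⟨β, hβ⟩ : ∃ β : ℝ, β = Real.logb 2 (B + 1) := ⟨_, rfl⟩
  have hBβ : (2 : ℝ) ^ β = B + 1 := by
    rw [hβ]
    exact Real.rpow_logb (by norm_num) (by norm_num) (by linarith)
  have h1 : Filter.Tendsto (fun i : ℕ => (i : ℝ) ^ 1 * (1 / 2 : ℝ) ^ i) Filter.atTop (nhds 0) :=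
    tendsto_pow_const_mul_const_pow_of_abs_lt_one 1 (by rw [abs_of_pos] <;> norm_num)
  have h2 : ∀ᶠ i : ℕ in Filter.atTop, (i : ℝ) ^ 1 * (1 / 2 : ℝ) ^ i < c / (|β| + 1) :=
    h1.eventually (gt_mem_nhds (by positivity))
  have h3 : ∀ᶠ i : ℕ in Filter.atTop, ‖B ^ i * (2 : ℝ) ^ (-(c * 2 ^ i))‖ ≤ (1 / 2 : ℝ) ^ i := by
    filter_upwards [h2] with i hi
    have hp : (0 : ℝ) < 2 ^ i := by positivity
    have h4 : (i : ℝ) * (|β| + 1) ≤ c * 2 ^ i := by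
      rw [pow_one, one_div, inv_pow, lt_div_iff₀ (by positivity), mul_right_comm] at hi
      have h5 := mul_lt_mul_of_pos_right hi hp
      rw [mul_assoc, inv_mul_cancel₀ hp.ne', mul_one] at h5
      exact h5.le
    rw [Real.norm_of_nonneg (by positivity)]
    have h6 : B ^ i ≤ (2 : ℝ) ^ ((i : ℝ) * |β|) := by
      calc B ^ i ≤ (B + 1) ^ i := pow_le_pow_left₀ hB (by linarith) i
        _ = (2 : ℝ) ^ (β * i) := by rw [← hBβ, ← Real.rpow_natCast, ← Real.rpow_mul (by norm_num)]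
        _ ≤ _ := by
          apply Real.rpow_le_rpow_of_exponent_le (by norm_num)
          rw [mul_comm]
          exact mul_le_mul_of_nonneg_left (le_abs_self _) (by positivity)
    calc B ^ i * (2 : ℝ) ^ (-(c * 2 ^ i)) ≤ (2 : ℝ) ^ ((i : ℝ) * |β|) * (2 : ℝ) ^ (-(c * 2 ^ i)) :=
          mul_le_mul_of_nonneg_right h6 (by positivity)
      _ = (2 : ℝ) ^ ((i : ℝ) * |β| - c * 2 ^ i) := by
          rw [← Real.rpow_add (by norm_num)]
          ring_nf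
      _ ≤ (2 : ℝ) ^ (-(i : ℝ)) := by
          apply Real.rpow_le_rpow_of_exponent_le (by norm_num)
          linarith
      _ = _ := by
          rw [Real.rpow_neg (by norm_num), Real.rpow_natCast, one_div, inv_pow]
  exact Summable.of_norm_bounded_eventually_nat (summable_geometric_of_lt_one (by norm_num) (by norm_num)) h3

/-- the series of the scales -/
theorem ser_fin {B c : ℝ} (hB : 0 ≤ B) (hc : 0 < c) : ∃ S : ℝ, 0 < S ∧
    ∑' i : ℕ, ENNReal.ofReal (B ^ i * (2 : ℝ) ^ (-(c * 2 ^ i))) ≤ ENNReal.ofReal S := by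
  have h1 := ser_sum hB hc
  refine ⟨∑' i : ℕ, B ^ i * (2 : ℝ) ^ (-(c * 2 ^ i)), ?_, ?_⟩
  · have h2 : 0 < (B ^ 0 * (2 : ℝ) ^ (-(c * 2 ^ 0))) := by positivity
    exact lt_of_lt_of_le h2 (h1.le_tsum 0 fun i _ => by positivity)
  · rw [ENNReal.ofReal_tsum_of_nonneg (fun i => by positivity) h1]

theorem cmb (a x y : ℝ) (ha : 0 ≤ a) (hx : 0 ≤ x) (hy : 0 ≤ y) (Z : ℝ≥0∞) :
    ENNReal.ofReal a * (ENNReal.ofReal x * (ENNReal.ofReal y * Z) ^ 2) = ENNReal.ofReal (a * x * (y * y)) * Z ^ 2 := by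
  rw [ENNReal.ofReal_mul (by positivity), ENNReal.ofReal_mul ha, ENNReal.ofReal_mul hy]
  ring

/-- **A7.** The two-point function of the cylinder is at most of the order U X ^ 2 / k ^ 2 -/
theorem W0_le_of (hX : XDbl) (hS : SD) : ∃ (C : ℝ) (k0 : ℕ), 0 < C ∧ ∀ k, k0 ≤ k → ∀ hk : 1 ≤ k,
    ENNReal.ofReal (Pool.Agent.GLD.W0 hk).re ≤ ENNReal.ofReal (C * (Ub (Nat.log 2 k) / 4 ^ Nat.log 2 k)) *
      Xb (Nat.log 2 k) ^ 2 := by
  obtain ⟨D, hD, hd⟩ := hX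
  obtain ⟨C, c, k0, hC, hc, hS⟩ := hS
  have hXp : ∀ L i : ℕ, Xb (L + i) ≤ ENNReal.ofReal (D ^ i) * Xb L := by
    intro L i
    induction i with
    | zero => simp
    | succ i ih =>
      calc Xb (L + (i + 1)) ≤ ENNReal.ofReal D * Xb (L + i) := hd (L + i)
        _ ≤ ENNReal.ofReal D * (ENNReal.ofReal (D ^ i) * Xb L) := by gcongr
        _ = _ := by
          rw [← mul_assoc, ← ENNReal.ofReal_mul (by linarith), pow_succ, mul_comm (D ^ i)]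
  obtain ⟨S, hS0, hSS⟩ := ser_fin (B := C * D ^ 2) (by positivity) hc
  refine ⟨2 * xc * (2 * C * S), max k0 2, by have := xc_pos; positivity, fun k hk hk1 => ?_⟩
  have hk0 : k0 ≤ k := (le_max_left _ _).trans hk
  have hk2 : 2 ≤ k := (le_max_right _ _).trans hk
  obtain ⟨L, hL⟩ : ∃ L, L = Nat.log 2 k := ⟨_, rfl⟩
  rw [← hL]
  have hU0 : 0 < Ub L := Num2Aux.UU_pos _
  -- one scale
  obtain ⟨F, hF⟩ : ∃ F : ℤ → ℕ → Set (List Bool), F = fun z i =>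
      {t | (t ∈ EndK (L + i) ((2 * z + 1) * k, (2 * z + 1) * k) ∧ Dsj k t) ∧ |2 * z + 1| ≤ 2 ^ i} := ⟨_, rfl⟩
  have hS' : ∀ (i : ℕ) (y : Pt), gf {t | t ∈ EndK (L + i) y ∧ Dsj k t} ≤
      ENNReal.ofReal (C ^ (i + 1) * (2 : ℝ) ^ (-(c * 2 ^ i)) * (Ub (L + i) / 4 ^ (L + i))) * Xb (L + i) ^ 2 := by
    intro i y
    rw [hL]
    exact hS k i y hk0
  have h1 : ∀ i : ℕ, ∑' z : ℤ, gf (F z i) ≤ ENNReal.ofReal ((C * D ^ 2) ^ i * (2 : ℝ) ^ (-(c * 2 ^ i))) *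
      (ENNReal.ofReal (2 * C * (Ub L / 4 ^ L)) * Xb L ^ 2) := by
    intro i
    have h2 := tsum_wind i (fun z => gf (F z i)) (ENNReal.ofReal (C ^ (i + 1) * (2 : ℝ) ^ (-(c * 2 ^ i)) *
      (Ub (L + i) / 4 ^ (L + i))) * Xb (L + i) ^ 2) (fun z => by
        refine (gf_mono fun t ht => ?_).trans (hS' i ((2 * z + 1) * k, (2 * z + 1) * k))
        rw [hF] at ht
        exact ht.1) (fun z hz => by
        have h3 : F z i = ∅ := by
          rw [hF]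
          exact Set.eq_empty_iff_forall_notMem.2 fun t ht => hz ht.2
        show gf (F z i) = 0
        rw [h3]
        unfold gf
        simp)
    refine h2.trans ?_
    have h4 : Ub (L + i) ≤ 2 ^ i * Ub L := T2.AN.UU_up L i
    have h5 : C ^ (i + 1) * (2 : ℝ) ^ (-(c * 2 ^ i)) * (Ub (L + i) / 4 ^ (L + i)) ≤
        C ^ (i + 1) * (2 : ℝ) ^ (-(c * 2 ^ i)) * (2 ^ i * Ub L / (4 ^ L * 4 ^ i)) := by
      rw [show (4 : ℝ) ^ (L + i) = 4 ^ L * 4 ^ i from pow_add _ _ _]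
      gcongr
    have h7 : 2 ^ (i + 1) * (C ^ (i + 1) * (2 : ℝ) ^ (-(c * 2 ^ i)) * (2 ^ i * Ub L / (4 ^ L * 4 ^ i))) *
          (D ^ i * D ^ i) = (C * D ^ 2) ^ i * (2 : ℝ) ^ (-(c * 2 ^ i)) * (2 * C * (Ub L / 4 ^ L)) := by
      have e4 : (4 : ℝ) ^ i = 2 ^ i * 2 ^ i := by rw [← mul_pow]; norm_num
      have e5 : (C * D ^ 2) ^ i = C ^ i * (D ^ i * D ^ i) := by
        rw [mul_pow, ← pow_mul, ← pow_add]
        congr 2
        ring
      have h2i : (2 : ℝ) ^ i ≠ 0 := by positivity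
      have h4L : (4 : ℝ) ^ L ≠ 0 := by positivity
      rw [e4, e5, pow_succ, pow_succ]
      field_simp
    calc (2 : ℝ≥0∞) ^ (i + 1) * (ENNReal.ofReal (C ^ (i + 1) * (2 : ℝ) ^ (-(c * 2 ^ i)) * (Ub (L + i) / 4 ^ (L + i))) *
          Xb (L + i) ^ 2) ≤ (2 : ℝ≥0∞) ^ (i + 1) * (ENNReal.ofReal (C ^ (i + 1) * (2 : ℝ) ^ (-(c * 2 ^ i)) *
          (2 ^ i * Ub L / (4 ^ L * 4 ^ i))) * (ENNReal.ofReal (D ^ i) * Xb L) ^ 2) := by
          gcongr
          exact hXp L i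
      _ = ENNReal.ofReal (2 ^ (i + 1) * (C ^ (i + 1) * (2 : ℝ) ^ (-(c * 2 ^ i)) * (2 ^ i * Ub L / (4 ^ L * 4 ^ i))) *
          (D ^ i * D ^ i)) * Xb L ^ 2 := by
          have e2 : (2 : ℝ≥0∞) ^ (i + 1) = ENNReal.ofReal (2 ^ (i + 1)) := by
            rw [ENNReal.ofReal_pow (by norm_num)]
            norm_num
          rw [e2]
          exact cmb _ _ _ (by positivity) (by positivity) (by positivity) _
      _ = _ := by
          rw [h7, ENNReal.ofReal_mul (by positivity), mul_assoc]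
  have h6 : ∑' z : ℤ, gf (Cyw k ((2 * z + 1) * k)) ≤ ∑' (z : ℤ) (i : ℕ), gf (F z i) := by
    refine ENNReal.tsum_le_tsum fun z => ?_
    refine (gf_mono (Cyw_sub hL hk2 z)).trans ?_
    rw [hF]
    exact gf_iUnion_le _
  calc ENNReal.ofReal (Pool.Agent.GLD.W0 hk1).re
      ≤ 2 * ENNReal.ofReal xc * ∑' z : ℤ, gf (Cyw k ((2 * z + 1) * k)) := W0_le_Cyw hk1
    _ ≤ 2 * ENNReal.ofReal xc * ∑' (z : ℤ) (i : ℕ), gf (F z i) := by gcongr
    _ = 2 * ENNReal.ofReal xc * ∑' (i : ℕ) (z : ℤ), gf (F z i) := by rw [ENNReal.tsum_comm]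
    _ ≤ 2 * ENNReal.ofReal xc * ∑' i : ℕ, ENNReal.ofReal ((C * D ^ 2) ^ i * (2 : ℝ) ^ (-(c * 2 ^ i))) *
        (ENNReal.ofReal (2 * C * (Ub L / 4 ^ L)) * Xb L ^ 2) := by
        gcongr with i
        exact h1 i
    _ = 2 * ENNReal.ofReal xc * ((∑' i : ℕ, ENNReal.ofReal ((C * D ^ 2) ^ i * (2 : ℝ) ^ (-(c * 2 ^ i)))) *
        (ENNReal.ofReal (2 * C * (Ub L / 4 ^ L)) * Xb L ^ 2)) := by rw [ENNReal.tsum_mul_right]
    _ ≤ 2 * ENNReal.ofReal xc * (ENNReal.ofReal S * (ENNReal.ofReal (2 * C * (Ub L / 4 ^ L)) * Xb L ^ 2)) := by gcongr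
    _ = ENNReal.ofReal (2 * xc * (2 * C * S) * (Ub L / 4 ^ L)) * Xb L ^ 2 := by
        have e2 : (2 : ℝ≥0∞) = ENNReal.ofReal 2 := by norm_num
        have hx := xc_pos
        rw [e2, ← ENNReal.ofReal_mul (by norm_num), ← mul_assoc, ← mul_assoc, ← ENNReal.ofReal_mul (by positivity),
          ← ENNReal.ofReal_mul (by positivity)]
        congr 2
        ring

/-- **Xb from below.** -/
theorem xLow_core (hX : XDbl) (hS : SD) (hU : ∃ C : ℝ, 0 < C ∧ ∀ k : ℕ, 1 ≤ k → UU k ≤ C * (k : ℝ) ^ (3 / 4 : ℝ))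
    (hW : ∃ (a : ℝ) (k1 : ℕ), 0 < a ∧ ∀ k, k1 ≤ k → ∀ hk : 1 ≤ k,
      a * (k : ℝ) ^ (-(5 / 24) : ℝ) ≤ (Pool.Agent.GLD.W0 hk).re) : XLow := by
  obtain ⟨C, k0, hC, hC1⟩ := W0_le_of hX hS
  obtain ⟨Cu, hCu, hU⟩ := hU
  obtain ⟨a, k1, ha, hW⟩ := hW
  obtain ⟨J, hJ⟩ : ∃ J : ℕ, J = k0 + k1 := ⟨_, rfl⟩
  obtain ⟨x, hx⟩ : ∃ x : ℝ, x = (Xb 0).toReal := ⟨_, rfl⟩
  have hx0 : 0 < x := by
    rw [hx]
    exact ENNReal.toReal_pos (Xb_ne_zero 0) (Xb_ne_top 0)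
  have hX0 : Xb 0 = ENNReal.ofReal x := by
    rw [hx, ENNReal.ofReal_toReal (Xb_ne_top 0)]
  obtain ⟨c1, hc1⟩ : ∃ c1 : ℝ, c1 = a / (C * Cu) := ⟨_, rfl⟩
  have hc10 : 0 < c1 := by
    rw [hc1]
    positivity
  obtain ⟨c2, hc2⟩ : ∃ c2 : ℝ, c2 = x ^ 2 / (2 : ℝ) ^ (25 / 24 * (J : ℝ)) := ⟨_, rfl⟩
  have hc20 : 0 < c2 := by
    rw [hc2]
    positivity
  refine ⟨min c1 c2, lt_min hc10 hc20, fun j => ?_⟩
  rcases Nat.lt_or_ge j J with hj | hj
  · calc ENNReal.ofReal (min c1 c2 * (2 : ℝ) ^ (25 / 24 * (j : ℝ))) ≤ ENNReal.ofReal (x ^ 2) := by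
          apply ENNReal.ofReal_le_ofReal
          have h1 : (2 : ℝ) ^ (25 / 24 * (j : ℝ)) ≤ (2 : ℝ) ^ (25 / 24 * (J : ℝ)) := by
            apply Real.rpow_le_rpow_of_exponent_le (by norm_num)
            have : (j : ℝ) ≤ J := by exact_mod_cast hj.le
            linarith
          calc min c1 c2 * (2 : ℝ) ^ (25 / 24 * (j : ℝ)) ≤ c2 * (2 : ℝ) ^ (25 / 24 * (J : ℝ)) :=
                mul_le_mul (min_le_right _ _) h1 (by positivity) hc20.le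
            _ = x ^ 2 := by
                rw [hc2]
                field_simp
      _ = Xb 0 ^ 2 := by rw [hX0, ENNReal.ofReal_pow hx0.le]
      _ ≤ _ := by
          gcongr
          exact Xb_mono (Nat.zero_le _)
  · have hj2 : j < 2 ^ j := Nat.lt_two_pow_self
    have hk1 : 1 ≤ 2 ^ j := Nat.one_le_two_pow
    have h1 := hC1 (2 ^ j) (by omega) hk1
    have h2 := hW (2 ^ j) (by omega) hk1
    rw [Nat.log_pow (by norm_num)] at h1
    have h3 : Ub j ≤ Cu * ((2 ^ j : ℕ) : ℝ) ^ (3 / 4 : ℝ) := hU (2 ^ j) hk1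
    have e1 : ((2 ^ j : ℕ) : ℝ) = (2 : ℝ) ^ (j : ℝ) := by
      rw [Real.rpow_natCast]
      push_cast
      rfl
    have e4 : (4 : ℝ) ^ j = (2 : ℝ) ^ (2 * (j : ℝ)) := by
      rw [Real.rpow_mul (by norm_num), Real.rpow_natCast]
      norm_num
    rw [e1, ← Real.rpow_mul (by norm_num)] at h2 h3
    have hp : 0 < C * Cu * (2 : ℝ) ^ ((j : ℝ) * (3 / 4) - 2 * j) := by positivity
    have h5 : ENNReal.ofReal (a * (2 : ℝ) ^ ((j : ℝ) * -(5 / 24))) ≤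
        ENNReal.ofReal (C * Cu * (2 : ℝ) ^ ((j : ℝ) * (3 / 4) - 2 * j)) * Xb j ^ 2 := by
      refine (ENNReal.ofReal_le_ofReal h2).trans (h1.trans (mul_le_mul_left (ENNReal.ofReal_le_ofReal ?_) _))
      have h8 : C * Cu * (2 : ℝ) ^ ((j : ℝ) * (3 / 4) - 2 * j) = C * (Cu * (2 : ℝ) ^ ((j : ℝ) * (3 / 4)) / 4 ^ j) := by
        rw [e4, Real.rpow_sub (by norm_num)]
        ring
      rw [h8]
      gcongr
    have h6 : min c1 c2 * (2 : ℝ) ^ (25 / 24 * (j : ℝ)) ≤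
        a * (2 : ℝ) ^ ((j : ℝ) * -(5 / 24)) / (C * Cu * (2 : ℝ) ^ ((j : ℝ) * (3 / 4) - 2 * j)) := by
      have h7 : a * (2 : ℝ) ^ ((j : ℝ) * -(5 / 24)) / (C * Cu * (2 : ℝ) ^ ((j : ℝ) * (3 / 4) - 2 * j)) =
          c1 * (2 : ℝ) ^ (25 / 24 * (j : ℝ)) := by
        rw [hc1, mul_div_mul_comm, ← Real.rpow_sub (by norm_num)]
        congr 2
        ring
      rw [h7]
      exact mul_le_mul_of_nonneg_right (min_le_left _ _) (by positivity)
    refine (ENNReal.ofReal_le_ofReal h6).trans ?_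
    rw [ENNReal.ofReal_div_of_pos hp]
    refine ENNReal.div_le_of_le_mul ?_
    rwa [mul_comm (Xb j ^ 2)]

end TPC

end HexObs
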