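import Pool.Agent.TPC.NaC

/-!
TPC: the half plane words of a large extent have a small weight, every scale (helper51).

* **`sst_far`**: `gf {t ∈ SSt m | t ∉ WL (r + J)} ≤ C * 2 ^ (-(c 2 ^ J)) * Ub r * Xb r` for `2 ^ r ≤ m < 2 ^ (r + 1)`;
* **`HH_ge`**: `Ub r * Xb r ≤ C * HH m` for `2 ^ r ≤ m`.
-/

set_option autoImplicit false

namespace HexObs

namespace TPC

open Finset TS SDN NTW NTA BAR TPF

open scoped ENNReal

/-- **the glueing of a half plane word** -/
theorem low_two {m : ℕ} {A W : Set (List Bool)} {T : Pt → Set (List Bool)} (hA : ∀ s ∈ A, s ∈ NAb true m)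
    (hW : ∀ w ∈ W, ∃ d, w ∈ SSt d)
    (hT : ∀ (s : List Bool) (x : Bool), s ++ [x] ∈ A → Even s.length → ∀ w ∈ W, rev s ++ w ∈ T (jr s)) :
    gf A * gf W ≤ ENNReal.ofReal (2 * xc) * ∑ g ∈ Rot3, gf (T g) := by
  classical
  have hform : ∀ a : A, ∃ (s : List Bool) (x : Bool), a.1 = s ++ [x] ∧ Even s.length := by
    intro a
    have h1 := (hA a.1 a.2).2
    have hne : a.1 ≠ [] := by
      intro h
      rw [h] at h1
      simp at h1
    obtain ⟨x, hx⟩ := last_split hne
    refine ⟨_, x, hx, ?_⟩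
    have hl : a.1.length = a.1.dropLast.length + 1 := by
      conv_lhs => rw [hx, List.length_append, List.length_singleton]
    rw [hl, Nat.bodd_succ] at h1
    rw [Nat.even_iff, Nat.mod_two_of_bodd]
    have h2 : a.1.dropLast.length.bodd = false := by simpa using h1
    rw [h2]
    rfl
  choose f g hfg hev using hform
  let I := A × W
  let F : I → Bool × Pt × List Bool := fun i => (g i.1, jr (f i.1), rev (f i.1) ++ i.2.1)
  let G : Bool × Pt × List Bool → ℝ≥0∞ := fun y =>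
    if y.2.1 ∈ Rot3 ∧ y.2.2 ∈ T y.2.1 then ENNReal.ofReal xc * wE y.2.2 else 0
  have hs : ∀ a : A, f a ++ [g a] ∈ HpN ((f a).length + 1) := by
    intro a
    have h1 := SSt_HpN (hA a.1 a.2).1.1
    rw [hfg a, List.length_append, List.length_singleton] at h1
    exact h1
  have hFinj : Function.Injective F := by
    intro i j hij
    have e1 : g i.1 = g j.1 := congrArg (fun y => y.1) hij
    have e2 : jr (f i.1) = jr (f j.1) := congrArg (fun y => y.2.1) hij
    have e3 : rev (f i.1) ++ i.2.1 = rev (f j.1) ++ j.2.1 := congrArg (fun y => y.2.2) hij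
    have e4 : jd (f i.1) = jd (f j.1) := by rw [← jr_up, ← jr_up, e2]
    have key : ∀ i j : I, rev (f i.1) ++ i.2.1 = rev (f j.1) ++ j.2.1 →
        jd (f i.1) = jd (f j.1) → ¬ (f i.1).length < (f j.1).length := by
      intro i j e3 e4 hlt
      obtain ⟨d, hd⟩ := hW i.2.1 i.2.2
      obtain ⟨d', hd'⟩ := hW j.2.1 j.2.2
      have h1 := glue_cut (hs i.1) (SSt_HpN hd) (hs j.1) (SSt_HpN hd') e3 e4 hlt
      rw [← hfg j.1, NA_cuts (hA j.1.1 j.1.2).1] at h1
      exact Finset.not_nonempty_empty h1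
    have h1 := key i j e3 e4
    have h2 := key j i e3.symm e4.symm
    have e5 := List.append_inj e3 (by rw [rev_length, rev_length]; omega)
    have e6 : f i.1 = f j.1 := by
      have := congrArg rev e5.1
      rwa [rev_rev, rev_rev] at this
    have e7 : i.1 = j.1 := Subtype.ext (by rw [hfg i.1, hfg j.1, e6, e1])
    exact Prod.ext e7 (Subtype.ext e5.2)
  have hGF : ∀ i : I, wE i.1.1 * wE i.2.1 = G (F i) := by
    rintro ⟨a, w⟩
    have hmem : rev (f a) ++ w.1 ∈ T (jr (f a)) := hT (f a) (g a) (by rw [← hfg a]; exact a.2) (hev a) w.1 w.2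
    show wE a.1 * wE w.1 = if jr (f a) ∈ Rot3 ∧ (rev (f a) ++ w.1) ∈ T (jr (f a)) then
      ENNReal.ofReal xc * wE (rev (f a) ++ w.1) else 0
    rw [if_pos ⟨jr_rot3 (hev a), hmem⟩, ← wE_join _ _ (g a), ← hfg a]
  have h1 : gf A * gf W = ∑' i : I, wE i.1.1 * wE i.2.1 := by
    rw [ENNReal.tsum_prod']
    unfold gf
    rw [← ENNReal.tsum_mul_right]
    exact tsum_congr fun a => ENNReal.tsum_mul_left.symm
  have h2 : ∑' y, G y = ENNReal.ofReal (2 * xc) * ∑ g ∈ Rot3, gf (T g) := by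
    have h3 : ∀ (x : Bool) (r : Pt), ∑' t : List Bool, G (x, r, t) =
        if r ∈ Rot3 then ENNReal.ofReal xc * gf (T r) else 0 := by
      intro x r
      by_cases hr : r ∈ Rot3
      · rw [if_pos hr]
        have h4 : ∀ t : List Bool, G (x, r, t) = ENNReal.ofReal xc * (if t ∈ T r then wE t else 0) := by
          intro t
          show (if r ∈ Rot3 ∧ t ∈ T r then ENNReal.ofReal xc * wE t else 0) = _
          by_cases ht : t ∈ T r
          · rw [if_pos ⟨hr, ht⟩, if_pos ht]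
          · rw [if_neg (fun h => ht h.2), if_neg ht, mul_zero]
        rw [tsum_congr h4, ENNReal.tsum_mul_left, gf_ind]
      · rw [if_neg hr]
        have h4 : ∀ t : List Bool, G (x, r, t) = 0 := fun t => if_neg (fun h => hr h.1)
        rw [tsum_congr h4, tsum_zero]
    rw [ENNReal.tsum_prod', tsum_bool]
    have h5 : ∀ x : Bool, ∑' y : Pt × List Bool, G (x, y) = ENNReal.ofReal xc * ∑ g ∈ Rot3, gf (T g) := by
      intro x
      rw [ENNReal.tsum_prod', tsum_congr (h3 x), tsum_eq_sum (s := Rot3) (fun r hr => if_neg hr), Finset.mul_sum]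
      exact Finset.sum_congr rfl fun r hr => if_pos hr
    rw [h5, ← two_mul, ← mul_assoc]
    congr 1
    rw [ENNReal.ofReal_mul (by norm_num)]
    simp
  calc gf A * gf W = ∑' i : I, wE i.1.1 * wE i.2.1 := h1
    _ = ∑' i : I, G (F i) := tsum_congr hGF
    _ ≤ ∑' y, G y := ENNReal.tsum_comp_le_tsum_of_injective hFinj G
    _ = _ := h2

/-- levels of the glued word -/
lemma glue_levC {m : ℕ} {s w : List Bool} {x : Bool} (hs : s ++ [x] ∈ SSt m) (hw : w ∈ SSt m) {i : ℕ}
    (hi : i ≤ (rev s ++ w).length) : |ip (vx oo up (rev s ++ w) i) (mulE (jr s) up)| ≤ 9 * m := by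
  have h := glue_lev (h := 0) (z := []) (Nat.zero_le m) hs (by rw [Brd_zero]; rfl) hw (i := i) (by simpa using hi)
  simpa using h

/-- the last part of the glued word, rotated -/
lemma glue_vxC (s w : List Bool) (i : ℕ) : vx oo up (rev s ++ w) (s.length + i) =
    vx oo up (rev s ++ w) s.length + mulE (jr s) (vx oo up w i) := by
  obtain ⟨R, hR, h1, h2⟩ := jvx_snd s w
  have e : R = jr s := jr_uniq h1
  subst e
  exact h2 i

/-- **the half plane words of a large extent** -/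
theorem sst_far : ∃ (c : ℝ) (J0 k0 : ℕ), 0 < c ∧ ∀ (J r m : ℕ), J0 ≤ J → k0 ≤ r → 2 ^ r ≤ m → m < 2 ^ (r + 1) →
    gf {t | t ∈ SSt m ∧ t ∉ WL (r + J)} ≤ ENNReal.ofReal ((2 : ℝ) ^ (-(c * 2 ^ J)) * Ub r) * Xb r := by
  obtain ⟨D, hD, hx⟩ := Xb_pow
  have hxc := xc_pos
  have hxc1 := B2b_xc_le_one
  obtain ⟨c, k0, J0, hc, h⟩ := nar_le
  obtain ⟨E, hE⟩ : ∃ E : ℝ, E = 8 * (6 * (8 * D ^ 6)) := ⟨_, rfl⟩
  have hE0 : 1 ≤ E := by
    have : 1 ≤ D ^ 6 := one_le_pow₀ hD
    rw [hE]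
    nlinarith
  obtain ⟨n1, hn1⟩ := pow_beats (C := E) hE0 (show 0 < c / 64 by positivity)
  refine ⟨c / 128, J0 + 6 + n1, k0, by positivity, fun J r m hJ hr hm1 hm2 => ?_⟩
  obtain ⟨J', rfl⟩ : ∃ J', J = J' + 6 := ⟨J - 6, by omega⟩
  obtain ⟨e, he⟩ : ∃ e : ℝ, e = (2 : ℝ) ^ (-(c * 2 ^ J')) := ⟨_, rfl⟩
  have he0 : 0 < e := by rw [he]; positivity
  obtain ⟨Bd, hBd⟩ : ∃ Bd, Bd = {t | t ∈ SSt m ∧ t ∉ WL (r + (J' + 6))} := ⟨_, rfl⟩
  rw [← hBd]
  have h1 := low_two (m := m) (A := NAb true m) (W := Bd)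
    (T := fun g => Nar (mulE g up) (r + 3) J') (fun s hs => hs) (fun v hv => by rw [hBd] at hv; exact ⟨m, hv.1⟩)
    (by
      rintro s x hs hev v hv
      rw [hBd] at hv
      obtain ⟨hv1, hv2⟩ := hv
      have g1 : rev s ++ v ∈ SA := by
        have h1 := SSt_HpN hs.1.1
        rw [List.length_append, List.length_singleton] at h1
        exact (glue_mem h1 (SSt_HpN hv1)).2
      refine ⟨g1, fun hW => ?_, fun i hi => ?_⟩
      · refine hv2 ⟨TPF.SSt_SA hv1, fun i hi dir => ?_⟩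
        have g2 := wl_piece hW (a := s.length) (b := s.length + i)
          (by simp only [List.length_append, rev_length]; omega)
          (by simp only [List.length_append, rev_length]; omega) (jr_rot3 hev) (glue_vxC s v i) dir
        rwa [show r + 3 + J' + 3 = r + (J' + 6) by ring] at g2
      · refine (glue_levC hs.1.1 hv1 hi).trans ?_
        have g3 : (m : ℤ) ≤ 2 * 2 ^ r := by
          have : m ≤ 2 * 2 ^ r := by rw [pow_succ] at hm2; omega
          exact_mod_cast this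
        rw [pow_add]
        have g4 : (0 : ℤ) < 2 ^ r := by positivity
        omega)
  -- upper bound of the right side
  have h2 : ENNReal.ofReal (2 * xc) * ∑ g ∈ Rot3, gf (Nar (mulE g up) (r + 3) J') ≤
      ENNReal.ofReal (6 * (e * (8 * D ^ 6)) * Ub r) * Xb r ^ 2 := by
    have h3 : ∀ g ∈ Rot3, gf (Nar (mulE g up) (r + 3) J') ≤ ENNReal.ofReal (e * (8 * D ^ 6) * Ub r) * Xb r ^ 2 := by
      intro g hg
      refine (h _ (r + 3) J' (rot3_D3 g hg) (by omega) (by omega)).trans ?_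
      rw [← he]
      have hU := Ub_pow r 3
      have hU0 := Ub_pos r
      calc ENNReal.ofReal (e * Ub (r + 3)) * Xb (r + 3) ^ 2
          ≤ ENNReal.ofReal (e * (2 ^ 3 * Ub r)) * (ENNReal.ofReal (D ^ 3) * Xb r) ^ 2 := by
            refine mul_le_mul' (ENNReal.ofReal_le_ofReal (by nlinarith)) (pow_le_pow_left' (hx _ _) 2)
        _ = _ := by
            rw [mul_pow, ← ENNReal.ofReal_pow (by positivity), ← mul_assoc, ← ENNReal.ofReal_mul (by positivity)]
            congr 2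
            ring
    calc ENNReal.ofReal (2 * xc) * ∑ g ∈ Rot3, gf (Nar (mulE g up) (r + 3) J')
        ≤ ENNReal.ofReal 2 * (Rot3.card • (ENNReal.ofReal (e * (8 * D ^ 6) * Ub r) * Xb r ^ 2)) :=
          mul_le_mul' (ENNReal.ofReal_le_ofReal (by linarith)) (Finset.sum_le_card_nsmul _ _ _ h3)
      _ = _ := by
          have hc : Rot3.card = 3 := by decide
          rw [hc, nsmul_eq_mul, ← mul_assoc, ← mul_assoc]
          congr 1
          rw [show ((3 : ℕ) : ℝ≥0∞) = ENNReal.ofReal 3 by simp, ← ENNReal.ofReal_mul (by norm_num),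
            ← ENNReal.ofReal_mul (by norm_num)]
          congr 1
          ring
  -- cancellation
  have h3 := Xb_le_NAb true hm1
  have hU0 := Ub_pos r
  have h5 : Xb r * gf Bd ≤ Xb r * (ENNReal.ofReal (E * e * Ub r) * Xb r) := by
    calc Xb r * gf Bd ≤ (8 * gf (NAb true m)) * gf Bd := mul_le_mul' h3 le_rfl
      _ = 8 * (gf (NAb true m) * gf Bd) := by ring
      _ ≤ 8 * (ENNReal.ofReal (6 * (e * (8 * D ^ 6)) * Ub r) * Xb r ^ 2) := mul_le_mul' le_rfl (h1.trans h2)
      _ = Xb r * (ENNReal.ofReal (E * e * Ub r) * Xb r) := by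
          have e1 : ENNReal.ofReal (E * e * Ub r) = 8 * ENNReal.ofReal (6 * (e * (8 * D ^ 6)) * Ub r) := by
            rw [show (8 : ℝ≥0∞) = ENNReal.ofReal 8 by simp, ← ENNReal.ofReal_mul (by norm_num), hE]
            congr 1
            ring
          rw [e1]
          ring
  have h8 := (ENNReal.mul_le_mul_iff_right (Xb_ne_zero r) (Xb_ne_top r)).1 h5
  refine h8.trans (mul_le_mul' (ENNReal.ofReal_le_ofReal ?_) le_rfl)
  refine mul_le_mul_of_nonneg_right ?_ hU0.le
  have h9 := hn1 (J' + 6) (by omega)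
  have h10 : E ≤ E ^ (J' + 6) := le_self_pow₀ hE0 (by omega)
  have e2 : c / 64 * 2 ^ (J' + 6) = c * 2 ^ J' := by rw [pow_add]; ring
  have e3 : c / 64 / 2 * 2 ^ (J' + 6) = c / 128 * 2 ^ (J' + 6) := by ring
  rw [e2, e3, ← he] at h9
  calc E * e ≤ E ^ (J' + 6) * e := mul_le_mul_of_nonneg_right h10 he0.le
    _ ≤ _ := h9

lemma SSt_app {h m k : ℕ} (hk : h + m ≤ k) {z v : List Bool} (hz : z ∈ Brd h) (hv : v ∈ SSt m) : z ++ v ∈ SSt k :=
  SSt_mono hk (SSt_cat hz hv)

/-- **lower bound of the half plane weight** -/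
theorem HH_ge : ∃ C : ℝ, 1 ≤ C ∧ ∀ r m : ℕ, 2 ^ r ≤ m →
    ENNReal.ofReal (Ub r) * Xb r ≤ ENNReal.ofReal C * HH m := by
  obtain ⟨D, hD, hx⟩ := Xb_pow
  refine ⟨16 * D, by linarith, fun r m hm => ?_⟩
  rcases Nat.eq_zero_or_pos r with h0 | h0
  · subst h0
    have hm1 : 1 ≤ m := by simpa using hm
    have h1 : Xb 0 ≤ HH 1 / ENNReal.ofReal (UU 1) := by
      refine iSup_le fun i => ?_
      have : i.1 = 0 := by have := i.2; omega
      rw [this, pow_zero]
    have hU : (0 : ℝ) < UU 1 := Num2Aux.UU_pos _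
    have h2 : ENNReal.ofReal (Ub 0) * Xb 0 ≤ HH 1 := by
      refine (mul_le_mul' le_rfl h1).trans (le_of_eq ?_)
      have e : Ub 0 = UU 1 := by unfold Ub; rw [pow_zero]
      rw [e, ENNReal.mul_div_cancel (by simpa using hU) ENNReal.ofReal_ne_top]
    refine h2.trans ((gf_mono (fun t ht => SSt_mono hm1 ht) : HH 1 ≤ HH m).trans ?_)
    calc HH m = ENNReal.ofReal 1 * HH m := by rw [ENNReal.ofReal_one, one_mul]
      _ ≤ _ := mul_le_mul' (ENNReal.ofReal_le_ofReal (by linarith)) le_rfl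
  · obtain ⟨q, rfl⟩ : ∃ q, r = q + 1 := ⟨r - 1, by omega⟩
    have hX : Xb (q + 1) ≤ ENNReal.ofReal D * (8 * gf (NAb false (2 ^ q))) := by
      refine (hx q 1).trans ?_
      rw [pow_one]
      exact mul_le_mul' le_rfl (Xb_le_NAb false le_rfl)
    have hU : Ub (q + 1) ≤ 2 * UU (2 ^ q) := Ub_succ q
    have key : ENNReal.ofReal (UU (2 ^ q)) * gf (NAb false (2 ^ q)) ≤ HH m := by
      rw [← gf_BrU]
      have e1 : gf (⋃ h ∈ (range (2 ^ q + 1) : Finset ℕ), Brd h) * gf (NAb false (2 ^ q)) =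
          ∑' i : (⋃ h ∈ (range (2 ^ q + 1) : Finset ℕ), Brd h : Set (List Bool)) × (NAb false (2 ^ q)),
            wE i.1.1 * wE i.2.1 := by
        rw [ENNReal.tsum_prod']
        unfold gf
        rw [← ENNReal.tsum_mul_right]
        exact tsum_congr fun a => ENNReal.tsum_mul_left.symm
      rw [e1]
      have hz : ∀ z ∈ (⋃ h ∈ (range (2 ^ q + 1) : Finset ℕ), Brd h : Set (List Bool)), ∃ h, h ≤ 2 ^ q ∧ z ∈ Brd h := by
        intro z hz
        rw [Set.mem_iUnion₂] at hz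
        obtain ⟨h, h1, h2⟩ := hz
        rw [mem_range] at h1
        exact ⟨h, by omega, h2⟩
      have hmem : ∀ i : (⋃ h ∈ (range (2 ^ q + 1) : Finset ℕ), Brd h : Set (List Bool)) × (NAb false (2 ^ q)),
          i.1.1 ++ i.2.1 ∈ SSt m := by
        intro i
        obtain ⟨h, h1, h2⟩ := hz _ i.1.2
        refine SSt_app ?_ h2 i.2.2.1.1
        rw [pow_succ] at hm
        omega
      have hinj : Function.Injective (fun i : (⋃ h ∈ (range (2 ^ q + 1) : Finset ℕ), Brd h : Set (List Bool)) ×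
          (NAb false (2 ^ q)) => (⟨i.1.1 ++ i.2.1, hmem i⟩ : SSt m)) := by
        intro i j hij
        obtain ⟨h, -, h2⟩ := hz _ i.1.2
        obtain ⟨h', -, h2'⟩ := hz _ j.1.2
        have e := na_uniq h2 h2' i.2.2.1 j.2.2.1 (congrArg Subtype.val hij)
        exact Prod.ext (Subtype.ext e.1) (Subtype.ext e.2)
      calc ∑' i : (⋃ h ∈ (range (2 ^ q + 1) : Finset ℕ), Brd h : Set (List Bool)) × (NAb false (2 ^ q)),
            wE i.1.1 * wE i.2.1 = ∑' i : (⋃ h ∈ (range (2 ^ q + 1) : Finset ℕ), Brd h : Set (List Bool)) ×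
              (NAb false (2 ^ q)), wE (⟨i.1.1 ++ i.2.1, hmem i⟩ : SSt m).1 :=
            tsum_congr fun i => (wE_append _ _).symm
        _ ≤ ∑' t : SSt m, wE t.1 := ENNReal.tsum_comp_le_tsum_of_injective hinj (fun t : SSt m => wE t.1)
        _ = HH m := rfl
    calc ENNReal.ofReal (Ub (q + 1)) * Xb (q + 1)
        ≤ ENNReal.ofReal (2 * UU (2 ^ q)) * (ENNReal.ofReal D * (8 * gf (NAb false (2 ^ q)))) :=
          mul_le_mul' (ENNReal.ofReal_le_ofReal hU) hX
      _ = ENNReal.ofReal (16 * D) * (ENNReal.ofReal (UU (2 ^ q)) * gf (NAb false (2 ^ q))) := by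
          rw [ENNReal.ofReal_mul (p := 2) (by norm_num), ENNReal.ofReal_mul (p := 16) (by norm_num),
            show ENNReal.ofReal 16 = 2 * 8 by rw [ENNReal.ofReal_ofNat]; norm_num, show ENNReal.ofReal 2 = 2 by simp]
          ring
      _ ≤ _ := mul_le_mul' le_rfl key

end TPC

end HexObs
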