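import Pool.Agent.TPC.GlueN
import Pool.Agent.TPC.LatC
import Pool.Agent.PB.Apr0C
import Pool.Agent.PB.Main

/-!
TPC: the upper half of (XC): `Xb k ^ 2 ≤ C * 2 ^ (25 k / 24)` from the two-point function of the cylinder (helper51).
-/

set_option autoImplicit false

namespace HexObs

namespace TPC

open Finset TS SDN NTW NTA BAR TPF PBA

open scoped ENNReal

/-- the last cut of a word with the last direction δ -/
lemma sn_cut (m : ℕ) {δ : Pt} (hδ : δ ∈ dF ∪ dR) :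
    gf (SN m δ) ≤ ENNReal.ofReal (UU m) * gf {v | v ∈ SN m δ ∧ v ∈ NA m} := by
  have hδu : δ ≠ up := by
    have : ∀ δ ∈ dF ∪ dR, δ ≠ up := by decide
    exact this δ hδ
  have hδi : ip δ up = 1 ∨ ip δ up = -1 := by
    have : ∀ δ ∈ dF ∪ dR, ip δ up = 1 ∨ ip δ up = -1 := by decide
    exact this δ hδ
  have h1 : SN m δ ⊆ ⋃ r ∈ Finset.range (m + 1), {w | ∃ c ∈ Brd r, ∃ s ∈ {v | v ∈ SN m δ ∧ v ∈ NA m}, w = c ++ s} := by
    rintro w ⟨hw, hd⟩
    have hwS := TN_SSt hw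
    obtain ⟨r, hr, c, hc, s, hs, rfl⟩ := last_cut hwS m
    obtain ⟨c1, -, c3, c4⟩ := mem_Brd.1 hc
    rw [List.length_append, dx_cat c3] at hd
    have hsl : 1 ≤ s.length := by
      rcases Nat.eq_zero_or_pos s.length with h0 | h0
      · exfalso
        apply hδu
        rw [← hd, h0]
        rfl
      · exact h0
    rw [Set.mem_iUnion₂]
    refine ⟨r, Finset.mem_range.2 (by omega), c, hc, s, ⟨⟨?_, hd⟩, ⟨hs.1, fun j hj hcut => ?_⟩⟩, rfl⟩
    · obtain ⟨t1, t2⟩ := mem_TN.1 hw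
      rw [List.length_append] at t1 t2
      have s1 := (mem_SSt.1 hs.1).1
      have hlt : lev s (s.length + 1) = lev s s.length + ip δ up := by rw [lev_succ, hd]
      refine mem_TN.2 ⟨fun i hi hi2 => ?_, fun i k hik hk he => ?_⟩
      · have h5 := t1 (c.length + i) (by omega) (by omega)
        rw [lev_cat c3, c4] at h5
        refine ⟨?_, by omega⟩
        rcases Nat.lt_or_ge s.length i with h | h
        · have e : i = s.length + 1 := by omega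
          rw [e, hlt]
          have h6 := lev_ge_two' (s1 s.length hsl le_rfl).1
          rcases hδi with h7 | h7 <;> rw [h7] <;> omega
        · exact (s1 i hi h).1
      · refine t2 (c.length + i) (c.length + k) (by omega) (by omega) ?_
        rw [vx_cat c3, vx_cat c3, he]
    · obtain ⟨p, q, hp, hq, hpq⟩ := hcut
      by_cases hjm : j ≤ m - r
      · exact hs.2 j hj hjm ⟨p, q, hp, hq, hpq⟩
      · have h2 : c ++ p ∈ Brd (r + j) := Brd_append hc hp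
        have h3 := Brd_height_le (c := c ++ p) (s := q) h2 (by rw [List.append_assoc, ← hpq]; exact hwS)
        omega
  refine (gf_mono h1).trans ((gf_bi_le _ _).trans ?_)
  rw [← sum_BT, Finset.sum_mul]
  refine Finset.sum_le_sum fun r _ => ?_
  rw [← gf_Brd]
  exact gf_le_mul fun t ht => ht

/-- the words without a cut in the box -/
lemma na_LS {m L : ℕ} {δ : Pt} (hδ : δ ∈ dF ∪ dR) : gf {v | v ∈ SN m δ ∧ v ∈ NA m} ≤
    gf (LS m 0 (3 * 2 ^ L + 2) δ) + (gf {t | t ∈ NAb true m ∧ t ∉ WL L} + gf {t | t ∈ NAb false m ∧ t ∉ WL L}) := by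
  have hδu : δ ≠ up := by
    have : ∀ δ ∈ dF ∪ dR, δ ≠ up := by decide
    exact this δ hδ
  have h1 : {v | v ∈ SN m δ ∧ v ∈ NA m} ⊆ LS m 0 (3 * 2 ^ L + 2) δ ∪
      ({t | t ∈ NAb true m ∧ t ∉ WL L} ∪ {t | t ∈ NAb false m ∧ t ∉ WL L}) := by
    rintro v ⟨⟨h1, h2⟩, h3⟩
    by_cases hw : v ∈ WL L
    · left
      refine ⟨h1, ?_, h2, ?_, fun i hi => col_all hw hi⟩
      · rcases Nat.eq_zero_or_pos v.length with h0 | h0
        · exfalso
          apply hδu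
          rw [← h2, h0]
          rfl
        · exact h0
      · rw [cuts_eq, NA_cuts h3]
        simp
    · right
      cases hb : v.length.bodd
      · exact Or.inr ⟨⟨h3, hb⟩, hw⟩
      · exact Or.inl ⟨⟨h3, hb⟩, hw⟩
  exact (gf_mono h1).trans ((gf_union_le _ _).trans (add_le_add le_rfl (gf_union_le _ _)))

/-- **the legs** -/
theorem ls_mass : ∃ (c : ℝ) (J k0 : ℕ), 0 < c ∧ ∀ (r m : ℕ) (δ : Pt), k0 ≤ r → 2 ^ r ≤ m → m < 2 ^ (r + 1) →
    δ ∈ dF ∪ dR → ENNReal.ofReal c * Xb r ≤ gf (LS m 0 (3 * 2 ^ (r + J) + 2) δ) := by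
  obtain ⟨C, hC, hge⟩ := HH_ge
  obtain ⟨CU, hCU, hU⟩ := UU_low
  obtain ⟨ε, hε⟩ : ∃ ε : ℝ, ε = 1 / (320 * C) := ⟨_, rfl⟩
  have hε0 : 0 < ε := by rw [hε]; positivity
  obtain ⟨J, k1, hfar⟩ := na_far hε0
  obtain ⟨m1, hm1⟩ := exists_nat_ge ((CU * 80) ^ (4 / 3 : ℝ))
  refine ⟨1 / (160 * C), J, max k1 m1, by positivity, fun r m δ hr h1 h2 hδ => ?_⟩
  have hr1 : k1 ≤ r := (le_max_left _ _).trans hr
  have hrm : m1 ≤ m := by
    have h3 : r < 2 ^ r := Nat.lt_two_pow_self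
    have h4 : m1 ≤ r := (le_max_right _ _).trans hr
    omega
  obtain ⟨G, hG⟩ : ∃ G, G = gf {v | v ∈ SN m δ ∧ v ∈ NA m} := ⟨_, rfl⟩
  obtain ⟨S, hS⟩ : ∃ S, S = gf (LS m 0 (3 * 2 ^ (r + J) + 2) δ) := ⟨_, rfl⟩
  have hHfin : HH m ≠ ⊤ := PLW.gf_SSt_fin m
  have hUm := Num2Aux.UU_pos m
  have hUr := Ub_pos r
  have h80 : (80 : ℝ≥0∞) ≤ HH m := by
    have h3 : ENNReal.ofReal 80 ≤ HH m := by
      refine le_trans (ENNReal.ofReal_le_ofReal ?_) (UU_le_HH m)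
      have h3 := hU m
      have h4 : (CU * 80) ^ (4 / 3 : ℝ) ≤ (m : ℝ) + 1 := by
        refine hm1.trans ?_
        have : (m1 : ℝ) ≤ m := by exact_mod_cast hrm
        linarith
      have h5 : CU * 80 ≤ ((m : ℝ) + 1) ^ (3 / 4 : ℝ) := by
        have h6 := Real.rpow_le_rpow (by positivity) h4 (by norm_num : (0 : ℝ) ≤ 3 / 4)
        rw [← Real.rpow_mul (by positivity)] at h6
        have e : (4 / 3 : ℝ) * (3 / 4) = 1 := by norm_num
        rw [e, Real.rpow_one] at h6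
        exact h6
      exact le_of_mul_le_mul_left (h5.trans h3) (by linarith)
    simpa using h3
  have h3 : HH m ≤ 40 + 20 * (ENNReal.ofReal (UU m) * G) := by
    rw [hG]
    exact (HH_le_SN m hδ).trans (add_le_add le_rfl (mul_le_mul' le_rfl (sn_cut m hδ)))
  have h4 : HH m ≤ 40 * (ENNReal.ofReal (UU m) * G) := by
    have h5 : HH m + HH m ≤ HH m + 40 * (ENNReal.ofReal (UU m) * G) := by
      calc HH m + HH m ≤ (40 + 20 * (ENNReal.ofReal (UU m) * G)) + (40 + 20 * (ENNReal.ofReal (UU m) * G)) :=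
            add_le_add h3 h3
        _ = 80 + 40 * (ENNReal.ofReal (UU m) * G) := by ring
        _ ≤ _ := add_le_add h80 le_rfl
    exact (ENNReal.add_le_add_iff_left hHfin).1 h5
  have hUm2 : UU m ≤ 2 * Ub r := (Num2Aux.UU_mono h2.le).trans (Ub_succ r)
  have h5 : Xb r ≤ ENNReal.ofReal (80 * C) * G := by
    have h6 : ENNReal.ofReal (Ub r) * Xb r ≤ ENNReal.ofReal (Ub r) * (ENNReal.ofReal (80 * C) * G) := by
      calc ENNReal.ofReal (Ub r) * Xb r ≤ ENNReal.ofReal C * HH m := hge r m h1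
        _ ≤ ENNReal.ofReal C * (40 * (ENNReal.ofReal (2 * Ub r) * G)) := by
            refine mul_le_mul' le_rfl (h4.trans ?_)
            gcongr
        _ = _ := by
            rw [ENNReal.ofReal_mul (p := 2) (by norm_num), ENNReal.ofReal_mul (p := 80) (by norm_num)]
            rw [show ENNReal.ofReal 80 = 40 * 2 by rw [ENNReal.ofReal_ofNat]; norm_num,
              show ENNReal.ofReal 2 = 2 by simp]
            ring
    exact (ENNReal.mul_le_mul_iff_right (by simpa using hUr) ENNReal.ofReal_ne_top).1 h6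
  have h6 : G ≤ S + ENNReal.ofReal (2 * ε) * Xb r := by
    rw [hG, hS]
    refine (na_LS (L := r + J) hδ).trans (add_le_add le_rfl ?_)
    refine (add_le_add (hfar r m true hr1 h1 h2) (hfar r m false hr1 h1 h2)).trans (le_of_eq ?_)
    rw [two_mul, ENNReal.ofReal_add hε0.le hε0.le]
    ring
  have h7 : Xb r + Xb r ≤ Xb r + ENNReal.ofReal (160 * C) * S := by
    calc Xb r + Xb r ≤ ENNReal.ofReal (80 * C) * (S + ENNReal.ofReal (2 * ε) * Xb r) +
          ENNReal.ofReal (80 * C) * (S + ENNReal.ofReal (2 * ε) * Xb r) :=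
          add_le_add (h5.trans (mul_le_mul' le_rfl h6)) (h5.trans (mul_le_mul' le_rfl h6))
      _ = (ENNReal.ofReal (2 * (80 * C)) * ENNReal.ofReal (2 * ε)) * Xb r + ENNReal.ofReal (2 * (80 * C)) * S := by
          rw [ENNReal.ofReal_mul (p := 2) (q := 80 * C) (by norm_num), show ENNReal.ofReal 2 = 2 by simp]
          ring
      _ = Xb r + ENNReal.ofReal (160 * C) * S := by
          rw [← ENNReal.ofReal_mul (by positivity)]
          have e1 : 2 * (80 * C) * (2 * ε) = 1 := by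
            rw [hε]
            field_simp
            norm_num
          rw [e1, ENNReal.ofReal_one, one_mul]
          congr 3
          ring
  have h8 : Xb r ≤ ENNReal.ofReal (160 * C) * S := (ENNReal.add_le_add_iff_left (Xb_ne_top r)).1 h7
  rw [← hS]
  calc ENNReal.ofReal (1 / (160 * C)) * Xb r ≤ ENNReal.ofReal (1 / (160 * C)) * (ENNReal.ofReal (160 * C) * S) :=
        mul_le_mul' le_rfl h8
    _ = S := by
        rw [← mul_assoc, ← ENNReal.ofReal_mul (by positivity)]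
        have e1 : 1 / (160 * C) * (160 * C) = 1 := by field_simp
        rw [e1, ENNReal.ofReal_one, one_mul]

/-- **the bridges in the tube** -/
theorem tb_mass : ∃ (c : ℝ) (K0 : ℕ), 0 < c ∧ ∀ (K T : ℕ) (x : ℤ), K0 ≤ K → K ≤ 2 * T → T ≤ K → |x| ≤ 2 * T →
    Even (x - T) → ENNReal.ofReal (c * (K : ℝ) ^ (-(5 / 4) : ℝ)) ≤ gf (TBN T (K / 4 + 1) x) := by
  obtain ⟨c1, t0, hc1, htube⟩ := RP.localTube 2 (η := 1 / 4) (by norm_num)
  obtain ⟨C, hC, hbr⟩ := Pool.Agent.EXL.bridge_exponent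
  refine ⟨c1 / C, 2 * t0 + 2, by positivity, fun K T x hK hT1 hT2 hx hev => ?_⟩
  have hTp : 1 ≤ T := by omega
  have hTR : (0 : ℝ) < T := by exact_mod_cast hTp
  have hTK : (T : ℝ) ≤ K := by exact_mod_cast hT2
  have h1 := htube T x (by omega) hev (by push_cast; exact hx)
  have hsub : {b | b ∈ RP.EndB T x ∧ ∀ i, i ≤ b.length →
      ((min 0 x : ℤ) : ℝ) - 1 / 4 * T ≤ lat b i ∧ (lat b i : ℝ) ≤ ((max 0 x : ℤ) : ℝ) + 1 / 4 * T} ⊆
      TBN T (K / 4 + 1) x := by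
    rintro b ⟨hb1, hb2⟩
    refine ⟨hb1, fun i hi => ?_⟩
    obtain ⟨e1, e2⟩ := hb2 i hi
    rw [lat_eq] at e1 e2
    have hY : (1 / 4 : ℝ) * T ≤ ((K / 4 + 1 : ℕ) : ℝ) := by
      have h2 : K ≤ 4 * (K / 4 + 1) := by omega
      have h3 : (K : ℝ) ≤ 4 * ((K / 4 + 1 : ℕ) : ℝ) := by exact_mod_cast h2
      linarith
    obtain ⟨Y, hYe⟩ : ∃ Y : ℕ, Y = K / 4 + 1 := ⟨_, rfl⟩
    rw [← hYe] at hY ⊢
    constructor
    · have : ((min 0 x - Y : ℤ) : ℝ) ≤ ((vx oo up b i).1 : ℝ) := by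
        push_cast at e1 ⊢
        linarith
      exact_mod_cast this
    · have : ((vx oo up b i).1 : ℝ) ≤ ((max 0 x + Y : ℤ) : ℝ) := by
        push_cast at e2 ⊢
        linarith
      exact_mod_cast this
  refine le_trans (ENNReal.ofReal_le_ofReal ?_) (h1.trans (gf_mono hsub))
  have h2 := (hbr T hTp).1
  have h3 : uu T = bT T := rfl
  rw [← h3] at h2
  have h4 : (K : ℝ) ^ (-(5 / 4) : ℝ) ≤ (T : ℝ) ^ (-(5 / 4) : ℝ) :=
    Real.rpow_le_rpow_of_nonpos hTR hTK (by norm_num)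
  have h5 : (T : ℝ) ^ (-(5 / 4) : ℝ) = (T : ℝ) ^ (-(1 / 4) : ℝ) / T := by
    have e : (-(5 / 4) : ℝ) = -(1 / 4) - 1 := by norm_num
    rw [e, Real.rpow_sub hTR, Real.rpow_one]
  calc c1 / C * (K : ℝ) ^ (-(5 / 4) : ℝ) ≤ c1 / C * (T : ℝ) ^ (-(5 / 4) : ℝ) := by gcongr
    _ = c1 * ((T : ℝ) ^ (-(1 / 4) : ℝ) / C / T) := by
        rw [h5]
        ring
    _ ≤ c1 * (uu T / T) := by gcongr

/-- **the upper half of (XC) from the two-point function of the cylinder** -/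
theorem Xb_up_of (hW : ∃ (A : ℝ) (K0 : ℕ), 0 < A ∧ ∀ k : ℕ, K0 ≤ k → PBM.W0r k ≤ A * (k : ℝ) ^ (-(5 / 24) : ℝ)) :
    ∃ C : ℝ, 0 < C ∧ ∀ k : ℕ, Xb k ^ 2 ≤ ENNReal.ofReal (C * (2 : ℝ) ^ (25 / 24 * (k : ℝ))) := by
  obtain ⟨A, K1, hA, hW⟩ := hW
  obtain ⟨c, J, k1, hc, hls⟩ := ls_mass
  obtain ⟨c', K2, hc', htb⟩ := tb_mass
  obtain ⟨k0, hk0⟩ : ∃ k0 : ℕ, k0 = max k1 (max K1 K2) + 6 := ⟨_, rfl⟩
  obtain ⟨B, hB⟩ : ∃ B : ℝ, B = 4 * A / (c ^ 2 * c') * (2 : ℝ) ^ (25 / 24 * ((J : ℝ) + 6)) := ⟨_, rfl⟩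
  have hB0 : 0 < B := by rw [hB]; positivity
  have hbig : ∀ k : ℕ, k0 ≤ k → Xb k ^ 2 ≤ ENNReal.ofReal (B * (2 : ℝ) ^ (25 / 24 * (k : ℝ))) := by
    intro k hk
    obtain ⟨K, hK⟩ : ∃ K : ℕ, K = 2 ^ (k + J + 6) := ⟨_, rfl⟩
    obtain ⟨N, hN⟩ : ∃ N : ℕ, N = 2 ^ (k + J) := ⟨_, rfl⟩
    have hKN : K = 64 * N := by
      rw [hK, hN, pow_add]
      ring
    have hN2 : 64 ≤ N := by
      rw [hN]
      calc 64 = 2 ^ 6 := by norm_num
        _ ≤ _ := Nat.pow_le_pow_right (by norm_num) (by omega)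
    have hmN : 2 ^ k ≤ N := by
      rw [hN]
      exact Nat.pow_le_pow_right (by norm_num) (by omega)
    have hkN : k < N := by
      rw [hN]
      exact lt_of_lt_of_le Nat.lt_two_pow_self (Nat.pow_le_pow_right (by norm_num) (by omega))
    have hm1 : 1 ≤ 2 ^ k := Nat.one_le_two_pow
    have hglue := glue_sumN (K := K) (m := 2 ^ k) (X := 3 * N + 2) (Y := K / 4 + 1)
      (β := ENNReal.ofReal (c' * (K : ℝ) ^ (-(5 / 4) : ℝ))) (by omega) (by omega) (fun T x h1 h2 h3 h4 => by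
        refine htb K T x (by omega) (by omega) h2 (h3.trans ?_) h4
        push_cast
        omega)
    have hl1 := hls k (2 ^ k) (-1, 1) (by omega) le_rfl (by rw [pow_succ]; omega) (by decide)
    have hl2 := hls k (2 ^ k) (-1, 0) (by omega) le_rfl (by rw [pow_succ]; omega) (by decide)
    rw [← hN] at hl1 hl2
    have hK1 : 1 ≤ K := by omega
    have hdw : gf (DW K) ≤ ENNReal.ofReal (A * (K : ℝ) ^ (-(5 / 24) : ℝ)) := by
      refine (gf_mono (DW_sub K)).trans ?_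
      rw [← Pool.Agent.GLD.W0_eq_gf hK1, ← PBM.W0r_eq hK1]
      exact ENNReal.ofReal_le_ofReal (hW K (by omega))
    have hKp : (0 : ℝ) < K := by exact_mod_cast hK1
    have h1 : (ENNReal.ofReal c * Xb k) * (ENNReal.ofReal c * Xb k) * ENNReal.ofReal (c' * (K : ℝ) ^ (-(5 / 4) : ℝ)) ≤
        4 * ENNReal.ofReal (A * (K : ℝ) ^ (-(5 / 24) : ℝ)) :=
      (mul_le_mul' (mul_le_mul' hl1 hl2) le_rfl).trans (hglue.trans (mul_le_mul' le_rfl hdw))
    obtain ⟨y, hy⟩ : ∃ y : ℝ, y = c ^ 2 * (c' * (K : ℝ) ^ (-(5 / 4) : ℝ)) := ⟨_, rfl⟩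
    have hy0 : 0 < y := by rw [hy]; positivity
    have e1 : (ENNReal.ofReal c * Xb k) * (ENNReal.ofReal c * Xb k) *
        ENNReal.ofReal (c' * (K : ℝ) ^ (-(5 / 4) : ℝ)) = ENNReal.ofReal y * Xb k ^ 2 := by
      rw [hy, ENNReal.ofReal_mul (p := c ^ 2) (by positivity), ENNReal.ofReal_pow hc.le]
      ring
    have e2 : 4 * ENNReal.ofReal (A * (K : ℝ) ^ (-(5 / 24) : ℝ)) =
        ENNReal.ofReal y * ENNReal.ofReal (4 * A / (c ^ 2 * c') * (K : ℝ) ^ (25 / 24 : ℝ)) := by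
      rw [← ENNReal.ofReal_mul hy0.le, show (4 : ℝ≥0∞) = ENNReal.ofReal 4 by simp, ← ENNReal.ofReal_mul (by norm_num)]
      congr 1
      have e3 : (K : ℝ) ^ (-(5 / 24) : ℝ) = (K : ℝ) ^ (-(5 / 4) : ℝ) * (K : ℝ) ^ (25 / 24 : ℝ) := by
        rw [← Real.rpow_add hKp]
        norm_num
      rw [e3, hy]
      field_simp
    rw [e1, e2] at h1
    have h2 := (ENNReal.mul_le_mul_iff_right (ENNReal.ofReal_pos.2 hy0).ne' ENNReal.ofReal_ne_top).1 h1
    refine h2.trans (ENNReal.ofReal_le_ofReal (le_of_eq ?_))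
    have e4 : (K : ℝ) ^ (25 / 24 : ℝ) = (2 : ℝ) ^ (25 / 24 * ((J : ℝ) + 6)) * (2 : ℝ) ^ (25 / 24 * (k : ℝ)) := by
      rw [← Real.rpow_add (by norm_num), hK]
      push_cast
      rw [← Real.rpow_natCast, ← Real.rpow_mul (by norm_num)]
      congr 1
      push_cast
      ring
    rw [e4, hB]
    ring
  obtain ⟨B2, hB2⟩ : ∃ B2 : ℝ, B2 = (Xb k0 ^ 2).toReal := ⟨_, rfl⟩
  have hB20 : 0 ≤ B2 := by rw [hB2]; exact ENNReal.toReal_nonneg
  refine ⟨B + B2, by positivity, fun k => ?_⟩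
  rcases le_total k0 k with h | h
  · refine (hbig k h).trans (ENNReal.ofReal_le_ofReal ?_)
    have : (0 : ℝ) < (2 : ℝ) ^ (25 / 24 * (k : ℝ)) := by positivity
    nlinarith
  · refine (pow_le_pow_left' (Xb_mono h) 2).trans ?_
    rw [← ENNReal.ofReal_toReal (ENNReal.pow_ne_top (Xb_ne_top k0) : Xb k0 ^ 2 ≠ ⊤), ← hB2]
    refine ENNReal.ofReal_le_ofReal ?_
    have h1 : (1 : ℝ) ≤ (2 : ℝ) ^ (25 / 24 * (k : ℝ)) := Real.one_le_rpow (by norm_num) (by positivity)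
    nlinarith

end TPC

end HexObs
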