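import Pool.Agent.TPC.RunL
import Pool.Agent.JNT.ExTall
import Pool.Agent.JNT.GoodE

/-!
TPC (R): the norms of the runs of leaves of a small class and of one tall leaf with a given displacement, no hypothesis.
-/

set_option autoImplicit false

namespace HexObs

namespace TPC

open Finset TS SDN SDN.CN SDN.CCh NTW NTA EN JNT SIM

open scoped ENNReal

/-- the labelled norms of the runs and of one tall leaf, any label -/
theorem run_W {Λ : Type} {lab : List Bool → Λ} (hLU : LabU lab) (hLM : LabM lab) {w : ℕ → ℝ} (hw : ∀ k, 0 < w k)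
    (hup : MUp w) (hJ : JoG lab w) :
    ∃ (s J0 V0 : ℕ) (e0 C : ℝ), 0 < e0 ∧ 1 ≤ C ∧
      (∀ (kc : ℕ) (S : Set (List Bool)), SmD DmJ kc {g | g ∈ BrR (2 ^ (kc + 4)) (2 ^ (kc + J0)) ∧ g ∈ S} e0 →
        ∀ V : ℕ, V0 ≤ V → SmRL lab DmJ kc (RunB kc s S V) (C / (w kc * 2 ^ V))) ∧
      ∀ kc V : ℕ, 1 ≤ V → SmRL lab DmJ kc (RunT kc s V) (C / (w kc * 4 ^ V)) := by
  have hg := gbl_of hLM hw hup hJ
  obtain ⟨J1, h1⟩ := gbmL_of hw hup hg
  obtain ⟨C, s0, hC, -, h2⟩ := ex_tall hLU hw hup hg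
  exact run_L hw (h1 J1 le_rfl) hC (h2 s0 le_rfl)

/-- **(R), a given displacement, no hypothesis** -/
theorem run_E : ∃ (s J0 V0 : ℕ) (e0 C : ℝ), 0 < e0 ∧ 1 ≤ C ∧
    (∀ (kc : ℕ) (S : Set (List Bool)), SmD DmJ kc {g | g ∈ BrR (2 ^ (kc + 4)) (2 ^ (kc + J0)) ∧ g ∈ S} e0 →
      ∀ V : ℕ, V0 ≤ V → SmRL labE DmJ kc (RunB kc s S V) (C / (4 ^ kc * 2 ^ V))) ∧
    ∀ kc V : ℕ, 1 ≤ V → SmRL labE DmJ kc (RunT kc s V) (C / (4 ^ kc * 4 ^ V)) :=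
  run_W labU_E labM_E (w := fun k => (4 : ℝ) ^ k) (fun k => by positivity) ⟨4, by norm_num, fun k => le_of_eq (pow_succ' 4 k)⟩
    joG_E

end TPC

end HexObs
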