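import Pool.Agent.JNT.Dir
import Pool.Agent.SIM.Tall

/-!
TPC: the walks with a tall leaf and a given label (end point; number of letters and end point) have a small weight, the leaves
at the ends included, both directions.
-/

set_option autoImplicit false

namespace HexObs

namespace TPC

open Finset TS SDN NTW NTA SIM SIM.TL JNT

open scoped ENNReal

variable {Λ : Type} {lab : List Bool → Λ}

/-- the event theorem for runs, a given label, direction false, leaves at the ends allowed -/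
theorem evER_L (hE : EventRL lab DmJ) : ∃ (C : ℝ) (k0 : ℕ), 1 ≤ C ∧
    ∀ (kc J : ℕ) (a : Λ) (R : Set (List (List Bool))) (δ : ℝ), k0 ≤ kc → 6 ≤ J → 0 < δ → SmRL lab DmJ kc R δ →
    gf {t | lab t = a ∧ t ∈ ER kc J R} ≤ ENNReal.ofReal (C ^ J * δ * Ub (kc + J)) * Xb (kc + J) ^ 2 := by
  obtain ⟨C0, k0, hC0, h0⟩ := hE
  obtain ⟨D, hD, hDX⟩ := Xb_pow
  have hC0' : 0 ≤ C0 := by linarith
  have hD0 : 0 ≤ D := by linarith
  refine ⟨C0 * D ^ 16, k0, ?_, fun kc J a R δ hk hJ hδ hS => ?_⟩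
  · have : 1 ≤ D ^ 16 := one_le_pow₀ hD
    nlinarith
  · have hUp := Ub_pos (kc + J)
    obtain ⟨lam', hQ⟩ := QL_exists (kc + J + 8)
    have h1 : gf {t | t ∈ SA ∧ t ∈ {t | lab t = a ∧ t ∈ ER kc J R}} ≤
        ENNReal.ofReal (C0 ^ J * δ * Ub (kc + J)) * (Xb (kc + J + 8)) ^ 2 := by
      refine gf_SA_le fun lam => ((gf_mono ?_).trans (h0 kc J lam lam' a R δ hk hJ hδ hQ hS)).trans ?_
      · rintro t ⟨h1, h2, h3⟩
        exact ⟨h2, h1, h3⟩
      · exact mul_le_mul_right (pow_le_pow_left' (bl_le_Xb _ _) 2) _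
    refine (gf_mono fun t ht => ?_).trans (h1.trans ?_)
    · exact ⟨ht.2.1.1, ht⟩
    · calc ENNReal.ofReal (C0 ^ J * δ * Ub (kc + J)) * (Xb (kc + J + 8)) ^ 2
          ≤ ENNReal.ofReal (C0 ^ J * δ * Ub (kc + J)) * (ENNReal.ofReal (D ^ 8) * Xb (kc + J)) ^ 2 := by
            exact mul_le_mul_right (pow_le_pow_left' (hDX (kc + J) 8) 2) _
        _ = ENNReal.ofReal (C0 ^ J * D ^ 16 * δ * Ub (kc + J)) * Xb (kc + J) ^ 2 := by
            rw [mul_pow, ← ENNReal.ofReal_pow (by positivity), ← mul_assoc, ← ENNReal.ofReal_mul (by positivity)]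
            congr 2
            ring
        _ ≤ _ := by
            refine mul_le_mul_left (ENNReal.ofReal_le_ofReal ?_) _
            have e1 : D ^ 16 ≤ (D ^ 16) ^ J := by
              calc D ^ 16 = (D ^ 16) ^ 1 := by rw [pow_one]
                _ ≤ (D ^ 16) ^ J := pow_le_pow_right₀ (one_le_pow₀ hD) (by omega)
            rw [mul_pow]
            gcongr

/-- the reduction of the direction true to the direction false, a given label -/
theorem lo_L (hR : LabR lab) {K : ℕ} {R D : ℤ} (hD : 4 < D) (a : Λ) {c : ℝ≥0∞}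
    (h : ∀ a', gf {t | lab t = a' ∧ t ∈ {t | t ∈ WL (K + 3) ∧ Lo (lev t) t.length R (D - 2)}} ≤ c) :
    gf {t | lab t = a ∧ t ∈ WL K ∧ Lo (fun i => lvl true (vx oo up t i)) t.length R D} ≤ ENNReal.ofReal DirA.CD * c := by
  classical
  refine (gf_mono ?_).trans (gf_preL hR a c {t | t ∈ WL (K + 3) ∧ Lo (lev t) t.length R (D - 2)} h DirA.Qz DirA.Qz_length)
  rintro t ⟨h0, hW, hL⟩
  have hex : ∃ q, q ≤ t.length ∧ DirA.vert (dx up t q) := by
    by_contra hc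
    push Not at hc
    have h1 : ∀ i, i < t.length → ¬ DirA.vert (dx up t i) := fun i hi => hc i hi.le
    obtain ⟨σ, a, b, hσ, hab, hb, h2, -⟩ := hL
    have h3 := DirA.zz_lvl h1 a (by omega)
    have h4 := DirA.zz_lvl h1 b hb
    simp only [h3, h4] at h2
    rcases hσ with rfl | rfl <;> split_ifs at h2 <;> omega
  obtain ⟨hq, hv⟩ := Nat.find_spec hex
  have hmin : ∀ i, i < Nat.find hex → ¬ DirA.vert (dx up t i) := fun i hi h => Nat.find_min hex hi ⟨by omega, h⟩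
  set q := Nat.find hex
  have hWd := RD.drop_WL hW hq hv
  obtain ⟨σ, hσ, h1, h2, h3⟩ := RD.drop_dir hq hv
  refine ⟨h0, q, t.drop q, ?_, by rw [← DirA.take_eq hq hmin hv, List.take_append_drop]⟩
  refine ⟨hWd, ?_⟩
  rw [List.length_drop]
  exact lo_drop hσ h1 (fun i hi => by
    have b1 := DirA.zz_lvl hmin i hi
    have b2 := DirA.zz_lvl hmin q le_rfl
    show |lvl true (vx oo up t i) - lvl true (vx oo up t q)| ≤ 2
    rw [b1, b2, abs_le]
    split_ifs <;> constructor <;> omega) hq hD hL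

lemma er_mono {kc J : ℕ} {R R' : Set (List (List Bool))} (h : R ⊆ R') : ER kc J R ⊆ ER kc J R' := by
  rintro t ⟨h1, m, u, e, h2, l, d, h3, h4, h5⟩
  exact ⟨h1, m, u, e, h2, l, d, h3, h4, fun ms a b c d' e' => h (h5 ms a b c d' e')⟩

/-- **the walks with a tall leaf, a given label** -/
theorem tall_L (hR : LabR lab) (hE : EventRL lab DmJ) {w : ℕ → ℝ} (hw : ∀ k, 0 < w k) {s0 k1 : ℕ} {K : ℝ} (hK : 1 ≤ K)
    (hT : ∀ kc V : ℕ, k1 ≤ kc → 1 ≤ V → SmRL lab DmJ kc (RunT kc s0 V) (K / (w kc * 4 ^ V))) :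
    ∃ (s k0 : ℕ) (C : ℝ), 1 ≤ C ∧ ∀ (k J V : ℕ) (a : Λ), k0 ≤ k → 6 ≤ J → 1 ≤ V →
    gf {t | lab t = a ∧ t ∈ WL (k + J) ∧ ∃ (dir : Bool) (m u : ℕ) (e : ℕ → ℕ), Lf dir (k + 5) t m u e ∧ ∃ j, j < m ∧
      3 * ((V : ℤ) * 2 ^ (k + s)) ≤ |lp dir t (e (j + 1)) - lp dir t (e j)|} ≤
      ENNReal.ofReal (C ^ J / (w k * 2 ^ V) * Ub (k + J)) * Xb (k + J) ^ 2 := by
  classical
  obtain ⟨C, k0, hC, hE⟩ := evER_L hE
  obtain ⟨s, hs⟩ : ∃ s, s = s0 + 5 := ⟨_, rfl⟩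
  obtain ⟨D, hD, hDX⟩ := Xb_pow
  have hCD := DirA.CD_ge
  obtain ⟨c0, hc0⟩ : ∃ c0, c0 = C ^ 3 * K * 8 * D ^ 6 * DirA.CD := ⟨_, rfl⟩
  have hC0 : 0 < C := by linarith
  have hD0 : 0 < D := by linarith
  have hK0 : 0 < K := by linarith
  have hCD0 : 0 < DirA.CD := by linarith
  have hc1 : K ≤ c0 := by
    have h1 : 1 ≤ C ^ 3 := one_le_pow₀ hC
    have h2 : 1 ≤ D ^ 6 := one_le_pow₀ hD
    rw [hc0]
    calc K = 1 * K * 1 * 1 * 1 := by ring
      _ ≤ C ^ 3 * K * 8 * D ^ 6 * DirA.CD := by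
          gcongr
          norm_num
  have hc01 : 1 ≤ c0 := hK.trans hc1
  refine ⟨s + 1, k0 + k1, C * (2 * c0), by nlinarith, fun k J V a hk hJ hV => ?_⟩
  have hU := Ub_pos (k + J)
  have hwk := hw k
  have hU3 : Ub (k + (J + 3)) ≤ 8 * Ub (k + J) := by
    have := Ub_add (k + J) 3
    rw [show k + (J + 3) = k + J + 3 by omega]
    linarith
  have hV4 : (0 : ℝ) < K / (w k * 4 ^ V) := by positivity
  have hR0 : SmRL lab DmJ k (RunT k s0 V) (K / (w k * 4 ^ V)) := hT k V (by omega) hV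
  have hsubR : RunT k s V ⊆ RunT k s0 V := by
    rintro gs ⟨g, h1, h2, h3, h4⟩
    refine ⟨g, h1, h2, h3, le_trans ?_ h4⟩
    exact Nat.mul_le_mul_left _ (Nat.pow_le_pow_right (by norm_num) (by omega))
  obtain ⟨Dz, hDz⟩ : ∃ Dz : ℤ, Dz = 3 * ((V : ℤ) * 2 ^ (k + s + 1)) := ⟨_, rfl⟩
  have hDz4 : 4 < Dz := by
    have e1 : (64 : ℤ) ≤ 2 ^ (k + s + 1) := by
      calc (64 : ℤ) = 2 ^ 6 := by norm_num
        _ ≤ _ := pow_le_pow_right₀ (by norm_num) (by omega)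
    have hVz : (1 : ℤ) ≤ V := by exact_mod_cast hV
    have e2 : (2 : ℤ) ^ (k + s + 1) ≤ V * 2 ^ (k + s + 1) := le_mul_of_one_le_left (by positivity) hVz
    rw [hDz]
    linarith
  have hRR : 0 < RR (k + 5) := by
    have hp : (32 : ℤ) ≤ 2 ^ (k + 5) := by
      calc (32 : ℤ) = 2 ^ 5 := by norm_num
        _ ≤ _ := pow_le_pow_right₀ (by norm_num) (by omega)
    unfold RR
    linarith
  have hsub : {t | lab t = a ∧ t ∈ WL (k + J) ∧ ∃ (dir : Bool) (m u : ℕ) (e : ℕ → ℕ), Lf dir (k + 5) t m u e ∧ ∃ j, j < m ∧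
      3 * ((V : ℤ) * 2 ^ (k + (s + 1))) ≤ |lp dir t (e (j + 1)) - lp dir t (e j)|} ⊆
      {t | lab t = a ∧ t ∈ WL (k + J) ∧ Lo (lev t) t.length (RR (k + 5)) Dz} ∪
      {t | lab t = a ∧ t ∈ WL (k + J) ∧ Lo (fun i => lvl true (vx oo up t i)) t.length (RR (k + 5)) Dz} := by
    rintro t ⟨h0, ht, dir, m, u, e, hL, j, hj, hh⟩
    rw [show k + (s + 1) = k + s + 1 by omega, ← hDz] at hh
    cases dir
    · exact Or.inl ⟨h0, ht, lo_of_hyst (f := lev t) hL hj hRR hh⟩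
    · exact Or.inr ⟨h0, ht, lo_of_hyst (f := fun i => lvl true (vx oo up t i)) hL hj hRR hh⟩
  have hfalse : ∀ (a' : Λ) J', 6 ≤ J' →
      gf {t | lab t = a' ∧ t ∈ {t | t ∈ WL (k + J') ∧ Lo (lev t) t.length (RR (k + 5)) (Dz - 2)}} ≤
      ENNReal.ofReal (C ^ J' * (K / (w k * 4 ^ V)) * Ub (k + J')) * Xb (k + J') ^ 2 := by
    intro a' J' hJ'
    refine (gf_mono ?_).trans (hE k J' a' _ _ (by omega) hJ' hV4 hR0)
    rintro t ⟨h0, h1, h2⟩
    exact ⟨h0, er_mono hsubR (mem_tall hV (by omega) h1 (by rw [← hDz]; exact h2))⟩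
  have h1 : gf {t | lab t = a ∧ t ∈ WL (k + J) ∧ Lo (lev t) t.length (RR (k + 5)) Dz} ≤
      ENNReal.ofReal (C ^ J * (K / (w k * 4 ^ V)) * Ub (k + J)) * Xb (k + J) ^ 2 := by
    refine (gf_mono ?_).trans (hfalse a J hJ)
    rintro t ⟨h0, h1, σ, a, b, h2, h3, h4, h5, h6⟩
    exact ⟨h0, h1, σ, a, b, h2, h3, h4, by linarith, h6⟩
  have h2 : gf {t | lab t = a ∧ t ∈ WL (k + J) ∧ Lo (fun i => lvl true (vx oo up t i)) t.length (RR (k + 5)) Dz} ≤
      ENNReal.ofReal (C ^ J * (c0 / (w k * 4 ^ V)) * Ub (k + J)) * Xb (k + J) ^ 2 := by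
    have h3 := fun a' => hfalse a' (J + 3) (by omega)
    have h4 := hDX (k + J) 3
    rw [show k + J + 3 = k + (J + 3) by omega] at h4
    rw [show k + (J + 3) = k + J + 3 by omega] at h3
    refine (lo_L hR hDz4 a h3).trans ?_
    rw [show k + J + 3 = k + (J + 3) by omega]
    calc ENNReal.ofReal DirA.CD * (ENNReal.ofReal (C ^ (J + 3) * (K / (w k * 4 ^ V)) * Ub (k + (J + 3))) * Xb (k + (J + 3)) ^ 2)
        ≤ ENNReal.ofReal DirA.CD * (ENNReal.ofReal (C ^ (J + 3) * (K / (w k * 4 ^ V)) * (8 * Ub (k + J))) *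
          (ENNReal.ofReal (D ^ 3) * Xb (k + J)) ^ 2) := by
          refine mul_le_mul_right (mul_le_mul' (ENNReal.ofReal_le_ofReal ?_) (pow_le_pow_left' h4 2)) _
          gcongr
      _ = ENNReal.ofReal (DirA.CD * (C ^ (J + 3) * (K / (w k * 4 ^ V)) * (8 * Ub (k + J)) * (D ^ 3) ^ 2)) *
            Xb (k + J) ^ 2 := by
          rw [mul_pow, ← ENNReal.ofReal_pow (by positivity), ← mul_assoc, ← mul_assoc, ← ENNReal.ofReal_mul (by linarith),
            ← ENNReal.ofReal_mul (by positivity)]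
          congr 2
          ring
      _ ≤ _ := by
          refine mul_le_mul_left (ENNReal.ofReal_le_ofReal (le_of_eq ?_)) _
          rw [hc0, pow_add]
          ring
  refine (gf_mono hsub).trans ((gf_union_le _ _).trans ((add_le_add h1 h2).trans ?_))
  rw [← add_mul, ← ENNReal.ofReal_add (by positivity) (by positivity)]
  refine mul_le_mul_left (ENNReal.ofReal_le_ofReal ?_) _
  rw [← add_mul]
  refine mul_le_mul_of_nonneg_right ?_ hU.le
  have e1 : (1 : ℝ) / (w k * 4 ^ V) ≤ 1 / (w k * 2 ^ V) := by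
    apply one_div_le_one_div_of_le (by positivity)
    exact mul_le_mul_of_nonneg_left (pow_le_pow_left₀ (by norm_num) (by norm_num) V) hwk.le
  have e2 : 2 * c0 ≤ (2 * c0) ^ J := by
    calc 2 * c0 = (2 * c0) ^ 1 := by rw [pow_one]
      _ ≤ _ := pow_le_pow_right₀ (by linarith) (by omega)
  calc C ^ J * (K / (w k * 4 ^ V)) + C ^ J * (c0 / (w k * 4 ^ V)) = C ^ J * (K + c0) * (1 / (w k * 4 ^ V)) := by ring
    _ ≤ C ^ J * (2 * c0) ^ J * (1 / (w k * 2 ^ V)) := by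
        gcongr
        linarith
    _ = _ := by
        rw [mul_pow]
        ring

end TPC

end HexObs
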