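import Pool.Agent.TPC.LatC
import Pool.Agent.BAR.ColF

/-!
TPC: the square of the weight of the half plane walks of at most m rows is at most m ^ (7/4) times the sum over
4 m ≤ k ≤ 10 m of the two point functions between mid-edges of the same column, k rows apart (helper51): `BAR.HH_sq_le_CW`
with a constant instead of `lg m ^ 2`.
-/

set_option autoImplicit false

namespace HexObs

namespace TPC

open Complex Finset ENNReal TS SDN NTW NTA BAR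

open scoped ENNReal

/-- five times the strip -/
lemma five_scale {r m r5 : ℕ} (hm1 : 2 ^ r ≤ m) (hm2 : m < 2 ^ (r + 1)) (h1 : 2 ^ r5 ≤ 5 * m) : r5 ≤ r + 3 := by
  have h2 : 2 ^ r5 < 2 ^ (r + 4) := by
    refine lt_of_le_of_lt h1 ?_
    have : 2 ^ (r + 4) = 8 * 2 ^ (r + 1) := by ring
    omega
  have := (Nat.pow_lt_pow_iff_right (by norm_num)).1 h2
  omega

/-- the weight of the strip of 5 m rows -/
lemma HH_five : ∃ C : ℝ, 1 ≤ C ∧ ∀ m : ℕ, 1 ≤ m → HH (5 * m) ≤ ENNReal.ofReal C * HH m := by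
  obtain ⟨D, hD, hx⟩ := Xb_pow
  obtain ⟨C, hC, hge⟩ := HH_ge
  refine ⟨16 * D ^ 4 * C, ?_, fun m hm => ?_⟩
  · have h1 : 1 ≤ D ^ 4 := one_le_pow₀ hD
    nlinarith [mul_le_mul h1 hC (by norm_num) (by linarith)]
  obtain ⟨r, hr⟩ : ∃ r, r = Nat.log 2 m := ⟨_, rfl⟩
  have h1 : 2 ^ r ≤ m := by rw [hr]; exact Nat.pow_log_le_self 2 (by omega)
  have h2 : m < 2 ^ (r + 1) := by rw [hr]; exact Nat.lt_pow_succ_log_self (by norm_num) m
  have h3 : 5 * m ≤ 2 ^ (r + 4) := by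
    have : 2 ^ (r + 4) = 8 * 2 ^ (r + 1) := by ring
    omega
  have hU := Ub_pow r 4
  have hU0 := Ub_pos r
  calc HH (5 * m) ≤ HH (2 ^ (r + 4)) := gf_mono fun t ht => SSt_mono h3 ht
    _ ≤ ENNReal.ofReal (Ub (r + 4)) * Xb (r + 4) := HH_le_Xb le_rfl
    _ ≤ ENNReal.ofReal (2 ^ 4 * Ub r) * (ENNReal.ofReal (D ^ 4) * Xb r) :=
        mul_le_mul' (ENNReal.ofReal_le_ofReal hU) (hx _ _)
    _ = ENNReal.ofReal (16 * D ^ 4) * (ENNReal.ofReal (Ub r) * Xb r) := by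
        rw [ENNReal.ofReal_mul (by positivity), ENNReal.ofReal_mul (q := D ^ 4) (by positivity)]
        norm_num
        ring
    _ ≤ ENNReal.ofReal (16 * D ^ 4) * (ENNReal.ofReal C * HH m) := mul_le_mul' le_rfl (hge r m h1)
    _ = _ := by rw [← mul_assoc, ← ENNReal.ofReal_mul (by positivity)]

/-- the walks of a large extent of the strip of 5 m rows -/
lemma far_five {η : ℝ} (hη : 0 < η) : ∃ J m0 : ℕ, ∀ m : ℕ, m0 ≤ m → ∃ L : ℕ, 2 ^ L ≤ 2 ^ J * (5 * m) ∧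
    gf {t | t ∈ SSt (5 * m) ∧ t ∉ WL L} ≤ ENNReal.ofReal η * HH m := by
  obtain ⟨D, hD, hx⟩ := Xb_pow
  obtain ⟨C, hC, hge⟩ := HH_ge
  obtain ⟨c, J0, k0, hc, hfar⟩ := sst_far
  have h1 : Filter.Tendsto (fun J : ℕ => c * (2 : ℝ) ^ J) Filter.atTop Filter.atTop :=
    Filter.Tendsto.const_mul_atTop hc (tendsto_pow_atTop_atTop_of_one_lt (by norm_num))
  obtain ⟨e, he⟩ : ∃ e : ℝ, e = η / (8 * D ^ 3 * C) := ⟨_, rfl⟩
  have he0 : 0 < e := by rw [he]; positivity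
  have h2 : ∀ᶠ J : ℕ in Filter.atTop, -(Real.log e / Real.log 2) ≤ c * (2 : ℝ) ^ J := h1.eventually_ge_atTop _
  obtain ⟨J1, hJ1⟩ := Filter.eventually_atTop.1 h2
  have hl : 0 < Real.log 2 := Real.log_pos (by norm_num)
  refine ⟨max J0 J1, max 1 (2 ^ k0), fun m hm => ?_⟩
  have hm1 : 1 ≤ m := (le_max_left _ _).trans hm
  have hmk : 2 ^ k0 ≤ m := (le_max_right _ _).trans hm
  obtain ⟨r, hr⟩ : ∃ r, r = Nat.log 2 m := ⟨_, rfl⟩
  have g1 : 2 ^ r ≤ m := by rw [hr]; exact Nat.pow_log_le_self 2 (by omega)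
  have g2 : m < 2 ^ (r + 1) := by rw [hr]; exact Nat.lt_pow_succ_log_self (by norm_num) m
  obtain ⟨r5, hr5⟩ : ∃ r, r = Nat.log 2 (5 * m) := ⟨_, rfl⟩
  have g3 : 2 ^ r5 ≤ 5 * m := by rw [hr5]; exact Nat.pow_log_le_self 2 (by omega)
  have g4 : 5 * m < 2 ^ (r5 + 1) := by rw [hr5]; exact Nat.lt_pow_succ_log_self (by norm_num) _
  have g5 := five_scale g1 g2 g3
  have g6 : k0 ≤ r5 := by
    have : 2 ^ k0 < 2 ^ (r5 + 1) := by omega
    have := (Nat.pow_lt_pow_iff_right (by norm_num)).1 this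
    omega
  have g7 : r ≤ r5 := by
    have : 2 ^ r < 2 ^ (r5 + 1) := by omega
    have := (Nat.pow_lt_pow_iff_right (by norm_num)).1 this
    omega
  refine ⟨r5 + max J0 J1, ?_, ?_⟩
  · rw [pow_add, mul_comm]
    exact Nat.mul_le_mul_left _ g3
  have h3 := hJ1 (max J0 J1) (le_max_right _ _)
  have h4 : (2 : ℝ) ^ (-(c * 2 ^ (max J0 J1))) ≤ e := by
    have h5 : (2 : ℝ) ^ (Real.log e / Real.log 2) = e := by
      rw [Real.rpow_def_of_pos (by norm_num), mul_div_cancel₀ _ hl.ne', Real.exp_log he0]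
    calc (2 : ℝ) ^ (-(c * 2 ^ (max J0 J1))) ≤ (2 : ℝ) ^ (Real.log e / Real.log 2) :=
          Real.rpow_le_rpow_of_exponent_le (by norm_num) (by linarith)
      _ = e := h5
  have hU0 := Ub_pos r
  have hU5 := Ub_pos r5
  have h5 : Ub r5 ≤ 8 * Ub r := by
    have h6 : Ub r5 ≤ Ub (r + 3) := Num2Aux.UU_mono (Nat.pow_le_pow_right (by norm_num) g5)
    have h7 := Ub_pow r 3
    linarith
  calc gf {t | t ∈ SSt (5 * m) ∧ t ∉ WL (r5 + max J0 J1)}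
      ≤ ENNReal.ofReal ((2 : ℝ) ^ (-(c * 2 ^ (max J0 J1))) * Ub r5) * Xb r5 :=
        hfar _ _ _ (le_max_left _ _) g6 g3 g4
    _ ≤ ENNReal.ofReal (e * (8 * Ub r)) * (ENNReal.ofReal (D ^ 3) * Xb r) := by
        refine mul_le_mul' (ENNReal.ofReal_le_ofReal ?_) ((Xb_mono g5).trans (hx r 3))
        exact mul_le_mul h4 h5 hU5.le he0.le
    _ = ENNReal.ofReal (e * 8 * D ^ 3) * (ENNReal.ofReal (Ub r) * Xb r) := by
        rw [show e * (8 * Ub r) = (e * 8) * Ub r by ring, ENNReal.ofReal_mul (p := e * 8) (by positivity),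
          ENNReal.ofReal_mul (p := e * 8) (q := D ^ 3) (by positivity)]
        ring
    _ ≤ ENNReal.ofReal (e * 8 * D ^ 3) * (ENNReal.ofReal C * HH m) := mul_le_mul' le_rfl (hge r m g1)
    _ = ENNReal.ofReal η * HH m := by
        rw [← mul_assoc, ← ENNReal.ofReal_mul (by positivity), he]
        congr 2
        field_simp

/-- **half plane walks by the two point functions of a column, with a constant** -/
theorem HH_sq_le_CWC {δ : Pt} (hδ : δ ∈ dF ∪ dR) : ∃ (C : ℝ) (m0 : ℕ), 0 < C ∧ ∀ m : ℕ, m0 ≤ m →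
    HH m ^ 2 ≤ ENNReal.ofReal (C * (m : ℝ) ^ (7 / 4 : ℝ)) * ∑ k ∈ Icc (4 * m) (10 * m), gf (BAR.CW δ k) := by
  obtain ⟨CV, hCV, hV⟩ := HH_le_VB hδ
  obtain ⟨C, hC, hKK⟩ := KK_low
  obtain ⟨C5, hC5, h5⟩ := HH_five
  obtain ⟨η, hη⟩ : ∃ η : ℝ, η = 1 / (8 * CV) := ⟨_, rfl⟩
  have hη0 : 0 < η := by rw [hη]; positivity
  obtain ⟨J, m2, hfar⟩ := far_five hη0
  obtain ⟨CU, hCU, hU⟩ := UU_low
  obtain ⟨R, hR⟩ : ∃ R : ℝ, R = max 0 (Real.log (C5 / η)) := ⟨_, rfl⟩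
  have hR0 : 0 ≤ R := by rw [hR]; exact le_max_left _ _
  have hRe : Real.exp (-R) * C5 ≤ η := by
    have h1 : Real.log (C5 / η) ≤ R := by rw [hR]; exact le_max_right _ _
    have h2 : C5 / η ≤ Real.exp R := by
      rw [← Real.log_le_iff_le_exp (by positivity)]
      exact h1
    rw [Real.exp_neg, inv_mul_le_iff₀ (Real.exp_pos _)]
    rw [div_le_iff₀ hη0] at h2
    exact h2
  obtain ⟨Q, hQ⟩ : ∃ Q : ℝ, Q = 4 * 136 := ⟨_, rfl⟩
  have hQ0 : 0 < Q := by rw [hQ]; positivity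
  obtain ⟨m1, hm1⟩ := exists_nat_ge ((CU * Q) ^ (4 / 3 : ℝ))
  refine ⟨(2 * CV) ^ 2 * (60 * 2 ^ J + 10) * (2 * (6 ^ (3 / 4 : ℝ) * C * R) + 1), max m2 (m1 + 1), by positivity,
    fun m hm => ?_⟩
  have hmm2 : m2 ≤ m := (le_max_left _ _).trans hm
  have hmm1 : m1 + 1 ≤ m := (le_max_right _ _).trans hm
  have hmm : 1 ≤ m := by omega
  have hmR : (1 : ℝ) ≤ m := by exact_mod_cast hmm
  have hm0 : (0 : ℝ) < m := by linarith
  -- the number of cuts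
  obtain ⟨K, hK⟩ : ∃ K : ℕ, K = ⌊C * (((5 * m : ℕ) : ℝ) + 1) ^ (3 / 4 : ℝ) * R⌋₊ := ⟨_, rfl⟩
  have hp0 : (0 : ℝ) ≤ C * (((5 * m : ℕ) : ℝ) + 1) ^ (3 / 4 : ℝ) * R := by positivity
  have hK1 : C * (((5 * m : ℕ) : ℝ) + 1) ^ (3 / 4 : ℝ) * R ≤ K + 1 := by
    rw [hK]
    exact (Nat.lt_floor_add_one _).le
  have hK2 : 2 * (K : ℝ) + 1 ≤ (2 * (6 ^ (3 / 4 : ℝ) * C * R) + 1) * (m : ℝ) ^ (3 / 4 : ℝ) := by
    have h1 : (K : ℝ) ≤ C * (((5 * m : ℕ) : ℝ) + 1) ^ (3 / 4 : ℝ) * R := by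
      rw [hK]
      exact Nat.floor_le hp0
    have h2 : (((5 * m : ℕ) : ℝ) + 1) ^ (3 / 4 : ℝ) ≤ 6 ^ (3 / 4 : ℝ) * (m : ℝ) ^ (3 / 4 : ℝ) := by
      rw [← Real.mul_rpow (by norm_num) hm0.le]
      apply Real.rpow_le_rpow (by positivity) _ (by norm_num)
      push_cast
      linarith
    have h3 : (1 : ℝ) ≤ (m : ℝ) ^ (3 / 4 : ℝ) := Real.one_le_rpow hmR (by norm_num)
    have h4 : C * (((5 * m : ℕ) : ℝ) + 1) ^ (3 / 4 : ℝ) * R ≤ C * (6 ^ (3 / 4 : ℝ) * (m : ℝ) ^ (3 / 4 : ℝ)) * R := by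
      gcongr
    calc 2 * (K : ℝ) + 1 ≤ 2 * (C * (6 ^ (3 / 4 : ℝ) * (m : ℝ) ^ (3 / 4 : ℝ)) * R) + (m : ℝ) ^ (3 / 4 : ℝ) := by
          linarith
      _ = _ := by ring
  -- the box
  obtain ⟨L, hL2, ht1⟩ := hfar m hmm2
  have hX : ((4 * (3 * 2 ^ L + 2) + 2 : ℕ) : ℝ) ≤ (60 * 2 ^ J + 10) * m := by
    have h1 : ((2 ^ L : ℕ) : ℝ) ≤ ((2 ^ J * (5 * m) : ℕ) : ℝ) := by exact_mod_cast hL2
    push_cast at h1
    push_cast
    nlinarith
  -- tails
  obtain ⟨W, hW⟩ : ∃ W : Set (List Bool), W = {v | v ∈ VA m δ K ∧ v ∈ WL L} := ⟨_, rfl⟩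
  have hsub : VB m δ ⊆ (W ∪ {t | t ∈ SSt (5 * m) ∧ t ∉ WL L}) ∪ MC (5 * m) (K + 1) := by
    intro v hv
    rcases VB_sub m K δ hv with h | h
    · left
      by_cases h1 : v ∈ WL L
      · left
        rw [hW]
        exact ⟨h, h1⟩
      · exact Or.inr ⟨TN_SSt h.1, h1⟩
    · exact Or.inr h
  have ht2 : gf (MC (5 * m) (K + 1)) ≤ ENNReal.ofReal η * HH m := by
    refine (MC_small hC (hKK (5 * m)) hR0 hK1).trans ?_
    refine (mul_le_mul' le_rfl (h5 m hmm)).trans ?_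
    rw [← mul_assoc, ← ENNReal.ofReal_mul (by positivity)]
    exact mul_le_mul' (ENNReal.ofReal_le_ofReal hRe) le_rfl
  have hVW : gf (VB m δ) ≤ gf W + ENNReal.ofReal (2 * η) * HH m := by
    refine (gf_mono hsub).trans ((gf_union_le _ _).trans ((add_le_add (gf_union_le _ _) le_rfl).trans ?_))
    calc gf W + gf {t | t ∈ SSt (5 * m) ∧ t ∉ WL L} + gf (MC (5 * m) (K + 1))
        ≤ gf W + ENNReal.ofReal η * HH m + ENNReal.ofReal η * HH m := add_le_add (add_le_add le_rfl ht1) ht2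
      _ = gf W + ENNReal.ofReal (2 * η) * HH m := by
          rw [two_mul, ENNReal.ofReal_add hη0.le hη0.le]
          ring
  -- large m
  have hfin : HH m ≠ ∞ := PLW.gf_SSt_fin m
  have hWfin : gf W ≠ ∞ := ne_top_of_le_ne_top (PLW.gf_SSt_fin (5 * m)) (gf_mono fun w hw => by
    rw [hW] at hw
    exact TN_SSt hw.1.1)
  have hHW : HH m ≤ ENNReal.ofReal (2 * CV) * gf W := by
    have h1 : HH m ≤ 136 + ENNReal.ofReal CV * (gf W + ENNReal.ofReal (2 * η) * HH m) :=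
      (hV m hmm).trans (add_le_add le_rfl (mul_le_mul' le_rfl hVW))
    have h2 : ENNReal.ofReal Q ≤ HH m := by
      refine le_trans (ENNReal.ofReal_le_ofReal ?_) (UU_le_HH m)
      have h3 := hU m
      have h4 : (CU * Q) ^ (4 / 3 : ℝ) ≤ (m : ℝ) + 1 := by
        refine hm1.trans ?_
        have : (m1 : ℝ) ≤ m := by exact_mod_cast (by omega : m1 ≤ m)
        linarith
      have h5 : CU * Q ≤ ((m : ℝ) + 1) ^ (3 / 4 : ℝ) := by
        have h6 := Real.rpow_le_rpow (by positivity) h4 (by norm_num : (0 : ℝ) ≤ 3 / 4)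
        rw [← Real.rpow_mul (by positivity)] at h6
        have e : (4 / 3 : ℝ) * (3 / 4) = 1 := by norm_num
        rw [e, Real.rpow_one] at h6
        exact h6
      have h6 : CU * Q ≤ CU * UU m := h5.trans h3
      exact le_of_mul_le_mul_left h6 (by linarith)
    obtain ⟨h, hh⟩ : ∃ h : ℝ, h = (HH m).toReal := ⟨_, rfl⟩
    obtain ⟨w, hw⟩ : ∃ w : ℝ, w = (gf W).toReal := ⟨_, rfl⟩
    have h0 : 0 ≤ h := by rw [hh]; exact ENNReal.toReal_nonneg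
    have w0 : 0 ≤ w := by rw [hw]; exact ENNReal.toReal_nonneg
    have eh : HH m = ENNReal.ofReal h := by rw [hh, ENNReal.ofReal_toReal hfin]
    have ew : gf W = ENNReal.ofReal w := by rw [hw, ENNReal.ofReal_toReal hWfin]
    have e136 : (136 : ℝ≥0∞) = ENNReal.ofReal 136 := by norm_num
    rw [eh, ew, e136, ← ENNReal.ofReal_mul (by positivity), ← ENNReal.ofReal_add w0 (by positivity),
      ← ENNReal.ofReal_mul hCV.le, ← ENNReal.ofReal_add (by norm_num) (by positivity),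
      ENNReal.ofReal_le_ofReal_iff (by positivity)] at h1
    rw [eh, ENNReal.ofReal_le_ofReal_iff h0, hQ] at h2
    rw [eh, ew, ← ENNReal.ofReal_mul (by positivity)]
    apply ENNReal.ofReal_le_ofReal
    have e1 : CV * (2 * η) = 1 / 4 := by
      rw [hη]
      field_simp
      norm_num
    have e2 : CV * (w + 2 * η * h) = CV * w + 1 / 4 * h := by rw [← e1]; ring
    rw [e2] at h1
    linarith
  -- the pairs
  have hcol : ∀ v ∈ W, |col v| ≤ ((3 * 2 ^ L + 2 : ℕ) : ℤ) := by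
    intro v hv
    rw [hW] at hv
    exact col_le hv.2
  have hsq := sq_le_PA hcol
  have hδi : ip δ up ≤ 1 := by
    have : ∀ δ ∈ dF ∪ dR, ip δ up ≤ 1 := by decide
    exact this δ hδ
  have hpa := PA_le (m := m) (K := K) hδi (S := W) (by
    rw [hW]
    exact fun v hv => hv.1)
  obtain ⟨SG, hS⟩ : ∃ SG : ℝ≥0∞, SG = ∑ k ∈ Icc (4 * m) (10 * m), gf (BAR.CW δ k) := ⟨_, rfl⟩
  rw [← hS] at hpa ⊢
  calc HH m ^ 2 ≤ (ENNReal.ofReal (2 * CV) * gf W) ^ 2 := pow_le_pow_left' hHW 2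
    _ = ENNReal.ofReal ((2 * CV) ^ 2) * gf W ^ 2 := by
        rw [mul_pow, ENNReal.ofReal_pow (by positivity)]
    _ ≤ ENNReal.ofReal ((2 * CV) ^ 2) * (((4 * (3 * 2 ^ L + 2) + 2 : ℕ) : ℝ≥0∞) *
        (((2 * K + 1 : ℕ) : ℝ≥0∞) * SG)) := by
        gcongr
        exact hsq.trans (mul_le_mul' le_rfl hpa)
    _ = ENNReal.ofReal ((2 * CV) ^ 2 * ((4 * (3 * 2 ^ L + 2) + 2 : ℕ) : ℝ) * ((2 * K + 1 : ℕ) : ℝ)) * SG := by
        rw [ENNReal.ofReal_mul (by positivity), ENNReal.ofReal_mul (by positivity), ENNReal.ofReal_natCast,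
          ENNReal.ofReal_natCast]
        ring
    _ ≤ _ := by
        refine mul_le_mul' (ENNReal.ofReal_le_ofReal ?_) le_rfl
        have e1 : (m : ℝ) ^ (7 / 4 : ℝ) = m * (m : ℝ) ^ (3 / 4 : ℝ) := by
          have e : (7 / 4 : ℝ) = 1 + 3 / 4 := by norm_num
          rw [e, Real.rpow_add hm0, Real.rpow_one]
        have hK3 : ((2 * K + 1 : ℕ) : ℝ) ≤ (2 * (6 ^ (3 / 4 : ℝ) * C * R) + 1) * (m : ℝ) ^ (3 / 4 : ℝ) := by
          push_cast
          exact hK2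
        calc (2 * CV) ^ 2 * ((4 * (3 * 2 ^ L + 2) + 2 : ℕ) : ℝ) * ((2 * K + 1 : ℕ) : ℝ) ≤
            (2 * CV) ^ 2 * ((60 * 2 ^ J + 10) * m) *
              ((2 * (6 ^ (3 / 4 : ℝ) * C * R) + 1) * (m : ℝ) ^ (3 / 4 : ℝ)) := by
              gcongr
          _ = _ := by
              rw [e1]
              ring

end TPC

end HexObs
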