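import Pool.Agent.PB.CylMain
import Pool.Agent.TPC.CylLift
import Pool.Agent.TPF.Glue

/-!
# TPC: words of the plane that are disjoint from their translates are walks of the cylinder (helper64)

The cylinder has `2 k` rows, all rapidities 0 (`PBM.W0r`), the period is a lattice vector 30 degrees away from `up`.

* `EmbC k c` : words `w` such that `c :: w` without its last letter is a word of the cylinder; `embC_le`;
* `PlC k c` : the words of the plane with the end `k gu c`, disjoint from their translates by the multiples of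
  `2 k gu c`, whose last step is not perpendicular to `gu c`; **`gf_PlC`** : `gf (PlC k c) ≤ (4 / xc) W0r k`.
-/

set_option autoImplicit false

namespace HexObs

namespace TPC

open HexObs.SDN HexObs.LP
open Pool.Agent.CylSaw (Wd wv de_w dx_s vx_s back_last step_cases gf_all ps co ps_A vt_cases tr_A tr_B)
open Pool.Agent.NUF.Cyl (Nm Cy pL tr ri)
open scoped ENNReal

/-! ### 1. Words of the cylinder without their last letter -/

/-- the words w such that c :: w is, up to its last letter, a word of the cylinder -/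
def EmbC (k : ℕ) (c : Bool) : Set (List Bool) := {w | w ≠ [] ∧
  (∀ i j, i < j → j ≤ w.length → wv k (c :: w) (i + 1) ≠ wv k (c :: w) (j + 1)) ∧
  wv k (c :: w) (w.length + 1) = (0, (k : ZMod (2 * k)), false) ∧ dx (pL 0).2 (c :: w) w.length ≠ (1, -1)}

/-- the completed word -/
def cmpl (c b : Bool) (w : List Bool) : List Bool := c :: (w.dropLast ++ [b])

theorem cmpl_mem {k : ℕ} {c : Bool} {w : List Bool} (hw : w ∈ EmbC k c) : ∃ b, cmpl c b w ∈ Wd k w.length := by
  obtain ⟨h0, h1, h2, h3⟩ := hw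
  obtain ⟨s, hs⟩ : ∃ s, s = c :: w.dropLast := ⟨_, rfl⟩
  have hpos : 0 < w.length := List.length_pos_iff.2 h0
  have hl : s.length = w.length := by
    rw [hs, List.length_cons, List.length_dropLast]
    omega
  have e1 : c :: w = s ++ [w.getLast h0] := by
    rw [hs, List.cons_append, List.dropLast_append_getLast h0]
  have e2 : ∀ b, cmpl c b w = s ++ [b] := fun b => by
    rw [hs]
    rfl
  have ew : ∀ (x : Bool) (i : ℕ), i ≤ w.length + 1 → wv k (s ++ [x]) i = wv k s i := fun x i hi => by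
    unfold wv
    rw [vx_append (by omega)]
  rw [e1] at h1 h2 h3
  rw [ew _ _ le_rfl] at h2
  rw [dx_append (by omega)] at h3
  obtain ⟨c1, -⟩ := back_last (k := k) (v := vx (pL 0).1 (pL 0).2 s (w.length + 1)) (de_w s (w.length + 1)).2.1 h2
  have hst : De (vx (pL 0).1 (pL 0).2 s w.length + dx (pL 0).2 s w.length, ((-1, 1) : Pt)) := c1
  rcases step_cases (de_w s w.length) hst with b1 | ⟨b, b1⟩
  · exfalso
    apply h3
    rw [← neg_neg (dx (pL 0).2 s w.length), ← b1]
    rfl
  · refine ⟨b, ?_, ?_, ?_, ?_⟩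
    · rw [e2, List.length_append, hl, List.length_singleton]
    · intro i j hi hij hj
      rw [e2, List.length_append, hl, List.length_singleton] at hj
      rw [e2, ew _ _ (by omega), ew _ _ (by omega)]
      have h4 := h1 (i - 1) (j - 1) (by omega) (by omega)
      rw [Nat.sub_add_cancel hi, Nat.sub_add_cancel (by omega : 1 ≤ j), ew _ _ (by omega), ew _ _ (by omega)] at h4
      exact h4
    · rw [e2, List.length_append, hl, List.length_singleton, ew _ _ le_rfl]
      exact h2
    · rw [e2, dx_append_one, hl]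
      exact b1.symm

theorem gf_cmpl {k : ℕ} (c x b : Bool) : gf {w | w ∈ EmbC k c ∧ w.getLast? = some x ∧ cmpl c b w ∈ ⋃ n, Wd k n} ≤
    ENNReal.ofReal (1 / xc) * gf (⋃ n, Wd k n) := by
  refine gf_le_of_inj (cmpl c b) (fun t ht => ht.2.2) ?_ _ ?_
  · rintro t ⟨⟨h0, -⟩, h1, -⟩ t' ⟨⟨h0', -⟩, h1', -⟩ e
    have e1 : t.dropLast = t'.dropLast := by
      unfold cmpl at e
      have e2 := (List.cons.inj e).2
      exact List.append_inj_left' e2 rfl
    rw [List.getLast?_eq_getLast_of_ne_nil h0] at h1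
    rw [List.getLast?_eq_getLast_of_ne_nil h0'] at h1'
    rw [← List.dropLast_append_getLast h0, ← List.dropLast_append_getLast h0', e1, Option.some.inj h1,
      Option.some.inj h1']
  · rintro t ⟨⟨h0, -⟩, -⟩
    have hx := xc_pos
    have hpos : 0 < t.length := List.length_pos_iff.2 h0
    have hl : (cmpl c b t).length = t.length + 1 := by
      unfold cmpl
      rw [List.length_cons, List.length_append, List.length_dropLast, List.length_singleton]
      omega
    unfold wE
    rw [hl, ← ENNReal.ofReal_mul (by positivity)]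
    apply ENNReal.ofReal_le_ofReal
    rw [pow_succ]
    field_simp
    exact le_rfl

/-- **the words of EmbC** -/
theorem embC_le {k : ℕ} (hk : 1 ≤ k) (c : Bool) : gf (EmbC k c) ≤ ENNReal.ofReal (4 / xc * PBM.W0r k) := by
  have h0 : EmbC k c ⊆
      ({w | w ∈ EmbC k c ∧ w.getLast? = some false ∧ cmpl c false w ∈ ⋃ n, Wd k n} ∪
        {w | w ∈ EmbC k c ∧ w.getLast? = some false ∧ cmpl c true w ∈ ⋃ n, Wd k n}) ∪
      ({w | w ∈ EmbC k c ∧ w.getLast? = some true ∧ cmpl c false w ∈ ⋃ n, Wd k n} ∪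
        {w | w ∈ EmbC k c ∧ w.getLast? = some true ∧ cmpl c true w ∈ ⋃ n, Wd k n}) := by
    intro w hw
    obtain ⟨b, hb⟩ := cmpl_mem hw
    have h1 : cmpl c b w ∈ ⋃ n, Wd k n := Set.mem_iUnion.2 ⟨_, hb⟩
    have h2 : w.getLast? = some (w.getLast hw.1) := List.getLast?_eq_getLast_of_ne_nil hw.1
    cases hx : w.getLast hw.1 <;> rw [hx] at h2
    · left
      cases b
      · exact Or.inl ⟨hw, h2, h1⟩
      · exact Or.inr ⟨hw, h2, h1⟩
    · right
      cases b
      · exact Or.inl ⟨hw, h2, h1⟩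
      · exact Or.inr ⟨hw, h2, h1⟩
  have hx := xc_pos
  calc gf (EmbC k c) ≤ _ := gf_mono h0
    _ ≤ _ := gf_union_le _ _
    _ ≤ _ := add_le_add (gf_union_le _ _) (gf_union_le _ _)
    _ ≤ (ENNReal.ofReal (1 / xc) * gf (⋃ n, Wd k n) + ENNReal.ofReal (1 / xc) * gf (⋃ n, Wd k n)) +
        (ENNReal.ofReal (1 / xc) * gf (⋃ n, Wd k n) + ENNReal.ofReal (1 / xc) * gf (⋃ n, Wd k n)) :=
        add_le_add (add_le_add (gf_cmpl _ _ _) (gf_cmpl _ _ _)) (add_le_add (gf_cmpl _ _ _) (gf_cmpl _ _ _))
    _ = ENNReal.ofReal (4 / xc * PBM.W0r k) := by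
        rw [gf_all hk, PBM.W0r_eq hk, ← ENNReal.ofReal_mul (by positivity), ← two_mul, ← two_mul,
          show (2 : ℝ≥0∞) = ENNReal.ofReal 2 by simp, ← ENNReal.ofReal_mul (by norm_num),
          ← ENNReal.ofReal_mul (by norm_num)]
        congr 1
        ring

/-! ### 2. Words of the plane -/

/-- rotation of the frame: c = false by 180 degrees, c = true by - 60 degrees -/
def rho (c : Bool) : Pt := if c then (1, -1) else (-1, 0)

/-- the period in the frame of the word -/
def gu (c : Bool) : Pt := if c then (1, -2) else (1, 1)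

theorem vx_fr2 (c : Bool) (w : List Bool) (i : ℕ) :
    vx (pL 0).1 (pL 0).2 (c :: w) (i + 1) = (0, 1) + mulE (rho c) (vx oo up w i) := by
  rw [vx_co]
  have h := vx_mulE (rho c) oo (0, 1) up w i
  have e1 : mulE (rho c) up = turn c (pL 0).2 := by cases c <;> decide
  have e2 : (pL 0).1 + (pL 0).2 = ((0, 1) : Pt) := by decide
  rw [e1] at h
  rw [e2, h]
  congr 2
  refine Prod.ext ?_ ?_ <;> simp [oo]

theorem dx_fr2 (c : Bool) (w : List Bool) (i : ℕ) :
    dx (pL 0).2 (c :: w) (i + 1) = mulE (rho c) (dx up w i) := by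
  have h1 := vx_fr2 c w i
  have h2 := vx_fr2 c w (i + 1)
  have h3 : vx (pL 0).1 (pL 0).2 (c :: w) (i + 1 + 1) =
    vx (pL 0).1 (pL 0).2 (c :: w) (i + 1) + dx (pL 0).2 (c :: w) (i + 1) := rfl
  have h4 : vx oo up w (i + 1) = vx oo up w i + dx up w i := rfl
  rw [h2, h1, h4, mulE_add, ← add_assoc] at h3
  exact (add_left_cancel h3).symm

/-- vertices of the plane with the same image on the cylinder -/
theorem tr_of_ps {N : ℕ} {v w : Pt} (hv : Vt v) (hw : Vt w) (h : ps N v = ps N w) : ∃ m : ℤ, v = tr (N * m) w := by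
  have e1 : co v = co w := congrArg Prod.fst h
  have e2 : ((ri v : ℤ) : ZMod N) = ((ri w : ℤ) : ZMod N) := congrArg (fun p => p.2.1) h
  have e3 : decide ((v.1 - v.2) % 3 = 0) = decide ((w.1 - w.2) % 3 = 0) := congrArg (fun p => p.2.2) h
  have e4 : (N : ℤ) ∣ ri v - ri w := by
    rw [← ZMod.intCast_zmod_eq_zero_iff_dvd]
    push_cast
    rw [e2, sub_self]
  obtain ⟨t, ht⟩ := e4
  refine ⟨t, ?_⟩
  rcases vt_cases hv with h1 | h1 <;> rcases vt_cases hw with h2 | h2
  · rw [h2, tr_A]
    rw [h1, e1]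
    congr 1
    linarith
  · exfalso
    rw [h1, h2] at e3
    simp [_root_.EXL.A, _root_.EXL.B] at e3
    omega
  · exfalso
    rw [h1, h2] at e3
    simp [_root_.EXL.A, _root_.EXL.B] at e3
    omega
  · rw [h2, tr_B]
    rw [h1, e1]
    congr 1
    linarith

/-- words of the plane with the end k gu c, disjoint from their translates by the multiples of 2 k gu c -/
def PlC (k : ℕ) (c : Bool) : Set (List Bool) := {w | w ≠ [] ∧ w ∈ SA ∧
  vx oo up w w.length = (k * (gu c).1, k * (gu c).2) ∧
  (∀ i j, i ≤ w.length → j ≤ w.length → ∀ m : ℤ, m ≠ 0 →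
    vx oo up w i ≠ vx oo up w j + (2 * k * m * (gu c).1, 2 * k * m * (gu c).2)) ∧
  mulE (rho c) (dx up w (w.length - 1)) ≠ (1, -1)}

theorem PlC_sub (k : ℕ) (c : Bool) : PlC k c ⊆ EmbC k c := by
  rintro w ⟨h0, h1, h2, h3, h4⟩
  have hpos : 0 < w.length := List.length_pos_iff.2 h0
  refine ⟨h0, fun i j hij hj e => ?_, ?_, ?_⟩
  · obtain ⟨m, hm⟩ := tr_of_ps (de_w (c :: w) (i + 1)).2.1 (de_w (c :: w) (j + 1)).2.1 e
    have e1 : vx oo up w i = vx oo up w j + (2 * k * (-m) * (gu c).1, 2 * k * (-m) * (gu c).2) := by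
      have e2 : vx (pL 0).1 (pL 0).2 (c :: w) (i + 1) = tr ((2 * k : ℕ) * m) (vx (pL 0).1 (pL 0).2 (c :: w) (j + 1)) := hm
      rw [vx_fr2, vx_fr2] at e2
      have e3 := congrArg Prod.fst e2
      have e4 := congrArg Prod.snd e2
      refine Prod.ext ?_ ?_ <;> cases c <;>
        simp only [tr, mulE, rho, gu, if_true, Bool.false_eq_true, if_false, Prod.fst_add, Prod.snd_add] at e3 e4 ⊢ <;>
        push_cast at e3 e4 ⊢ <;> linarith
    by_cases hm0 : m = 0
    · subst hm0
      refine h1.2 i j hij hj ?_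
      rw [e1]
      refine Prod.ext ?_ ?_ <;> simp
    · exact h3 i j (by omega) hj (-m) (by omega) e1
  · have e1 : vx (pL 0).1 (pL 0).2 (c :: w) (w.length + 1) = _root_.EXL.A 0 (-(k : ℤ)) := by
      rw [vx_fr2, h2]
      refine Prod.ext ?_ ?_ <;> cases c <;>
        simp only [mulE, rho, gu, _root_.EXL.A, if_true, Bool.false_eq_true, if_false, Prod.fst_add, Prod.snd_add] <;>
        ring
    show ps (2 * k) (vx (pL 0).1 (pL 0).2 (c :: w) (w.length + 1)) = _
    rw [e1, ps_A]
    refine Prod.ext rfl (Prod.ext ?_ rfl)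
    have e2 : ((k : ZMod (2 * k)) + k) = 0 := by
      have := ZMod.natCast_self (2 * k)
      push_cast at this
      rw [← this]
      ring
    show ((-(k : ℤ) : ℤ) : ZMod (2 * k)) = (k : ZMod (2 * k))
    push_cast
    exact neg_eq_of_add_eq_zero_left e2
  · have e1 : w.length = w.length - 1 + 1 := by omega
    rw [e1, dx_fr2]
    exact h4

/-- **the words of the plane that are disjoint from their translates** -/
theorem gf_PlC {k : ℕ} (hk : 1 ≤ k) (c : Bool) : gf (PlC k c) ≤ ENNReal.ofReal (4 / xc * PBM.W0r k) :=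
  (gf_mono (PlC_sub k c)).trans (embC_le hk c)

end TPC

end HexObs
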