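import Pool.Agent.PB.Apr0A

/-!
TPC: the glueing of `PB/Apr0A` with legs without a cut: the first and the last mark decode the word, so the multiplicity
is at most 4 (helper51).
-/

set_option autoImplicit false

namespace HexObs

namespace TPC

open HexObs.BAR Finset PBA

open scoped ENNReal

/-- a mark before the joint is a cut of the first word -/
lemma jw_mark_left {m m' : ℕ} {s t : List Bool} (hs : s ∈ SSt m) (ht : t ∈ SSt m') {j : ℕ}
    (hj : j ∈ mks' (-mir (dx up s s.length)) (jw s t)) (h : j < s.length) : s.length - j ∈ BAR13.cuts s := by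
  obtain ⟨a1, -⟩ := BAR13.mem_SSt.1 hs
  obtain ⟨b1, -⟩ := BAR13.mem_SSt.1 ht
  obtain ⟨n, hn⟩ : ∃ n, n = s.length := ⟨_, rfl⟩
  obtain ⟨D, hD⟩ : ∃ D, D = -mir (dx up s s.length) := ⟨_, rfl⟩
  have hL1 : ∀ i, i ≤ n + 1 → ip (bs s) up + ip (vx oo D (jw s t) i) up = 2 - lev s (n + 1 - i) :=
    fun i hi => by rw [hn, hD]; exact jw_lev_left s t (by omega)
  have hD1 : ∀ i, i ≤ n → dx D (jw s t) i = -mir (dx up s (n - i)) :=
    fun i hi => by rw [hn, hD]; exact jw_dx_left s t i (by omega)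
  rw [← hD] at hj
  rw [← hn] at h ⊢
  obtain ⟨j0, j1, j2, j3, j4⟩ := mem_mks'.1 hj
  rw [jw_length, ← hn] at j1 j4
  refine BAR13.mem_cuts.2 ?_
  have hdx : dx up s (n - j) = up := by
    have h3 := hD1 j (by omega)
    rw [j2] at h3
    have h4 : mir (dx up s (n - j)) = mir up := by
      rw [mir_up]
      exact (neg_eq_iff_eq_neg.1 h3.symm)
    exact mir_inj h4
  have hst : lev s (n + 1 - j) = lev s (n - j) + 2 := by
    have h3 := lev_succ s (n - j)
    rw [hdx, lowA_ipup, show n - j + 1 = n + 1 - j by omega] at h3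
    exact h3
  have hj' := hL1 j (by omega)
  rw [hst] at hj'
  refine ⟨by omega, by omega, hdx, fun i hi => ?_, fun i hi hi2 => ?_⟩
  · rcases Nat.eq_zero_or_pos i with h0 | h0
    · subst h0
      rw [lev_zero]
      exact (a1 (n - j) (by omega) (by omega)).1.le
    · have h5 := j4 (n + 1 - i) (by omega) (by omega)
      have h6 := hL1 (n + 1 - i) (by omega)
      rw [show n + 1 - (n + 1 - i) = i by omega] at h6
      have h7 := lev_mod s i
      have h8 := lev_mod s (n - j)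
      have h9 : Even (n - j) := BAR13.even_of_up hdx
      rw [if_pos h9] at h8
      split_ifs at h7 <;> omega
  · have h5 := j3 (n + 1 - i) (by omega) (by omega)
    have h6 := hL1 (n + 1 - i) (by omega)
    rw [show n + 1 - (n + 1 - i) = i by omega] at h6
    omega

/-- a mark behind the joint is a cut of the second word -/
lemma jw_mark_right {m' : ℕ} {s t : List Bool} (ht : t ∈ SSt m') {j : ℕ}
    (hj : j ∈ mks' (-mir (dx up s s.length)) (jw s t)) (h : s.length < j) : j - s.length ∈ BAR13.cuts t := by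
  obtain ⟨b1, -⟩ := BAR13.mem_SSt.1 ht
  obtain ⟨n, hn⟩ : ∃ n, n = s.length := ⟨_, rfl⟩
  obtain ⟨D, hD⟩ : ∃ D, D = -mir (dx up s s.length) := ⟨_, rfl⟩
  have hL2 : ∀ i, ip (bs s) up + ip (vx oo D (jw s t) (n + i)) up = lev t i :=
    fun i => by rw [hn, hD]; exact jw_lev_right s t i
  have hD2 : ∀ i, dx D (jw s t) (n + i) = dx up t i :=
    fun i => by rw [hn, hD]; exact jw_dx_right s t i
  rw [← hD] at hj
  rw [← hn] at h ⊢
  obtain ⟨j0, j1, j2, j3, j4⟩ := mem_mks'.1 hj
  rw [jw_length, ← hn] at j1 j4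
  refine BAR13.mem_cuts.2 ?_
  have hj' := hL2 (j - n)
  rw [show n + (j - n) = j by omega] at hj'
  refine ⟨by omega, by omega, ?_, fun i hi => ?_, fun i hi hi2 => ?_⟩
  · have := hD2 (j - n)
    rw [show n + (j - n) = j by omega] at this
    rw [← this]
    exact j2
  · rcases Nat.eq_zero_or_pos i with h0 | h0
    · subst h0
      rw [lev_zero]
      exact (b1 (j - n) (by omega) (by omega)).1.le
    · have h5 := j3 (n + i) (by omega) (by omega)
      have h6 := hL2 i
      omega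
  · have h5 := j4 (n + i) (by omega) (by omega)
    have h6 := hL2 i
    omega

/-- a cut behind a bridge -/
lemma cut_cat {T : ℕ} {b t : List Bool} (hb : b ∈ Brd T) {j : ℕ} (hj : j ∈ BAR13.cuts (b ++ t))
    (h : b.length < j) : j - b.length ∈ BAR13.cuts t := by
  obtain ⟨b1, -, b3, b4⟩ := mem_Brd.1 hb
  obtain ⟨j1, j2, j3, j4, j5⟩ := BAR13.mem_cuts.1 hj
  rw [List.length_append] at j2 j5
  obtain ⟨i, rfl⟩ := Nat.exists_eq_add_of_le h.le
  rw [show b.length + i - b.length = i by omega]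
  refine BAR13.mem_cuts.2 ⟨by omega, by omega, ?_, fun l hl => ?_, fun l hl hl2 => ?_⟩
  · rw [dx_cat b3] at j3
    exact j3
  · have := j4 (b.length + l) (by omega)
    rw [lev_cat b3, lev_cat b3] at this
    omega
  · have := j5 (b.length + l) (by omega) (by omega)
    rw [lev_cat b3, lev_cat b3] at this
    omega

/-- bridges of height `T` that end in the column `x`, in a tube -/
def TBN (T Y : ℕ) (x : ℤ) : Set (List Bool) := {b | b ∈ RP.EndB T x ∧
  ∀ i, i ≤ b.length → min 0 x - Y ≤ (vx oo up b i).1 ∧ (vx oo up b i).1 ≤ max 0 x + Y}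

/-- the smallest and the largest element -/
def mk2 (S : Finset ℕ) : Finset ℕ := if h : S.Nonempty then {S.min' h, S.max' h} else ∅

lemma mk2_card (S : Finset ℕ) : (mk2 S).card ≤ 2 := by
  unfold mk2
  split_ifs with h
  · exact Finset.card_le_two
  · simp

lemma mk2_min {S : Finset ℕ} {a : ℕ} (ha : a ∈ S) (h : ∀ j ∈ S, a ≤ j) : a ∈ mk2 S := by
  have hne : S.Nonempty := ⟨a, ha⟩
  unfold mk2
  rw [dif_pos hne, mem_insert]
  exact Or.inl (le_antisymm (h _ (S.min'_mem hne)) (S.min'_le a ha))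

lemma mk2_max {S : Finset ℕ} {a : ℕ} (ha : a ∈ S) (h : ∀ j ∈ S, j ≤ a) : a ∈ mk2 S := by
  have hne : S.Nonempty := ⟨a, ha⟩
  unfold mk2
  rw [dif_pos hne, mem_insert, mem_singleton]
  exact Or.inr (le_antisymm (S.le_max' a ha) (h _ (S.max'_mem hne)))

/-- **The gluing, legs without a cut.** -/
theorem glue_sumN {K m X Y : ℕ} (hm : 2 * m ≤ K) (hK : 6 * m + 6 * X + 2 * Y < 4 * K) {β : ℝ≥0∞}
    (hβ : ∀ (T : ℕ) (x : ℤ), K ≤ T + 2 * m → T ≤ K → |x| ≤ K + 2 * X → Even (x - T) → β ≤ gf (TBN T Y x)) :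
    gf (LS m 0 X (-1, 1)) * gf (LS m 0 X (-1, 0)) * β ≤ 4 * gf (DW K) := by
  obtain ⟨Tf, hTf⟩ : ∃ Tf : List Bool → List Bool → ℕ, Tf = fun s t =>
    ((3 * (K : ℤ) + 2 - lev s s.length - lev t t.length) / 3).toNat := ⟨_, rfl⟩
  have hT : ∀ s ∈ LS m 0 X (-1, 1), ∀ t ∈ LS m 0 X (-1, 0),
      3 * (Tf s t : ℤ) + lev s s.length + lev t t.length = 3 * K + 2 ∧ K ≤ Tf s t + 2 * m ∧ Tf s t ≤ K := by
    intro s hs t ht
    obtain ⟨s1, s2, s3, -, -⟩ := hs
    obtain ⟨t1, t2, t3, -, -⟩ := ht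
    have a1 := (mem_TN.1 s1).1 s.length s2 (by omega)
    have a2 := (mem_TN.1 t1).1 t.length t2 (by omega)
    have d1 := dir_lev s s.length
    have d2 := dir_lev t t.length
    rw [s3] at d1
    rw [t3] at d2
    have f1 : ip ((-1, 1) : Pt) up = 1 := by decide
    have f2 : ip ((-1, 0) : Pt) up = -1 := by decide
    rw [f1] at d1
    rw [f2] at d2
    have m1 := lev_mod s s.length
    have m2 := lev_mod t t.length
    have o1 : ¬ Even s.length := by
      rcases d1 with ⟨-, h | h⟩ | ⟨h, -⟩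
      · omega
      · omega
      · exact h
    have o2 : Even t.length := by
      rcases d2 with ⟨h, -⟩ | ⟨-, h | h⟩
      · exact h
      · omega
      · omega
    rw [if_neg o1] at m1
    rw [if_pos o2] at m2
    rw [hTf]
    simp only
    omega
  have h4 : (4 : ℝ≥0∞) = ((2 : ℕ) : ℝ≥0∞) ^ 2 := by norm_num
  rw [h4]
  refine inj_sum (C := fun s t => TBN (Tf s t) Y (col s - col t - K)) (fun u => mk2 (mks' (1, 0) u)) ?_ ?_
  · intro s hs t ht
    obtain ⟨h1, h2, h3⟩ := hT s hs t ht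
    have hc1 := abs_le.1 (hs.2.2.2.2 s.length le_rfl)
    have hc2 := abs_le.1 (ht.2.2.2.2 t.length le_rfl)
    have hcs : col s = (vx oo up s s.length).1 := rfl
    have hct : col t = (vx oo up t t.length).1 := rfl
    refine hβ _ _ h2 h3 ?_ ?_
    · rw [abs_le]
      constructor <;> omega
    · have p1 := lev_eq s s.length
      have p2 := lev_eq t t.length
      rw [Int.even_iff]
      omega
  · intro s hs t ht b hb
    obtain ⟨h1, -, -⟩ := hT s hs t ht
    obtain ⟨k, hk⟩ : ∃ k, k = (BAR13.cuts b).card := ⟨_, rfl⟩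
    have hb' : b ∈ TB (Tf s t) k Y (col s - col t - K) := ⟨hb.1, hk.ge, hb.2⟩
    have hs' : s ∈ LS m k X (-1, 1) := ⟨hs.1, hs.2.1, hs.2.2.1, hs.2.2.2.1.trans (Nat.zero_le _), hs.2.2.2.2⟩
    have ht' : t ∈ LS m k X (-1, 0) := ⟨ht.1, ht.2.1, ht.2.2.1, ht.2.2.2.1.trans (Nat.zero_le _), ht.2.2.2.2⟩
    obtain ⟨g1, g2, -⟩ := glue_marks hs' ht' hb'
    have hs0 : BAR13.cuts s = ∅ := Finset.card_eq_zero.1 (Nat.le_zero.1 hs.2.2.2.1)
    have ht0 : BAR13.cuts t = ∅ := Finset.card_eq_zero.1 (Nat.le_zero.1 ht.2.2.2.1)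
    have hbt := TN_SSt (TN_cat hb.1.1 ht.1)
    have hD : -mir (dx up s s.length) = (1, 0) := by rw [hs.2.2.1]; decide
    refine ⟨PBA.glue_mem hK hs' ht' h1 rfl hb', mk2_min g1 fun j hj => ?_, mk2_max g2 fun j hj => ?_,
      mk2_card _⟩
    · by_contra hcon
      have := jw_mark_left (TN_SSt hs.1) hbt (j := j) (by rw [hD]; exact hj) (by omega)
      rw [hs0] at this
      exact absurd this (Finset.notMem_empty _)
    · by_contra hcon
      have h2 := jw_mark_right hbt (j := j) (by rw [hD]; exact hj) (by omega)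
      have h3 := cut_cat hb.1.1 h2 (by omega)
      rw [ht0] at h3
      exact absurd h3 (Finset.notMem_empty _)

end TPC

end HexObs
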