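import Pool.Agent.SIM.LeafN
import Pool.Agent.TPC.Pat

/-!
TPC: the leaves without the pattern of the size ρ are a class of small norm at the scales kc with C ρ ≤ 2 ^ kc.
-/

set_option autoImplicit false

namespace HexObs

namespace TPC

open Finset TS SDN NTW NTA

open scoped ENNReal

/-- **the norm of the leaves of a small class closed under infixes**, uniformly in the size ρ -/
theorem leaf_normU {P : ℕ → Set (List Bool)}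
    (hP : ∀ (r : ℕ) (a Z b : List Bool), a ∈ BU → a ++ (Z ++ b) ∈ P r → Z ∈ P r)
    (hC : ∀ ε : ℝ, 0 < ε → ∃ C r0 : ℕ, ∀ r h : ℕ, r0 ≤ r → C * r ≤ h →
      gf {Z | Z ∈ Brd h ∧ Z ∈ P r} ≤ ENNReal.ofReal (ε * uu h)) :
    ∀ (e : ℝ) (J : ℕ), 0 < e → ∃ C k0 : ℕ, ∀ kc r : ℕ, k0 ≤ kc → k0 ≤ r → C * r ≤ 2 ^ kc →
      SmD DmJ kc {g | g ∈ BrR (2 ^ (kc + 4)) (2 ^ (kc + J)) ∧ g ∈ P r} e := by
  intro e J he
  obtain ⟨K, c, hK, hc, hwin⟩ := sp_win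
  have hK0 : 0 < K := by linarith
  obtain ⟨B, hB⟩ : ∃ B : ℝ, B = K * (1 + 2 ^ J) ^ 2 := ⟨_, rfl⟩
  have hB0 : 0 < B := by
    rw [hB]
    positivity
  obtain ⟨R, hR⟩ : ∃ R : ℕ, B * (2 : ℝ) ^ (-(c * (R : ℝ))) ≤ e / 2 := by
    have h1 : (2 : ℝ) ^ (-c) < 1 := Real.rpow_lt_one_of_one_lt_of_neg (by norm_num) (by linarith)
    obtain ⟨R, hR⟩ := exists_pow_lt_of_lt_one (show 0 < e / 2 / B by positivity) h1
    refine ⟨R, ?_⟩
    rw [← Real.rpow_natCast, ← Real.rpow_mul (by norm_num)] at hR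
    rw [show -(c * (R : ℝ)) = -c * (R : ℝ) by ring]
    calc B * (2 : ℝ) ^ (-c * (R : ℝ)) ≤ B * (e / 2 / B) := mul_le_mul_of_nonneg_left hR.le hB0.le
      _ = e / 2 := by field_simp
  obtain ⟨ε, hε⟩ : ∃ ε : ℝ, ε = e / 2 / (B * 4 ^ (R + 3) * 2 ^ J) := ⟨_, rfl⟩
  have hε0 : 0 < ε := by
    rw [hε]
    positivity
  obtain ⟨C1, r0, hsm⟩ := hC ε hε0
  refine ⟨C1, r0 + R + 3, fun kc r hkc hr hCr => ?_⟩
  have hU := Ub_pos kc
  have hUN : UU (2 ^ (kc + J)) ≤ 2 ^ J * Ub kc := UU_ratio_up kc J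
  have hUN0 : 0 < UU (2 ^ (kc + J)) := Num2Aux.UU_pos _
  have hez := SIM.ez_cls (kc := kc) (J := J) (P := P r) hε0.le (hP _) (fun n hn => hsm r n (by omega) (hCr.trans hn))
  have h1 := hwin kc (2 ^ (kc + J)) kc (kc - (R + 3)) _ _ (by omega) le_rfl (by positivity) (fun g hg => hg.1) hez
  refine SmD_le ?_ h1
  have hρ : 1 + UU (2 ^ (kc + J)) / Ub kc ≤ 1 + 2 ^ J := by
    have : UU (2 ^ (kc + J)) / Ub kc ≤ 2 ^ J := by
      rw [div_le_iff₀ hU]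
      exact hUN
    linarith
  have hρ0 : 0 ≤ 1 + UU (2 ^ (kc + J)) / Ub kc := by positivity
  have e1 : (2 : ℝ) ^ (-(c * ((kc : ℝ) - ((kc - (R + 3) : ℕ) : ℝ)))) ≤ (2 : ℝ) ^ (-(c * (R : ℝ))) := by
    apply Real.rpow_le_rpow_of_exponent_le (by norm_num)
    rw [Nat.cast_sub (by omega)]
    push_cast
    nlinarith
  have e2 : (4 : ℝ) ^ (kc - kc) = 1 := by rw [Nat.sub_self, pow_zero]
  have e3 : kc - (kc - (R + 3)) = R + 3 := by omega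
  have e4 : ε * UU (2 ^ (kc + J)) / Ub kc ≤ ε * 2 ^ J := by
    rw [div_le_iff₀ hU, mul_assoc]
    exact mul_le_mul_of_nonneg_left hUN hε0.le
  rw [e2, e3, one_mul]
  calc K * (1 + UU (2 ^ (kc + J)) / Ub kc) ^ 2 * ((2 : ℝ) ^ (-(c * ((kc : ℝ) - ((kc - (R + 3) : ℕ) : ℝ)))) +
        4 ^ (R + 3) * (ε * UU (2 ^ (kc + J)) / Ub kc))
      ≤ K * (1 + 2 ^ J) ^ 2 * ((2 : ℝ) ^ (-(c * (R : ℝ))) + 4 ^ (R + 3) * (ε * 2 ^ J)) := by gcongr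
    _ = B * (2 : ℝ) ^ (-(c * (R : ℝ))) + B * 4 ^ (R + 3) * 2 ^ J * ε := by
        rw [hB]
        ring
    _ ≤ e / 2 + e / 2 := by
        refine add_le_add hR (le_of_eq ?_)
        rw [hε]
        field_simp
    _ = e := by ring

/-- **A2: the norm of the leaves without the pattern** -/
theorem pat_norm (s : Bool) (e : ℝ) (J : ℕ) (he : 0 < e) : ∃ C k0 : ℕ, ∀ kc ρ : ℕ, k0 ≤ kc → k0 ≤ ρ → C * ρ ≤ 2 ^ kc →
    SmD DmJ kc {g | g ∈ BrR (2 ^ (kc + 4)) (2 ^ (kc + J)) ∧ g ∈ NoPat s ρ} e := by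
  refine leaf_normU (P := NoPat s) (fun r a Z b ha h => mid_NoPat ha h) (fun ε hε => ?_) e J he
  obtain ⟨C, ρ0, -, -, h⟩ := rare_pat s hε
  exact ⟨C, ρ0, h⟩

end TPC

end HexObs
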