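import Pool.Agent.SIM.Robust
import Pool.Agent.TPC.PatN

/-!
TPC: a word with the pattern of the size ρ meets its translate by (ρ, ρ) (s = false), resp. (- ρ, 2 ρ) (s = true).
-/

set_option autoImplicit false

namespace HexObs

namespace TPC

open Finset TS SDN NTW NTA SIM

open scoped ENNReal

/-- the translation of the size ρ -/
def Trn (s : Bool) (ρ : ℕ) : Pt := if s then (-(ρ : ℤ), 2 * (ρ : ℤ)) else ((ρ : ℤ), (ρ : ℤ))

/-- the words which do not meet their translate -/
def DJ (s : Bool) (ρ : ℕ) : Set (List Bool) := {g | ∀ i j, i ≤ g.length → j ≤ g.length →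
  vx oo up g j ≠ vx oo up g i + Trn s ρ}

lemma lv_Trn (s : Bool) (ρ : ℕ) : lv (Trn s ρ) = 3 * ρ := by
  cases s <;> simp [lv, Trn] <;> ring

lemma Trn_fst (s : Bool) (ρ : ℕ) : (Trn s ρ).1 = if s then -(ρ : ℤ) else ρ := by
  cases s <;> simp [Trn]

lemma lv_vx (t : List Bool) (i : ℕ) : lv (vx oo up t i) = lev t i := by
  simp [lv, lev, ip, up]

lemma fst_vx (t : List Bool) (i : ℕ) : (vx oo up t i).1 = lat t i := by
  simp [lat, cross, up]

lemma lat0 (t : List Bool) : lat t 0 = 0 := by
  have h : vx oo up t 0 = oo := rfl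
  unfold lat
  rw [h]
  decide

/-- words which do not meet their translate: infixes behind a bridge -/
theorem mid_DJ {s : Bool} {ρ : ℕ} {a Z b : List Bool} (ha : a ∈ BU) (h : a ++ (Z ++ b) ∈ DJ s ρ) : Z ∈ DJ s ρ := by
  obtain ⟨n, hn⟩ := ha
  have hd := (mem_Brd.1 hn).2.2.1
  intro i j hi hj he
  refine h (a.length + i) (a.length + j) (by simp only [List.length_append]; omega)
    (by simp only [List.length_append]; omega) ?_
  rw [vx_cat hd, vx_cat hd, vx_append (by omega), vx_append (by omega), he, add_assoc]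

/-- **A3: a word with the pattern meets its translate** -/
theorem pat_meet {s : Bool} {ρ : ℕ} (hρ : 1 ≤ ρ) {X G Y : List Bool} (hX : X ∈ BU) (hG : G ∈ Pat s ρ) :
    X ++ (G ++ Y) ∉ DJ s ρ := by
  intro hD
  have hGD := mid_DJ hX hD
  obtain ⟨A, B, ⟨t1, ht1, hA, hAl⟩, ⟨t2, ht2, hB, hBl⟩, rfl⟩ := hG
  have hd := (mem_Brd.1 hA).2.2.1
  have hAe := (mem_Brd.1 hA).2.2.2
  have hBe := (mem_Brd.1 hB).2.2.2
  have hup : up ∈ dirs := by decide
  have hcl : (cl oo = 0 ∧ cl up = -1) ∨ (cl oo = -1 ∧ cl up = 1) := by decide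
  have hHN : ∀ i, HN (vx oo up (A ++ B) i) (vx oo up (A ++ B) (i + 1)) := fun i => HN_vx hup hcl _ i
  have h3 : (3 : ℤ) ∣ lv (Trn s ρ) := by
    rw [lv_Trn]
    exact dvd_mul_right _ _
  have hA1 : 1 ≤ A.length := by
    by_contra hcon
    have h0 : A.length = 0 := by omega
    rw [h0] at hAe
    have : lev A 0 = 0 := lev_zero A
    omega
  have hB1 : 1 ≤ B.length := by
    by_contra hcon
    have h0 : B.length = 0 := by omega
    have h1 : latE B = 0 := by
      unfold latE
      rw [h0]
      exact lat0 B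
    rw [h1] at hBl
    split_ifs at hBl <;> omega
  -- coordinates
  have cA : ∀ i, i ≤ A.length → lv (vx oo up (A ++ B) i) = lev A i ∧ (vx oo up (A ++ B) i).1 = lat A i := by
    intro i hi
    rw [vx_append (by omega), lv_vx, fst_vx]
    exact ⟨rfl, rfl⟩
  have cB : ∀ j, lv (vx oo up (A ++ B) (A.length + j)) = 3 * t1 + lev B j ∧
      (vx oo up (A ++ B) (A.length + j)).1 = latE A + lat B j := by
    intro j
    rw [lv_vx, fst_vx, lev_cat hd, lat_cat hd, hAe]
    exact ⟨rfl, rfl⟩
  obtain ⟨P, hP⟩ : ∃ P : ℕ → Pt, P = fun i => vx oo up (A ++ B) i + Trn s ρ := ⟨_, rfl⟩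
  have hPn : ∀ i < A.length, HN (P i) (P (i + 1)) := by
    intro i _
    rw [hP]
    exact HN_add h3 (hHN i)
  have cP : ∀ i, i ≤ A.length → lv (P i) = lev A i + 3 * ρ ∧ (P i).1 = lat A i + (Trn s ρ).1 := by
    intro i hi
    obtain ⟨c1, c2⟩ := cA i hi
    rw [hP]
    refine ⟨?_, ?_⟩
    · show lv (vx oo up (A ++ B) i + Trn s ρ) = _
      rw [lv_add, c1, lv_Trn]
    · show (vx oo up (A ++ B) i).1 + (Trn s ρ).1 = _
      rw [c2]
  have hP0 : lv (P 0) = 3 * ρ := by
    rw [(cP 0 (by omega)).1, lev_zero, zero_add]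
  have hPl : lv (P A.length) = 3 * t1 + 3 * ρ := by
    rw [(cP _ le_rfl).1, hAe]
  have hBb : ∀ j, j ≤ B.length → 0 ≤ lev B j ∧ lev B j ≤ 3 * t2 := by
    intro j hj
    rcases Nat.eq_zero_or_pos j with h0 | h0
    · rw [h0, lev_zero]
      exact ⟨le_rfl, by positivity⟩
    · have := (mem_Brd.1 hB).1 j h0 hj
      exact ⟨this.1.le, this.2⟩
  have hA0 := hAl A.length le_rfl
  have eL : lat A A.length = latE A := rfl
  have eB : lat B B.length = latE B := rfl
  rw [abs_le] at hA0
  have hout : ∀ i j, i ≤ A.length → j ≤ B.length → P i = vx oo up (A ++ B) (A.length + j) → False := by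
    intro i j hi hj he
    refine hGD i (A.length + j) (by simp only [List.length_append]; omega)
      (by simp only [List.length_append]; omega) ?_
    rw [← he, hP]
  cases s with
  | false =>
    have hT : (Trn false ρ).1 = ρ := by rw [Trn_fst]; rfl
    have hBl' : 2 * (ρ : ℤ) ≤ latE B := by simpa using hBl
    obtain ⟨i, hi, j, hj, he⟩ := hex_cross (P := P) (Q := fun j => vx oo up (A ++ B) (A.length + j)) (n := A.length)
      (m := B.length) hPn (fun j _ => hHN (A.length + j)) hA1 hB1
      (fun j hj => by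
        obtain ⟨c1, -⟩ := cB j
        have := (hBb j hj).1
        rw [hP0]
        show _ ≤ lv (vx oo up (A ++ B) (A.length + j))
        rw [c1]
        omega)
      (fun j hj => by
        obtain ⟨c1, -⟩ := cB j
        have := (hBb j hj).2
        rw [hPl]
        show lv (vx oo up (A ++ B) (A.length + j)) + 3 ≤ _
        rw [c1]
        omega)
      (fun i hi => by
        have h5 := hAl i hi
        rw [abs_le] at h5
        show (vx oo up (A ++ B) (A.length + 0)).1 ≤ _
        rw [(cB 0).2, lat0, (cP i hi).2, hT]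
        omega)
      (fun i hi => by
        have h5 := hAl i hi
        rw [abs_le] at h5
        show _ < (vx oo up (A ++ B) (A.length + B.length)).1
        rw [(cB B.length).2, (cP i hi).2, hT]
        omega)
    exact hout i j hi hj he
  | true =>
    have hT : (Trn true ρ).1 = -(ρ : ℤ) := by rw [Trn_fst]; rfl
    have hBl' : 2 * (ρ : ℤ) ≤ -latE B := by simpa using hBl
    obtain ⟨i, hi, j, hj, he⟩ := hex_cross (P := P) (Q := fun j => vx oo up (A ++ B) (A.length + (B.length - j)))
      (n := A.length) (m := B.length) hPn (fun j hj => by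
        have h6 := (hHN (A.length + (B.length - (j + 1)))).symm
        rwa [show A.length + (B.length - (j + 1)) + 1 = A.length + (B.length - j) by omega] at h6) hA1 hB1
      (fun j hj => by
        obtain ⟨c1, -⟩ := cB (B.length - j)
        have := (hBb (B.length - j) (by omega)).1
        rw [hP0]
        show _ ≤ lv (vx oo up (A ++ B) (A.length + (B.length - j)))
        rw [c1]
        omega)
      (fun j hj => by
        obtain ⟨c1, -⟩ := cB (B.length - j)
        have := (hBb (B.length - j) (by omega)).2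
        rw [hPl]
        show lv (vx oo up (A ++ B) (A.length + (B.length - j))) + 3 ≤ _
        rw [c1]
        omega)
      (fun i hi => by
        have h5 := hAl i hi
        rw [abs_le] at h5
        show (vx oo up (A ++ B) (A.length + (B.length - 0))).1 ≤ _
        rw [Nat.sub_zero, (cB B.length).2, (cP i hi).2, hT]
        omega)
      (fun i hi => by
        have h5 := hAl i hi
        rw [abs_le] at h5
        show _ < (vx oo up (A ++ B) (A.length + (B.length - B.length))).1
        rw [Nat.sub_self, (cB 0).2, lat0, (cP i hi).2, hT]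
        omega)
    exact hout i _ hi (by omega) he

/-- words which do not meet their translate have no pattern -/
theorem DJ_sub {s : Bool} {ρ : ℕ} (hρ : 1 ≤ ρ) : DJ s ρ ⊆ NoPat s ρ := by
  intro g hg X G Y hX hG he
  rw [he] at hg
  exact pat_meet hρ hX hG hg

/-- **(P) the leaves which do not meet their translate are a class of small norm** -/
theorem dj_norm (s : Bool) (e : ℝ) (J : ℕ) (he : 0 < e) : ∃ C k0 : ℕ, ∀ kc ρ : ℕ, k0 ≤ kc → k0 ≤ ρ → C * ρ ≤ 2 ^ kc →
    SmD DmJ kc {g | g ∈ BrR (2 ^ (kc + 4)) (2 ^ (kc + J)) ∧ g ∈ DJ s ρ} e := by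
  obtain ⟨C, k0, h⟩ := pat_norm s e J he
  refine ⟨C, k0 + 1, fun kc ρ hk hρ hC => ?_⟩
  exact QF.SmD_mono (fun g (hg : g ∈ BrR (2 ^ (kc + 4)) (2 ^ (kc + J)) ∧ g ∈ DJ s ρ) =>
    (show g ∈ BrR (2 ^ (kc + 4)) (2 ^ (kc + J)) ∧ g ∈ NoPat s ρ from ⟨hg.1, DJ_sub (by omega) hg.2⟩))
    (h kc ρ (by omega) (by omega) hC)

end TPC

end HexObs
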