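import Pool.Agent.JNT.Marks
import Pool.Agent.JNT.EspB
import Pool.Agent.SIM.RunB

/-!
TPC (R): the labelled norm of the runs of leaves of a small class and of one tall leaf. The label is carried by the first
leaf of a height of at least 2 ^ (k + s), or by the first p leaves if they are all lower.
-/

set_option autoImplicit false

namespace HexObs

namespace TPC

open Finset TS SDN SDN.CN SDN.CCh NTW NTA EN JNT SIM

open scoped ENNReal

section

variable {Λ : Type} {lab : List Bool → Λ} {k : ℕ}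

open Classical in
lemma runL_iUnion {ι ι' : Type} {R : ℕ → Set (List (List Bool))} (F : ι' → List Bool → ℝ≥0∞)
    (C : ι → ι' → List (List Bool) → Prop) (a : ι) (g : List Bool) :
    runL (⋃ i, R i) F C a g ≤ ∑' i, runL (R i) F C a g := by
  unfold runL
  rw [ENNReal.tsum_comm]
  refine ENNReal.tsum_le_tsum fun ms => ?_
  by_cases h : (g :: ms) ∈ (⋃ i, R i) ∧ (g :: ms).IsChain LFold
  · rw [if_pos h]
    obtain ⟨i, hi⟩ := Set.mem_iUnion.1 h.1
    refine le_trans ?_ (ENNReal.le_tsum i)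
    rw [if_pos ⟨hi, h.2⟩]
  · rw [if_neg h]
    exact zero_le

/-- **countable unions of labelled classes of runs** -/
theorem smRL_iUnion {R : ℕ → Set (List (List Bool))} {δ : ℕ → ℝ} {Δ : ℝ} (hδ : ∀ i, 0 ≤ δ i)
    (hs : ∑' i, ENNReal.ofReal (δ i) ≤ ENNReal.ofReal Δ) (hΔ : 0 ≤ Δ) (h : ∀ i, SmRL lab DmJ k (R i) (δ i)) :
    SmRL lab DmJ k (⋃ i, R i) Δ := by
  refine ⟨fun {ι ι'} x F C h0 hF hx => ?_, fun {ι ι'} y x P F C h0 hP hf hF hy hx => ?_⟩
  · have h1 : ∀ t, (⨆ a, vA (2 ^ (k + 4)) (HB (2 ^ (k + 4))) (runL (⋃ i, R i) F C a) t) ≤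
        ∑' i, ⨆ a, vA (2 ^ (k + 4)) (HB (2 ^ (k + 4))) (runL (R i) F C a) t := by
      intro t
      refine iSup_le fun a => ?_
      have h2 : vA (2 ^ (k + 4)) (HB (2 ^ (k + 4))) (runL (⋃ i, R i) F C a) t ≤
          ∑' i, vA (2 ^ (k + 4)) (HB (2 ^ (k + 4))) (runL (R i) F C a) t := by
        unfold vA
        rw [← EN.sw_tsum]
        exact Rec8.sw_mono' fun g _ => runL_iUnion F C a g
      exact h2.trans (ENNReal.tsum_le_tsum fun i => le_iSup (fun a => vA (2 ^ (k + 4)) (HB (2 ^ (k + 4)))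
        (runL (R i) F C a) t) a)
    refine (xT_mono h1).trans ((xT_tsum _ _ _).trans ((ENNReal.tsum_le_tsum fun i => (h i).near x F C h0 hF hx).trans ?_))
    rw [ENNReal.tsum_mul_right]
    exact mul_le_mul_left hs _
  · have h1 : Rec8.sw (HB (2 ^ (k + 4))) (fun g => ∑' a, P a (rev g) * runL (⋃ i, R i) F C a g) ≤
        ∑' i, Rec8.sw (HB (2 ^ (k + 4))) (fun g => ∑' a, P a (rev g) * runL (R i) F C a g) := by
      rw [← EN.sw_tsum]
      refine Rec8.sw_mono' fun g _ => ?_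
      rw [ENNReal.tsum_comm]
      refine ENNReal.tsum_le_tsum fun a => ?_
      rw [ENNReal.tsum_mul_left]
      exact mul_le_mul_right (runL_iUnion F C a g) _
    refine h1.trans ((ENNReal.tsum_le_tsum fun i => (h i).free y x P F C h0 hP hf hF hy hx).trans ?_)
    rw [ENNReal.tsum_mul_right]
    refine mul_le_mul_left ?_ _
    have h2 : ∀ i, ENNReal.ofReal (δ i * Ub k) = ENNReal.ofReal (δ i) * ENNReal.ofReal (Ub k) := fun i =>
      ENNReal.ofReal_mul (hδ i)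
    simp only [h2]
    rw [ENNReal.tsum_mul_right, ENNReal.ofReal_mul hΔ]
    exact mul_le_mul_left hs _

lemma smD_empty_one (k : ℕ) : SmD DmJ k (∅ : Set (List Bool)) 1 := by
  refine ⟨fun x Φ _ => ?_, fun y x Ψ Φ _ _ _ => ?_⟩
  · refine xT_le fun b I _ _ => ?_
    refine le_trans (le_of_eq ?_) zero_le
    unfold vA Rec8.sw
    simp
  · refine le_trans (le_of_eq ?_) zero_le
    unfold Rec8.sw
    simp

/-- the leaves of the runs -/
def Okl (k : ℕ) (S : Set (List Bool)) (gs : List (List Bool)) : Prop :=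
  ∀ g ∈ gs, g ∈ S ∧ g ∈ CL (k + 5) ∧ g ∈ HB (2 ^ (k + 4))

/-- the sum of the heights -/
noncomputable def hsm (k s : ℕ) (gs : List (List Bool)) : ℕ := (gs.map fun g => hgt g / 2 ^ (k + s) + 1).sum

lemma hsm_len (k s : ℕ) (gs : List (List Bool)) : gs.length ≤ hsm k s gs := by
  unfold hsm
  rw [SIM.sum_add_one]
  omega

lemma hsm_app (k s : ℕ) (as bs : List (List Bool)) : hsm k s (as ++ bs) = hsm k s as + hsm k s bs := by
  unfold hsm
  rw [List.map_append, List.sum_append]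

lemma hsm_low {k s : ℕ} {gs : List (List Bool)} (h : ∀ g ∈ gs, hgt g < 2 ^ (k + s)) : hsm k s gs = gs.length := by
  unfold hsm
  rw [SIM.sum_add_one]
  have : (gs.map fun g => hgt g / 2 ^ (k + s)).sum = 0 := by
    rw [List.sum_eq_zero_iff]
    intro x hx
    obtain ⟨g, hg, rfl⟩ := List.mem_map.1 hx
    exact Nat.div_eq_of_lt (h g hg)
  omega

lemma inH_runB {k s V : ℕ} {S : Set (List Bool)} : InH (2 ^ (k + 4)) (RunB k s S V) := fun _ h g hg => (h.2.1 g hg).2.2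

/-- free leaves in front of the labelled part -/
lemma pre_L {s i : ℕ} {S : Set (List Bool)} {G : Set (List (List Bool))} {d : ℝ} (hd : 0 ≤ d)
    (hB : ∀ V : ℕ, SmR DmJ k (RunB k s S V) (1 / 2 ^ V)) (hGH : InH (2 ^ (k + 4)) G) (hG : SmRL lab DmJ k G d) :
    SmRL lab DmJ k {gs | ∃ as ms, gs = as ++ ms ∧ as.length = i ∧ Okl k S as ∧ ms ∈ G ∧ ms ≠ []} (1 / 2 ^ i * d) := by
  rcases Nat.eq_zero_or_pos i with hi | hi
  · subst hi
    rw [pow_zero, div_one, one_mul]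
    refine hG.anti ?_
    rintro gs ⟨as, ms, rfl, h1, -, h2, -⟩
    rw [List.length_eq_zero_iff.1 h1]
    exact h2
  · refine (smRL_left dmP (inH_runB (s := s) (S := S) (V := i)) hGH (by positivity) hd (hB i) hG).anti ?_
    rintro gs ⟨as, ms, rfl, h1, h2, h3, h4⟩
    have hne : as ≠ [] := by
      rintro rfl
      rw [List.length_nil] at h1
      omega
    exact ⟨as, ⟨hne, h2, h1 ▸ hsm_len k s as⟩, ms, h3, hne, h4, rfl⟩

/-- free leaves behind the labelled part -/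
lemma post_L {s V : ℕ} {S : Set (List Bool)} {G : Set (List (List Bool))} {d : ℝ} (hd : 0 ≤ d)
    (hB : ∀ V : ℕ, SmR DmJ k (RunB k s S V) (1 / 2 ^ V)) (hGH : InH (2 ^ (k + 4)) G) (hG : SmRL lab DmJ k G d) :
    SmRL lab DmJ k {gs | ∃ ms bs, gs = ms ++ bs ∧ ms ∈ G ∧ ms ≠ [] ∧ Okl k S bs ∧ V ≤ hsm k s bs} (2 * d / 2 ^ V) := by
  have h1 := smRL_right dmP hGH (inH_runB (s := s) (S := S) (V := V)) hd (by positivity) hG (hB V)
  rcases Nat.eq_zero_or_pos V with hV | hV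
  · subst hV
    refine SmRL.le (SmRL.anti (smRL_union hd (by positivity) hG h1) ?_) (le_of_eq (by ring))
    rintro gs ⟨ms, bs, rfl, h2, h3, h4, h5⟩
    by_cases hb : bs = []
    · left
      rw [hb, List.append_nil]
      exact h2
    · exact Or.inr ⟨ms, h2, bs, ⟨hb, h4, h5⟩, h3, hb, rfl⟩
  · refine SmRL.le (h1.anti ?_) ?_
    · rintro gs ⟨ms, bs, rfl, h2, h3, h4, h5⟩
      have hb : bs ≠ [] := by
        rintro rfl
        unfold hsm at h5
        simp at h5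
        omega
      exact ⟨ms, h2, bs, ⟨hb, h4, h5⟩, h3, hb, rfl⟩
    · rw [mul_one_div]
      have : 0 ≤ d / 2 ^ V := by positivity
      rw [mul_div_assoc]
      linarith

/-- the first high leaf -/
lemma first_high (k s : ℕ) (gs : List (List Bool)) : ∀ p : ℕ,
    (∃ as g bs, gs = as ++ g :: bs ∧ as.length < p ∧ (∀ u ∈ as, hgt u < 2 ^ (k + s)) ∧ 2 ^ (k + s) ≤ hgt g) ∨
    (∃ as bs, gs = as ++ bs ∧ as.length = p ∧ ∀ u ∈ as, hgt u < 2 ^ (k + s)) ∨
    (gs.length < p ∧ ∀ u ∈ gs, hgt u < 2 ^ (k + s)) := by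
  induction gs with
  | nil =>
    intro p
    rcases Nat.eq_zero_or_pos p with hp | hp
    · exact Or.inr (Or.inl ⟨[], [], rfl, by rw [hp]; rfl, fun u hu => absurd hu (List.not_mem_nil)⟩)
    · exact Or.inr (Or.inr ⟨hp, fun u hu => absurd hu (List.not_mem_nil)⟩)
  | cons g gs ih =>
    intro p
    rcases Nat.eq_zero_or_pos p with hp | hp
    · exact Or.inr (Or.inl ⟨[], g :: gs, rfl, by rw [hp]; rfl, fun u hu => absurd hu (List.not_mem_nil)⟩)
    rcases Nat.lt_or_ge (hgt g) (2 ^ (k + s)) with hg | hg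
    · rcases ih (p - 1) with ⟨as, g', bs, h1, h2, h3, h4⟩ | ⟨as, bs, h1, h2, h3⟩ | ⟨h1, h2⟩
      · left
        refine ⟨g :: as, g', bs, by rw [h1]; rfl, by rw [List.length_cons]; omega, fun u hu => ?_, h4⟩
        rcases List.mem_cons.1 hu with rfl | hu
        · exact hg
        · exact h3 u hu
      · refine Or.inr (Or.inl ⟨g :: as, bs, by rw [h1]; rfl, by rw [List.length_cons]; omega, fun u hu => ?_⟩)
        rcases List.mem_cons.1 hu with rfl | hu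
        · exact hg
        · exact h3 u hu
      · refine Or.inr (Or.inr ⟨by rw [List.length_cons]; omega, fun u hu => ?_⟩)
        rcases List.mem_cons.1 hu with rfl | hu
        · exact hg
        · exact h2 u hu
    · left
      exact ⟨[], g, gs, rfl, hp, fun u hu => absurd hu (List.not_mem_nil), hg⟩

/-- the runs with the first high leaf behind i low ones -/
def XT (k s i V n : ℕ) (S : Set (List Bool)) : Set (List (List Bool)) :=
  {gs | ∃ as ms, gs = as ++ ms ∧ as.length = i ∧ Okl k S as ∧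
    ms ∈ {ms | ∃ m1 bs, ms = m1 ++ bs ∧ m1 ∈ One (CK (k + 5) (k + s) (n + 1) ∩ HB (2 ^ (k + 4))) ∧ m1 ≠ [] ∧ Okl k S bs ∧
      V - (i + (n + 2)) ≤ hsm k s bs} ∧ ms ≠ []}

/-- the runs whose first p leaves are low -/
def XW (k s p V : ℕ) (S : Set (List Bool)) (G : Set (List (List Bool))) : Set (List (List Bool)) :=
  {gs | ∃ ms bs, gs = ms ++ bs ∧ ms ∈ G ∧ ms ≠ [] ∧ Okl k S bs ∧ V - p ≤ hsm k s bs}

lemma runB_split {s V p : ℕ} {S : Set (List Bool)} {G : Set (List (List Bool))} (hp : 1 ≤ p) (hV : p ≤ V)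
    (hG : ∀ gs : List (List Bool), gs.length = p → (∀ g ∈ gs, g ∈ HB (2 ^ (k + 4)) ∧ hgt g < 2 ^ (k + s)) → gs ∈ G) :
    RunB k s S V ⊆ {gs | ∃ i < p, gs ∈ ⋃ n, XT k s i V n S} ∪ XW k s p V S G := by
  rintro gs ⟨h1, h2, h3⟩
  have h3' : V ≤ hsm k s gs := h3
  rcases first_high k s gs p with ⟨as, g, bs, rfl, e1, e2, e3⟩ | ⟨as, bs, rfl, e1, e2⟩ | ⟨e1, e2⟩
  · left
    have hg := h2 g (by simp)
    obtain ⟨b, b1, b2⟩ := hg.2.2
    have hb := hgt_eq b2
    obtain ⟨q, hq⟩ : ∃ q, q = hgt g / 2 ^ (k + s) := ⟨_, rfl⟩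
    have hpow : 0 < 2 ^ (k + s) := Nat.two_pow_pos _
    have hq1 : 1 ≤ q := by
      rw [hq]
      exact (Nat.le_div_iff_mul_le hpow).2 (by omega)
    refine ⟨as.length, e1, Set.mem_iUnion.2 ⟨q - 1, as, g :: bs, rfl, rfl, fun u hu => h2 u (by simp [hu]),
      ⟨[g], bs, rfl, ⟨g, ⟨⟨hg.2.1, b, ?_, ?_, b2⟩, hg.2.2⟩, rfl⟩, List.cons_ne_nil _ _,
        fun u hu => h2 u (by simp [hu]), ?_⟩, List.cons_ne_nil _ _⟩⟩
    · rw [show q - 1 + 1 = q by omega, hq, ← hb, mul_comm]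
      exact Nat.mul_div_le _ _
    · rw [show q - 1 + 1 = q by omega, hq, ← hb, mul_comm]
      exact Nat.lt_mul_div_succ _ hpow
    · rw [hsm_app, hsm_low e2] at h3'
      have h4 : hsm k s (g :: bs) = (q + 1) + hsm k s bs := by
        unfold hsm
        rw [List.map_cons, List.sum_cons, ← hq]
      rw [h4] at h3'
      omega
  · right
    have hne : as ≠ [] := by
      rintro rfl
      rw [List.length_nil] at e1
      omega
    refine ⟨as, bs, rfl, hG as e1 fun u hu => ⟨(h2 u (by simp [hu])).2.2, e2 u hu⟩, hne, fun u hu => h2 u (by simp [hu]),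
      ?_⟩
    rw [hsm_app, hsm_low e2, e1] at h3'
    omega
  · exfalso
    rw [hsm_low e2] at h3'
    omega

/-- the number of the leaf -/
lemma num_xt {C W : ℝ} (hC : 0 ≤ C) (hW : 0 < W) (i V : ℕ) :
    ∑' n : ℕ, ENNReal.ofReal (1 / 2 ^ i * (2 * (C / (W * 4 ^ (n + 1))) / 2 ^ (V - (i + (n + 2))))) ≤
      ENNReal.ofReal (4 * C / (W * 2 ^ V)) := by
  have h1 : ∀ n : ℕ, 1 / 2 ^ i * (2 * (C / (W * 4 ^ (n + 1))) / 2 ^ (V - (i + (n + 2)))) ≤
      2 * C / (W * 2 ^ V) * (1 / 2) ^ n := by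
    intro n
    have h2 : (2 : ℝ) ^ V ≤ 2 ^ (V - (i + (n + 2))) * (2 ^ i * (4 * 2 ^ n)) := by
      have e : (2 : ℝ) ^ i * (4 * 2 ^ n) = 2 ^ (i + (n + 2)) := by
        rw [pow_add, pow_add]
        ring
      rw [e, ← pow_add]
      exact pow_le_pow_right₀ (by norm_num) (by omega)
    have h3 : (1 : ℝ) / 2 ^ (V - (i + (n + 2))) ≤ 2 ^ i * (4 * 2 ^ n) / 2 ^ V := by
      rw [div_le_div_iff₀ (by positivity) (by positivity), one_mul, mul_comm]
      exact h2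
    have e4 : ((4 : ℝ)) ^ (n + 1) = 4 * (2 ^ n * 2 ^ n) := by
      rw [pow_succ, ← mul_pow]
      norm_num
      ring
    calc 1 / 2 ^ i * (2 * (C / (W * 4 ^ (n + 1))) / 2 ^ (V - (i + (n + 2))))
        = 1 / 2 ^ i * (2 * (C / (W * 4 ^ (n + 1)))) * (1 / 2 ^ (V - (i + (n + 2)))) := by ring
      _ ≤ 1 / 2 ^ i * (2 * (C / (W * 4 ^ (n + 1)))) * (2 ^ i * (4 * 2 ^ n) / 2 ^ V) := by gcongr
      _ = _ := by
          rw [e4, one_div, one_div, inv_pow]
          field_simp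
  refine (ENNReal.tsum_le_tsum fun n => ENNReal.ofReal_le_ofReal (h1 n)).trans ?_
  have hsm : Summable fun n : ℕ => (1 / 2 : ℝ) ^ n := summable_geometric_of_lt_one (by norm_num) (by norm_num)
  rw [← ENNReal.ofReal_tsum_of_nonneg (fun i => by positivity) (hsm.mul_left _), tsum_mul_left,
    tsum_geometric_of_lt_one (by norm_num) (by norm_num)]
  refine ENNReal.ofReal_le_ofReal (le_of_eq ?_)
  ring

/-- the labelled norm of the runs, given the labelled norms of a high leaf and of p low leaves -/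
theorem runB_norm {s V p : ℕ} {S : Set (List Bool)} {G : Set (List (List Bool))} {C W E : ℝ} (hC : 0 ≤ C) (hW : 0 < W)
    (hE : 0 ≤ E) (hp : 1 ≤ p) (hV : p ≤ V) (hB : ∀ V : ℕ, SmR DmJ k (RunB k s S V) (1 / 2 ^ V))
    (hT : ∀ n : ℕ, 1 ≤ n → SmDL lab DmJ k (CK (k + 5) (k + s) n) (C / (W * 4 ^ n)))
    (hGH : InH (2 ^ (k + 4)) G) (hGS : SmRL lab DmJ k G (E / W))
    (hG : ∀ gs : List (List Bool), gs.length = p → (∀ g ∈ gs, g ∈ HB (2 ^ (k + 4)) ∧ hgt g < 2 ^ (k + s)) → gs ∈ G) :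
    SmRL lab DmJ k (RunB k s S V) ((4 * p * C + 2 * 2 ^ p * E) / (W * 2 ^ V)) := by
  have h1 : ∀ i : ℕ, SmRL lab DmJ k (⋃ n, XT k s i V n S) (4 * C / (W * 2 ^ V)) := by
    intro i
    refine smRL_iUnion (fun n => by positivity) (num_xt hC hW i V) (by positivity) fun n => ?_
    have a1 : SmRL lab DmJ k (One (CK (k + 5) (k + s) (n + 1) ∩ HB (2 ^ (k + 4)))) (C / (W * 4 ^ (n + 1))) :=
      smRL_one (smDL_mono Set.inter_subset_left (hT (n + 1) (by omega)))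
    have a2 : InH (2 ^ (k + 4)) (One (CK (k + 5) (k + s) (n + 1) ∩ HB (2 ^ (k + 4)))) := inH_one Set.inter_subset_right
    have a3 := post_L (V := V - (i + (n + 2))) (s := s) (S := S) (by positivity) hB a2 a1
    refine pre_L (by positivity) hB ?_ a3
    rintro ms ⟨m1, bs, rfl, b1, -, b2, -⟩ g hg
    rcases List.mem_append.1 hg with hg | hg
    · exact a2 m1 b1 g hg
    · exact (b2 g hg).2.2
  have h2 : SmRL lab DmJ k (XW k s p V S G) (2 * (E / W) / 2 ^ (V - p)) := post_L (by positivity) hB hGH hGS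
  have h3 := smRL_sum (Rf := fun i => ⋃ n, XT k s i V n S) (df := fun _ => 4 * C / (W * 2 ^ V)) p
    (fun _ _ => by positivity) (fun i _ => h1 i)
  refine SmRL.le ((smRL_union (by positivity) (by positivity) h3 h2).anti (runB_split hp hV hG)) (le_of_eq ?_)
  rw [Finset.sum_const, Finset.card_range, nsmul_eq_mul]
  have e1 : (2 : ℝ) ^ V = 2 ^ (V - p) * 2 ^ p := by
    rw [← pow_add]
    congr 1
    omega
  rw [e1]
  field_simp

/-- the high leaves, larger units -/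
lemma tall_up {s r n : ℕ} {C W : ℝ} (hC : 0 ≤ C) (hW : 0 < W)
    (hT : ∀ n : ℕ, 1 ≤ n → SmDL lab DmJ k (CK (k + 5) (k + s) n) (C / (W * 4 ^ n))) (hn : 1 ≤ n) :
    SmDL lab DmJ k (CK (k + 5) (k + (s + r)) n) (2 ^ r * C / (W * 4 ^ n)) := by
  have hr : 1 ≤ 2 ^ r := Nat.one_le_two_pow
  have h1 := smDL_sum (lab := lab) (Dm := DmJ) (kc := k) (2 ^ r) (fun i => CK (k + 5) (k + s) (n * 2 ^ r + i))
    (fun i => C / (W * 4 ^ (n * 2 ^ r + i))) (fun i _ => by positivity) (fun i _ => hT _ (by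
      have : 1 * 1 ≤ n * 2 ^ r := Nat.mul_le_mul hn hr
      omega))
  refine smDL_up ?_ (smDL_mono ?_ h1)
  · calc ∑ i ∈ range (2 ^ r), C / (W * 4 ^ (n * 2 ^ r + i)) ≤ ∑ i ∈ range (2 ^ r), C / (W * 4 ^ n) := by
          refine Finset.sum_le_sum fun i _ => ?_
          have h2 : n ≤ n * 2 ^ r + i := by
            have : n * 1 ≤ n * 2 ^ r := Nat.mul_le_mul_left _ hr
            omega
          have h3 : (4 : ℝ) ^ n ≤ 4 ^ (n * 2 ^ r + i) := pow_le_pow_right₀ (by norm_num) h2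
          gcongr
      _ = _ := by
          rw [Finset.sum_const, Finset.card_range, nsmul_eq_mul]
          push_cast
          ring
  · rintro g ⟨g1, h, h2, h3, h4⟩
    have hp : 0 < 2 ^ (k + s) := Nat.two_pow_pos _
    have e1 : 2 ^ (k + (s + r)) = 2 ^ r * 2 ^ (k + s) := by
      rw [← pow_add]
      congr 1
      omega
    obtain ⟨q, hq⟩ : ∃ q, q = h / 2 ^ (k + s) := ⟨_, rfl⟩
    have q1 : n * 2 ^ r ≤ q := by
      rw [hq]
      refine (Nat.le_div_iff_mul_le hp).2 ?_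
      rw [mul_assoc, ← e1]
      exact h2
    have q2 : q < n * 2 ^ r + 2 ^ r := by
      rw [hq]
      refine (Nat.div_lt_iff_lt_mul hp).2 ?_
      rw [e1, ← mul_assoc] at h3
      calc h < (n + 1) * 2 ^ r * 2 ^ (k + s) := h3
        _ = _ := by ring
    have q3 : n * 2 ^ r + (q - n * 2 ^ r) = q := by omega
    refine ⟨q - n * 2 ^ r, by omega, g1, h, ?_, ?_, h4⟩
    · show (n * 2 ^ r + (q - n * 2 ^ r)) * 2 ^ (k + s) ≤ h
      rw [q3, hq, mul_comm]
      exact Nat.mul_div_le _ _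
    · show h < (n * 2 ^ r + (q - n * 2 ^ r) + 1) * 2 ^ (k + s)
      rw [q3, hq, mul_comm]
      exact Nat.lt_mul_div_succ _ hp

lemma runB_anti {k s r V : ℕ} {S : Set (List Bool)} : RunB k (r + s) S V ⊆ RunB k s S V := by
  rintro gs ⟨h1, h2, h3⟩
  refine ⟨h1, h2, h3.trans ?_⟩
  refine List.sum_le_sum fun g _ => ?_
  have h4 : 2 ^ (k + s) ≤ 2 ^ (k + (r + s)) := Nat.pow_le_pow_right (by norm_num) (by omega)
  have := Nat.div_le_div_left h4 (Nat.two_pow_pos (k + s)) (a := hgt g)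
  omega

/-- **(R) the labelled norm of the runs of leaves of a small class and of one tall leaf** -/
theorem run_L {w : ℕ → ℝ} {J1 s1 : ℕ} {C1 : ℝ} (hw : ∀ k, 0 < w k) (hGB : GBmL lab w J1) (hC1 : 1 ≤ C1)
    (hT : ∀ kc n : ℕ, 1 ≤ n → SmDL lab DmJ kc (CK (kc + 5) (kc + s1) n) (C1 / (w kc * 4 ^ n))) :
    ∃ (s J0 V0 : ℕ) (e0 C : ℝ), 0 < e0 ∧ 1 ≤ C ∧
      (∀ (kc : ℕ) (S : Set (List Bool)), SmD DmJ kc {g | g ∈ BrR (2 ^ (kc + 4)) (2 ^ (kc + J0)) ∧ g ∈ S} e0 →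
        ∀ V : ℕ, V0 ≤ V → SmRL lab DmJ kc (RunB kc s S V) (C / (w kc * 2 ^ V))) ∧
      ∀ kc V : ℕ, 1 ≤ V → SmRL lab DmJ kc (RunT kc s V) (C / (w kc * 4 ^ V)) := by
  classical
  obtain ⟨s2, J0, e0, K, he0, hK, hB0, -⟩ := run_bad
  obtain ⟨C2, k0, hC2, hGB⟩ := hGB
  obtain ⟨Kb, hKb, hbox⟩ := smD_box
  obtain ⟨s, hs⟩ : ∃ s, s = s1 + s2 := ⟨_, rfl⟩
  obtain ⟨q, hq⟩ : ∃ q : ℝ, q = Kb * 2 ^ s := ⟨_, rfl⟩
  have hq1 : 1 ≤ q := by
    rw [hq]
    exact one_le_mul_of_one_le_of_one_le hKb (one_le_pow₀ (by norm_num))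
  obtain ⟨E, hE⟩ : ∃ E : ℝ, E = (4 * q) ^ (J1 + 1) * C2 ^ (s + 1) := ⟨_, rfl⟩
  have hE0 : 0 ≤ E := by
    rw [hE]
    positivity
  obtain ⟨Cw, hCw⟩ : ∃ Cw : ℝ, Cw = ∑ k ∈ range k0, w k := ⟨_, rfl⟩
  have hCw0 : 0 ≤ Cw := by
    rw [hCw]
    exact Finset.sum_nonneg fun k _ => (hw k).le
  have hCwk : ∀ k < k0, w k ≤ Cw := fun k hk => by
    rw [hCw]
    exact Finset.single_le_sum (f := w) (fun k _ => (hw k).le) (mem_range.2 hk)
  obtain ⟨C3, hC3⟩ : ∃ C3 : ℝ, C3 = 4 * ((J1 + 1 : ℕ) : ℝ) * (2 ^ s2 * C1) + 2 * 2 ^ (J1 + 1) * E := ⟨_, rfl⟩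
  have hC10 : 0 < C1 := by linarith
  have hC30 : 0 ≤ C3 := by
    rw [hC3]
    positivity
  have hT' : ∀ kc n : ℕ, 1 ≤ n → SmDL lab DmJ kc (CK (kc + 5) (kc + s) n) (2 ^ s2 * C1 / (w kc * 4 ^ n)) := by
    intro kc n hn
    rw [hs]
    exact tall_up hC10.le (hw kc) (hT kc) hn
  have hge : C3 ≤ C3 + Cw + 2 * (2 ^ s2 * C1) := by
    have : 0 ≤ 2 * (2 ^ s2 * C1) := by positivity
    linarith
  have hge2 : Cw ≤ C3 + Cw + 2 * (2 ^ s2 * C1) := by
    have : 0 ≤ 2 * (2 ^ s2 * C1) := by positivity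
    linarith
  have hge3 : 2 * (2 ^ s2 * C1) ≤ C3 + Cw + 2 * (2 ^ s2 * C1) := by linarith
  refine ⟨s, J0, J1 + 1, e0, C3 + Cw + 2 * (2 ^ s2 * C1), he0, ?_, fun kc S hS V hV => ?_, fun kc V hV => ?_⟩
  · have h1 : (1 : ℝ) ≤ 2 ^ s2 := one_le_pow₀ (by norm_num)
    have h2 : 1 ≤ 2 ^ s2 * C1 := one_le_mul_of_one_le_of_one_le h1 hC1
    linarith
  · have hB : ∀ V : ℕ, SmR DmJ kc (RunB kc s S V) (1 / 2 ^ V) := by
      intro V
      refine SmR_mono ?_ (hB0 kc S hS V)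
      rw [hs]
      exact runB_anti
    have hwk := hw kc
    rcases Nat.lt_or_ge kc k0 with hk | hk
    · refine SmRL.le (smRL_of_smR (hB V)) ?_
      rw [div_le_div_iff₀ (by positivity) (by positivity), one_mul]
      refine mul_le_mul_of_nonneg_right ?_ (by positivity)
      exact (hCwk kc hk).trans hge2
    · obtain ⟨G, hGd⟩ : ∃ G : Set (List (List Bool)), G = {gs | gs.length = J1 + 1 ∧
          ∀ g ∈ gs, g ∈ BrR (2 ^ (kc + 4)) (2 ^ (kc + s + 2))} := ⟨_, rfl⟩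
      have hGS : SmRL lab DmJ kc G (E / w kc) := by
        have h1 := smRL_marks dmP inH_box (zero_le_one (α := ℝ)) hq1 (hGB kc s hk) (hq ▸ hbox kc s) (δ := 1) (S := ∅)
          (smD_empty_one kc) (J1 + 1) 0
        rw [hGd]
        refine SmRL.le (h1.anti fun gs hgs => ⟨hgs.1, by omega, hgs.2, Nat.zero_le _⟩) (le_of_eq ?_)
        rw [hE, pow_zero]
        ring
      refine SmRL.le (runB_norm (C := 2 ^ s2 * C1) (by positivity) hwk hE0 (Nat.succ_le_succ (Nat.zero_le J1)) hV hB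
        (hT' kc) (G := G) ?_ hGS ?_) ?_
      · rw [hGd]
        rintro gs ⟨-, h⟩ g hg
        exact inH_box (h g hg)
      · intro gs h1 h2
        rw [hGd]
        refine ⟨h1, fun g hg => ?_⟩
        obtain ⟨⟨b, b1, b2⟩, h3⟩ := h2 g hg
        rw [hgt_eq b2] at h3
        have : 2 ^ (kc + s) ≤ 2 ^ (kc + s + 2) := Nat.pow_le_pow_right (by norm_num) (by omega)
        exact ⟨b, b1, by omega, b2⟩
      · rw [← hC3]
        gcongr
  · have hwk := hw kc
    have h1 : RunT kc s V ⊆ ⋃ i, One (CK (kc + 5) (kc + s) (V + i) ∩ HB (2 ^ (kc + 4))) := by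
      rintro gs ⟨g, rfl, g1, ⟨b, b1, b2⟩, g3⟩
      rw [hgt_eq b2] at g3
      have hp : 0 < 2 ^ (kc + s) := Nat.two_pow_pos _
      have h3 := Nat.div_add_mod b (2 ^ (kc + s))
      have h4 := Nat.mod_lt b hp
      have h5 : V ≤ b / 2 ^ (kc + s) := (Nat.le_div_iff_mul_le hp).2 g3
      refine Set.mem_iUnion.2 ⟨b / 2 ^ (kc + s) - V, g, ⟨⟨g1, b, ?_, ?_, b2⟩, b, b1, b2⟩, rfl⟩
      · rw [show V + (b / 2 ^ (kc + s) - V) = b / 2 ^ (kc + s) by omega, mul_comm]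
        omega
      · rw [show V + (b / 2 ^ (kc + s) - V) = b / 2 ^ (kc + s) by omega, add_mul, one_mul, mul_comm (b / 2 ^ (kc + s))]
        omega
    refine SmRL.anti (smRL_iUnion (δ := fun i => 2 ^ s2 * C1 / (w kc * 4 ^ (V + i))) (fun i => by positivity) ?_
      (by positivity) fun i => smRL_one (smDL_mono Set.inter_subset_left (hT' kc (V + i) (by omega)))) h1
    have hsm : Summable fun i : ℕ => (1 / 4 : ℝ) ^ i := summable_geometric_of_lt_one (by norm_num) (by norm_num)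
    have e1 : ∀ i : ℕ, 2 ^ s2 * C1 / (w kc * 4 ^ (V + i)) = 2 ^ s2 * C1 / (w kc * 4 ^ V) * (1 / 4) ^ i := by
      intro i
      rw [pow_add, one_div, inv_pow]
      field_simp
    simp only [e1]
    rw [← ENNReal.ofReal_tsum_of_nonneg (fun i => by positivity) (hsm.mul_left _), tsum_mul_left,
      tsum_geometric_of_lt_one (by norm_num) (by norm_num)]
    apply ENNReal.ofReal_le_ofReal
    have h6 : 2 ^ s2 * C1 / (w kc * 4 ^ V) * (1 - 1 / 4)⁻¹ ≤ 2 * (2 ^ s2 * C1) / (w kc * 4 ^ V) := by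
      have : 0 ≤ 2 ^ s2 * C1 / (w kc * 4 ^ V) := by positivity
      rw [mul_div_assoc 2]
      nlinarith
    refine h6.trans ?_
    gcongr

end

end TPC

end HexObs
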