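import Pool.Agent.TPC.SDOf
import Pool.Agent.TPC.PatX
import Pool.Agent.SIM.GeoIrg

/-!
TPC: the geometry of the walks which do not meet their translates: a run of leaves of the class `DJ` or a tall leaf.
-/

set_option autoImplicit false

namespace HexObs

namespace TPC

open Finset TS SDN NTW NTA SIM SIM.GI

open scoped ENNReal

/-- the leaves of a walk which does not meet its translates do not meet their translate -/
lemma leaf_DJ {dir : Bool} {b m u k : ℕ} {t : List Bool} {e : ℕ → ℕ} (ht : t ∈ SA) (hb : 1 ≤ b)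
    (h : Lf dir b t m u e) {j : ℕ} (h1 : 1 ≤ j) (h2 : j + 2 ≤ m) (hD : Dsj k t) :
    lw t (e j) (e (j + 1)) ∈ DJ dir (2 * k) := by
  obtain ⟨σ, hσ, hl, hlt, hc⟩ := leaf_coord ht hb h h1 h2
  have hle : e (j + 1) ≤ t.length := (lf_mono h (by omega) le_rfl).trans h.le
  intro i i' hi hi' he
  obtain ⟨c1, c2⟩ := hc i hi
  obtain ⟨c3, c4⟩ := hc i' hi'
  have d1 : lev (lw t (e j) (e (j + 1))) i' = lev (lw t (e j) (e (j + 1))) i + 3 * ((2 * k : ℕ) : ℤ) := by
    rw [← lv_vx, ← lv_vx, he, lv_add, lv_Trn]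
  have d2 : lat (lw t (e j) (e (j + 1))) i' = lat (lw t (e j) (e (j + 1))) i + (Trn dir (2 * k)).1 := by
    rw [← fst_vx, ← fst_vx, he]
    rfl
  rw [Trn_fst] at d2
  rw [d1] at c3
  rw [d2] at c4
  refine hD (e j + 1 + i') (e j + 1 + i) (by omega) (by omega) (if dir = true then -σ else σ)
    (by rcases hσ with rfl | rfl <;> cases dir <;> norm_num) ?_
  obtain ⟨v, hv⟩ : ∃ v, v = vx oo up t (e j + 1 + i) := ⟨_, rfl⟩
  obtain ⟨v', hv'⟩ : ∃ v', v' = vx oo up t (e j + 1 + i') := ⟨_, rfl⟩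
  obtain ⟨P, hP⟩ : ∃ P, P = lp dir t (e j + 1) := ⟨_, rfl⟩
  obtain ⟨Q, hQ⟩ : ∃ Q, Q = lq dir t (e j + 1) := ⟨_, rfl⟩
  rw [← hP] at c1 c3
  rw [← hQ] at c2 c4
  have e1 : lp dir t (e j + 1 + i) = ip v (hd dir) := by rw [hv]; rfl
  have e2 : lq dir t (e j + 1 + i) = cross (hd dir) v := by rw [hv]; rfl
  have e3 : lp dir t (e j + 1 + i') = ip v' (hd dir) := by rw [hv']; rfl
  have e4 : lq dir t (e j + 1 + i') = cross (hd dir) v' := by rw [hv']; rfl
  rw [e1] at c1
  rw [e2] at c2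
  rw [e3] at c3
  rw [e4] at c4
  rw [← hv, ← hv']
  have f1 : ip v' (hd dir) = ip v (hd dir) + σ * (3 * ((2 * k : ℕ) : ℤ)) := by
    rw [c1, c3]
    ring
  have f2 : cross (hd dir) v' = cross (hd dir) v - σ * (if dir = true then -((2 * k : ℕ) : ℤ) else ((2 * k : ℕ) : ℤ)) := by
    rw [c2, c4]
    ring
  push_cast at f1 f2
  have g1 : v'.1 = v.1 + 2 * (k : ℤ) * (if dir = true then -σ else σ) ∧
      v'.2 = v.2 + 2 * (k : ℤ) * (if dir = true then -σ else σ) := by
    cases dir with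
    | false =>
      simp only [hd, Bool.false_eq_true, if_false] at f1 f2
      unfold cross at f2
      unfold ip at f1
      simp only [up] at f1 f2
      rw [if_neg (by decide)]
      constructor <;> rcases hσ with rfl | rfl <;> omega
    | true =>
      simp only [hd, if_true] at f1 f2
      unfold cross at f2
      unfold ip at f1
      dsimp only at f1 f2
      rw [if_pos rfl]
      constructor <;> rcases hσ with rfl | rfl <;> linarith
  exact Prod.ext g1.1 g1.2

/-- **from a long piece to a run of leaves or a tall leaf** -/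
theorem geo_run {dir : Bool} {s k K V x y : ℕ} {t : List Bool} {S : Set (List Bool)} (htW : t ∈ WL K)
    (hxy : x ≤ y) (hy : y ≤ t.length) (hbig : 96 * ((V + 1 : ℤ) * 2 ^ (k + s + 5)) ≤ |lp dir t y - lp dir t x|)
    (hS : ∀ (m u : ℕ) (e : ℕ → ℕ), Lf dir (k + 5) t m u e → ∀ j, 1 ≤ j → j + 2 ≤ m → x ≤ e j → e (j + 1) ≤ y →
      lw t (e j) (e (j + 1)) ∈ S) :
    t ∈ ERL dir k K (RunB k s S V) ∨ ∃ (m u : ℕ) (e : ℕ → ℕ), Lf dir (k + 5) t m u e ∧ ∃ j, j < m ∧
      3 * ((V : ℤ) * 2 ^ (k + s)) ≤ |lp dir t (e (j + 1)) - lp dir t (e j)| := by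
  have ht := htW.1
  obtain ⟨m, u, e, hF⟩ := lf_exists dir (k + 5) t
  by_cases htall : ∃ j, j < m ∧ 3 * ((V : ℤ) * 2 ^ (k + s)) ≤ |lp dir t (e (j + 1)) - lp dir t (e j)|
  · exact Or.inr ⟨m, u, e, hF, htall⟩
  push Not at htall
  obtain ⟨T, hT⟩ : ∃ T : ℤ, T = 3 * ((V + 1 : ℤ) * 2 ^ (k + s + 5)) := ⟨_, rfl⟩
  have hV0 : (0 : ℤ) ≤ V := Int.natCast_nonneg V
  have hp1 : (1 : ℤ) ≤ 2 ^ (k + s) := one_le_pow₀ (by norm_num)
  have hp5 : (2 : ℤ) ^ (k + s + 5) = 32 * 2 ^ (k + s) := by rw [pow_add]; ring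
  have hT0 : 0 ≤ T := by rw [hT]; positivity
  have hTR : RR (k + 5) ≤ T := by
    have h1 : (2 : ℤ) ^ (k + 5) ≤ 2 ^ (k + s + 5) := pow_le_pow_right₀ (by norm_num) (by omega)
    have h2 : (0 : ℤ) < 2 ^ (k + s + 5) := by positivity
    unfold RR
    rw [hT]
    nlinarith
  have hTj : ∀ j, j < m → |lp dir t (e (j + 1)) - lp dir t (e j)| ≤ T := by
    intro j hj
    refine (htall j hj).le.trans ?_
    rw [hT, hp5]
    nlinarith
  obtain ⟨a, ha⟩ : ∃ a, a = T2.cpt t.length m e := ⟨_, rfl⟩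
  have a0 : a 0 = 0 := by rw [ha]; exact T2.cpt_zero _ _ _
  have aM : a (m + 2) = t.length := by rw [ha]; exact T2.cpt_end _ _ _
  have am : ∀ p, p < m + 2 → a p ≤ a (p + 1) := by
    intro p hp
    rw [ha]
    exact cpt_mono hF hp
  have ai : ∀ i, i ≤ m → a (i + 1) = e i := by
    intro i hi
    rw [ha]
    exact T2.cpt_mid _ _ _ hi
  have amm : ∀ i j, i ≤ j → j ≤ m + 2 → a i ≤ a j := by
    intro i j hij
    induction j, hij using Nat.le_induction with
    | base => intro _; exact le_rfl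
    | succ j hj ih => intro hjM; exact (ih (by omega)).trans (am j (by omega))
  have hpc : ∀ p, p < m + 2 → ∀ i j, a p ≤ i → i ≤ a (p + 1) → a p ≤ j → j ≤ a (p + 1) →
      |lp dir t i - lp dir t j| ≤ T := by
    intro p hp i j hi hi' hj hj'
    rw [ha] at hi hi' hj hj'
    exact lf_osc hF hTj hTR hp hi hi' hj hj'
  have hxy' : x < y := by
    rcases Nat.eq_or_lt_of_le hxy with h1 | h1
    · rw [h1, sub_self, abs_zero] at hbig
      have : (0 : ℤ) < (V + 1 : ℤ) * 2 ^ (k + s + 5) := by positivity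
      omega
    · exact h1
  obtain ⟨p0, d, hpd, hx1, hx2, hy1, hy2⟩ := cut_restrict a0 aM am hxy' hy
  obtain ⟨la, hla⟩ : ∃ la, la = max p0 2 := ⟨_, rfl⟩
  obtain ⟨lb, hlb⟩ : ∃ lb, lb = min (p0 + d - 1) (m - 1) := ⟨_, rfl⟩
  obtain ⟨d', hd'⟩ : ∃ d', d' = lb - la := ⟨_, rfl⟩
  rcases Nat.eq_zero_or_pos d' with h0 | h0
  · -- no run
    exfalso
    have h1 := few_osc hT0 hpc (z := x) (d + 1) p0 y (by omega) hx1 hxy (by rw [← add_assoc]; exact hy2)
    have h2 : ((d + 1 : ℕ) : ℤ) ≤ 6 := by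
      have : d + 1 ≤ 6 := by omega
      exact_mod_cast this
    have h3 : ((d + 1 : ℕ) : ℤ) * T ≤ 6 * T := mul_le_mul_of_nonneg_right h2 hT0
    have h4 : (0 : ℤ) < (V + 1 : ℤ) * 2 ^ (k + s + 5) := by positivity
    rw [hT] at h3
    rw [hT] at h1
    linarith
  · -- a run
    left
    have e1 : la + d' ≤ m - 1 := by omega
    have hlbe : lb = la + d' := by omega
    have z1 : a (la + 1) = e la := ai la (by omega)
    have z2 : a (lb + 1) = e lb := ai lb (by omega)
    have hz1 : x ≤ a (la + 1) := hx2.le.trans (amm _ _ (by omega) (by omega))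
    have hz2 : a (lb + 1) ≤ y := (amm _ (p0 + d) (by omega) (by omega)).trans hy1.le
    have hz12 : a (la + 1) ≤ a (lb + 1) := amm _ _ (by omega) (by omega)
    have h1 := few_osc hT0 hpc (z := x) (la + 1 - p0) p0 (a (la + 1)) (by omega) hx1 hz1
      (by rw [show p0 + (la + 1 - p0) = la + 1 by omega])
    have h2 := few_osc hT0 hpc (z := a (lb + 1)) (p0 + d - lb) (lb + 1) y (by omega) le_rfl hz2
      (by rw [show lb + 1 + (p0 + d - lb) = p0 + d + 1 by omega]; exact hy2)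
    have h3 := sum_osc (F := lp dir t) (e := e) (D := fun i => 3 * (hgt (lw t (e (la + i)) (e (la + i + 1))) : ℤ) + 1) la d'
      (fun i hi => by
        obtain ⟨n, n1, -, -, n4⟩ := NC.int_leafD ht (by omega : 1 ≤ k + 5) hF (j := la + i) (by omega) (by omega)
        show _ ≤ 3 * (hgt (lw t (e (la + i)) (e (la + i + 1))) : ℤ) + 1
        rw [hgt_eq n1]
        exact n4.le)
    rw [← hlbe] at h3
    have c1 : ((la + 1 - p0 : ℕ) : ℤ) ≤ 3 := by
      have : la + 1 - p0 ≤ 3 := by omega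
      exact_mod_cast this
    have c2 : ((p0 + d - lb : ℕ) : ℤ) ≤ 3 := by
      have : p0 + d - lb ≤ 3 := by omega
      exact_mod_cast this
    have c3 : ((la + 1 - p0 : ℕ) : ℤ) * T ≤ 3 * T := mul_le_mul_of_nonneg_right c1 hT0
    have c4 : ((p0 + d - lb : ℕ) : ℤ) * T ≤ 3 * T := mul_le_mul_of_nonneg_right c2 hT0
    rw [z1] at h1
    rw [z2] at h2
    have h4 : |lp dir t y - lp dir t x| ≤ |lp dir t y - lp dir t (e lb)| + |lp dir t (e lb) - lp dir t (e la)| +
        |lp dir t (e la) - lp dir t x| := by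
      have b1 := abs_sub_le (lp dir t y) (lp dir t (e lb)) (lp dir t x)
      have b2 := abs_sub_le (lp dir t (e lb)) (lp dir t (e la)) (lp dir t x)
      linarith
    -- the sum of the heights
    have hbr : ∀ g ∈ lws t e la d', ∃ n : ℕ, g ∈ Brd n ∧ 2 ^ (k + 4) ≤ n ∧ g ∈ CL (k + 5) := by
      intro g hg
      obtain ⟨i, hi, rfl⟩ := NC.lws_mem hg
      obtain ⟨n, n1, n2, n3, -⟩ := NC.int_leafD ht (by omega : 1 ≤ k + 5) hF (j := la + i) (by omega) (by omega)
      refine ⟨n, n1, ?_, n3⟩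
      have h5 : 2 ^ (k + 5) = 2 * 2 ^ (k + 4) := by rw [← pow_succ']
      have h6 := Nat.one_le_two_pow (n := k + 4)
      omega
    have hsum : (∑ i ∈ range d', (3 * (hgt (lw t (e (la + i)) (e (la + i + 1))) : ℤ) + 1)) ≤
        4 * (((lws t e la d').map hgt).sum : ℤ) := by
      rw [sum_lws hgt t e la d']
      push_cast
      rw [Finset.mul_sum]
      refine Finset.sum_le_sum fun i hi => ?_
      obtain ⟨n, n1, n2, n3, -⟩ := NC.int_leafD ht (by omega : 1 ≤ k + 5) hF (j := la + i)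
        (by omega) (by rw [Finset.mem_range] at hi; omega)
      rw [hgt_eq n1]
      have h5 : 2 ≤ 2 ^ (k + 5) := by
        calc 2 = 2 ^ 1 := rfl
          _ ≤ 2 ^ (k + 5) := Nat.pow_le_pow_right (by norm_num) (by omega)
      have h6 : (1 : ℤ) ≤ n := by
        have : 1 ≤ n := by omega
        exact_mod_cast this
      linarith
    have hVsum : V ≤ ((lws t e la d').map fun g => hgt g / 2 ^ (k + s) + 1).sum := by
      by_contra hcon
      rw [not_le] at hcon
      have h5 : ((lws t e la d').map hgt).sum ≤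
          2 ^ (k + s) * ((lws t e la d').map fun g => hgt g / 2 ^ (k + s) + 1).sum := by
        generalize lws t e la d' = gs
        induction gs with
        | nil => simp
        | cons g gs ih =>
          rw [List.map_cons, List.sum_cons, List.map_cons, List.sum_cons, mul_add]
          refine Nat.add_le_add ?_ ih
          exact (Nat.lt_mul_div_succ (hgt g) (by positivity)).le
      have h6 : 2 ^ (k + s) * ((lws t e la d').map fun g => hgt g / 2 ^ (k + s) + 1).sum ≤ 2 ^ (k + s) * V :=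
        Nat.mul_le_mul_left _ hcon.le
      have h7 : (((lws t e la d').map hgt).sum : ℤ) ≤ 2 ^ (k + s) * V := by exact_mod_cast h5.trans h6
      obtain ⟨P, hP⟩ : ∃ P : ℤ, P = (V + 1 : ℤ) * 2 ^ (k + s) := ⟨_, rfl⟩
      have h8 : 0 < P := by
        rw [hP]
        positivity
      have h9 : (2 : ℤ) ^ (k + s) * V ≤ P := by
        rw [hP, add_mul, one_mul, mul_comm]
        linarith
      have h10 : (V + 1 : ℤ) * 2 ^ (k + s + 5) = 32 * P := by
        rw [hP, hp5]
        ring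
      rw [h10] at hbig hT
      linarith
    refine ⟨htW, m, u, e, hF, la, d', by omega, h0, by omega, ?_, fun g hg => ?_, hVsum⟩
    · intro h5
      have h6 := congrArg List.length h5
      rw [PE.lws_length, List.length_nil] at h6
      omega
    · obtain ⟨n, n1, n2, n3⟩ := hbr g hg
      refine ⟨?_, n3, n, n2, n1⟩
      obtain ⟨i, hi, rfl⟩ := NC.lws_mem hg
      refine hS m u e hF (la + i) (by omega) (by omega) ?_ ?_
      · rw [z1] at hz1
        exact hz1.trans (lf_mono hF (by omega) (by omega))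
      · rw [z2] at hz2
        exact (lf_mono hF (by omega) (by omega)).trans hz2

/-- **(S1)** -/
theorem geoSD : GeoSD DJ := by
  intro s
  refine ⟨2 ^ (s + 11), Nat.one_le_two_pow, fun k kc K V t _ _ _ _ hM htW hnW hD => ?_⟩
  have hex : ∃ i, i ≤ t.length ∧ ∃ dir, ¬ |row dir (vx oo up t i)| ≤ 2 ^ (K - 1) := by
    by_contra hcon
    push Not at hcon
    exact hnW ⟨htW.1, fun i hi dir => hcon i hi dir⟩
  obtain ⟨y, hy, dir, hr⟩ := hex
  have hdis : 3 * (2 : ℤ) ^ (K - 1) ≤ |lp dir t y - lp dir t 0| := by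
    have h0 : lp dir t 0 = 0 := by
      show ip oo (hd dir) = 0
      cases dir <;> decide
    rw [h0, sub_zero]
    have h1 : row dir (vx oo up t y) = lp dir t y / 3 := rfl
    rw [h1, not_le, lt_abs] at hr
    obtain ⟨p, hp⟩ : ∃ p : ℤ, p = 2 ^ (K - 1) := ⟨_, rfl⟩
    rw [← hp] at hr ⊢
    rw [le_abs]
    rcases hr with hr | hr
    · left; omega
    · right; omega
  have hbig : 96 * ((V + 1 : ℤ) * 2 ^ (kc + s + 5)) ≤ |lp dir t y - lp dir t 0| := by
    refine le_trans ?_ hdis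
    have h1 : (2 : ℤ) ^ (s + 11) * (V + 1) ≤ 2 ^ (K - kc) := by exact_mod_cast hM
    have h2 : (2 : ℤ) * 2 ^ (K - 1) = 2 ^ (K - kc) * 2 ^ kc := by
      rw [← pow_succ', ← pow_add, show K - 1 + 1 = K - kc + kc by omega]
    have h3 : (0 : ℤ) ≤ 2 ^ kc := by positivity
    have h4 := mul_le_mul_of_nonneg_right h1 h3
    have h5 : (2 : ℤ) ^ (s + 11) * (V + 1) * 2 ^ kc = 64 * ((V + 1) * 2 ^ (kc + s + 5)) := by
      rw [show s + 11 = s + 5 + 6 by omega, pow_add _ (s + 5), show kc + s + 5 = kc + (s + 5) by omega, pow_add _ kc]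
      ring
    rw [h5, ← h2] at h4
    linarith
  rcases geo_run (S := DJ dir (2 * k)) htW (Nat.zero_le y) hy hbig
    (fun m u e hF j h1 h2 _ _ => leaf_DJ htW.1 (by omega) hF h1 h2 hD) with h | ⟨m, u, e, hF, h⟩
  · exact Or.inl ⟨dir, h⟩
  · exact Or.inr ⟨dir, m, u, e, hF, h⟩

end TPC

end HexObs
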