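import Pool.Agent.SIM.RegAll
import Pool.Agent.SIM.Hump

/-!
TPC: the walks with a small range of levels (in one of three directions) and a large extent have a small weight
(helper51), from SIM.reg.
-/

set_option autoImplicit false

namespace HexObs

namespace TPC

open Finset TS SDN NTW NTA SIM

open scoped ENNReal

/-- the three directions of the levels -/
def D3 : Finset Pt := {(0, 1), (-1, 0), (1, -1)}

/-- a piece with a large displacement of a regular walk has the shape beta -/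
lemma be_of {A B : ℤ} {r n : ℕ} {t : List Bool} (ht : ¬ Irg A B r n t) {dir : Bool} {i l : ℕ} (hil : i ≤ l)
    (hl : l ≤ t.length) (h : 3 * ((n : ℤ) * 2 ^ r) ≤ |lp dir t l - lp dir t i|) :
    ∃ a b, i ≤ a ∧ a ≤ b ∧ b ≤ l ∧ B * 2 ^ r ≤ |lq dir t b - lq dir t a| ∧ |lp dir t b - lp dir t a| ≤ 3 * 2 ^ r := by
  have h1 : ¬ ∀ a b, i ≤ a → b ≤ l → ¬ Be B (2 ^ r) (lp dir t) (lq dir t) a b := fun h2 =>
    ht ⟨dir, i, l, hil, hl, h, Or.inr h2⟩
  push Not at h1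
  obtain ⟨a, b, ha, hb, hab, hc, hp⟩ := h1
  exact ⟨a, b, ha, hab, hb, hc, hp b a hab le_rfl le_rfl hab⟩

/-- two coordinates -/
lemma d3_ar {x p1 p2 q1 q2 : ℤ} (hx : 0 < x) {dir : Bool} {d : Pt} (hd : d ∈ D3) (hne : d ≠ SDN.hd dir)
    (h1 : |ip (p1, p2) d| ≤ 4 * x) (h2 : |ip (q1, q2) d| ≤ 4 * x)
    (h3 : 12 * x ≤ |crs dir (p1, p2) - crs dir (q1, q2)|) (h4 : |lvl dir (p1, p2) - lvl dir (q1, q2)| ≤ 3 * x) :
    False := by
  have e0 : d = (0, 1) ∨ d = (-1, 0) ∨ d = (1, -1) := by simpa [D3] using hd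
  rw [abs_le] at h1 h2 h4
  cases dir with
  | false =>
    have f1 : crs false (p1, p2) = -p1 := by simp [crs, cross, SDN.hd, up]
    have f2 : crs false (q1, q2) = -q1 := by simp [crs, cross, SDN.hd, up]
    have f3 : lvl false (p1, p2) = p1 + 2 * p2 := by simp [lvl, ip, SDN.hd, up]; ring
    have f4 : lvl false (q1, q2) = q1 + 2 * q2 := by simp [lvl, ip, SDN.hd, up]; ring
    rw [f1, f2] at h3
    rw [f3, f4] at h4
    rcases e0 with rfl | rfl | rfl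
    · exact hne rfl
    · have f5 : ip (p1, p2) (-1, 0) = -2 * p1 - p2 := by simp [ip]; ring
      have f6 : ip (q1, q2) (-1, 0) = -2 * q1 - q2 := by simp [ip]; ring
      rw [f5] at h1
      rw [f6] at h2
      rcases abs_cases (-p1 - -q1) with ⟨g, _⟩ | ⟨g, _⟩ <;> rw [g] at h3 <;> omega
    · have f5 : ip (p1, p2) (1, -1) = p1 - p2 := by simp [ip]; ring
      have f6 : ip (q1, q2) (1, -1) = q1 - q2 := by simp [ip]; ring
      rw [f5] at h1
      rw [f6] at h2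
      rcases abs_cases (-p1 - -q1) with ⟨g, _⟩ | ⟨g, _⟩ <;> rw [g] at h3 <;> omega
  | true =>
    have f1 : crs true (p1, p2) = -p2 := by simp [crs, cross, SDN.hd]
    have f2 : crs true (q1, q2) = -q2 := by simp [crs, cross, SDN.hd]
    have f3 : lvl true (p1, p2) = -2 * p1 - p2 := by simp [lvl, ip, SDN.hd]; ring
    have f4 : lvl true (q1, q2) = -2 * q1 - q2 := by simp [lvl, ip, SDN.hd]; ring
    rw [f1, f2] at h3
    rw [f3, f4] at h4
    rcases e0 with rfl | rfl | rfl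
    · have f5 : ip (p1, p2) (0, 1) = p1 + 2 * p2 := by simp [ip]; ring
      have f6 : ip (q1, q2) (0, 1) = q1 + 2 * q2 := by simp [ip]; ring
      rw [f5] at h1
      rw [f6] at h2
      rcases abs_cases (-p2 - -q2) with ⟨g, _⟩ | ⟨g, _⟩ <;> rw [g] at h3 <;> omega
    · exact hne rfl
    · have f5 : ip (p1, p2) (1, -1) = p1 - p2 := by simp [ip]; ring
      have f6 : ip (q1, q2) (1, -1) = q1 - q2 := by simp [ip]; ring
      rw [f5] at h1
      rw [f6] at h2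
      rcases abs_cases (-p2 - -q2) with ⟨g, _⟩ | ⟨g, _⟩ <;> rw [g] at h3 <;> omega

/-- a walk in a flat strip with a large extent is irregular -/
lemma irg_of {A : ℤ} {r J : ℕ} (hJ : 3 ≤ J) {d : Pt} (hd : d ∈ D3) {t : List Bool} (h1 : t ∈ WL (r + J))
    (h2 : t ∉ WL (r + J - 1)) (h3 : ∀ i, i ≤ t.length → |ip (vx oo up t i) d| ≤ 4 * 2 ^ r) :
    Irg A 12 r (2 ^ (J - 2)) t := by
  by_contra hI
  have h4 : ¬ ∀ i, i ≤ t.length → ∀ dir, |row dir (vx oo up t i)| ≤ 2 ^ (r + J - 1) := fun h => h2 ⟨h1.1, h⟩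
  push Not at h4
  obtain ⟨i, hi, dir, h5⟩ := h4
  have hX : (2 : ℤ) ^ (r + J - 1) = 2 * (2 ^ (J - 2) * 2 ^ r) := by
    rw [← pow_add, ← pow_succ']
    congr 1
    omega
  have h0 : (1 : ℤ) ≤ 2 ^ r := one_le_pow₀ (by norm_num)
  have hJ2 : (2 : ℤ) ≤ 2 ^ (J - 2) := by
    calc (2 : ℤ) = 2 ^ 1 := by norm_num
      _ ≤ _ := pow_le_pow_right₀ (by norm_num) (by omega)
  rw [hX] at h5
  have h6 : (2 : ℤ) * 2 ^ r ≤ 2 ^ (J - 2) * 2 ^ r := mul_le_mul_of_nonneg_right hJ2 (by positivity)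
  have h8 : row dir (vx oo up t i) = lp dir t i / 3 := rfl
  rw [h8] at h5
  by_cases hne : d = SDN.hd dir
  · have h7 := h3 i hi
    have h9 : ip (vx oo up t i) d = lp dir t i := by rw [hne]; rfl
    rw [h9] at h7
    generalize (2 : ℤ) ^ (J - 2) * 2 ^ r = y at *
    generalize (2 : ℤ) ^ r = x at *
    rcases abs_cases (lp dir t i) with ⟨e1, _⟩ | ⟨e1, _⟩ <;> rcases abs_cases (lp dir t i / 3) with ⟨e2, _⟩ | ⟨e2, _⟩ <;>
      rw [e1] at h7 <;> rw [e2] at h5 <;> omega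
  · have h9 : lp dir t 0 = 0 := by
      show ip (vx oo up t 0) (SDN.hd dir) = 0
      show ip oo (SDN.hd dir) = 0
      simp [ip, oo]
    obtain ⟨a, b, -, hab, hb, h10, h11⟩ := be_of (dir := dir) hI (Nat.zero_le i) hi (by
      rw [h9, sub_zero]
      push_cast
      generalize (2 : ℤ) ^ (J - 2) * 2 ^ r = y at *
      rcases abs_cases (lp dir t i) with ⟨e1, _⟩ | ⟨e1, _⟩ <;> rcases abs_cases (lp dir t i / 3) with ⟨e2, _⟩ | ⟨e2, _⟩ <;>
        rw [e1] <;> rw [e2] at h5 <;> omega)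
    have h12 := h3 b (by omega)
    have h13 := h3 a (by omega)
    exact d3_ar (x := 2 ^ r) (by positivity) hd hne h12 h13 h10 h11

/-- **(ST) the walks with levels in a flat strip and a large extent have a small weight** -/
theorem st : ∃ (C c : ℝ) (k0 J0 : ℕ), 1 ≤ C ∧ 0 < c ∧ 3 ≤ J0 ∧ ∀ (d : Pt) (r J : ℕ), d ∈ D3 → k0 ≤ r → J0 ≤ J →
    gf {t | t ∈ WL (r + J) ∧ t ∉ WL (r + J - 1) ∧ ∀ i, i ≤ t.length → |ip (vx oo up t i) d| ≤ 4 * 2 ^ r} ≤
      ENNReal.ofReal (C ^ J * (2 : ℝ) ^ (-(c * 2 ^ J)) * Ub (r + J)) * Xb (r + J) ^ 2 := by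
  obtain ⟨C, c, k0, J0, n0, hC, hc, h⟩ := reg (A := 1) one_pos 12
  refine ⟨C, c / 4, k0, max 3 (max J0 (n0 + 2)), hC, by positivity, le_max_left _ _, fun d r J hd hr hJ => ?_⟩
  have hJ3 : 3 ≤ J := (le_max_left _ _).trans hJ
  have hJ0 : J0 ≤ J := ((le_max_left _ _).trans (le_max_right _ _)).trans hJ
  have hJn : n0 + 2 ≤ J := ((le_max_right _ _).trans (le_max_right _ _)).trans hJ
  have hn : n0 ≤ 2 ^ (J - 2) := by
    have : J - 2 < 2 ^ (J - 2) := Nat.lt_two_pow_self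
    omega
  refine (gf_mono ?_).trans ((h r J (2 ^ (J - 2)) hr hJ0 hn).trans (le_of_eq ?_))
  · rintro t ⟨h1, h2, h3⟩
    exact ⟨h1, irg_of hJ3 hd h1 h2 h3⟩
  · congr 4
    have e1 : (2 : ℝ) ^ J = 4 * 2 ^ (J - 2) := by
      rw [show (4 : ℝ) = 2 ^ 2 by norm_num, ← pow_add]
      congr 1
      omega
    rw [e1]
    push_cast
    ring_nf

end TPC

end HexObs
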