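import Pool.Agent.TPC.CylSum
import Pool.Agent.TPC.XUp
import Pool.Agent.NTA.XDbl
import Pool.Agent.GLow.Alpha

/-!
# TPC: `Xb` from below, under (SD)
-/

set_option autoImplicit false

namespace HexObs

namespace TPC

/-- **The exact order of `Xb` from below**, under (SD). -/
theorem xLow_of (hS : SD) : XLow := by
  obtain ⟨A, K0, hA, h⟩ := w0_down
  exact xLow_core NTA.xDbl hS GLow.UU_up ⟨A, K0, hA, fun k hk hk1 => (h k hk).trans (le_of_eq (PBM.W0r_eq hk1))⟩

end TPC

end HexObs
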